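import Mathlib

set_option autoImplicit false

namespace Pool.Agent.Y104.TW

/-- sum of the powers -/
noncomputable def ps (s : Multiset ℝ) (p : ℝ) : ℝ := (s.map fun x => x ^ p).sum

lemma ps_nonneg {s : Multiset ℝ} (hs : ∀ x ∈ s, 0 ≤ x) (p : ℝ) : 0 ≤ ps s p := by
  refine Multiset.sum_nonneg fun y hy => ?_
  obtain ⟨x, hx, rfl⟩ := Multiset.mem_map.1 hy
  exact Real.rpow_nonneg (hs x hx) p

lemma ps_cons (x : ℝ) (s : Multiset ℝ) (p : ℝ) : ps (x ::ₘ s) p = x ^ p + ps s p := by
  simp [ps]

lemma ps_le {s : Multiset ℝ} {y : ℝ} (hs : ∀ x ∈ s, 0 ≤ x ∧ x ≤ y) {p : ℝ} (hp : 0 ≤ p) :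
    ps s p ≤ s.card * y ^ p := by
  induction s using Multiset.induction_on with
  | empty => simp [ps]
  | cons a s ih =>
    rw [ps_cons, Multiset.card_cons]
    push_cast
    have h1 := hs a (Multiset.mem_cons_self a s)
    have h2 := ih fun x hx => hs x (Multiset.mem_cons_of_mem hx)
    have h3 := Real.rpow_le_rpow h1.1 h1.2 hp
    linarith

/-- the maximum of a nonempty multiset -/
lemma exists_max (s : Multiset ℝ) (hs : s ≠ 0) : ∃ x ∈ s, ∀ y ∈ s, y ≤ x := by
  obtain ⟨x, hx, h⟩ := s.toFinset.exists_max_image id (by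
    obtain ⟨a, ha⟩ := Multiset.exists_mem_of_ne_zero hs
    exact ⟨a, Multiset.mem_toFinset.2 ha⟩)
  exact ⟨x, Multiset.mem_toFinset.1 hx, fun y hy => h y (Multiset.mem_toFinset.2 hy)⟩

/-- exponentials dominate -/
lemma eventually_dominates {x y : ℝ} (hy : 0 < y) (hxy : y < x) (c : ℝ) :
    ∃ p₀ : ℝ, 0 < p₀ ∧ ∀ p, p₀ ≤ p → c * y ^ p < x ^ p := by
  have h1 : 1 < x / y := by rwa [one_lt_div hy]
  have h2 := tendsto_rpow_atTop_of_base_gt_one (x / y) h1
  obtain ⟨p₀, hp₀⟩ := Filter.eventually_atTop.1 (h2.eventually_gt_atTop c)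
  refine ⟨max p₀ 1, by positivity, fun p hp => ?_⟩
  have h3 := hp₀ p (le_trans (le_max_left _ _) hp)
  rw [Real.div_rpow (hy.trans hxy).le hy.le, lt_div_iff₀ (Real.rpow_pos_of_pos hy p)] at h3
  exact h3

/-- Domination at all large integers implies domination at all large exponents. -/
theorem large (n : ℕ) : ∀ s t : Multiset ℝ, s.card + t.card ≤ n → (∀ x ∈ s, 0 ≤ x) →
    (∀ x ∈ t, 0 ≤ x) → (∀ m : ℕ, 1 ≤ m → ps t m ≤ ps s m) →
    ∃ p₀ : ℝ, 0 < p₀ ∧ ∀ p, p₀ ≤ p → ps t p ≤ ps s p := by
  induction n with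
  | zero =>
    intro s t h _ _ _
    have : t = 0 := by
      rw [← Multiset.card_eq_zero]; omega
    have h' : s = 0 := by
      rw [← Multiset.card_eq_zero]; omega
    exact ⟨1, one_pos, fun p _ => by rw [this, h']⟩
  | succ n ih =>
    intro s t hn hs ht hm
    rcases eq_or_ne t 0 with rfl | ht0
    · exact ⟨1, one_pos, fun p _ => by
        have : ps 0 p = 0 := by simp [ps]
        rw [this]
        exact ps_nonneg hs p⟩
    obtain ⟨y, hy, hymax⟩ := exists_max t ht0
    rcases (ht y hy).eq_or_lt with hy0 | hy0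
    · refine ⟨1, one_pos, fun p hp => ?_⟩
      have h1 := ps_le (s := t) (y := y) (fun x hx => ⟨ht x hx, hymax x hx⟩) (p := p) (by linarith)
      rw [← hy0, Real.zero_rpow (by linarith), mul_zero] at h1
      exact h1.trans (ps_nonneg hs p)
    have hle : ∀ p, y ^ p ≤ ps t p := by
      intro p
      obtain ⟨t', rfl⟩ := Multiset.exists_cons_of_mem hy
      rw [ps_cons]
      have := ps_nonneg (s := t') (fun x hx => ht x (Multiset.mem_cons_of_mem hx)) p
      linarith
    have hs0 : s ≠ 0 := by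
      rintro rfl
      have h1 := hm 1 le_rfl
      have h2 := hle ((1 : ℕ) : ℝ)
      have h3 : ps 0 ((1 : ℕ) : ℝ) = 0 := by simp [ps]
      rw [h3] at h1
      have := Real.rpow_pos_of_pos hy0 ((1 : ℕ) : ℝ)
      linarith
    obtain ⟨x, hx, hxmax⟩ := exists_max s hs0
    have hx0 := hs x hx
    have hxle : ∀ p, x ^ p ≤ ps s p := by
      intro p
      obtain ⟨s', rfl⟩ := Multiset.exists_cons_of_mem hx
      rw [ps_cons]
      have := ps_nonneg (s := s') (fun x hx => hs x (Multiset.mem_cons_of_mem hx)) p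
      linarith
    have hsb : ∀ p, 0 ≤ p → ps s p ≤ s.card * x ^ p := fun p hp =>
      ps_le (fun z hz => ⟨hs z hz, hxmax z hz⟩) hp
    have htb : ∀ p, 0 ≤ p → ps t p ≤ t.card * y ^ p := fun p hp =>
      ps_le (fun z hz => ⟨ht z hz, hymax z hz⟩) hp
    rcases lt_trichotomy x y with h | h | h
    · -- impossible
      exfalso
      rcases hx0.eq_or_lt with h0 | h0
      · have h1 := hm 1 le_rfl
        have h2 := hsb ((1 : ℕ) : ℝ) (by positivity)
        rw [← h0, Real.zero_rpow (by norm_num), mul_zero] at h2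
        have h3 := hle ((1 : ℕ) : ℝ)
        have := Real.rpow_pos_of_pos hy0 ((1 : ℕ) : ℝ)
        linarith
      · obtain ⟨p₀, hp₀, h1⟩ := eventually_dominates h0 h s.card
        obtain ⟨m, hm1⟩ := exists_nat_ge p₀
        have hm0 : 1 ≤ m := by
          rcases Nat.eq_zero_or_pos m with rfl | h
          · norm_num at hm1; linarith
          · exact h
        have h2 := h1 m hm1
        have h3 := hm m hm0
        have h4 := hle (m : ℝ)
        have h5 := hsb (m : ℝ) (by positivity)
        linarith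
    · subst h
      obtain ⟨s', rfl⟩ := Multiset.exists_cons_of_mem hx
      obtain ⟨t', rfl⟩ := Multiset.exists_cons_of_mem hy
      obtain ⟨p₀, hp₀, h1⟩ := ih s' t' (by
          rw [Multiset.card_cons, Multiset.card_cons] at hn; omega)
        (fun z hz => hs z (Multiset.mem_cons_of_mem hz))
        (fun z hz => ht z (Multiset.mem_cons_of_mem hz)) (fun m hm1 => by
          have := hm m hm1
          rw [ps_cons, ps_cons] at this
          linarith)
      refine ⟨p₀, hp₀, fun p hp => ?_⟩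
      rw [ps_cons, ps_cons]
      have := h1 p hp
      linarith
    · obtain ⟨p₀, hp₀, h1⟩ := eventually_dominates hy0 h t.card
      refine ⟨p₀, hp₀, fun p hp => ?_⟩
      have h2 := h1 p hp
      have h3 := hxle p
      have h4 := htb p (by linarith)
      linarith

end Pool.Agent.Y104.TW
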