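import Mathlib

set_option autoImplicit false

open Polynomial Filter Topology

namespace Pool.Agent.Y104.SMU

/-- The antiderivative vanishing at the origin. -/
noncomputable def J (A : ℂ[X]) : ℂ[X] :=
  ∑ i ∈ Finset.range (A.natDegree + 1), C (A.coeff i / ((i : ℂ) + 1)) * X ^ (i + 1)

lemma ne1 (n : ℕ) : ((n : ℂ) + 1) ≠ 0 := by
  exact_mod_cast Nat.succ_ne_zero n

lemma J_deriv (A : ℂ[X]) : derivative (J A) = A := by
  conv_rhs => rw [A.as_sum_range_C_mul_X_pow]
  rw [J, derivative_sum]
  refine Finset.sum_congr rfl fun i _ => ?_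
  rw [derivative_C_mul_X_pow]
  have := ne1 i
  congr 2
  push_cast
  field_simp

lemma J_zero (A : ℂ[X]) : (J A).eval 0 = 0 := by
  simp [J, eval_finsetSum]

lemma J_unique {A B : ℂ[X]} (h : derivative B = A) (h0 : B.eval 0 = 0) : B = J A := by
  have h1 : derivative (B - J A) = 0 := by rw [derivative_sub, h, J_deriv, sub_self]
  have h2 := derivative_eq_zero.1 h1
  rw [natDegree_eq_zero] at h2
  obtain ⟨c, hc⟩ := h2
  have h3 : c = 0 := by
    have := congrArg (eval 0) hc
    rw [eval_C, eval_sub, h0, J_zero, sub_zero] at this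
    exact this
  rw [h3, C_0] at hc
  exact sub_eq_zero.1 hc.symm

/-- All critical points of the antiderivative have ratio larger than `K`. -/
def BadK (K : ℝ) (f : ℂ[X]) : Prop := ∀ z : ℂ, f.eval z = 0 → K * ‖z‖ < ‖(J f).eval z‖

/-- The double sum for the antiderivative of `f (a z) H (b z)`. -/
noncomputable def G (f H : ℂ[X]) (a b z : ℂ) : ℂ :=
  ∑ i ∈ Finset.range (f.natDegree + 1), ∑ j ∈ Finset.range (H.natDegree + 1),
    f.coeff i * a ^ i * (H.coeff j * b ^ j) * z ^ (i + j + 1) / ((i : ℂ) + j + 1)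

lemma ne2 (i j : ℕ) : ((i : ℂ) + j + 1) ≠ 0 := by
  exact_mod_cast Nat.succ_ne_zero (i + j)

lemma J_eval (f H : ℂ[X]) (a z : ℂ) : (J (f.comp (C a * X) * H)).eval z = G f H a 1 z := by
  set B : ℂ[X] := ∑ i ∈ Finset.range (f.natDegree + 1), ∑ j ∈ Finset.range (H.natDegree + 1),
    C (f.coeff i * a ^ i * H.coeff j / ((i : ℂ) + j + 1)) * X ^ (i + j + 1) with hB
  have h1 : derivative B = f.comp (C a * X) * H := by
    have e1 : f.comp (C a * X) = ∑ i ∈ Finset.range (f.natDegree + 1),
        C (f.coeff i * a ^ i) * X ^ i := by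
      rw [comp, eval₂_eq_sum_range]
      refine Finset.sum_congr rfl fun i _ => ?_
      rw [mul_pow, ← C_pow, ← mul_assoc, ← C_mul]
    conv_rhs => rw [e1, H.as_sum_range_C_mul_X_pow, Finset.sum_mul_sum]
    rw [hB, derivative_sum]
    refine Finset.sum_congr rfl fun i _ => ?_
    rw [derivative_sum]
    refine Finset.sum_congr rfl fun j _ => ?_
    rw [derivative_C_mul_X_pow]
    have := ne2 i j
    rw [show C (f.coeff i * a ^ i) * X ^ i * (C (H.coeff j) * X ^ j) =
      C (f.coeff i * a ^ i * H.coeff j) * X ^ (i + j) by rw [C_mul (a := f.coeff i * a ^ i), pow_add]; ring]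
    congr 2
    push_cast
    field_simp
  have h2 : B.eval 0 = 0 := by simp [hB, eval_finsetSum]
  rw [← J_unique h1 h2, hB, G]
  simp only [eval_finsetSum, eval_mul, eval_C, eval_pow, eval_X]
  refine Finset.sum_congr rfl fun i _ => Finset.sum_congr rfl fun j _ => ?_
  rw [one_pow, mul_one]
  ring

lemma J_eval' (f : ℂ[X]) (z : ℂ) : (J f).eval z =
    ∑ i ∈ Finset.range (f.natDegree + 1), f.coeff i * z ^ (i + 1) / ((i : ℂ) + 1) := by
  rw [J, eval_finsetSum]
  refine Finset.sum_congr rfl fun i _ => ?_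
  simp only [eval_mul, eval_C, eval_pow, eval_X]
  ring

lemma G_b0 (f H : ℂ[X]) (hH : H.eval 0 = 1) (z : ℂ) : G f H 1 0 z = (J f).eval z := by
  rw [G, J_eval']
  refine Finset.sum_congr rfl fun i _ => ?_
  rw [Finset.sum_eq_single_of_mem 0 (by simp)]
  · rw [← coeff_zero_eq_eval_zero] at hH
    simp [hH]
  · intro j _ hj
    rw [zero_pow hj]
    simp

lemma G_scale (f H : ℂ[X]) {a z : ℂ} (ha : a ≠ 0) : G f H 1 a⁻¹ (a * z) = a * G f H a 1 z := by
  rw [G, G, Finset.mul_sum]
  refine Finset.sum_congr rfl fun i _ => ?_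
  rw [Finset.mul_sum]
  refine Finset.sum_congr rfl fun j _ => ?_
  have h : a⁻¹ ^ j * a ^ j = 1 := by rw [← mul_pow, inv_mul_cancel₀ ha, one_pow]
  have e : (a * z) ^ (i + j + 1) = a * a ^ i * a ^ j * z ^ (i + j + 1) := by
    rw [mul_pow, pow_add, pow_add, pow_one]; ring
  rw [e, one_pow, one_pow]
  have e2 : f.coeff i * 1 * (H.coeff j * a⁻¹ ^ j) * (a * a ^ i * a ^ j * z ^ (i + j + 1)) =
      f.coeff i * H.coeff j * a * a ^ i * z ^ (i + j + 1) * (a⁻¹ ^ j * a ^ j) := by ring
  rw [e2, h]
  ring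

/-- The step. -/
theorem step {K : ℝ} {f H : ℂ[X]} (hf : BadK K f) (hd : 1 ≤ f.natDegree) (hH : H.eval 0 = 1)
    (hI : ∀ z, H.eval z = 0 → ∑ j ∈ Finset.range (H.natDegree + 1),
      H.coeff j * z ^ j / ((f.natDegree : ℂ) + j + 1) ≠ 0) :
    ∃ g : ℂ[X], g.natDegree = f.natDegree + H.natDegree ∧ g.eval 0 = f.eval 0 ∧ H ∣ g ∧
      BadK K g := by
  have hH0 : H ≠ 0 := by rintro rfl; simp at hH
  have hf0 : f ≠ 0 := by rintro rfl; simp at hd
  -- roots of `f`
  have ev1 : ∀ᶠ n : ℕ in atTop, ∀ z ∈ f.roots.toFinset, K * ‖z‖ < ‖G f H 1 ((n : ℂ)⁻¹) z‖ := by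
    refine (Filter.eventually_all_finset _).2 fun z hz => ?_
    have hz' : f.eval z = 0 := by
      rw [Multiset.mem_toFinset, mem_roots hf0] at hz
      exact hz
    have hc : Continuous fun b : ℂ => ‖G f H 1 b z‖ := by
      unfold G
      fun_prop
    have ht : Tendsto (fun n : ℕ => ((n : ℂ)⁻¹)) atTop (𝓝 0) := by
      rw [tendsto_zero_iff_norm_tendsto_zero]
      simp only [norm_inv, Complex.norm_natCast]
      exact tendsto_inv_atTop_zero.comp tendsto_natCast_atTop_atTop
    have h1 := (hc.tendsto 0).comp ht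
    have h2 : K * ‖z‖ < ‖G f H 1 0 z‖ := by
      rw [G_b0 f H hH]
      exact hf z hz'
    exact h1.eventually_const_lt h2
  -- roots of `H`
  have ev2 : ∀ᶠ n : ℕ in atTop, ∀ z ∈ H.roots.toFinset, K * ‖z‖ < ‖G f H (n : ℂ) 1 z‖ := by
    refine (Filter.eventually_all_finset _).2 fun z hz => ?_
    have hz' : H.eval z = 0 := by
      rw [Multiset.mem_toFinset, mem_roots hH0] at hz
      exact hz
    have hz0 : z ≠ 0 := by
      rintro rfl
      rw [hH] at hz'
      exact one_ne_zero hz'
    set S : ℂ[X] := ∑ i ∈ Finset.range (f.natDegree + 1),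
      C (∑ j ∈ Finset.range (H.natDegree + 1),
        f.coeff i * H.coeff j * z ^ (i + j + 1) / ((i : ℂ) + j + 1)) * X ^ i with hS
    have hSe : ∀ a : ℂ, S.eval a = G f H a 1 z := by
      intro a
      rw [hS, G, eval_finsetSum]
      refine Finset.sum_congr rfl fun i _ => ?_
      rw [eval_mul, eval_C, eval_pow, eval_X, Finset.sum_mul]
      refine Finset.sum_congr rfl fun j _ => ?_
      rw [one_pow]
      ring
    have hSc : S.coeff f.natDegree ≠ 0 := by
      rw [hS, finsetSum_coeff, Finset.sum_eq_single_of_mem f.natDegree (by simp)]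
      · rw [coeff_C_mul, coeff_X_pow_self, mul_one]
        have e : ∑ j ∈ Finset.range (H.natDegree + 1),
            f.coeff f.natDegree * H.coeff j * z ^ (f.natDegree + j + 1) /
              ((f.natDegree : ℂ) + j + 1) = f.coeff f.natDegree * z ^ (f.natDegree + 1) *
            ∑ j ∈ Finset.range (H.natDegree + 1),
              H.coeff j * z ^ j / ((f.natDegree : ℂ) + j + 1) := by
          rw [Finset.mul_sum]
          refine Finset.sum_congr rfl fun j _ => ?_
          rw [pow_add, pow_add, pow_add]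
          ring
        rw [e]
        refine mul_ne_zero (mul_ne_zero ?_ (pow_ne_zero _ hz0)) (hI z hz')
        rw [coeff_natDegree]
        exact leadingCoeff_ne_zero.2 hf0
      · intro i _ hi
        rw [coeff_C_mul, coeff_X_pow, if_neg (Ne.symm hi), mul_zero]
    have hSd : 0 < S.degree := by
      have h1 : f.natDegree ≤ S.natDegree := le_natDegree_of_ne_zero hSc
      exact natDegree_pos_iff_degree_pos.1 (by omega)
    have hn : Tendsto (fun n : ℕ => ‖(n : ℂ)‖) atTop atTop := by
      simpa using (tendsto_natCast_atTop_atTop (R := ℝ))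
    have := (S.tendsto_norm_atTop hSd hn).eventually_gt_atTop (K * ‖z‖)
    filter_upwards [this] with n hn
    rwa [hSe] at hn
  obtain ⟨n, ⟨h1, h2⟩, hn⟩ := ((ev1.and ev2).and (eventually_gt_atTop 0)).exists
  have hn0 : (n : ℂ) ≠ 0 := by exact_mod_cast hn.ne'
  refine ⟨f.comp (C (n : ℂ) * X) * H, ?_, ?_, Dvd.intro_left _ rfl, ?_⟩
  · have hc : (f.comp (C (n : ℂ) * X)).natDegree = f.natDegree := by
      rw [natDegree_comp, natDegree_C_mul_X _ hn0, mul_one]
    have hc0 : f.comp (C (n : ℂ) * X) ≠ 0 := by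
      intro h
      rw [h] at hc
      simp at hc
      omega
    rw [natDegree_mul hc0 hH0, hc]
  · simp [hH]
  · intro z hz
    rw [J_eval]
    rw [eval_mul, mul_eq_zero] at hz
    rcases hz with hz | hz
    · have hz' : f.eval ((n : ℂ) * z) = 0 := by simpa using hz
      have := h1 ((n : ℂ) * z) (by
        rw [Multiset.mem_toFinset, mem_roots hf0]; exact hz')
      rw [G_scale f H hn0, norm_mul, norm_mul] at this
      have hnp : 0 < ‖(n : ℂ)‖ := norm_pos_iff.2 hn0
      nlinarith
    · exact h2 z (by rw [Multiset.mem_toFinset, mem_roots hH0]; exact hz)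

/-- Nondegeneracy for large degrees. -/
lemma nondeg (H : ℂ[X]) (hH : H.eval 0 = 1) : ∀ᶠ d : ℕ in atTop, ∀ z, H.eval z = 0 →
    ∑ j ∈ Finset.range (H.natDegree + 1), H.coeff j * z ^ j / ((d : ℂ) + j + 1) ≠ 0 := by
  have hH0 : H ≠ 0 := by rintro rfl; simp at hH
  have key : ∀ᶠ d : ℕ in atTop, ∀ z ∈ H.roots.toFinset,
      ∑ j ∈ Finset.range (H.natDegree + 1), H.coeff j * z ^ j / ((d : ℂ) + j + 1) ≠ 0 := by
    refine (Filter.eventually_all_finset _).2 fun z hz => ?_
    set N : ℂ[X] := ∑ j ∈ Finset.range (H.natDegree + 1), C (H.coeff j * z ^ j) *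
      ∏ i ∈ (Finset.range (H.natDegree + 1)).erase j, (X + C ((i : ℂ) + 1)) with hN
    have hN0 : N ≠ 0 := by
      intro h0
      have h1 := congrArg (eval (-1)) h0
      rw [hN, eval_finsetSum, eval_zero, Finset.sum_eq_single_of_mem 0 (by simp)] at h1
      · rw [← coeff_zero_eq_eval_zero] at hH
        rw [hH, eval_mul, eval_prod, eval_C, pow_zero, mul_one, one_mul,
          Finset.prod_eq_zero_iff] at h1
        obtain ⟨i, hi, h2⟩ := h1
        rw [eval_add, eval_X, eval_C] at h2
        have h3 : (i : ℂ) = 0 := by linear_combination h2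
        rw [Finset.mem_erase] at hi
        exact hi.1 (by exact_mod_cast h3)
      · intro j _ hj
        rw [eval_mul, eval_prod, Finset.prod_eq_zero (i := 0)]
        · rw [mul_zero]
        · simp [Ne.symm hj]
        · simp
    have hfin : ∀ᶠ d : ℕ in atTop, N.eval (d : ℂ) ≠ 0 := by
      have hs : {d : ℕ | N.eval (d : ℂ) = 0}.Finite := by
        refine Set.Finite.of_finite_image (f := fun d : ℕ => (d : ℂ)) ?_
          (fun a _ b _ h => Nat.cast_injective h)
        refine (N.roots.toFinset.finite_toSet).subset ?_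
        rintro _ ⟨d, hd, rfl⟩
        simp only [Finset.mem_coe, Multiset.mem_toFinset]
        rw [mem_roots hN0]
        exact hd
      obtain ⟨M, hM⟩ := hs.bddAbove
      filter_upwards [eventually_gt_atTop M] with d hd h
      exact absurd (hM h) (by omega)
    filter_upwards [hfin] with d hd h
    apply hd
    rw [hN, eval_finsetSum]
    have hp : ∀ j ∈ Finset.range (H.natDegree + 1), ((d : ℂ) + j + 1) ≠ 0 := fun j _ => ne2 d j
    have e : ∀ j ∈ Finset.range (H.natDegree + 1),
        (C (H.coeff j * z ^ j) * ∏ i ∈ (Finset.range (H.natDegree + 1)).erase j,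
          (X + C ((i : ℂ) + 1))).eval (d : ℂ) =
        (∏ i ∈ Finset.range (H.natDegree + 1), ((d : ℂ) + i + 1)) *
          (H.coeff j * z ^ j / ((d : ℂ) + j + 1)) := by
      intro j hj
      rw [eval_mul, eval_C, eval_prod, ← Finset.mul_prod_erase _ _ hj]
      have e1 : ∏ i ∈ (Finset.range (H.natDegree + 1)).erase j, (X + C ((i : ℂ) + 1)).eval (d : ℂ)
          = ∏ i ∈ (Finset.range (H.natDegree + 1)).erase j, ((d : ℂ) + i + 1) := by
        refine Finset.prod_congr rfl fun i _ => ?_
        rw [eval_add, eval_X, eval_C]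
        ring
      rw [e1]
      have := hp j hj
      field_simp
    rw [Finset.sum_congr rfl e, ← Finset.mul_sum, h, mul_zero]
  filter_upwards [key] with d hd z hz
  exact hd z (by rw [Multiset.mem_toFinset, mem_roots hH0]; exact hz)

/-- One constant for all large degrees. -/
theorem all_degrees {K : ℝ} {f : ℂ[X]} (hf : BadK K f) (hd : 1 ≤ f.natDegree) :
    ∀ d : ℕ, f.natDegree ≤ d → ∃ g : ℂ[X], g.natDegree = d ∧ g.eval 0 = f.eval 0 ∧ BadK K g := by
  intro d hfd
  induction d, hfd using Nat.le_induction with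
  | base => exact ⟨f, rfl, rfl, hf⟩
  | succ d hfd ih =>
    obtain ⟨g, hg1, hg2, hg3⟩ := ih
    have hn : (1 - X : ℂ[X]).natDegree = 1 := by
      rw [show (1 - X : ℂ[X]) = -(X - C 1) by rw [C_1]; ring, natDegree_neg, natDegree_X_sub_C]
    obtain ⟨u, h1, h2, -, h3⟩ := step (H := 1 - X) hg3 (by omega) (by simp) (by
      intro z hz
      have hz1 : z = 1 := by
        rw [eval_sub, eval_one, eval_X] at hz
        linear_combination -hz
      rw [hn, Finset.sum_range_succ, Finset.sum_range_one, hz1]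
      simp only [coeff_sub, coeff_one, coeff_X, one_pow, mul_one]
      have e1 := ne2 g.natDegree 1
      have e2 := ne1 g.natDegree
      norm_num
      intro h
      push_cast at e1
      have e3 : ((g.natDegree : ℂ) + 1)⁻¹ = ((g.natDegree : ℂ) + 1 + 1)⁻¹ := by
        linear_combination h
      have e4 := inv_injective e3
      have : (1 : ℂ) = 0 := by linear_combination -e4
      exact one_ne_zero this)
    exact ⟨u, by rw [h1, hn, hg1], by rw [h2, hg2], h3⟩

end Pool.Agent.Y104.SMU
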