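import Pool.Agent.Y104.Pub

/-!
# Abelian varieties and stable isotropic subspaces of the first cohomology: definitions
-/

open CategoryTheory AlgebraicGeometry

universe u v w

namespace Pool.Agent.Y104.Geo

section Alg

variable {K : Type*} [Field K] {A : Type*} [Ring A] [Algebra K A] {B : Type*} [Ring B]
  [Algebra K B] {Γ : Type*} [Group Γ]

/-- The algebra `A` is generated by the subspace `H`. -/
def GeneratedBy (H : Submodule K A) : Prop := Algebra.adjoin K (H : Set A) = ⊤

/-- One of the homomorphisms in the set `M` is equal to `p + q` on the subspace `H`. -/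
def AddOn (M : Set (A →ₐ[K] B)) (p q : A →ₐ[K] B) (H : Submodule K A) : Prop :=
  ∃ m ∈ M, ∀ a ∈ H, m a = p a + q a

/-- The element `ξ` is a linear combination of elements of `D`, the value of `tr` at `ξ ^ n` is not
zero, and `Γ` acts on `ξ` by the character `χ`. -/
def IsPolarizing (tr : A →ₗ[K] K) (n : ℕ) (D : Set A) (χ : Γ →* Kˣ) (ρ : Γ →* (A ≃ₐ[K] A))
    (ξ : A) : Prop :=
  ξ ∈ Submodule.span K D ∧ tr (ξ ^ n) ≠ 0 ∧ ∀ g, ρ g ξ = (χ g : K) • ξ

end Alg

open Pool.Agent.H914 Pool.Agent.H914.VarClass Pool.Agent.H914.VarClass.Obj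
  Pool.Agent.H914.WeilCohomology Pool.Agent.H281R3.HT Pool.Agent.TH125.Gal

variable {k : Type u} [Field k] {𝒱 : VarClass k} {ops : CycleOps 𝒱}
  {W : WeilCohomology.{u, v} ops} {Γ : Type w} [Group Γ]

/-- The pull-backs by the morphisms from `X` to `Y`. -/
def Pullbacks (W : WeilCohomology.{u, v} ops) (X Y : 𝒱.Obj) : Set (W.H Y →ₐ[W.K] W.H X) :=
  Set.range fun f : X ⟶ Y => W.map f

/-- The formal properties of the cohomology of an abelian variety `A` with a polarization `ξ`
defined over the base field: the cohomology is generated by `H¹(A)`; there is a morphism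
`m : A × A ⟶ A` with `m^* a = p^* a + q^* a` for `a` in `H¹(A)`, where `p` and `q` are the
projections; `ξ` is a linear combination of classes of divisors, the trace of its top power is not
zero, and the group acts on it by `χ`. -/
structure IsAbelian (χ : Γ →* W.Kˣ) (A : GVar W Γ) (ξ : W.H A.X) : Prop where
  gen : GeneratedBy (W.gr A.X 1)
  add : AddOn (Pullbacks W (A.X.prod A.X) A.X) (W.map (fst A.X A.X)) (W.map (snd A.X A.X))
    (W.gr A.X 1)
  pol : IsPolarizing (W.tr A.X) A.X.dim (algClasses W A.X 1) χ A.act ξ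

/-- The linear form `a ↦ tr (a θ)`. -/
def twTr (W : WeilCohomology.{u, v} ops) (X : 𝒱.Obj) (θ : W.H X) : W.H X →ₗ[W.K] W.K :=
  W.tr X ∘ₗ LinearMap.mulRight W.K θ

/-- `H¹(A)` does not contain a subspace different from `0` which is isotropic for the form
`tr (a b ξ ^ (dim A - 1))` given by `ξ`, stable under the group `Γ` and stable under all algebraic
correspondences which preserve `H¹(A)`. -/
def NoStableIsotropicOne (A : GVar W Γ) (ξ : W.H A.X) : Prop :=
  NoIsotropicIn (twTr W A.X (ξ ^ (A.X.dim - 1))) (W.gr A.X 1) A.act (AlgCorr W A.X)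

end Pool.Agent.Y104.Geo
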