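import Pool.Agent.Y104.FinA
import Pool.Agent.Y104.Pub2
import Pool.Agent.Y154.Hpc

/-!
# The conjecture D for abelian varieties
-/

open CategoryTheory AlgebraicGeometry
open scoped Matrix

set_option linter.unusedSectionVars false

universe u v w

namespace Pool.Agent.Y104.Geo

open Pool.Agent.H914 Pool.Agent.H914.VarClass Pool.Agent.H914.VarClass.Obj
  Pool.Agent.H914.WeilCohomology Pool.Agent.H281R3.HT Pool.Agent.TH125.Gal
  Pool.Agent.Y104.Kempf

variable {k : Type u} [Field k] {𝒱 : VarClass k} {ops : CycleOps 𝒱}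
  {W : WeilCohomology.{u, v} ops}

/-- If the first cohomology generates, the second cohomology is generated by products of two
classes. -/
theorem gr_two_le {A : 𝒱.Obj} (h : Algebra.adjoin W.K (W.gr A 1 : Set (W.H A)) = ⊤) :
    W.gr A 2 ≤ Submodule.span W.K {c | ∃ a ∈ W.gr A 1, ∃ b ∈ W.gr A 1, c = a * b} := by
  have key : ∀ c ∈ Submonoid.closure (W.gr A 1 : Set (W.H A)), ∃ n, c ∈ W.gr A n ∧
      (n = 2 → c ∈ Submodule.span W.K {c | ∃ a ∈ W.gr A 1, ∃ b ∈ W.gr A 1, c = a * b}) := by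
    intro c hc
    induction hc using Submonoid.closure_induction with
    | mem x hx => exact ⟨1, hx, fun h => absurd h (by norm_num)⟩
    | one => exact ⟨0, W.one_mem A, fun h => absurd h (by norm_num)⟩
    | mul x y _ _ hx hy =>
      obtain ⟨n, hn, hn'⟩ := hx
      obtain ⟨m, hm, hm'⟩ := hy
      refine ⟨n + m, W.mul_mem hn hm, fun hnm => ?_⟩
      rcases Nat.eq_zero_or_pos n with h0 | h0
      · subst h0
        rw [W.gr_zero, Submodule.mem_span_singleton] at hn
        obtain ⟨a, rfl⟩ := hn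
        rw [smul_mul_assoc, one_mul]
        exact Submodule.smul_mem _ _ (hm' (by omega))
      · rcases Nat.eq_zero_or_pos m with h1 | h1
        · subst h1
          rw [W.gr_zero, Submodule.mem_span_singleton] at hm
          obtain ⟨a, rfl⟩ := hm
          rw [mul_smul_comm, mul_one]
          exact Submodule.smul_mem _ _ (hn' (by omega))
        · obtain rfl : n = 1 := by omega
          obtain rfl : m = 1 := by omega
          exact Submodule.subset_span ⟨x, hn, y, hm, rfl⟩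
  have hspan : (⊤ : Submodule W.K (W.H A)) =
      Submodule.span W.K (Submonoid.closure (W.gr A 1 : Set (W.H A))) := by
    rw [← Algebra.adjoin_eq_span, h, Algebra.top_toSubmodule]
  intro c hc
  have h1 : ∀ x ∈ Submodule.span W.K (Submonoid.closure (W.gr A 1 : Set (W.H A)) :
      Set (W.H A)), proj (W.isInternal A) 2 x ∈
        Submodule.span W.K {c | ∃ a ∈ W.gr A 1, ∃ b ∈ W.gr A 1, c = a * b} := by
    intro x hx
    induction hx using Submodule.span_induction with
    | mem x hx =>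
      obtain ⟨n, hn, hn'⟩ := key x hx
      by_cases h2 : n = 2
      · subst h2
        rw [proj_same _ hn]
        exact hn' rfl
      · rw [proj_ne _ hn h2]
        exact Submodule.zero_mem _
    | zero => rw [map_zero]; exact Submodule.zero_mem _
    | add x y _ _ hx hy => rw [map_add]; exact Submodule.add_mem _ hx hy
    | smul q x _ hx => rw [map_smul]; exact Submodule.smul_mem _ _ hx
  have h2 := h1 c (hspan ▸ Submodule.mem_top)
  rwa [proj_same _ hc] at h2

variable {Γ : Type w} [Group Γ] {χ : Γ →* W.Kˣ} {G : Set (GVar W Γ)} {A : GVar W Γ}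

/-- **The first cohomology is a good piece.** -/
theorem exists_good_one (hA : IsGaloisVar χ A) {ξ : W.H A.X} (h : IsAbelian χ A ξ)
    (hni : NoStableIsotropicOne A ξ) : ∃ P : Piece W A.X, GoodPiece A P ∧
      Submodule.span W.K (Set.range P.x) = W.gr A.X 1 := by
  obtain ⟨_, ⟨m, rfl⟩, hm⟩ := h.add
  have hξ2 : ξ ∈ W.gr A.X 2 := by
    have h1 : Submodule.span W.K (algClasses W A.X 1) ≤ W.gr A.X 2 :=
      Submodule.span_le.2 fun c hc => alg_gr hc
    exact h1 h.pol.1
  obtain ⟨P, hPe, hPθ, hPs⟩ := Y154.Hpc.exists_hpiece m ξ h.pol.1 (gr_two_le h.gen hξ2) hm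
    h.pol.2.1
  refine ⟨P, ⟨fun γ q => ?_, fun γ => ⟨(χ γ : W.K) ^ (A.X.dim - 1),
    pow_ne_zero _ (Units.ne_zero _), ?_⟩, ?_⟩, hPs⟩
  · rw [hPs]
    refine hA.gr_mem γ 1 _ ?_
    rw [← hPs]
    exact Submodule.subset_span ⟨q, rfl⟩
  · rw [hPθ, map_pow, h.pol.2.2, smul_pow]
  · rw [hPs, hPθ]
    intro V hV hVΓ hVc hViso
    refine hni V hV hVΓ (fun e he heU v hv => ?_) hViso
    obtain ⟨c, hc, rfl⟩ := mem_algCorr.1 he
    exact hVc c hc heU v hv

/-- **Abelian varieties are generated by good pieces.** -/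
theorem gcl_abelian {𝒵 : Set 𝒱.Obj} (h𝒵 : ∀ Z ∈ 𝒵, ∀ Z' ∈ 𝒵, Z.prod Z' ∈ 𝒵) (hAG : A ∈ G)
    (hA : IsGaloisVar χ A) {ξ : W.H A.X} (h : IsAbelian χ A ξ)
    (hni : NoStableIsotropicOne A ξ) : gcl W G 𝒵 A.X = ⊤ := by
  obtain ⟨P, hP, hPs⟩ := exists_good_one hA h hni
  have h1 : W.gr A.X 1 ≤ gcl W G 𝒵 A.X := by
    rw [← hPs, Submodule.span_le]
    rintro _ ⟨q, rfl⟩
    have h2 := gcl_slot (𝒵 := 𝒵) (⟨A, hAG, P, hP, 𝟙 _, q⟩ : Slot W G A.X)
    rwa [Slot.val, W.map_id] at h2
  rw [eq_top_iff]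
  intro a _
  have h2 : a ∈ Algebra.adjoin W.K (W.gr A.X 1 : Set (W.H A.X)) := by
    rw [show Algebra.adjoin W.K (W.gr A.X 1 : Set (W.H A.X)) = ⊤ from h.gen]
    exact Algebra.mem_top
  induction h2 using Algebra.adjoin_induction with
  | mem x hx => exact h1 hx
  | algebraMap r =>
    rw [Algebra.algebraMap_eq_smul_one]
    exact Submodule.smul_mem _ _ (gcl_alg algSpan_one)
  | add x y _ _ hx hy => exact Submodule.add_mem _ (hx Submodule.mem_top) (hy Submodule.mem_top)
  | mul x y _ _ hx hy => exact gcl_mul h𝒵 (hx Submodule.mem_top) (hy Submodule.mem_top)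

/-- **The conjecture D for products of abelian varieties.** -/
theorem homEqNum_abelian (hG : GaloisClass χ G) {S R : Set (GVar W Γ)} (hSG : S ⊆ G) (hR : R ⊆ G)
    (hS : ∀ A ∈ S, ∃ ξ, IsAbelian χ A ξ ∧ NoStableIsotropicOne A ξ)
    (hRD : ∀ Y, IsProductOf (GVar.X '' R) Y → HomEqNum W Y) {Y : 𝒱.Obj}
    (hY : IsProductOf (GVar.X '' (S ∪ R)) Y) : HomEqNum W Y := by
  refine homEqNum_of_gen hG hR (fun A hA => ?_) hRD hY
  obtain ⟨ξ, h, hni⟩ := hS A hA
  exact gcl_abelian (fun Z hZ Z' hZ' => hZ.prod hZ') (hSG hA) (hG.galois A (hSG hA)) h hni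

end Pool.Agent.Y104.Geo
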