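import Pool.Agent.Y104.Res

/-!
# A destabilising basis over the algebraic closure
-/

open MvPolynomial Finset Matrix

set_option linter.unusedSectionVars false

namespace Pool.Agent.Y104.Kempf

variable {ι : Type} [Fintype ι] [DecidableEq ι] {b : ι → Type} [∀ i, Fintype (b i)]
  [∀ i, DecidableEq (b i)] {S : Type} [Fintype S] [DecidableEq S]

universe u

variable {K : Type u} [Field K]

/-- The same with weights of trace zero. -/
theorem exists_res_zero [CharZero K] [∀ j, Nonempty (b j)] {B : ∀ j, Matrix (b j) (b j) K}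
    {ε : ι → K} (hε : ∀ j, (B j)ᵀ = ε j • B j)
    (hB : ∀ j, IsUnit (B j)) {c : S → ι}
    {N : Set ((S → Σ j, b j) → K)} (hc : ∀ z ∈ N, ∀ I, z I ≠ 0 → ∀ s, (I s).1 = c s)
    (hN : ∀ (m : ℕ) (z : Fin (m + 1) → (S → Σ j, b j) → K), (∀ i, z i ∈ N) →
      NullT (Matrix.blockDiagonal' B) (tp z)) :
    ∃ (κ : Type u) (_ : Field κ) (ψ : K →+* κ) (h : ∀ j, Matrix (b j) (b j) κ),
      (∀ j, IsUnit (h j)) ∧ ∃ x : (Σ j, b j) → ℚ, (∀ j, ∑ p, x ⟨j, p⟩ = 0) ∧
      ∀ J : S → Σ j, b j,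
        (∃ z ∈ N, tact (Matrix.blockDiagonal' h) (fun I => ψ (z I)) J ≠ 0) →
        0 < ∑ s, x (J s) := by
  classical
  let d : ι → ℕ := fun j => Fintype.card (b j)
  have hd : ∀ j, 0 < d j := fun j => Fintype.card_pos
  let n : ι → ℕ := fun j => Finset.card {s | c s = j}
  let E : ι → ℕ := fun j => n j * ∏ i ∈ univ.erase j, d i
  obtain ⟨κ, _, ψ, h, hh, x, hx⟩ := exists_res hε hB E (D := 2 * ∏ i, d i)
    (Nat.mul_pos two_pos (Finset.prod_pos fun i _ => hd i)) hc hN
  have hE : ∀ j, E j * d j = n j * ∏ i, d i := by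
    intro j
    rw [← Finset.prod_erase_mul _ _ (mem_univ j)]
    simp only [E]
    ring
  refine ⟨κ, _, ψ, h, hh, fun i => x i - (∑ p, x ⟨i.1, p⟩) / d i.1, fun j => ?_,
    fun J hJ => ?_⟩
  · change ∑ p, (x ⟨j, p⟩ - (∑ p, x ⟨j, p⟩) / (d j : ℚ)) = 0
    rw [Finset.sum_sub_distrib, Finset.sum_const, card_univ, nsmul_eq_mul]
    have : (d j : ℚ) ≠ 0 := by exact_mod_cast (hd j).ne'
    rw [mul_div_cancel₀ _ this, sub_self]
  · have h1 := hx J hJ
    obtain ⟨z, hz, hzJ⟩ := hJ
    -- the pattern of J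
    have hJc : ∀ s, (J s).1 = c s := by
      obtain ⟨I, -, hI⟩ := Finset.exists_ne_zero_of_sum_ne_zero hzJ
      have h2 : z I ≠ 0 := by
        intro h3
        apply hI
        simp only [h3, map_zero, mul_zero]
      intro s
      rw [← hc z hz I h2 s]
      by_contra h4
      have h5 : Matrix.blockDiagonal' h (J s) (I s) = 0 :=
        Matrix.blockDiagonal'_apply_ne h (J s).2 (I s).2 h4
      exact hI (by rw [Finset.prod_eq_zero (mem_univ s) h5, zero_mul])
    have h2 : ∑ i, ((((2 * ∏ i, d i : ℕ) : ℚ)) * (Finset.card {s | J s = i} : ℕ)) * x i =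
        (2 * ∏ i, d i : ℕ) * ∑ s, x (J s) := by
      rw [Finset.mul_sum, ← Finset.sum_fiberwise univ J]
      refine Finset.sum_congr rfl fun i _ => ?_
      rw [Finset.sum_congr rfl fun s (hs : s ∈ Finset.filter (fun s => J s = i) univ) => by
        rw [(mem_filter.1 hs).2], Finset.sum_const, nsmul_eq_mul]
      ring
    have h3 : ∑ i : (Σ j, b j), 2 * (E i.1 : ℚ) * x i =
        (2 * ∏ i, d i : ℕ) * ∑ s, (∑ p, x ⟨(J s).1, p⟩) / d (J s).1 := by
      rw [Fintype.sum_sigma]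
      have h4 : ∑ s, (∑ p, x ⟨(J s).1, p⟩) / (d (J s).1 : ℚ) =
          ∑ j, (n j : ℚ) * ((∑ p, x ⟨j, p⟩) / d j) := by
        rw [← Finset.sum_fiberwise univ c]
        refine Finset.sum_congr rfl fun j _ => ?_
        rw [Finset.sum_congr rfl fun s (hs : s ∈ Finset.filter (fun s => c s = j) univ) => by
          rw [hJc s, (mem_filter.1 hs).2], Finset.sum_const, nsmul_eq_mul]
      rw [h4, Finset.mul_sum]
      refine Finset.sum_congr rfl fun j _ => ?_
      change ∑ p, 2 * (E j : ℚ) * x ⟨j, p⟩ = _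
      rw [← Finset.mul_sum]
      have h5 : (d j : ℚ) ≠ 0 := by exact_mod_cast (hd j).ne'
      have h6 : (E j : ℚ) * d j = n j * ((∏ i, d i : ℕ) : ℚ) := by exact_mod_cast hE j
      have h7 : ((2 * ∏ i, d i : ℕ) : ℚ) = 2 * ((∏ i, d i : ℕ) : ℚ) := by push_cast; ring
      rw [h7]
      field_simp
      linear_combination (∑ p, x ⟨j, p⟩) * h6
    have h4 : ∑ i, ((((2 * ∏ i, d i : ℕ) : ℚ)) * (Finset.card {s | J s = i} : ℕ)
        - 2 * E i.1) * x i = ((2 * ∏ i, d i : ℕ) : ℚ) *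
        ∑ s, (x (J s) - (∑ p, x ⟨(J s).1, p⟩) / d (J s).1) := by
      simp only [sub_mul]
      rw [Finset.sum_sub_distrib, h2, h3, Finset.sum_sub_distrib]
      ring
    rw [h4] at h1
    exact (pos_iff_pos_of_mul_pos h1).1 (by
      have : 0 < 2 * ∏ i, d i := Nat.mul_pos two_pos (Finset.prod_pos fun i _ => hd i)
      exact_mod_cast this)

/-- **Descent to an algebraic closure.** -/
theorem exists_alg {κ : Type u} [Field κ] (ψ : K →+* κ) (h : ∀ j, Matrix (b j) (b j) κ)
    (hh : ∀ j, IsUnit (h j)) {N : Set ((S → Σ j, b j) → K)} (Bad : Set (S → Σ j, b j))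
    (hBad : ∀ J ∈ Bad, ∀ z ∈ N, tact (Matrix.blockDiagonal' h) (fun I => ψ (z I)) J = 0) :
    ∃ h' : ∀ j, Matrix (b j) (b j) (AlgebraicClosure K), (∀ j, IsUnit (h' j)) ∧
      ∀ J ∈ Bad, ∀ z ∈ N, tact (Matrix.blockDiagonal' h')
        (fun I => algebraMap K (AlgebraicClosure K) (z I)) J = 0 := by
  classical
  let _ : Algebra K κ := ψ.toAlgebra
  let L := AlgebraicClosure K
  let Ω := AlgebraicClosure κ
  let jj : L →ₐ[K] Ω := IsAlgClosed.lift
  let σ := (Σ j, b j) × (Σ j, b j)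
  let I : Ideal (MvPolynomial σ L) :=
    Ideal.span {f | ∃ z ∈ N, ∃ J ∈ Bad, f = act (GM b L) (fun I => algebraMap K L (z I)) J}
  by_contra hcon
  push Not at hcon
  have h1 : (∏ j, dg b L j) ∈ vanishingIdeal L (zeroLocus L I) := by
    rw [mem_vanishingIdeal_iff]
    intro v hv
    by_contra h2
    rw [map_prod] at h2
    have h2 := Finset.prod_ne_zero_iff.1 h2
    let h' : ∀ j, Matrix (b j) (b j) L := fun j => (gm b L j).map (aeval v)
    obtain ⟨J, hJ, z, hz, hzJ⟩ := hcon h' (fun j => by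
      rw [Matrix.isUnit_iff_isUnit_det, isUnit_iff_ne_zero]
      have h3 := h2 j (mem_univ j)
      rw [dg, AlgHom.map_det] at h3
      exact h3)
    apply hzJ
    have h3 : aeval v (act (GM b L) (fun I => algebraMap K L (z I)) J) = 0 :=
      hv _ (Ideal.subset_span ⟨z, hz, J, hJ, rfl⟩)
    rw [← h3, act_eq]
    rw [← AlgHom.coe_toRingHom, ← tact_map]
    rw [GM_eq, Matrix.blockDiagonal'_map _ _ (map_zero _)]
    congr 1
    funext I
    simp
    rfl
  rw [vanishingIdeal_zeroLocus_eq_radical] at h1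
  obtain ⟨n, hn⟩ := h1
  -- evaluate at the given point
  let ev : MvPolynomial σ L →+* Ω := eval₂Hom jj.toRingHom
    (fun z => algebraMap κ Ω (Matrix.blockDiagonal' h z.1 z.2))
  have hgm : (GM b L).map ev = (Matrix.blockDiagonal' h).map (algebraMap κ Ω) := by
    ext x y
    rw [Matrix.map_apply, Matrix.map_apply, GM]
    split_ifs with h2
    · simp [ev]
    · rw [map_zero]
      have h5 : Matrix.blockDiagonal' h x y = 0 :=
        Matrix.blockDiagonal'_apply_ne h x.2 y.2 h2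
      rw [h5, map_zero]
  have hI : ∀ f ∈ I, ev f = 0 := by
    intro f hf
    have : I ≤ RingHom.ker ev := by
      rw [Ideal.span_le]
      rintro _ ⟨z, hz, J, hJ, rfl⟩
      change ev _ = 0
      rw [act_eq, ← tact_map, hgm]
      have h3 := congrArg (algebraMap κ Ω) (hBad J hJ z hz)
      rw [map_zero, ← tact_map] at h3
      rw [← h3]
      congr 1
      funext I
      simp only [ev, algebraMap_eq, coe_eval₂Hom, eval₂_C]
      exact jj.commutes (z I)
    exact this hf
  have h4 := hI _ hn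
  rw [map_pow, map_prod] at h4
  have h5 : ∏ j, ev (dg b L j) = 0 := by
    by_contra h
    exact pow_ne_zero n h h4
  rw [Finset.prod_eq_zero_iff] at h5
  obtain ⟨j, -, hj⟩ := h5
  have h6 : ev (dg b L j) = algebraMap κ Ω (h j).det := by
    rw [dg, RingHom.map_det, RingHom.map_det]
    congr 1
    ext p q
    simp [ev, gm, Matrix.blockDiagonal'_apply_eq]
  rw [h6] at hj
  have h7 : (h j).det = 0 := (algebraMap κ Ω).injective (by rw [hj, map_zero])
  exact ((Matrix.isUnit_iff_isUnit_det _).1 (hh j)).ne_zero h7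

end Pool.Agent.Y104.Kempf
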