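import Pool.Agent.Y104.AlgC

/-!
# A destabilising basis over the algebraic closure, with the form
-/

open MvPolynomial Finset Matrix

set_option linter.unusedSectionVars false

namespace Pool.Agent.Y104.Kempf

variable {ι : Type} [Fintype ι] [DecidableEq ι] {b : ι → Type} [∀ i, Fintype (b i)]
  [∀ i, DecidableEq (b i)] {S : Type} [Fintype S] [DecidableEq S]

universe u

variable {K : Type u} [Field K]

/-- the generic form of a block -/
noncomputable def gQ {L : Type*} [Field L] (j : ι) (Q : Matrix (b j) (b j) L) :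
    Matrix (b j) (b j) (Ply b L) := gm b L j * Q.map C * (gm b L j)ᵀ

/-- **Descent to an algebraic closure.** -/
theorem exists_alg2 {κ : Type u} [Field κ] (ψ : K →+* κ) (h : ∀ j, Matrix (b j) (b j) κ)
    (hh : ∀ j, IsUnit (h j)) {N : Set ((S → Σ j, b j) → K)} (Bad : Set (S → Σ j, b j))
    (hBad : ∀ J ∈ Bad, ∀ z ∈ N, tact (Matrix.blockDiagonal' h) (fun I => ψ (z I)) J = 0)
    (Q : ∀ j, Matrix (b j) (b j) K) (Bad' : ∀ j, b j → b j → Prop)
    (hBad' : ∀ j p q, Bad' j p q → (h j * (Q j).map ψ * (h j)ᵀ) p q = 0) :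
    ∃ h' : ∀ j, Matrix (b j) (b j) (AlgebraicClosure K), (∀ j, IsUnit (h' j)) ∧
      (∀ J ∈ Bad, ∀ z ∈ N, tact (Matrix.blockDiagonal' h')
        (fun I => algebraMap K (AlgebraicClosure K) (z I)) J = 0) ∧
      ∀ j p q, Bad' j p q →
        (h' j * (Q j).map (algebraMap K (AlgebraicClosure K)) * (h' j)ᵀ) p q = 0 := by
  classical
  let _ : Algebra K κ := ψ.toAlgebra
  let L := AlgebraicClosure K
  let Ω := AlgebraicClosure κ
  let jj : L →ₐ[K] Ω := IsAlgClosed.lift
  let σ := (Σ j, b j) × (Σ j, b j)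
  let QL : ∀ j, Matrix (b j) (b j) L := fun j => (Q j).map (algebraMap K L)
  let I : Ideal (MvPolynomial σ L) :=
    Ideal.span ({f | ∃ z ∈ N, ∃ J ∈ Bad, f = act (GM b L) (fun I => algebraMap K L (z I)) J} ∪
      {f | ∃ j p q, Bad' j p q ∧ f = gQ (b := b) j (QL j) p q})
  by_contra hcon
  push Not at hcon
  have h1 : (∏ j, dg b L j) ∈ vanishingIdeal L (zeroLocus L I) := by
    rw [mem_vanishingIdeal_iff]
    intro v hv
    by_contra h2
    rw [map_prod] at h2
    have h2 := Finset.prod_ne_zero_iff.1 h2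
    let h' : ∀ j, Matrix (b j) (b j) L := fun j => (gm b L j).map (aeval v)
    obtain ⟨j, p, q, hpq, hpq'⟩ := hcon h' (fun j => by
      rw [Matrix.isUnit_iff_isUnit_det, isUnit_iff_ne_zero]
      have h3 := h2 j (mem_univ j)
      rw [dg, AlgHom.map_det] at h3
      exact h3) (by
      intro J hJ z hz
      have h3 : aeval v (act (GM b L) (fun I => algebraMap K L (z I)) J) = 0 :=
        hv _ (Ideal.subset_span (Or.inl ⟨z, hz, J, hJ, rfl⟩))
      rw [← h3, act_eq]
      rw [← AlgHom.coe_toRingHom, ← tact_map]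
      rw [GM_eq, Matrix.blockDiagonal'_map _ _ (map_zero _)]
      congr 1
      funext I
      simp
      rfl)
    apply hpq'
    have h3 : aeval v (gQ (b := b) j (QL j) p q) = 0 :=
      hv _ (Ideal.subset_span (Or.inr ⟨j, p, q, hpq, rfl⟩))
    rw [← h3]
    have h4 : (gQ (b := b) j (QL j)).map (aeval v : Ply b L →ₐ[L] L) =
        h' j * QL j * (h' j)ᵀ := by
      have h5 : ∀ X Y : Matrix (b j) (b j) (Ply b L),
          (X * Y).map (aeval v : Ply b L →ₐ[L] L) = X.map (aeval v : Ply b L →ₐ[L] L) *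
            Y.map (aeval v : Ply b L →ₐ[L] L) := fun X Y => by
        rw [← AlgHom.coe_toRingHom, Matrix.map_mul]
      rw [gQ, h5, h5, Matrix.transpose_map]
      congr 2
      ext i k
      simp
    have h6 := congrFun (congrFun h4 p) q
    rw [Matrix.map_apply] at h6
    exact h6.symm
  rw [vanishingIdeal_zeroLocus_eq_radical] at h1
  obtain ⟨n, hn⟩ := h1
  -- evaluate at the given point
  let ev : MvPolynomial σ L →+* Ω := eval₂Hom jj.toRingHom
    (fun z => algebraMap κ Ω (Matrix.blockDiagonal' h z.1 z.2))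
  have hgm : (GM b L).map ev = (Matrix.blockDiagonal' h).map (algebraMap κ Ω) := by
    ext x y
    rw [Matrix.map_apply, Matrix.map_apply, GM]
    split_ifs with h2
    · simp [ev]
    · rw [map_zero]
      have h5 : Matrix.blockDiagonal' h x y = 0 :=
        Matrix.blockDiagonal'_apply_ne h x.2 y.2 h2
      rw [h5, map_zero]
  have hgmj : ∀ j, (gm b L j).map ev = (h j).map (algebraMap κ Ω) := by
    intro j
    ext p q
    simp [ev, gm, Matrix.blockDiagonal'_apply_eq]
  have hjj : ∀ c : K, jj (algebraMap K L c) = algebraMap κ Ω (ψ c) := by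
    intro c
    exact jj.commutes c
  have hI : ∀ f ∈ I, ev f = 0 := by
    intro f hf
    have : I ≤ RingHom.ker ev := by
      rw [Ideal.span_le]
      rintro _ (⟨z, hz, J, hJ, rfl⟩ | ⟨j, p, q, hpq, rfl⟩)
      · change ev _ = 0
        rw [act_eq, ← tact_map, hgm]
        have h3 := congrArg (algebraMap κ Ω) (hBad J hJ z hz)
        rw [map_zero, ← tact_map] at h3
        rw [← h3]
        congr 1
        funext I
        simp only [ev, algebraMap_eq, coe_eval₂Hom, eval₂_C]
        exact jj.commutes (z I)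
      · change ev _ = 0
        have h3 := congrArg (algebraMap κ Ω) (hBad' j p q hpq)
        rw [map_zero] at h3
        rw [← h3]
        have h4 : (gQ (b := b) j (QL j)).map ev =
            (h j * (Q j).map ψ * (h j)ᵀ).map (algebraMap κ Ω) := by
          rw [gQ, Matrix.map_mul, Matrix.map_mul, Matrix.transpose_map, hgmj, Matrix.map_mul,
            Matrix.map_mul, Matrix.transpose_map]
          congr 2
          ext i k
          simp only [Matrix.map_apply, QL, ev, coe_eval₂Hom, eval₂_C]
          exact hjj _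
        exact congrFun (congrFun h4 p) q
    exact this hf
  have h4 := hI _ hn
  rw [map_pow, map_prod] at h4
  have h5 : ∏ j, ev (dg b L j) = 0 := by
    by_contra h
    exact pow_ne_zero n h h4
  rw [Finset.prod_eq_zero_iff] at h5
  obtain ⟨j, -, hj⟩ := h5
  have h6 : ev (dg b L j) = algebraMap κ Ω (h j).det := by
    rw [dg, RingHom.map_det, RingHom.map_det]
    congr 1
    exact hgmj j
  rw [h6] at hj
  have h7 : (h j).det = 0 := (algebraMap κ Ω).injective (by rw [hj, map_zero])
  exact ((Matrix.isUnit_iff_isUnit_det _).1 (hh j)).ne_zero h7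

end Pool.Agent.Y104.Kempf
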