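import Mathlib

/-!
# The apolar pairing on polynomials
-/

open MvPolynomial Finset

namespace Pool.Agent.Y104.Kempf

section

variable {σ : Type*} {K : Type*} [Field K]

/-- the factorial of an exponent -/
def fct (α : σ →₀ ℕ) : ℕ := α.prod fun _ n => n.factorial

theorem fct_ne (α : σ →₀ ℕ) : fct α ≠ 0 :=
  Finset.prod_ne_zero_iff.2 fun _ _ => Nat.factorial_ne_zero _

theorem fct_add_single (α : σ →₀ ℕ) (p : σ) :
    fct (α + Finsupp.single p 1) = (α p + 1) * fct α := by
  classical
  have h1 : ∀ (s : Finset σ) (β : σ →₀ ℕ), β.support ⊆ s → fct β = ∏ i ∈ s, (β i).factorial := by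
    intro s β hs
    exact Finsupp.prod_of_support_subset β hs _ fun i _ => rfl
  rw [h1 (insert p α.support) α (Finset.subset_insert _ _),
    h1 (insert p α.support) (α + Finsupp.single p 1) (by
      refine (Finsupp.support_add).trans ?_
      intro x hx
      rw [mem_union] at hx
      rcases hx with hx | hx
      · exact mem_insert_of_mem hx
      · have := Finsupp.support_single_subset hx
        rw [mem_singleton] at this
        rw [this]
        exact mem_insert_self _ _)]
  rw [← Finset.mul_prod_erase _ _ (mem_insert_self p _),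
    ← Finset.mul_prod_erase _ (fun i => (α i).factorial) (mem_insert_self p _)]
  have h2 : ∀ i ∈ (insert p α.support).erase p,
      ((α + Finsupp.single p 1 : σ →₀ ℕ) i).factorial = (α i).factorial := by
    intro i hi
    have : p ≠ i := fun h => (mem_erase.1 hi).1 h.symm
    simp [Finsupp.single_eq_of_ne' this]
  rw [Finset.prod_congr rfl h2]
  simp only [Finsupp.add_apply, Finsupp.single_eq_same, Nat.factorial_succ]
  ring

/-- The apolar pairing. -/
noncomputable def apo : MvPolynomial σ K →ₗ[K] MvPolynomial σ K →ₗ[K] K :=
  (basisMonomials σ K).constr K fun α => (fct α : K) • lcoeff K α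

theorem apo_monomial (α : σ →₀ ℕ) (a : K) (h : MvPolynomial σ K) :
    apo (monomial α a) h = a * ((fct α : K) * coeff α h) := by
  have h1 : monomial α a = a • (basisMonomials σ K) α := by
    rw [coe_basisMonomials, smul_monomial, smul_eq_mul, mul_one]
  rw [h1, map_smul, apo, Module.Basis.constr_basis]
  rfl

theorem apo_X_mul (p : σ) (f h : MvPolynomial σ K) : apo (X p * f) h = apo f (pderiv p h) := by
  induction f using MvPolynomial.induction_on' with
  | monomial α a =>
    rw [X, monomial_mul, one_mul, add_comm, apo_monomial, apo_monomial, coeff_pderiv,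
      fct_add_single]
    push_cast
    ring
  | add f g hf hg =>
    rw [mul_add, map_add, map_add, LinearMap.add_apply, LinearMap.add_apply, hf, hg]

theorem apo_one (h : MvPolynomial σ K) : apo 1 h = coeff 0 h := by
  have h1 : (1 : MvPolynomial σ K) = monomial 0 1 := rfl
  rw [h1, apo_monomial, one_mul]
  simp [fct]

theorem apo_C_mul (c : K) (f h : MvPolynomial σ K) : apo (C c * f) h = c * apo f h := by
  rw [C_mul', map_smul, LinearMap.smul_apply, smul_eq_mul]

theorem apo_C_mul_right (c : K) (f h : MvPolynomial σ K) : apo f (C c * h) = c * apo f h := by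
  rw [C_mul', map_smul, smul_eq_mul]

theorem apo_map {k : Type*} [Field k] (φ : k →+* K) (f h : MvPolynomial σ k) :
    apo (map φ f) (map φ h) = φ (apo f h) := by
  induction f using MvPolynomial.induction_on' with
  | monomial α a =>
    rw [map_monomial, apo_monomial, apo_monomial, coeff_map, map_mul, map_mul, map_natCast]
  | add f g hf hg =>
    rw [map_add, map_add, map_add, LinearMap.add_apply, LinearMap.add_apply, hf, hg, map_add]

theorem apo_self_pos {f : MvPolynomial σ ℚ} (hf : f ≠ 0) : 0 < apo f f := by
  have h1 : ∀ g : MvPolynomial σ ℚ, apo g f = ∑ α ∈ g.support,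
      (fct α : ℚ) * (coeff α g * coeff α f) := by
    intro g
    conv_lhs => rw [g.as_sum]
    rw [map_sum, LinearMap.sum_apply]
    refine Finset.sum_congr rfl fun α _ => ?_
    rw [apo_monomial]
    ring
  rw [h1]
  refine Finset.sum_pos (fun α hα => ?_) (support_nonempty.2 hf)
  have h2 : coeff α f ≠ 0 := mem_support_iff.1 hα
  have h3 : (0 : ℚ) < fct α := by exact_mod_cast Nat.pos_of_ne_zero (fct_ne α)
  exact mul_pos h3 (mul_self_pos.2 h2)

/-- Positivity over any field of characteristic zero, for polynomials with rational
coefficients. -/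
theorem apo_self_ne [CharZero K] {f : MvPolynomial σ ℚ} (hf : f ≠ 0) :
    apo (map (algebraMap ℚ K) f) (map (algebraMap ℚ K) f) ≠ 0 := by
  rw [apo_map]
  exact (map_ne_zero _).2 (apo_self_pos hf).ne'

/-- the exponent of a product of variables -/
theorem prod_X {S : Type*} [Fintype S] (a : S → σ) :
    ∏ s, (X (a s) : MvPolynomial σ K) = monomial (∑ s, Finsupp.single (a s) 1) 1 := by
  rw [monomial_sum_one]
  rfl

open Classical in
theorem count_apply {S : Type*} [Fintype S] (a : S → σ) (v : σ) :
    (∑ s, Finsupp.single (a s) 1 : σ →₀ ℕ) v = Fintype.card {s // a s = v} := by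
  rw [Finsupp.finsetSum_apply, Fintype.card_subtype]
  rw [Finset.card_filter]
  refine Finset.sum_congr rfl fun s _ => ?_
  by_cases h : a s = v
  · rw [if_pos h, h, Finsupp.single_eq_same]
  · rw [if_neg h, Finsupp.single_eq_of_ne' h]

open Classical in
/-- **The apolar pairing of products of variables.** -/
theorem apo_prod_X {S S' : Type*} [Fintype S] [Fintype S'] (a : S → σ) (b : S' → σ) :
    apo (∏ s, (X (a s) : MvPolynomial σ K)) (∏ s, X (b s)) =
      ∑ e : S' ≃ S, if ∀ s, a (e s) = b s then 1 else 0 := by
  rw [prod_X, prod_X, apo_monomial, one_mul, coeff_monomial]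
  rw [← Finset.sum_filter, Finset.sum_const, nsmul_eq_mul, mul_one]
  split_ifs with h
  · rw [mul_one]
    congr 1
    -- the fibres have the same cardinality
    have h1 : ∀ v, Fintype.card {s // b s = v} = Fintype.card {s // a s = v} := by
      intro v
      rw [← count_apply, ← count_apply, h]
    let e0 : S' ≃ S := (Equiv.sigmaFiberEquiv b).symm.trans
      ((Equiv.sigmaCongrRight fun v => Fintype.equivOfCardEq (h1 v)).trans
        (Equiv.sigmaFiberEquiv a))
    have he0 : ∀ s, a (e0 s) = b s := by
      intro s
      exact (Fintype.equivOfCardEq (h1 (b s)) ⟨s, rfl⟩).2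
    have h2 : (Finset.univ.filter fun e : S' ≃ S => ∀ s, a (e s) = b s).card =
        Fintype.card {g : Equiv.Perm S // a ∘ g = a} := by
      rw [Fintype.card_subtype]
      refine Finset.card_bij (fun e _ => e0.symm.trans e) ?_ ?_ ?_
      · intro e he
        rw [mem_filter] at he ⊢
        refine ⟨mem_univ _, ?_⟩
        funext s
        have h3 := he.2 (e0.symm s)
        have h4 := he0 (e0.symm s)
        rw [Equiv.apply_symm_apply] at h4
        show a (e (e0.symm s)) = a s
        rw [h3, h4]
      · intro e _ e' _ hee
        apply Equiv.ext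
        intro s
        have := congrArg (fun g : Equiv.Perm S => g (e0 s)) hee
        simpa using this
      · intro g hg
        rw [mem_filter] at hg
        refine ⟨e0.trans g, ?_, ?_⟩
        · rw [mem_filter]
          refine ⟨mem_univ _, fun s => ?_⟩
          show a (g (e0 s)) = b s
          rw [← he0 s]
          exact congrFun hg.2 (e0 s)
        · apply Equiv.ext
          intro s
          simp
    rw [h2, DomMulAct.stabilizer_card']
    rw [fct, Finsupp.prod]
    have h3 : (∑ s, Finsupp.single (a s) 1 : σ →₀ ℕ).support = Finset.univ.image a := by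
      ext v
      rw [Finsupp.mem_support_iff, count_apply, mem_image, ← Nat.pos_iff_ne_zero,
        Fintype.card_pos_iff]
      constructor
      · rintro ⟨s, hs⟩
        exact ⟨s, mem_univ _, hs⟩
      · rintro ⟨s, _, hs⟩
        exact ⟨s, hs⟩
    rw [h3]
    refine Finset.prod_congr rfl fun v _ => ?_
    rw [count_apply]
  · rw [mul_zero]
    have h5 : (Finset.univ.filter fun e : S' ≃ S => ∀ s, a (e s) = b s).card = 0 := by
      rw [Finset.card_eq_zero, Finset.filter_eq_empty_iff]
      intro e _ he
      apply h
      rw [← Equiv.sum_comp e fun s => Finsupp.single (a s) 1]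
      exact Finset.sum_congr rfl fun s _ => by rw [he]
    rw [h5, Nat.cast_zero]

end

end Pool.Agent.Y104.Kempf
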