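import Pool.Agent.Y154.Uni
import Pool.Agent.Y154.Trf

/-!
# Base change of an algebra of matrices with involution
-/

open Finset Module Matrix

set_option linter.unusedSectionVars false

namespace Pool.Agent.Y104.Kempf

variable {K : Type*} [Field K] {L : Type*} [Field L] [Algebra K L] {n : Type*} [Fintype n]
  [DecidableEq n]

/-- The base change of an algebra of matrices. -/
def baseC (L : Type*) [Field L] [Algebra K L] (E : Subalgebra K (Matrix n n K)) :
    Subalgebra L (Matrix n n L) :=
  Algebra.adjoin L ((fun e => e.map (algebraMap K L)) '' (E : Set (Matrix n n K)))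

theorem mem_baseC {E : Subalgebra K (Matrix n n K)} {x : Matrix n n L} :
    x ∈ baseC L E ↔
      x ∈ Submodule.span L ((fun e => e.map (algebraMap K L)) '' (E : Set (Matrix n n K))) := by
  have h1 : ((fun e => e.map (algebraMap K L)) '' (E : Set (Matrix n n K)) : Set _) =
      (Submonoid.map ((algebraMap K L).mapMatrix : Matrix n n K →+* Matrix n n L).toMonoidHom
        E.toSubmonoid : Set (Matrix n n L)) := rfl
  have h2 := Algebra.adjoin_eq_span (R := L)
    (s := ((fun e => e.map (algebraMap K L)) '' (E : Set (Matrix n n K)) :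
      Set (Matrix n n L)))
  rw [h1, Submonoid.closure_eq] at h2
  change x ∈ Subalgebra.toSubmodule (Algebra.adjoin L _) ↔ _
  rw [h1, h2]

theorem map_mem_baseC {E : Subalgebra K (Matrix n n K)} {e : Matrix n n K} (he : e ∈ E) :
    e.map (algebraMap K L) ∈ baseC L E := Algebra.subset_adjoin ⟨e, he, rfl⟩

/-- The adjoint with respect to the form `x ⬝ᵥ Q *ᵥ y`. -/
noncomputable def adjL (Q : Matrix n n L) : Matrix n n L →ₗ[L] Matrix n n L where
  toFun x := Q⁻¹ * xᵀ * Q
  map_add' x y := by rw [Matrix.transpose_add, Matrix.mul_add, Matrix.add_mul]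
  map_smul' a x := by
    rw [Matrix.transpose_smul, Matrix.mul_smul, Matrix.smul_mul, RingHom.id_apply]

theorem adjL_apply (Q x : Matrix n n L) : adjL Q x = Q⁻¹ * xᵀ * Q := rfl

theorem adjL_mul {Q : Matrix n n L} (hQ : IsUnit Q) (x y : Matrix n n L) :
    adjL Q (x * y) = adjL Q y * adjL Q x := by
  have h1 : Q * Q⁻¹ = 1 := Matrix.mul_nonsing_inv _ ((Matrix.isUnit_iff_isUnit_det _).1 hQ)
  rw [adjL_apply, adjL_apply, adjL_apply, Matrix.transpose_mul]
  calc Q⁻¹ * (yᵀ * xᵀ) * Q = Q⁻¹ * yᵀ * 1 * xᵀ * Q := by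
        rw [Matrix.mul_one]
        simp only [Matrix.mul_assoc]
    _ = Q⁻¹ * yᵀ * Q * (Q⁻¹ * xᵀ * Q) := by
        rw [← h1]
        simp only [Matrix.mul_assoc]

theorem adjL_adjL {Q : Matrix n n L} (hQ : IsUnit Q) {ε : L} (hε : ε * ε = 1)
    (hQε : Qᵀ = ε • Q) (x : Matrix n n L) : adjL Q (adjL Q x) = x := by
  have hd := (Matrix.isUnit_iff_isUnit_det _).1 hQ
  have h1 : Q * Q⁻¹ = 1 := Matrix.mul_nonsing_inv _ hd
  have h2 : Q⁻¹ * Q = 1 := Matrix.nonsing_inv_mul _ hd
  have h3 : (Q⁻¹)ᵀ = ε • Q⁻¹ := by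
    rw [Matrix.transpose_nonsing_inv, hQε]
    refine Matrix.inv_eq_left_inv ?_
    rw [Matrix.smul_mul, Matrix.mul_smul, smul_smul, hε, one_smul, h2]
  rw [adjL_apply, adjL_apply, Matrix.transpose_mul, Matrix.transpose_mul,
    Matrix.transpose_transpose, hQε, h3]
  have h4 : Q⁻¹ * (ε • Q * (x * ε • Q⁻¹)) * Q = (ε * ε) • ((Q⁻¹ * Q) * x * (Q⁻¹ * Q)) := by
    simp only [Matrix.smul_mul, Matrix.mul_smul, smul_smul, Matrix.mul_assoc]
  rw [h4, hε, one_smul, h2, Matrix.one_mul, Matrix.mul_one]

theorem adjL_trace {Q : Matrix n n L} (hQ : IsUnit Q) (x : Matrix n n L) :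
    (adjL Q x).trace = x.trace := by
  have h1 : Q * Q⁻¹ = 1 := Matrix.mul_nonsing_inv _ ((Matrix.isUnit_iff_isUnit_det _).1 hQ)
  rw [adjL_apply, Matrix.trace_mul_comm, ← Matrix.mul_assoc, h1, Matrix.one_mul,
    Matrix.trace_transpose]

theorem adjL_mem {E : Subalgebra K (Matrix n n K)} {Q : Matrix n n K} (hQ : IsUnit Q)
    (hadj : ∀ e ∈ E, Q⁻¹ * eᵀ * Q ∈ E) {x : Matrix n n L} (hx : x ∈ baseC L E) :
    adjL (Q.map (algebraMap K L)) x ∈ baseC L E := by
  rw [mem_baseC] at hx ⊢
  induction hx using Submodule.span_induction with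
  | mem x hx =>
    obtain ⟨e, he, rfl⟩ := hx
    refine Submodule.subset_span ⟨_, hadj e he, ?_⟩
    have hd := (Matrix.isUnit_iff_isUnit_det _).1 hQ
    have h2 : (Q.map (algebraMap K L))⁻¹ = (Q⁻¹).map (algebraMap K L) := by
      refine Matrix.inv_eq_left_inv ?_
      rw [← Matrix.map_mul, Matrix.nonsing_inv_mul _ hd,
        Matrix.map_one _ (map_zero _) (map_one _)]
    change (Q⁻¹ * eᵀ * Q).map (algebraMap K L) = adjL _ (e.map (algebraMap K L))
    rw [adjL_apply, h2, ← Matrix.transpose_map, ← Matrix.map_mul, ← Matrix.map_mul]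
  | zero => rw [map_zero]; exact zero_mem _
  | add x y _ _ h h' => rw [map_add]; exact add_mem h h'
  | smul a x _ h => rw [map_smul]; exact Submodule.smul_mem _ _ h

theorem baseC_nondeg {E : Subalgebra K (Matrix n n K)}
    (hnd : ∀ x ∈ E, (∀ y ∈ E, (x * y).trace = 0) → x = 0) :
    ∀ x ∈ baseC L E, (∀ y ∈ baseC L E, (x * y).trace = 0) → x = 0 := by
  intro x hx hxy
  let e := Module.finBasis K E
  have hspan : x ∈ Submodule.span L (Set.range fun i => (e i : Matrix n n K).map
      (algebraMap K L)) := by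
    rw [mem_baseC] at hx
    refine (Submodule.span_le.2 ?_) hx
    rintro _ ⟨y, hy, rfl⟩
    have h1 : y = ∑ i, e.repr ⟨y, hy⟩ i • (e i : Matrix n n K) := by
      have := congrArg (Subtype.val : E → Matrix n n K) (e.sum_repr ⟨y, hy⟩)
      push_cast at this
      exact this.symm
    have h2 : y.map (algebraMap K L) = ∑ i, algebraMap K L (e.repr ⟨y, hy⟩ i) •
        (e i : Matrix n n K).map (algebraMap K L) := by
      conv_lhs => rw [h1]
      ext p q
      simp only [Matrix.map_apply, Matrix.sum_apply, Matrix.smul_apply, smul_eq_mul, map_sum,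
        map_mul]
    change y.map (algebraMap K L) ∈ _
    rw [h2]
    exact Submodule.sum_mem _ fun i _ => Submodule.smul_mem _ _
      (Submodule.subset_span ⟨i, rfl⟩)
  obtain ⟨a, ha⟩ := (Submodule.mem_span_range_iff_exists_fun L).1 hspan
  -- the Gram matrix
  let G : Matrix (Fin (finrank K E)) (Fin (finrank K E)) K := Matrix.of fun i k =>
    ((e i : Matrix n n K) * (e k : Matrix n n K)).trace
  have hG : G.det ≠ 0 := by
    intro h0
    obtain ⟨v, hv0, hv⟩ := Matrix.exists_vecMul_eq_zero_iff.2 h0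
    have h1 : (∑ i, v i • e i : E) = 0 := by
      apply Subtype.ext
      refine hnd _ (∑ i, v i • e i : E).2 ?_
      intro y hy
      have h2 : y = ∑ i, e.repr ⟨y, hy⟩ i • (e i : Matrix n n K) := by
        have := congrArg (Subtype.val : E → Matrix n n K) (e.sum_repr ⟨y, hy⟩)
        push_cast at this
        exact this.symm
      rw [h2]
      have h3 : ((∑ i, v i • e i : E) : Matrix n n K) = ∑ i, v i • (e i : Matrix n n K) := by
        push_cast
        rfl
      rw [h3, Finset.mul_sum, Matrix.trace_sum]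
      refine Finset.sum_eq_zero fun k _ => ?_
      rw [Matrix.mul_smul, Matrix.trace_smul, Finset.sum_mul, Matrix.trace_sum]
      have h4 := congrFun hv k
      rw [Matrix.vecMul, dotProduct] at h4
      have h5 : ∑ i, (v i • (e i : Matrix n n K) * (e k : Matrix n n K)).trace = 0 := by
        refine Eq.trans ?_ h4
        refine Finset.sum_congr rfl fun i _ => ?_
        rw [Matrix.smul_mul, Matrix.trace_smul]
        rfl
      rw [h5, smul_zero]
    apply hv0
    funext i
    exact (Fintype.linearIndependent_iff.1 e.linearIndependent) v h1 i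
  have ha0 : a = 0 := by
    have h1 : a ᵥ* G.map (algebraMap K L) = 0 := by
      funext k
      have h2 := hxy _ (map_mem_baseC (L := L) (e k).2)
      rw [← ha, Finset.sum_mul, Matrix.trace_sum] at h2
      rw [Matrix.vecMul, dotProduct, Pi.zero_apply]
      refine Eq.trans ?_ h2
      refine Finset.sum_congr rfl fun i _ => ?_
      rw [Matrix.smul_mul, Matrix.trace_smul, ← Matrix.map_mul]
      congr 1
      simp [G, Matrix.trace, Matrix.diag]
    have h2 : (G.map (algebraMap K L)).det ≠ 0 := by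
      have h3 : (G.map (algebraMap K L)).det = algebraMap K L G.det := by
        rw [RingHom.map_det]
        rfl
      rw [h3]
      exact (map_ne_zero _).2 hG
    by_contra h0
    exact h2 (Matrix.exists_vecMul_eq_zero_iff.1 ⟨a, h0, h1⟩)
  rw [← ha, ha0]
  simp

end Pool.Agent.Y104.Kempf
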