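import Pool.Agent.Y104.Rel

/-!
# The vanishing theorem with the determinant condition
-/

open Finset Module Matrix

set_option linter.unusedSectionVars false

namespace Pool.Agent.Y104.Kempf

universe u

theorem detOn_ne_zero {K V : Type*} [Field K] [AddCommGroup V] [Module K V]
    [FiniteDimensional K V] (f : V →ₗ[K] V) (hf : Function.Injective f) (F : Submodule K V) :
    detOn f F ≠ 0 := by
  by_cases h : ∀ x ∈ F, f x ∈ F
  · rw [detOn_eq f F h]
    have h1 : Function.Injective (f.restrict h) := by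
      intro x y hxy
      apply Subtype.ext
      apply hf
      have := congrArg Subtype.val hxy
      exact this
    have h2 : IsUnit (f.restrict h) := (LinearMap.isUnit_iff_ker_eq_bot _).2
      (LinearMap.ker_eq_bot.2 h1)
    exact ((LinearMap.isUnit_iff_isUnit_det _).1 h2).ne_zero
  · rw [detOn, dif_neg h]
    exact one_ne_zero

section

variable {ι : Type} [Fintype ι] [DecidableEq ι] {b : ι → Type} [∀ i, Fintype (b i)]
  [∀ i, DecidableEq (b i)] {S : Type} [Fintype S] [DecidableEq S] {c : S → ι}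
  {K : Type u} [Field K]

/-- **The vanishing theorem with the determinant condition.** -/
theorem core4 [CharZero K] {Q : ∀ j, Matrix (b j) (b j) K} {ε : ι → K}
    (hε1 : ∀ j, ε j * ε j = 1) (hε : ∀ j, (Q j)ᵀ = ε j • Q j) (hQ : ∀ j, IsUnit (Q j))
    {N : Set ((S → Σ j, b j) → K)} (hc : ∀ z ∈ N, ∀ I, z I ≠ 0 → ∀ s, (I s).1 = c s)
    (hN : ∀ (m : ℕ) (z : Fin (m + 1) → (S → Σ j, b j) → K), (∀ i, z i ∈ N) →
      NullT (Matrix.blockDiagonal' fun j => (Q j)⁻¹) (tp z))
    {G G₁ : Set (∀ j, Matrix (b j) (b j) K)} (hG₁ : G₁ ⊆ G) (hG : ∀ g ∈ G, ∀ j, IsUnit (g j))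
    (hGQ : ∀ g ∈ G, ∀ j, ∃ a : K, a ≠ 0 ∧ (g j)ᵀ * Q j * g j = a • Q j)
    (hGQ₁ : ∀ g ∈ G₁, ∀ j, (g j)ᵀ * Q j * g j = Q j)
    (hGN : ∀ g ∈ G, ∀ z ∈ N, gtact (fun _ => Matrix.blockDiagonal' fun j => (g j)ᵀ) z ∈ N)
    (hfin : ∀ g ∈ G₁, ∀ z ∈ N, ∃ m : ℕ, 0 < m ∧
      gtact (fun _ => Matrix.blockDiagonal' fun j => ((g j) ^ m)ᵀ) z = z)
    (E : ∀ j, Subalgebra K (Matrix (b j) (b j) K))
    (hadj : ∀ j, ∀ e ∈ E j, (Q j)⁻¹ * eᵀ * Q j ∈ E j)
    (hEN : ∀ e : S → ∀ j, Matrix (b j) (b j) K, (∀ s j, e s j ∈ E j) → ∀ z ∈ N,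
      gtact (fun s => Matrix.blockDiagonal' fun j => (e s j)ᵀ) z ∈ N)
    (hnd : ∀ j, ∀ x ∈ E j, (∀ y ∈ E j, (x * y).trace = 0) → x = 0)
    (hdet : ∀ (k : ℕ) (F : ∀ j, Fin k → Submodule K (b j → K)) (n : Fin k → ℕ),
      (∀ i, 0 < n i) → (∀ j, Antitone (F j)) →
      (∀ j i, ∀ g ∈ G, ∀ x ∈ F j i, g j *ᵥ x ∈ F j i) →
      (∀ j i, ∀ e ∈ E j, ∀ x ∈ F j i, e *ᵥ x ∈ F j i) →
      (∀ j i, ∀ x ∈ F j i, ∀ y ∈ F j i, x ⬝ᵥ (Q j *ᵥ y) = 0) →
      (∀ g ∈ G₁, ∃ m : ℕ, 0 < m ∧ (∏ i, ∏ j, detOn (g j).mulVecLin (F j i) ^ n i) ^ m = 1) →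
        ∀ j i, F j i = ⊥) :
    ∀ z ∈ N, z = 0 := by
  classical
  intro z hz
  by_contra hz0
  obtain ⟨w, t, ht, hw, hg, hopt, hgal, hinv, hE⟩ := exists_kempf hε1 hε hQ hc hN hG
    hGQ hGN E hadj hEN hnd hz hz0
  let L := AlgebraicClosure K
  have hQu : ∀ j, IsUnit (Q j) := hQ
  -- the positive values
  have hVfin : (⋃ j, w j '' {x | x ≠ 0}).Finite := Set.finite_iUnion fun j => (hw.1.1 j).fin
  let Ω : Finset ℝ := hVfin.toFinset.filter fun x => 0 < x
  let k := Ω.card
  let ω : Fin k → ℝ := Ω.orderEmbOfFin rfl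
  have hm : StrictMono ω := (Ω.orderEmbOfFin rfl).strictMono
  have hpos : ∀ i, 0 < ω i := fun i => (mem_filter.1 (Ω.orderEmbOfFin_mem rfl i)).2
  have hval : ∀ j (y : b j → L), y ≠ 0 → 0 < w j y → ∃ i, ω i = w j y := by
    intro j y hy hy0
    have h1 : w j y ∈ Ω := by
      rw [mem_filter, Set.Finite.mem_toFinset]
      exact ⟨Set.mem_iUnion.2 ⟨j, y, hy, rfl⟩, hy0⟩
    have h2 : w j y ∈ Set.range (Ω.orderEmbOfFin rfl) := by
      rw [Finset.range_orderEmbOfFin]
      exact h1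
    exact h2
  obtain ⟨γ, hγ0, hγ⟩ := exists_gaps ω hm hpos
  obtain ⟨n, hn0, hn⟩ := exists_nat_sol γ hγ0
  let F : ∀ j, Fin k → Submodule K (b j → K) := fun j i => ratPart K ((hw.1.1 j).ge (ω i))
  have hFgal : ∀ j i (σ : L ≃ₐ[K] L), ∀ x ∈ (hw.1.1 j).ge (ω i),
      (fun p => σ (x p)) ∈ (hw.1.1 j).ge (ω i) := by
    intro j i σ x hx
    rw [IsNrm.mem_ge] at hx ⊢
    by_cases h0 : x = 0
    · left
      rw [h0]
      funext p
      simp
    · right
      rw [hgal σ j x h0]
      exact hx.resolve_left h0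
  have hgL : ∀ g ∈ G, ∀ j i, ∀ x ∈ (hw.1.1 j).ge (ω i),
      ((g j).map (algebraMap K L)).mulVecLin x ∈ (hw.1.1 j).ge (ω i) := by
    intro g hg' j i x hx
    rw [IsNrm.mem_ge] at hx ⊢
    by_cases h0 : x = 0
    · left
      rw [h0, map_zero]
    · right
      rw [Matrix.mulVecLin_apply, hinv g hg' j x h0]
      exact hx.resolve_left h0
  have hgK : ∀ g ∈ G, ∀ j i, ∀ x ∈ F j i, (g j).mulVecLin x ∈ F j i := by
    intro g hg' j i x hx
    have h1 := hgL g hg' j i _ hx
    rw [Matrix.mulVecLin_apply] at h1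
    change exl L (b j) (g j *ᵥ x) ∈ (hw.1.1 j).ge (ω i)
    rw [exl_mulVec]
    exact h1
  have hF := hdet k F n hn0 ?_ (fun j i g hg => hgK g hg j i) ?_ ?_ ?_
  -- the contradiction
  · have hneg : ∀ j (y : b j → L), y ≠ 0 → w j y ≤ 0 := by
      intro j y hy
      by_contra h1
      push Not at h1
      obtain ⟨i, hi⟩ := hval j y hy h1
      have h2 : (hw.1.1 j).ge (ω i) ≠ ⊥ := by
        intro h3
        have h4 : y ∈ (hw.1.1 j).ge (ω i) := Or.inr hi.le
        rw [h3, Submodule.mem_bot] at h4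
        exact hy h4
      obtain ⟨y', hy', hyF⟩ := exists_rational _ (hFgal j i) h2
      have h3 : y' ∈ F j i := hyF
      rw [hF j i, Submodule.mem_bot] at h3
      exact hy' h3
    obtain ⟨⟨_, e', he', htr, _⟩, _⟩ := hw
    have hzero : ∀ j p, w j (e' j p) = 0 := by
      intro j p
      exact (Finset.sum_eq_zero_iff_of_nonpos fun p _ => hneg j _ ((e' j).ne_zero p)).1 (htr j) p
        (mem_univ p)
    have hrz : rst c z ∈ rst c '' N := ⟨z, hz, rfl⟩
    have hrz0 : rst c z ≠ 0 := by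
      intro h
      apply hz0
      funext I
      by_contra h1
      have h2 := hc z hz I h1
      have h3 := congrFun h (fun s => h2 s ▸ (I s).2)
      have h4 : ∀ (i : Σ j, b j) (j : ι) (h : i.1 = j), (⟨j, h ▸ i.2⟩ : Σ j, b j) = i := by
        rintro ⟨i, p⟩ j rfl
        rfl
      have h5 : (fun s => (⟨c s, h2 s ▸ (I s).2⟩ : Σ j, b j)) = I := funext fun s => h4 _ _ _
      apply h1
      rw [← h5]
      exact h3
    obtain ⟨J, z', hz', hJ⟩ := exists_ev hrz hrz0 e'
    have h1 := hg z' hz' _ hJ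
    rw [Finset.sum_eq_zero fun s _ => hzero _ _] at h1
    linarith
  · intro j i i' hii x hx
    have h1 : exl L (b j) x ∈ (hw.1.1 j).ge (ω i') := hx
    change exl L (b j) x ∈ (hw.1.1 j).ge (ω i)
    rw [IsNrm.mem_ge] at h1 ⊢
    exact h1.imp id fun h => (hm.monotone hii).trans h
  · intro j i e he x hx
    change exl L (b j) (e *ᵥ x) ∈ (hw.1.1 j).ge (ω i)
    rw [exl_mulVec]
    exact hE j e he _ _ hx
  · intro j i x hx y hy
    by_contra h1
    have h2 : exl L (b j) x ⬝ᵥ ((Q j).map (algebraMap K L) *ᵥ exl L (b j) y) ≠ 0 := by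
      have h3 : exl L (b j) x ⬝ᵥ ((Q j).map (algebraMap K L) *ᵥ exl L (b j) y) =
          algebraMap K L (x ⬝ᵥ (Q j *ᵥ y)) := by
        rw [← exl_mulVec]
        simp [dotProduct, exl_apply]
      rw [h3]
      exact (map_ne_zero _).2 h1
    have h4 := hw.2 j _ _ h2
    have h5 : exl L (b j) x ≠ 0 := by
      intro h6
      rw [h6, zero_dotProduct] at h2
      exact h2 rfl
    have h6 : exl L (b j) y ≠ 0 := by
      intro h6
      rw [h6, mulVec_zero, dotProduct_zero] at h2
      exact h2 rfl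
    have h7 := (((hw.1.1 j).mem_ge _ _).1 hx).resolve_left h5
    have h8 := (((hw.1.1 j).mem_ge _ _).1 hy).resolve_left h6
    have h9 := hpos i
    have h7' : ω i ≤ w j (exl L (b j) x) := h7
    have h8' : ω i ≤ w j (exl L (b j) y) := h8
    linarith
  · -- the determinants
    intro g hgG₁
    have hgG := hG₁ hgG₁
    have hd0 : ∀ j i, detOn (g j).mulVecLin (F j i) ≠ 0 := by
      intro j i
      refine detOn_ne_zero _ ?_ _
      intro x y hxy
      obtain ⟨h, hh⟩ := (hG g hgG j).exists_left_inv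
      have h1 : ∀ x, x = h *ᵥ (g j *ᵥ x) := fun x => by
        rw [mulVec_mulVec, hh, one_mulVec]
      rw [h1 x, h1 y]
      exact congrArg _ hxy
    set D₁ : K := ∏ i, ∏ j, detOn (g j).mulVecLin (F j i) ^ n i with hD₁
    have hD₁0 : D₁ ≠ 0 := Finset.prod_ne_zero_iff.2 fun i _ => Finset.prod_ne_zero_iff.2
      fun j _ => pow_ne_zero _ (hd0 j i)
    by_contra hcon
    push Not at hcon
    have hL0 : ∀ {x : K}, x ≠ 0 → algebraMap K L x ≠ 0 := fun h => (map_ne_zero _).2 h
    let u : Lˣ := Units.mk0 _ (hL0 hD₁0)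
    obtain ⟨v, hv⟩ := exists_hom (A := Additive Lˣ) (Additive.ofMul u) (by
      intro m hm h
      apply hcon m hm
      have h1 : u ^ m = 1 := by
        have h2 : Additive.ofMul (u ^ m) = 0 := by rw [ofMul_pow]; exact h
        exact h2
      have h3 := congrArg Units.val h1
      rw [Units.val_pow_eq_pow_val, Units.val_mk0, ← map_pow, Units.val_one,
        ← (algebraMap K L).map_one] at h3
      exact (algebraMap K L).injective h3)
    apply hv
    -- the valuation
    let v' : L → ℚ := fun x => if h : x ≠ 0 then v (Additive.ofMul (Units.mk0 x h)) else 0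
    have hv' : ∀ x y, x ≠ 0 → y ≠ 0 → v' (x * y) = v' x + v' y := by
      intro x y hx hy
      simp only [v']
      rw [dif_pos hx, dif_pos hy, dif_pos (mul_ne_zero hx hy), ← map_add, ← ofMul_mul]
      congr 2
      exact Units.ext rfl
    have hv1 : v' 1 = 0 := by
      have h := hv' 1 1 one_ne_zero one_ne_zero
      rw [mul_one] at h
      linarith
    have hvp : ∀ {T : Type} (X : Finset T) (f : T → L), (∀ i ∈ X, f i ≠ 0) →
        v' (∏ i ∈ X, f i) = ∑ i ∈ X, v' (f i) := by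
      intro T X f
      induction X using Finset.induction_on with
      | empty => intro _; rw [Finset.prod_empty, Finset.sum_empty, hv1]
      | insert i X hi ih =>
        intro h
        rw [Finset.prod_insert hi, Finset.sum_insert hi, hv' _ _ (h i (mem_insert_self _ _))
          (Finset.prod_ne_zero_iff.2 fun i hi => h i (mem_insert_of_mem hi)),
          ih fun i hi => h i (mem_insert_of_mem hi)]
    have hvpow : ∀ (x : L), x ≠ 0 → ∀ n : ℕ, v' (x ^ n) = n * v' x := by
      intro x hx n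
      induction n with
      | zero => rw [pow_zero, hv1, Nat.cast_zero, zero_mul]
      | succ n ih =>
        rw [pow_succ, hv' _ _ (pow_ne_zero _ hx) hx, ih]
        push_cast
        ring
    have hrel := kempf_relation (L := L) hQ hc ht hw hg hopt (hG g hgG) (a := fun _ => 1)
      (fun _ => one_ne_zero) (fun j => by rw [one_smul]; exact hGQ₁ g hgG₁ j)
      (hinv g hgG) (fun z hz => by
        obtain ⟨m, hm, h⟩ := hfin g hgG₁ z hz
        refine ⟨m, hm, 1, ?_, by rw [one_smul]; exact h⟩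
        rw [one_pow, one_pow, Finset.prod_const_one]) hm hpos hγ hval (fun x => (v' x : ℝ)) (by
        intro x y hx hy
        rw [hv' x y hx hy]
        push_cast
        ring)
    have hdetL : ∀ j i, detOn ((g j).map (algebraMap K L)).mulVecLin ((hw.1.1 j).ge (ω i)) =
        algebraMap K L (detOn (g j).mulVecLin (F j i)) := by
      intro j i
      rw [detOn_eq _ _ (hgL g hgG j i), detOn_eq _ _ (hgK g hgG j i)]
      exact det_ratPart _ (hFgal j i) (g j) (hgK g hgG j i) (hgL g hgG j i)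
    let q : Fin k → ℚ := fun i => ∑ j, 2 * v' (algebraMap K L (detOn (g j).mulVecLin (F j i)))
    have hq := hn q (by
      rw [← hrel]
      refine Finset.sum_congr rfl fun i _ => ?_
      rw [mul_comm]
      congr 1
      simp only [q]
      rw [Rat.cast_sum]
      refine Finset.sum_congr rfl fun j _ => ?_
      rw [hdetL, map_one, hv1, Rat.cast_zero, mul_zero, sub_zero]
      push_cast
      rfl)
    have h1 : v (Additive.ofMul u) = v' (algebraMap K L D₁) := by
      simp only [v']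
      rw [dif_pos (hL0 hD₁0)]
    rw [h1]
    have h2 : v' (algebraMap K L D₁) =
        ∑ i, ∑ j, (n i : ℚ) * v' (algebraMap K L (detOn (g j).mulVecLin (F j i))) := by
      rw [hD₁, map_prod, hvp _ _ fun i _ => ?_]
      · refine Finset.sum_congr rfl fun i _ => ?_
        rw [map_prod, hvp _ _ fun j _ => ?_]
        · refine Finset.sum_congr rfl fun j _ => ?_
          rw [map_pow, hvpow _ (hL0 (hd0 j i))]
        · exact hL0 (pow_ne_zero _ (hd0 j i))
      · exact hL0 (Finset.prod_ne_zero_iff.2 fun j _ => pow_ne_zero _ (hd0 j i))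
    have h3 : 2 * v' (algebraMap K L D₁) = 0 := by
      rw [h2, ← hq, Finset.mul_sum]
      refine Finset.sum_congr rfl fun i _ => ?_
      simp only [q]
      rw [Finset.mul_sum, Finset.sum_mul]
      refine Finset.sum_congr rfl fun j _ => ?_
      ring
    exact (mul_eq_zero.1 h3).resolve_left two_ne_zero

end

end Pool.Agent.Y104.Kempf
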