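import Pool.Agent.Y104.Eng
import Pool.Agent.Y104.Cr4

/-!
# Tensors with repeated colours given by numerically trivial classes
-/

open CategoryTheory AlgebraicGeometry
open scoped Matrix

set_option linter.unusedSectionVars false

universe u v w

namespace Pool.Agent.Y104.Geo

open Pool.Agent.H914 Pool.Agent.H914.VarClass Pool.Agent.H914.VarClass.Obj
  Pool.Agent.H914.WeilCohomology Pool.Agent.H281R3.HT Pool.Agent.TH125.Gal
  Pool.Agent.Y104.Kempf

variable {k : Type u} [Field k] {𝒱 : VarClass k} {ops : CycleOps 𝒱}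
  {W : WeilCohomology.{u, v} ops} {Y Z : 𝒱.Obj}

section

variable {ι : Type} [Fintype ι] [DecidableEq ι] {X : ι → 𝒱.Obj} (P : ∀ j, Piece W (X j))

/-- The index set of all the classes. -/
abbrev Tc : Type := Σ j, (P j).J

/-- The class with a given index, if it lives on the variety `X j`, and zero otherwise. -/
noncomputable def xc (j : ι) (J : Tc P) : W.H (X j) :=
  if h : J.1 = j then (P j).x (h ▸ J.2) else 0

theorem xc_self (j : ι) (p : (P j).J) : xc P j ⟨j, p⟩ = (P j).x p := by
  rw [xc, dif_pos rfl]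

theorem xc_ne {j : ι} {J : Tc P} (h : J.1 ≠ j) : xc P j J = 0 := by
  rw [xc, dif_neg h]

theorem xc_mem (j : ι) (J : Tc P) : xc P j J ∈ hpar W (X j) (P j).e := by
  rw [xc]
  split_ifs with h
  · exact (P j).x_mem _
  · exact Submodule.zero_mem _

/-- The matrix of a linear map on the classes. -/
theorem xc_lin {s : ι} {M : Type*} [AddCommGroup M] [Module W.K M]
    (φ ψ : W.H (X s) →ₗ[W.K] M) (m : ∀ s, Matrix (P s).J (P s).J W.K)
    (hφ : ∀ q, φ ((P s).x q) = ∑ p, m s p q • ψ ((P s).x p)) (J : Tc P) :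
    φ (xc P s J) = ∑ i, Matrix.blockDiagonal' (fun j => (m j)ᵀ) J i • ψ (xc P s i) := by
  rw [Fintype.sum_sigma, Finset.sum_eq_single s]
  · obtain ⟨j, q⟩ := J
    by_cases h : j = s
    · subst h
      rw [xc_self, hφ]
      refine Finset.sum_congr rfl fun p _ => ?_
      rw [Matrix.blockDiagonal'_apply_eq, Matrix.transpose_apply, xc_self]
    · rw [xc_ne P h, map_zero]
      refine (Finset.sum_eq_zero fun p _ => ?_).symm
      rw [Matrix.blockDiagonal'_apply_ne _ _ _ h, zero_smul]
  · intro j _ hj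
    refine Finset.sum_eq_zero fun p _ => ?_
    rw [xc_ne P hj, map_zero, smul_zero]
  · intro h
    exact absurd (Finset.mem_univ _) h

/-- The contraction of two slots is algebraic. -/
theorem betac_mem (s s' : ι) (f : Y ⟶ X s) (g : Y ⟶ X s') :
    ∑ t : Tc P × Tc P, Matrix.blockDiagonal' (fun j => ((P j).Q)⁻¹) t.1 t.2 •
      (W.map f (xc P s t.1) * W.map g (xc P s' t.2)) ∈ algSpan W Y := by
  by_cases h : s = s'
  · subst h
    have h1 : ∑ t : Tc P × Tc P, Matrix.blockDiagonal' (fun j => ((P j).Q)⁻¹) t.1 t.2 •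
        (W.map f (xc P s t.1) * W.map g (xc P s t.2)) =
        W.map (Obj.lift f g) (∑ p, ∑ q, ((P s).Q)⁻¹ p q •
          (W.map (fst (X s) (X s)) ((P s).x p) * W.map (snd (X s) (X s)) ((P s).x q))) := by
      rw [Fintype.sum_prod_type, Fintype.sum_sigma, Finset.sum_eq_single s, map_sum]
      · refine Finset.sum_congr rfl fun p _ => ?_
        rw [Fintype.sum_sigma, Finset.sum_eq_single s, map_sum]
        · refine Finset.sum_congr rfl fun q _ => ?_
          rw [Matrix.blockDiagonal'_apply_eq, xc_self, xc_self, map_smul, map_mul,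
            ← W.map_comp, ← W.map_comp, Obj.lift_fst, Obj.lift_snd]
        · intro j _ hj
          refine Finset.sum_eq_zero fun q _ => ?_
          rw [xc_ne P (J := ⟨j, q⟩) hj, map_zero, mul_zero, smul_zero]
        · intro h
          exact absurd (Finset.mem_univ _) h
      · intro j _ hj
        refine Finset.sum_eq_zero fun p _ => Finset.sum_eq_zero fun t _ => ?_
        rw [xc_ne P (J := ⟨j, p⟩) hj, map_zero, zero_mul, smul_zero]
      · intro h
        exact absurd (Finset.mem_univ _) h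
    rw [h1]
    exact algSpan_map _ (P s).β_mem
  · rw [Finset.sum_eq_zero]
    · exact Submodule.zero_mem _
    · rintro ⟨⟨j, p⟩, ⟨j', q⟩⟩ _
      by_cases h1 : j = s
      · by_cases h2 : j' = s'
        · rw [Matrix.blockDiagonal'_apply_ne _ _ _ (by rw [h1, h2]; exact h), zero_smul]
        · rw [xc_ne P (J := ⟨j', q⟩) h2, map_zero, mul_zero, smul_zero]
      · rw [xc_ne P (J := ⟨j, p⟩) h1, map_zero, zero_mul, smul_zero]

variable {n : ℕ} (c : Fin n → ι)

/-- The tensors given by numerically trivial classes. -/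
def CSet : Set ((Fin n → Tc P) → W.K) :=
  {y | ∃ (Y : 𝒱.Obj) (p : ∀ s : Fin n, Y ⟶ X (c s)) (z : W.H Y) (_ : z ∈ rad W Y),
    y = fun I => W.tr Y (z * (List.ofFn fun s => W.map (p s) (xc P (c s) (I s))).prod)}

theorem CSet_color : ∀ y ∈ CSet P c, ∀ I, y I ≠ 0 → ∀ s, (I s).1 = c s := by
  rintro y ⟨Y, p, z, hz, rfl⟩ I hI s
  by_contra h
  apply hI
  have h1 : (List.ofFn fun s => W.map (p s) (xc P (c s) (I s))).prod = 0 := by
    apply List.prod_eq_zero
    rw [List.mem_ofFn]
    exact ⟨s, by simp only [xc_ne P h, map_zero]⟩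
  simp only [h1, mul_zero, map_zero]

/-- **All contractions vanish.** -/
theorem CSet_null (m : ℕ) (y : Fin (m + 1) → (Fin n → Tc P) → W.K) (hy : ∀ i, y i ∈ CSet P c) :
    NullT (Matrix.blockDiagonal' fun j => ((P j).Q)⁻¹) (tp y) := by
  classical
  choose Y p z hz hyi using hy
  obtain ⟨V, π, htr⟩ := exists_mp W m Y
  intro r E
  -- the classes on the product
  let f : ((Fin (m + 1) × Fin n) → Tc P) → Fin (m + 1) ⊕ Fin (m + 1) ⊕ (Fin (m + 1) × Fin n) →
      W.H V := fun I => Sum.elim (fun i => W.map (π i) (z i)) (Sum.elim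
        (fun _ => 1) fun x => W.map (π x.1 ≫ p x.1 x.2) (xc P (c x.2) (I x)))
  let d : Fin (m + 1) ⊕ Fin (m + 1) ⊕ (Fin (m + 1) × Fin n) → ℕ :=
    Sum.elim (fun _ => 0) (Sum.elim (fun _ => 0) fun x => (P (c x.2)).e)
  have hf : ∀ I x, f I x ∈ hpar W V (d x) := by
    rintro I (i | i | ⟨i, s⟩)
    · exact algSpan_hpar (algSpan_map _ (mem_rad.1 (hz i)).1)
    · exact hpar_one
    · exact hpar_map _ (xc_mem P (c s) _)
  have h1 : ∀ I, tp y I = W.tr V ((lst1 (m + 1) n).map (f I)).prod := by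
    intro I
    rw [prod_lst1, tp]
    have h2 : ∀ i, y i (fun s => I (i, s)) = W.tr (Y i) (z i *
      (List.ofFn fun s => W.map (p i s) (xc P (c s) (I (i, s)))).prod) := fun i => by rw [hyi i]
    rw [Finset.prod_congr rfl fun i _ => h2 i, ← htr]
    congr 3
    funext i
    rw [map_mul, map_list_prod, List.map_ofFn]
    change _ = W.map (π i) (z i) * 1 *
      (List.ofFn fun s => W.map (π i ≫ p i s) (xc P (c s) (I (i, s)))).prod
    rw [mul_one]
    congr 3
    funext s
    exact (W.map_comp _ _ _).symm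
  obtain ⟨ε, -, hε⟩ := perm_sign (hpar W V) (hpar_comm (W := W) (X := V)) d
    (lst_perm (m + 1) n r E)
  set Zp := (List.ofFn fun i => W.map (π i) (z i)).prod with hZp
  have hZr : Zp ∈ rad W V := by
    rw [hZp, List.ofFn_succ, List.prod_cons]
    exact rad_mul (rad_map _ (hz 0)) (ofFn_algSpan _ fun i =>
      algSpan_map _ (mem_rad.1 (hz i.succ)).1)
  have hone : (List.ofFn fun _ : Fin (m + 1) => (1 : W.H V)).prod = 1 := by
    rw [List.ofFn_const, List.prod_replicate, one_pow]
  have h2 : ∀ I : (Fin (m + 1) × Fin n) → Tc P,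
      tp y I * ∏ l, Matrix.blockDiagonal' (fun j => ((P j).Q)⁻¹) (I (E (l, 0))) (I (E (l, 1))) =
      ε * W.tr V (Zp * (∏ l, Matrix.blockDiagonal' (fun j => ((P j).Q)⁻¹) (I (E (l, 0)))
        (I (E (l, 1)))) • (List.ofFn fun l => W.map (π (E (l, 0)).1 ≫ p (E (l, 0)).1
          (E (l, 0)).2) (xc P (c (E (l, 0)).2) (I (E (l, 0)))) * W.map (π (E (l, 1)).1 ≫
            p (E (l, 1)).1 (E (l, 1)).2) (xc P (c (E (l, 1)).2) (I (E (l, 1))))).prod) := by
    intro I
    rw [h1, hε (f I) (hf I), prod_lst2, map_smul]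
    change ε • (W.tr V (Zp * (List.ofFn fun _ : Fin (m + 1) => (1 : W.H V)).prod * _)) * _ = _
    rw [hone, mul_one, mul_smul_comm, map_smul, smul_eq_mul,
      smul_eq_mul, mul_assoc, mul_comm (W.tr V _)]
    rfl
  rw [Finset.sum_congr rfl fun I _ => h2 I, ← Finset.mul_sum, ← map_sum, ← Finset.mul_sum,
    sum_pairs r E (fun t t' => Matrix.blockDiagonal' (fun j => ((P j).Q)⁻¹) t t')
      (fun x t => W.map (π x.1 ≫ p x.1 x.2) (xc P (c x.2) t))]
  have h3 := ofFn_algSpan (W := W) (Y := V) (fun l : Fin r => ∑ t : Tc P × Tc P,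
    Matrix.blockDiagonal' (fun j => ((P j).Q)⁻¹) t.1 t.2 •
      (W.map (π (E (l, 0)).1 ≫ p (E (l, 0)).1 (E (l, 0)).2) (xc P (c (E (l, 0)).2) t.1) *
        W.map (π (E (l, 1)).1 ≫ p (E (l, 1)).1 (E (l, 1)).2) (xc P (c (E (l, 1)).2) t.2)))
    (fun l => betac_mem P _ _ _ _)
  rw [rad_tr hZr h3, mul_zero]

end

section

variable {ι : Type} [Fintype ι] [DecidableEq ι] {X : ι → 𝒱.Obj} (P : ∀ j, Piece W (X j))
  {n : ℕ} (c : Fin n → ι)

/-- One slot. -/
theorem CSet_slot (s₀ : Fin n) (e : ∀ j, Matrix (P j).J (P j).J W.K)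
    (he : ∃ d ∈ algSpan W ((X (c s₀)).prod (X (c s₀))), ∀ q, W.corr d ((P (c s₀)).x q) =
      ∑ p, e (c s₀) p q • (P (c s₀)).x p) {y : (Fin n → Tc P) → W.K} (hy : y ∈ CSet P c) :
    gtact (fun s => if s = s₀ then Matrix.blockDiagonal' fun j => (e j)ᵀ else 1) y ∈
      CSet P c := by
  obtain ⟨d, hd, hde⟩ := he
  obtain ⟨Y, p, z, hz, rfl⟩ := hy
  refine ⟨Y.prod (X (c s₀)), Function.update (fun s => fst Y (X (c s₀)) ≫ p s) s₀
    (snd Y (X (c s₀))), W.map (fst Y (X (c s₀))) z * W.map (Obj.lift (snd Y (X (c s₀)))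
      (fst Y (X (c s₀)) ≫ p s₀)) d, rad_mul (rad_map _ hz) (algSpan_map _ hd), ?_⟩
  funext J
  rw [gtact_eq (W.tr Y) z (fun s i => W.map (p s) (xc P (c s) i))]
  have key := tr_slot (p s₀) d hd s₀ (fun s => ∑ i, (if s = s₀ then
    Matrix.blockDiagonal' fun j => (e j)ᵀ else 1) (J s) i • W.map (p s) (xc P (c s) i))
    (fun s => W.map (Function.update (β := fun s => (Y.prod (X (c s₀)) ⟶ X (c s)))
      (fun s => fst Y (X (c s₀)) ≫ p s) s₀ (snd Y (X (c s₀))) s) (xc P (c s) (J s)))
    (xc P (c s₀) (J s₀)) ?_ ?_ ?_ z 1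
  · rw [map_one, mul_one, mul_one] at key
    exact key
  · intro t ht
    rw [Function.update_of_ne ht, W.map_comp, Finset.sum_eq_single (J t)]
    · rw [if_neg ht, Matrix.one_apply_eq, one_smul]
    · intro i _ hi
      rw [if_neg ht, Matrix.one_apply_ne (Ne.symm hi), zero_smul]
    · intro h
      exact absurd (Finset.mem_univ _) h
  · simp only [if_true]
    refine (xc_lin P ((W.map (p s₀)).toLinearMap ∘ₗ W.corr d)
      (W.map (p s₀)).toLinearMap e (fun q => ?_) (J s₀)).symm
    change W.map (p s₀) (W.corr d ((P (c s₀)).x q)) = _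
    rw [hde, map_sum]
    exact Finset.sum_congr rfl fun p _ => map_smul _ _ _
  · rw [Function.update_self]

/-- **The tensors are stable under algebraic correspondences.** -/
theorem CSet_corr (e : Fin n → ∀ j, Matrix (P j).J (P j).J W.K)
    (he : ∀ s, ∃ d ∈ algSpan W ((X (c s)).prod (X (c s))), ∀ q, W.corr d ((P (c s)).x q) =
      ∑ p, e s (c s) p q • (P (c s)).x p) {y : (Fin n → Tc P) → W.K} (hy : y ∈ CSet P c) :
    gtact (fun s => Matrix.blockDiagonal' fun j => (e s j)ᵀ) y ∈ CSet P c := by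
  classical
  have key : ∀ F : Finset (Fin n), gtact (fun s => if s ∈ F then
      Matrix.blockDiagonal' fun j => (e s j)ᵀ else 1) y ∈ CSet P c := by
    intro F
    induction F using Finset.induction_on with
    | empty =>
      simp only [Finset.notMem_empty, if_false]
      rw [gtact_one]
      exact hy
    | insert s₀ F hs ih =>
      have h1 : (fun s => if s ∈ insert s₀ F then Matrix.blockDiagonal' fun j => (e s j)ᵀ
          else (1 : Matrix (Tc P) (Tc P) W.K)) = fun s =>
          (if s = s₀ then Matrix.blockDiagonal' fun j => (e s₀ j)ᵀ else 1) *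
            (if s ∈ F then Matrix.blockDiagonal' fun j => (e s j)ᵀ else 1) := by
        funext s
        by_cases h : s = s₀
        · subst h
          rw [if_pos (Finset.mem_insert_self _ _), if_pos rfl, if_neg hs, Matrix.mul_one]
        · rw [if_neg h, Matrix.one_mul]
          simp only [Finset.mem_insert, h, false_or]
      rw [h1, gtact_mul]
      exact CSet_slot P c s₀ (e s₀) (he s₀) ih
  have h1 := key Finset.univ
  simpa using h1

end

end Pool.Agent.Y104.Geo
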