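import Pool.Agent.Y104.Cl1

/-!
# The determinant condition and the vanishing of the tensors
-/

open CategoryTheory AlgebraicGeometry
open scoped Matrix

set_option linter.unusedSectionVars false

universe u v w

namespace Pool.Agent.Y104.Geo

open Pool.Agent.H914 Pool.Agent.H914.VarClass Pool.Agent.H914.VarClass.Obj
  Pool.Agent.H914.WeilCohomology Pool.Agent.H281R3.HT Pool.Agent.TH125.Gal
  Pool.Agent.Y104.Kempf

theorem detOn_map {K V V' : Type*} [Field K] [AddCommGroup V] [Module K V] [AddCommGroup V']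
    [Module K V'] (φ : V →ₗ[K] V') (hφ : Function.Injective φ) (f : V →ₗ[K] V)
    (f' : V' →ₗ[K] V') (h : ∀ x, f' (φ x) = φ (f x)) (F : Submodule K V) :
    detOn f' (F.map φ) = detOn f F := by
  by_cases hs : ∀ x ∈ F, f x ∈ F
  · have hs' : ∀ x ∈ F.map φ, f' x ∈ F.map φ := by
      rintro _ ⟨x, hx, rfl⟩
      rw [h]
      exact ⟨_, hs x hx, rfl⟩
    rw [detOn_eq f F hs, detOn_eq f' _ hs', ← LinearMap.det_conj (f.restrict hs)
      (Submodule.equivMapOfInjective φ hφ F)]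
    congr 1
    ext y
    obtain ⟨x, rfl⟩ := (Submodule.equivMapOfInjective φ hφ F).surjective y
    simp only [LinearMap.coe_restrict_apply, Submodule.coe_equivMapOfInjective_apply,
      LinearMap.comp_apply, LinearEquiv.coe_coe, LinearEquiv.symm_apply_apply]
    exact h _
  · have hs' : ¬ ∀ x ∈ F.map φ, f' x ∈ F.map φ := by
      intro h1
      apply hs
      intro x hx
      obtain ⟨y, hy, hyx⟩ := h1 (φ x) ⟨x, hx, rfl⟩
      rw [h] at hyx
      rw [← hφ hyx]
      exact hy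
    simp only [detOn, dif_neg hs, dif_neg hs']

variable {k : Type u} [Field k] {𝒱 : VarClass k} {ops : CycleOps 𝒱}
  {W : WeilCohomology.{u, v} ops} {Γ : Type w} [Group Γ] {χ : Γ →* W.Kˣ} {G : Set (GVar W Γ)}

/-- The classes span a subspace stable under the group, the twist is semi-invariant, and invariant
under the kernel of the character, and the trace form on the algebra of the correspondences is
nondegenerate. -/
structure GoodP (χ : Γ →* W.Kˣ) (X : GVar W Γ) (P : Piece W X.X) : Prop where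
  stable : ∀ γ q, X.act γ (P.x q) ∈ Submodule.span W.K (Set.range P.x)
  semi : ∀ γ, ∃ a : W.K, a ≠ 0 ∧ X.act γ P.θ = a • P.θ
  fix : ∀ γ, χ γ = 1 → X.act γ P.θ = P.θ
  nd : ∀ e ∈ P.Ealg, (∀ e' ∈ P.Ealg, (e * e').trace = 0) → e = 0

/-- Elements of the kernel of the character act on algebraic classes with finite orbits. -/
def FinOrb (χ : Γ →* W.Kˣ) (G : Set (GVar W Γ)) : Prop :=
  ∀ X ∈ G, ∀ γ, χ γ = 1 → ∀ c ∈ algSpan W X.X, ∃ m : ℕ, 0 < m ∧ X.act (γ ^ m) c = c

section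

variable {X : GVar W Γ} {P : Piece W X.X}

theorem GoodP.exists_gmat (hP : GoodP χ X P) (γ : Γ) : ∃ g : Matrix P.J P.J W.K,
    ∀ q, X.act γ (P.x q) = ∑ p, g p q • P.x p := by
  choose a ha using fun q => exists_coef (hP.stable γ q)
  exact ⟨fun p q => a q p, ha⟩

theorem gmat_pow {γ : Γ} {g : Matrix P.J P.J W.K}
    (hg : ∀ q, X.act γ (P.x q) = ∑ p, g p q • P.x p) (m : ℕ) (q : P.J) :
    X.act (γ ^ m) (P.x q) = ∑ p, (g ^ m) p q • P.x p := by
  induction m generalizing q with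
  | zero =>
    rw [pow_zero, pow_zero, map_one, Finset.sum_eq_single q]
    · rw [Matrix.one_apply_eq, one_smul]
      rfl
    · intro p _ hp
      rw [Matrix.one_apply_ne hp, zero_smul]
    · intro h
      exact absurd (Finset.mem_univ _) h
  | succ m ih =>
    rw [pow_succ, pow_succ]
    exact gmat_mul ih hg q

theorem gmat_form' (hX : IsGaloisVar χ X) {γ : Γ} {a : W.K} (ha : a ≠ 0)
    (h1 : X.act γ P.θ = a • P.θ) {g : Matrix P.J P.J W.K}
    (hg : ∀ q, X.act γ (P.x q) = ∑ p, g p q • P.x p) :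
    gᵀ * P.Q * g = (a⁻¹ * (χ γ : W.K) ^ X.X.dim) • P.Q := by
  ext p q
  have h2 : W.tr X.X (X.act γ (P.x p) * X.act γ (P.x q) * P.θ) = (gᵀ * P.Q * g) p q := by
    rw [hg p, hg q, Matrix.mul_assoc, Matrix.mul_apply, Finset.sum_mul, Finset.sum_mul, map_sum]
    refine Finset.sum_congr rfl fun r _ => ?_
    rw [smul_mul_assoc, smul_mul_assoc, map_smul, P.pair_sum, smul_eq_mul,
      Matrix.transpose_apply]
    rfl
  have h3 : W.tr X.X (X.act γ (P.x p) * X.act γ (P.x q) * (a • P.θ)) =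
      (χ γ : W.K) ^ X.X.dim * P.Q p q := by
    rw [← h1, ← map_mul, ← map_mul, hX.tr_act, P.Q_eq]
  rw [mul_smul_comm, map_smul, h2, smul_eq_mul] at h3
  rw [Matrix.smul_apply, smul_eq_mul, mul_assoc a⁻¹, ← h3, inv_mul_cancel_left₀ ha]

end

section

variable {ι : Type} [Fintype ι] [DecidableEq ι] {X : ι → GVar W Γ}
  (P : ∀ j, Piece W (X j).X) {n : ℕ} (c : Fin n → ι)

/-- The families of matrices given by the elements of the group. -/
def GMat (Γ₁ : Set Γ) : Set (∀ j, Matrix (P j).J (P j).J W.K) :=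
  {g | ∃ γ ∈ Γ₁, ∀ j q, (X j).act γ ((P j).x q) = ∑ p, g j p q • (P j).x p}

/-- The universal form of a tensor. -/
theorem CSet_univ (hG : GaloisClass χ G) (hX : ∀ j, X j ∈ G) (s₀ : Fin n)
    {y : (Fin n → Tc P) → W.K} (hy : y ∈ CSet P c) :
    ∃ C ∈ G, ∃ (pr : ∀ s : Fin n, C.X ⟶ (X (c s)).X) (z : W.H C.X),
      (∀ s, Equivariant (A := C) (B := X (c s)) (pr s)) ∧ z ∈ rad W C.X ∧
      y = fun I => W.tr C.X (z * (List.ofFn fun s => W.map (pr s) (xc P (c s) (I s))).prod) := by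
  obtain ⟨Y, p, z, hz, rfl⟩ := hy
  obtain ⟨C, hC, pr, qz, hpr, hqz, hun⟩ := exists_univ hG n (fun s => X (c s)) (fun s => hX _)
    (X (c s₀)) (hX _)
  obtain ⟨f, hf, hfq⟩ := hun Y p (p s₀)
  refine ⟨C, hC, pr, W.push f z, hpr, rad_push f hz, ?_⟩
  funext I
  rw [W.tr_push, map_list_prod, List.map_ofFn]
  congr 3
  refine congrArg List.ofFn (funext fun s => ?_)
  change _ = W.map f (W.map (pr s) _)
  rw [← W.map_comp, hf]

/-- **The action of the group on the tensors.** -/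
theorem CSet_gtact {C : GVar W Γ} (hC : IsGaloisVar χ C) {pr : ∀ s : Fin n, C.X ⟶ (X (c s)).X}
    (hpr : ∀ s, Equivariant (A := C) (B := X (c s)) (pr s)) (z : W.H C.X) {γ : Γ}
    {g : ∀ j, Matrix (P j).J (P j).J W.K}
    (hγ : ∀ j q, (X j).act γ ((P j).x q) = ∑ p, g j p q • (P j).x p) :
    gtact (fun _ => Matrix.blockDiagonal' fun j => (g j)ᵀ) (fun I => W.tr C.X (z *
      (List.ofFn fun s => W.map (pr s) (xc P (c s) (I s))).prod)) =
    fun I => W.tr C.X ((χ γ : W.K) ^ C.X.dim • C.act γ⁻¹ z *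
      (List.ofFn fun s => W.map (pr s) (xc P (c s) (I s))).prod) := by
  funext J
  rw [gtact_eq (W.tr C.X) z (fun s i => W.map (pr s) (xc P (c s) i))]
  have h2 : ∀ s, ∑ i, Matrix.blockDiagonal' (fun j => (g j)ᵀ) (J s) i •
      W.map (pr s) (xc P (c s) i) = C.act γ (W.map (pr s) (xc P (c s) (J s))) := by
    intro s
    rw [hpr s γ]
    refine (xc_lin P ((W.map (pr s)).toLinearMap ∘ₗ ((X (c s)).act γ).toLinearMap)
      (W.map (pr s)).toLinearMap g (fun q => ?_) (J s)).symm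
    change W.map (pr s) ((X (c s)).act γ ((P (c s)).x q)) = _
    rw [hγ (c s) q, map_sum]
    exact Finset.sum_congr rfl fun p _ => map_smul _ _ _
  simp only [h2]
  have h3 : (List.ofFn fun s => C.act γ (W.map (pr s) (xc P (c s) (J s)))).prod =
      C.act γ (List.ofFn fun s => W.map (pr s) (xc P (c s) (J s))).prod := by
    rw [map_list_prod, List.map_ofFn]
    rfl
  have h4 : z * C.act γ (List.ofFn fun s => W.map (pr s)
      (xc P (c s) (J s))).prod = C.act γ (C.act γ⁻¹ z *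
        (List.ofFn fun s => W.map (pr s) (xc P (c s) (J s))).prod) := by
    rw [map_mul, act_cancel]
  rw [h3, h4, hC.tr_act, smul_mul_assoc, map_smul, smul_eq_mul]

/-- **The tensors are stable under the group.** -/
theorem CSet_act (hG : GaloisClass χ G) (hX : ∀ j, X j ∈ G) (s₀ : Fin n) {Γ₁ : Set Γ}
    {g : ∀ j, Matrix (P j).J (P j).J W.K} (hg : g ∈ GMat P Γ₁)
    {y : (Fin n → Tc P) → W.K} (hy : y ∈ CSet P c) :
    gtact (fun _ => Matrix.blockDiagonal' fun j => (g j)ᵀ) y ∈ CSet P c := by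
  obtain ⟨γ, -, hγ⟩ := hg
  obtain ⟨C, hC, pr, z, hpr, hz, rfl⟩ := CSet_univ P c hG hX s₀ hy
  exact ⟨C.X, pr, (χ γ : W.K) ^ C.X.dim • C.act γ⁻¹ z,
    Submodule.smul_mem _ _ (act_rad (hG.galois C hC) _ hz),
    CSet_gtact P c (hG.galois C hC) hpr z hγ⟩

/-- **Finite orbits.** -/
theorem CSet_fin (hG : GaloisClass χ G) (hX : ∀ j, X j ∈ G) (hfo : FinOrb χ G) (s₀ : Fin n)
    {γ : Γ} (hγ1 : χ γ = 1) {g : ∀ j, Matrix (P j).J (P j).J W.K}
    (hγ : ∀ j q, (X j).act γ ((P j).x q) = ∑ p, g j p q • (P j).x p)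
    {y : (Fin n → Tc P) → W.K} (hy : y ∈ CSet P c) : ∃ m : ℕ, 0 < m ∧
    gtact (fun _ => Matrix.blockDiagonal' fun j => ((g j) ^ m)ᵀ) y = y := by
  obtain ⟨C, hC, pr, z, hpr, hz, rfl⟩ := CSet_univ P c hG hX s₀ hy
  obtain ⟨m, hm, h1⟩ := hfo C hC γ hγ1 z (mem_rad.1 hz).1
  refine ⟨m, hm, ?_⟩
  rw [CSet_gtact P c (hG.galois C hC) hpr z (γ := γ ^ m) (g := fun j => g j ^ m)
    (fun j q => gmat_pow (hγ j) m q)]
  have h2 : C.act (γ ^ m)⁻¹ z = z := by
    conv_lhs => rw [← h1]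
    exact act_cancel' C (γ ^ m) z
  rw [h2, map_pow, hγ1, one_pow, Units.val_one, one_pow, one_smul]

end

section

variable {ι : Type} [Fintype ι] [DecidableEq ι] {X : ι → GVar W Γ}
  (P : ∀ j, Piece W (X j).X)

/-- The flags of stable isotropic subspaces of the pieces with torsion determinants are trivial. -/
def DetCond (χ : Γ →* W.Kˣ) {ι : Type} [Fintype ι] {X : ι → GVar W Γ}
    (P : ∀ j, Piece W (X j).X) : Prop :=
  ∀ (r : ℕ) (F : ∀ j, Fin r → Submodule W.K (W.H (X j).X)) (e : Fin r → ℕ),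
    (∀ i, 0 < e i) → (∀ j, Antitone (F j)) →
    (∀ j i, F j i ≤ Submodule.span W.K (Set.range (P j).x)) →
    (∀ j i γ, ∀ v ∈ F j i, (X j).act γ v ∈ F j i) →
    (∀ j i, ∀ d ∈ algSpan W ((X j).X.prod (X j).X),
      (∀ u ∈ Submodule.span W.K (Set.range (P j).x),
        W.corr d u ∈ Submodule.span W.K (Set.range (P j).x)) → ∀ v ∈ F j i, W.corr d v ∈ F j i) →
    (∀ j i, ∀ a ∈ F j i, ∀ b ∈ F j i, W.tr (X j).X (a * b * (P j).θ) = 0) →
    (∀ γ, χ γ = 1 → ∃ m : ℕ, 0 < m ∧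
      (∏ i, ∏ j, detOn ((X j).act γ).toLinearMap (F j i) ^ e i) ^ m = 1) → ∀ j i, F j i = ⊥

/-- **The vanishing of the tensors.** -/
theorem CSet_zero (hG : GaloisClass χ G) (hX : ∀ j, X j ∈ G) (hfo : FinOrb χ G)
    (hP : ∀ j, GoodP χ (X j) (P j)) (hdet : DetCond χ P) {n : ℕ} (c : Fin n → ι) :
    ∀ y ∈ CSet P c, y = 0 := by
  classical
  rcases Nat.eq_zero_or_pos n with rfl | hn
  · rintro y ⟨Y, p, z, hz, rfl⟩
    funext I
    rw [List.ofFn_zero, List.prod_nil, mul_one]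
    have h1 := rad_tr hz algSpan_one
    rwa [mul_one] at h1
  have hgm : ∀ γ : Γ, ∃ g : ∀ j, Matrix (P j).J (P j).J W.K,
      ∀ j q, (X j).act γ ((P j).x q) = ∑ p, g j p q • (P j).x p := by
    intro γ
    choose g hg using fun j => (hP j).exists_gmat γ
    exact ⟨g, hg⟩
  have hunit : ∀ g ∈ GMat P (Set.univ : Set Γ), ∀ j, IsUnit (g j) := by
    rintro g ⟨γ, -, hγ⟩ j
    obtain ⟨g', hg'⟩ := hgm γ⁻¹
    exact IsUnit.of_mul_eq_one _ (gmat_inv (hγ j) (hg' j))
  have hlc : ∀ j (a : (P j).J → W.K), Fintype.linearCombination W.K (P j).x a =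
      ∑ p, a p • (P j).x p := fun j a => Fintype.linearCombination_apply _ _ _
  have hinj : ∀ j, Function.Injective (Fintype.linearCombination W.K (P j).x) := by
    intro j a b hab
    rw [hlc, hlc] at hab
    exact (P j).sum_inj hab
  refine core4 (c := c) (Q := fun j => (P j).Q) (ε := fun j => (P j).ε) (fun j => (P j).ε_sq)
    (fun j => (P j).Q_symm) (fun j => (P j).isUnit) (N := CSet P c) (CSet_color P c)
    (fun m z hz => CSet_null P c m z hz) (G := GMat P Set.univ) (G₁ := GMat P {γ | χ γ = 1})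
    (fun g ⟨γ, _, hγ⟩ => ⟨γ, Set.mem_univ _, hγ⟩) hunit ?_ ?_
    (fun g hg y hy => CSet_act P c hG hX ⟨0, hn⟩ hg hy) ?_ (fun j => (P j).Ealg)
    (fun j e he => (P j).adj_mem he)
    (fun e he y hy => CSet_corr P c e (fun s => he s (c s)) hy) (fun j => (hP j).nd) ?_
  · rintro g ⟨γ, -, hγ⟩ j
    obtain ⟨a, ha, h1⟩ := (hP j).semi γ
    exact ⟨_, mul_ne_zero (inv_ne_zero ha) (pow_ne_zero _ (Units.ne_zero _)),
      gmat_form' (hG.galois _ (hX j)) ha h1 (hγ j)⟩
  · rintro g ⟨γ, hγ1, hγ⟩ j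
    have h1 := gmat_form' (hG.galois _ (hX j)) (a := 1) one_ne_zero
      (by rw [one_smul]; exact (hP j).fix γ hγ1) (hγ j)
    rw [show χ γ = 1 from hγ1, inv_one, Units.val_one, one_pow, one_mul, one_smul] at h1
    exact h1
  · rintro g ⟨γ, hγ1, hγ⟩ y hy
    exact CSet_fin P c hG hX hfo ⟨0, hn⟩ hγ1 hγ hy
  · intro r F e he hanti hFG hFE hFiso hFdet
    let F' : ∀ j, Fin r → Submodule W.K (W.H (X j).X) := fun j i =>
      (F j i).map (Fintype.linearCombination W.K (P j).x)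
    have h0 := hdet r F' e he ?_ ?_ ?_ ?_ ?_ ?_
    · intro j i
      have h1 := h0 j i
      rw [eq_bot_iff]
      intro a ha
      have h2 : Fintype.linearCombination W.K (P j).x a ∈ F' j i := ⟨a, ha, rfl⟩
      rw [h1, Submodule.mem_bot] at h2
      rw [Submodule.mem_bot]
      exact hinj j (by rw [h2, map_zero])
    · intro j i i' hii
      exact Submodule.map_mono (hanti j hii)
    · rintro j i _ ⟨a, _, rfl⟩
      rw [hlc]
      exact sum_mem_span a
    · rintro j i γ _ ⟨a, ha, rfl⟩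
      obtain ⟨g, hg⟩ := hgm γ
      refine ⟨g j *ᵥ a, hFG j i g ⟨γ, Set.mem_univ _, hg⟩ a ha, ?_⟩
      rw [hlc, hlc]
      exact (lin_sum (φ := ((X j).act γ).toLinearMap) (hg j) a).symm
    · rintro j i d hd hds _ ⟨a, ha, rfl⟩
      choose m hm using fun q => exists_coef (P := P j) (hds _
        (Submodule.subset_span ⟨q, rfl⟩))
      refine ⟨(fun p q => m q p : Matrix (P j).J (P j).J W.K) *ᵥ a,
        hFE j i _ ⟨d, hd, hm⟩ a ha, ?_⟩
      rw [hlc, hlc]
      exact (lin_sum (φ := W.corr d) hm a).symm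
    · rintro j i _ ⟨a, ha, rfl⟩ _ ⟨b, hb, rfl⟩
      rw [hlc, hlc, Finset.sum_mul, Finset.sum_mul, map_sum]
      rw [← hFiso j i a ha b hb]
      refine Finset.sum_congr rfl fun p _ => ?_
      rw [smul_mul_assoc, smul_mul_assoc, map_smul, (P j).pair_sum, smul_eq_mul]
    · intro γ hγ1
      obtain ⟨g, hg⟩ := hgm γ
      obtain ⟨m, hm, h1⟩ := hFdet g ⟨γ, hγ1, hg⟩
      refine ⟨m, hm, ?_⟩
      rw [← h1]
      congr 1
      refine Finset.prod_congr rfl fun i _ => Finset.prod_congr rfl fun j _ => ?_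
      congr 1
      refine detOn_map _ (hinj j) _ _ (fun a => ?_) (F j i)
      rw [hlc, Matrix.mulVecLin_apply, hlc]
      exact lin_sum (φ := ((X j).act γ).toLinearMap) (hg j) a

end

end Pool.Agent.Y104.Geo
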