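import Pool.Agent.TH125.Gal.Pub2

/-!
# Stable isotropic subspaces of the cohomology: definitions
-/

open CategoryTheory AlgebraicGeometry

universe u v w

namespace Pool.Agent.Y104.Geo

section Alg

variable {K : Type*} [Field K] {A : Type*} [Ring A] [Algebra K A] {Γ : Type*} [Group Γ]

/-- The subspace `V` is stable under the group `Γ`. -/
def StableAct (ρ : Γ →* (A ≃ₐ[K] A)) (V : Submodule K A) : Prop :=
  ∀ g, ∀ a ∈ V, ρ g a ∈ V

/-- The subspace `V` is stable under all operators in `E` which preserve the subspace `U`. -/
def StableUnder (E : Set (A →ₗ[K] A)) (U V : Submodule K A) : Prop :=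
  ∀ e ∈ E, (∀ a ∈ U, e a ∈ U) → ∀ a ∈ V, e a ∈ V

/-- The subspace `U` of `A` does not contain a subspace `V` different from `0` which is isotropic
for the form `tr (a b)`, stable under the group `Γ` and stable under all operators in `E` which
preserve `U`. -/
def NoIsotropicIn (tr : A →ₗ[K] K) (U : Submodule K A) (ρ : Γ →* (A ≃ₐ[K] A))
    (E : Set (A →ₗ[K] A)) : Prop :=
  ∀ V ≤ U, StableAct ρ V → StableUnder E U V → (∀ a ∈ V, ∀ b ∈ V, tr (a * b) = 0) → V = ⊥

/-- One of the operators in `E` is on `T` the multiplication by `(-1) ^ i` in degree `i`. -/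
def SignIn (gr : ℕ → Submodule K A) (T : Submodule K A) (E : Set (A →ₗ[K] A)) : Prop :=
  ∃ e ∈ E, ∀ i, ∀ t ∈ T, t ∈ gr i → e t = (-1 : K) ^ i • t

end Alg

open Pool.Agent.H914 Pool.Agent.H914.VarClass Pool.Agent.H914.VarClass.Obj
  Pool.Agent.H914.WeilCohomology Pool.Agent.H281R3.HT Pool.Agent.TH125.Gal

variable {k : Type u} [Field k] {𝒱 : VarClass k} {ops : CycleOps 𝒱}

/-- The linear combinations of the operators on the cohomology of `X` which are induced by
algebraic correspondences from `X` to `X` of any degree. -/
def AlgCorr (W : WeilCohomology.{u, v} ops) (X : 𝒱.Obj) : Set (W.H X →ₗ[W.K] W.H X) :=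
  {e | ∃ c ∈ algSpan W (X.prod X), corrOp (W.map (fst X X)) (W.push (snd X X)) c = e}

/-- The sign conjecture for the transcendental cohomology `T(X)`: the operator on `T(X)` which is
the multiplication by `(-1) ^ i` in degree `i` is a linear combination of algebraic
correspondences (for instance, `T(X)` is concentrated in degrees of one parity). -/
def SignAlgebraic (W : WeilCohomology.{u, v} ops) (X : 𝒱.Obj) : Prop :=
  SignIn (W.gr X) (transcendental W X) (AlgCorr W X)

/-- The transcendental cohomology `T(X)` does not contain a subspace different from `0` which is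
isotropic for the intersection form and stable under the group `Γ` and under all algebraic
correspondences. -/
def NoStableIsotropic {W : WeilCohomology.{u, v} ops} {Γ : Type w} [Group Γ] (X : GVar W Γ) :
    Prop :=
  NoIsotropicIn (W.tr X.X) (transcendental W X.X) X.act (AlgCorr W X.X)

end Pool.Agent.Y104.Geo
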