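import Pool.Agent.Y104.Spn
import Pool.Agent.Y104.Pub

/-!
# The transcendental cohomology as a sum of self-dual pieces
-/

open CategoryTheory AlgebraicGeometry
open scoped Matrix

set_option linter.unusedSectionVars false

universe u v w

namespace Pool.Agent.Y104.Geo

open Pool.Agent.H914 Pool.Agent.H914.VarClass Pool.Agent.H914.VarClass.Obj
  Pool.Agent.H914.WeilCohomology Pool.Agent.H281R3.HT Pool.Agent.TH125.Gal
  Pool.Agent.Y104.Kempf

variable {k : Type u} [Field k] {𝒱 : VarClass k} {ops : CycleOps 𝒱}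

variable {W : WeilCohomology.{u, v} ops} {X : 𝒱.Obj}

theorem mem_algCorr {e : W.H X →ₗ[W.K] W.H X} :
    e ∈ AlgCorr W X ↔ ∃ c ∈ algSpan W (X.prod X), W.corr c = e := Iff.rfl

/-- The sign operator on the transcendental cohomology. -/
theorem SignAlgebraic.exists_par (h : SignAlgebraic W X) : ∃ c ∈ algSpan W (X.prod X),
    ∀ t ∈ transcendental W X, W.corr c t = par (W.isInternal X) t := by
  obtain ⟨_, ⟨c, hc, rfl⟩, h1⟩ := h
  refine ⟨c, hc, fun t ht => ?_⟩
  have h2 := sum_proj (W.isInternal X) (N := 2 * X.dim + 1)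
    (fun i hi => W.gr_eq_bot X i (by omega))
  have h3 : t = ∑ l ∈ Finset.range (2 * X.dim + 1), proj (W.isInternal X) l t := by
    have h4 := congrArg (fun F => F t) h2
    simpa [LinearMap.sum_apply] using h4.symm
  rw [h3, map_sum, map_sum]
  refine Finset.sum_congr rfl fun i _ => ?_
  have h5 := proj_mem (W.isInternal X) i t
  exact (h1 i _ (proj_trans i ht) h5).trans (scal_apply _ _ h5).symm

/-- Classes of different parity are orthogonal. -/
theorem tr_par_zero {e i : ℕ} {a x : W.H X} (ha : a ∈ hpar W X e) (hx : x ∈ hpar W X i)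
    (h : (e + i) % 2 ≠ 0) : W.tr X (a * x) = 0 := by
  induction ha using Submodule.span_induction with
  | mem a ha =>
    obtain ⟨j, hj, ha⟩ := ha
    induction hx using Submodule.span_induction with
    | mem x hx =>
      obtain ⟨l, hl, hx⟩ := hx
      exact W.tr_eq_zero (W.mul_mem ha hx) (by omega)
    | zero => rw [mul_zero, map_zero]
    | add x y _ _ hx hy => rw [mul_add, map_add, hx, hy, add_zero]
    | smul q x _ hx => rw [mul_smul_comm, map_smul, hx, smul_zero]
  | zero => rw [zero_mul, map_zero]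
  | add x y _ _ hx hy => rw [add_mul, map_add, hx, hy, add_zero]
  | smul q x _ hx => rw [smul_mul_assoc, map_smul, hx, smul_zero]

theorem sgn_sq (e : ℕ) : (-1 : W.K) ^ (e * e) * (-1 : W.K) ^ (e * e) = 1 := by
  rw [← pow_add, ← two_mul, pow_mul]
  simp

/-- **A subspace on which the form is not degenerate is a piece if the projection to it is
algebraic.** -/
theorem exists_piece {U : Submodule W.K (W.H X)} {e : ℕ} (hU : U ≤ hpar W X e)
    (hnd : ∀ u ∈ U, (∀ v ∈ U, W.tr X (u * v) = 0) → u = 0) {c : W.H (X.prod X)}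
    (hc : c ∈ algSpan W (X.prod X)) (hc1 : ∀ a, W.corr c a ∈ U)
    (hc2 : ∀ a, ∀ u ∈ U, W.tr X (W.corr c a * u) = W.tr X (a * u)) :
    ∃ P : Piece W X, P.e = e ∧ P.θ = 1 ∧ Submodule.span W.K (Set.range P.x) = U := by
  let b := Module.finBasis W.K U
  let Q : Matrix (Fin (Module.finrank W.K U)) (Fin (Module.finrank W.K U)) W.K :=
    fun p q => W.tr X ((b p : W.H X) * (b q : W.H X))
  have hsum : ∀ (v : Fin (Module.finrank W.K U) → W.K) (p), W.tr X ((b p : W.H X) *
      ∑ q, v q • (b q : W.H X)) = (Q *ᵥ v) p := by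
    intro v p
    rw [Finset.mul_sum, map_sum]
    change _ = ∑ q, Q p q * v q
    refine Finset.sum_congr rfl fun q _ => ?_
    rw [mul_smul_comm, map_smul, smul_eq_mul, mul_comm]
  have hexp : ∀ u ∈ U, ∃ v : Fin (Module.finrank W.K U) → W.K, u = ∑ q, v q • (b q : W.H X) := by
    intro u hu
    refine ⟨b.repr ⟨u, hu⟩, ?_⟩
    have h1 := congrArg (Subtype.val) (b.sum_repr ⟨u, hu⟩)
    rw [Submodule.coe_sum] at h1
    exact h1.symm
  have hmem : ∀ v : Fin (Module.finrank W.K U) → W.K, ∑ q, v q • (b q : W.H X) ∈ U :=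
    fun v => Submodule.sum_mem _ fun q _ => Submodule.smul_mem _ _ (b q).2
  have hQ : IsUnit Q := by
    rw [← Matrix.mulVec_injective_iff_isUnit]
    intro v w hvw
    have h1 : Q *ᵥ (v - w) = 0 := by
      rw [Matrix.mulVec_sub]
      exact sub_eq_zero.2 hvw
    have h2 : ∑ q, (v - w) q • (b q : W.H X) = 0 := by
      refine hnd _ (hmem _) fun u hu => ?_
      obtain ⟨a, rfl⟩ := hexp u hu
      rw [Finset.mul_sum, map_sum]
      refine Finset.sum_eq_zero fun p _ => ?_
      rw [mul_smul_comm, map_smul, hpar_comm e e _ (hU (hmem _)) _ (hU (b p).2), map_smul,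
        hsum, h1]
      simp
    have h3 : (∑ q, (v - w) q • b q : U) = 0 := by
      apply Subtype.ext
      rw [Submodule.coe_sum]
      exact h2
    have h4 := Fintype.linearIndependent_iff.1 b.linearIndependent _ h3
    funext q
    exact sub_eq_zero.1 (h4 q)
  have hQd := (Matrix.isUnit_iff_isUnit_det _).1 hQ
  have hβ : ∑ p, ∑ q, Q⁻¹ p q • (W.map (fst X X) (b p : W.H X) *
      W.map (snd X X) (b q : W.H X)) = c := by
    apply W.tr_ext
    intro t
    refine W.kunneth_induction (p := fun t => W.tr (X.prod X) ((∑ p, ∑ q, Q⁻¹ p q •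
      (W.map (fst X X) (b p : W.H X) * W.map (snd X X) (b q : W.H X))) * t) =
        W.tr (X.prod X) (c * t)) ?_ ?_ t
    · intro a b ha hb
      rw [mul_add, mul_add, map_add, map_add, ha, hb]
    · intro i j x hx y hy
      have hxi : x ∈ hpar W X i := hpar_of rfl hx
      rw [← tr_corr c x y]
      obtain ⟨v, hv⟩ := hexp _ (hc1 x)
      have e2 : ∀ p q, W.tr (X.prod X) (W.map (fst X X) (b p : W.H X) *
          W.map (snd X X) (b q : W.H X) * (W.map (fst X X) x * W.map (snd X X) y)) =
          W.tr X (x * (b p : W.H X)) * W.tr X ((b q : W.H X) * y) := by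
        intro p q
        have h1 : W.map (snd X X) (b q : W.H X) * W.map (fst X X) x =
            (-1 : W.K) ^ (e * i) • (W.map (fst X X) x * W.map (snd X X) (b q : W.H X)) :=
          hpar_comm e i _ (hpar_map _ (hU (b q).2)) _ (hpar_map _ hxi)
        rw [mul_assoc, ← mul_assoc (W.map (snd X X) _), h1, smul_mul_assoc, mul_smul_comm,
          mul_assoc, ← mul_assoc (W.map (fst X X) _), ← map_mul, ← map_mul, map_smul, W.tr_prod,
          smul_eq_mul, hpar_comm i e x hxi _ (hU (b p).2), map_smul, smul_eq_mul, mul_assoc,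
          mul_comm e i]
      have e3 : ∀ p, ∑ q, v q * Q q p = W.tr X (x * (b p : W.H X)) := by
        intro p
        rw [← hc2 x _ (b p).2, hv, Finset.sum_mul, map_sum]
        refine Finset.sum_congr rfl fun q _ => ?_
        rw [smul_mul_assoc, map_smul, smul_eq_mul]
      have e4 : ∀ q, ∑ p, W.tr X (x * (b p : W.H X)) * Q⁻¹ p q = v q := by
        intro q
        have h1 : ∑ p, W.tr X (x * (b p : W.H X)) * Q⁻¹ p q = ((v ᵥ* Q) ᵥ* Q⁻¹) q := by
          change _ = ∑ p, (∑ q, v q * Q q p) * Q⁻¹ p q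
          exact Finset.sum_congr rfl fun p _ => by rw [e3]
        rw [h1, Matrix.vecMul_vecMul, Matrix.mul_nonsing_inv _ hQd, Matrix.vecMul_one]
      rw [hv, Finset.sum_mul, Finset.sum_mul, map_sum, map_sum]
      simp only [Finset.sum_mul, map_sum, smul_mul_assoc, map_smul, e2, smul_eq_mul]
      rw [Finset.sum_comm]
      refine Finset.sum_congr rfl fun q _ => ?_
      rw [← e4 q, Finset.sum_mul]
      exact Finset.sum_congr rfl fun p _ => by ring
  refine ⟨{
    J := Fin (Module.finrank W.K U)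
    fin := inferInstance
    dec := inferInstance
    x := fun p => b p
    e := e
    x_mem := fun p => hU (b p).2
    θ := 1
    θ_mem := algSpan_one
    Q := Q
    Q_eq := fun p q => by rw [mul_one]
    isUnit := hQ
    β_mem := by
      rw [hβ]
      exact hc }, rfl, rfl, ?_⟩
  have h1 : (fun p => (b p : W.H X)) = U.subtype ∘ b := rfl
  change Submodule.span W.K (Set.range fun p => (b p : W.H X)) = _
  rw [h1, Set.range_comp, Submodule.span_image, b.span_eq, Submodule.map_top,
    Submodule.range_subtype]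

/-- The projection to the transcendental part. -/
theorem exists_tproj (hDX : HomEqNum W X) : ∃ c ∈ algSpan W (X.prod X),
    (∀ a, W.corr c a ∈ transcendental W X) ∧ (∀ t ∈ transcendental W X, W.corr c t = t) ∧
    ∀ a, a - W.corr c a ∈ algSpan W X := by
  obtain ⟨s⟩ := exists_SB hDX
  have hdC : dC s ∈ algSpan W (X.prod X) := Submodule.sum_mem _ fun i _ =>
    algSpan_mul (algSpan_map _ (s.bC i).2) (algSpan_map _ (s.uC i).2)
  have h1 : ∀ a, W.corr (dC s) a = ∑ i, bil W X (s.bC i) a • (s.uC i : W.H X) := by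
    intro a
    rw [W.corr_apply, dC, Finset.sum_mul, map_sum]
    refine Finset.sum_congr rfl fun i _ => ?_
    rw [mul_assoc, alg_comm (algSpan_map _ (s.uC i).2), ← mul_assoc, ← map_mul, W.push_snd,
      bil_apply]
  have h2 : ∀ a, W.corr (W.push (diag X) 1 - dC s) a = a - W.corr (dC s) a := by
    intro a
    rw [W.corr_apply, sub_mul, map_sub, ← W.corr_apply, ← W.corr_apply, corr_diag_one]
  have h3 : ∀ t ∈ transcendental W X, W.corr (dC s) t = 0 := by
    intro t ht
    rw [h1]
    refine Finset.sum_eq_zero fun i _ => ?_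
    rw [alg_trans ht (s.bC i).2, zero_smul]
  refine ⟨W.push (diag X) 1 - dC s, Submodule.sub_mem _ (diag_mem algSpan_one) hdC,
    fun a => ?_, fun t ht => ?_, fun a => ?_⟩
  · have hb : a ∈ algSpan W X ⊔ transcendental W X := by
      rw [(isCompl hDX).sup_eq_top]; exact Submodule.mem_top
    obtain ⟨c, hc, t, ht, rfl⟩ := Submodule.mem_sup.1 hb
    rw [h2, map_add, h3 t ht, add_zero, h1 c, ← expand_uC s hc, add_sub_cancel_left]
    exact ht
  · rw [h2, h3 t ht, sub_zero]
  · rw [h2, sub_sub_cancel, h1]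
    exact Submodule.sum_mem _ fun i _ => Submodule.smul_mem _ _ (s.uC i).2

/-- The transcendental cohomology is stable under algebraic correspondences. -/
theorem corr_trans {c : W.H (X.prod X)} (hc : c ∈ algSpan W (X.prod X)) {t : W.H X}
    (ht : t ∈ transcendental W X) : W.corr c t ∈ transcendental W X := by
  rw [mem_trans']
  intro a ha
  rw [bil_apply, ← tr_corr_swap hc, ← bil_apply]
  refine trans_alg ht ?_
  rw [W.corr_apply]
  exact algSpan_push _ (algSpan_mul (algSpan_map _ hc) (algSpan_map _ ha))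

theorem par_hpar {e : ℕ} {a : W.H X} (ha : a ∈ hpar W X e) :
    par (W.isInternal X) a = (-1 : W.K) ^ e • a := by
  induction ha using Submodule.span_induction with
  | mem a ha =>
    obtain ⟨i, hi, ha⟩ := ha
    rw [par, scal_apply _ _ ha, sgn_congr hi]
  | zero => rw [map_zero, smul_zero]
  | add x y _ _ hx hy => rw [map_add, smul_add, hx, hy]
  | smul q x _ hx => rw [map_smul, hx, smul_comm]

theorem add_par (e : ℕ) (a : W.H X) :
    a + (-1 : W.K) ^ e • par (W.isInternal X) a ∈ hpar W X e := by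
  refine gr_induction (W.isInternal X)
    (p := fun a => a + (-1 : W.K) ^ e • par (W.isInternal X) a ∈ hpar W X e) ?_ ?_ a
  · intro i a ha
    rw [par, scal_apply _ _ ha, smul_smul, ← pow_add]
    by_cases hi : i % 2 = e % 2
    · exact Submodule.add_mem _ (hpar_of hi ha) (Submodule.smul_mem _ _ (hpar_of hi ha))
    · have h1 : (-1 : W.K) ^ (e + i) = -1 := by
        have h2 : (-1 : W.K) ^ (e + i) = (-1) ^ 1 := sgn_congr (by omega)
        rw [h2, pow_one]
      rw [h1, neg_one_smul, add_neg_cancel]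
      exact Submodule.zero_mem _
  · intro a b ha hb
    rw [map_add, smul_add]
    have h1 := Submodule.add_mem _ ha hb
    rwa [add_add_add_comm] at h1

section

variable {Γ : Type w} [Group Γ] {χ : Γ →* W.Kˣ} {X : GVar W Γ}

theorem act_trans' (hX : IsGaloisVar χ X) (γ : Γ) {t : W.H X.X}
    (ht : t ∈ transcendental W X.X) : X.act γ t ∈ transcendental W X.X := by
  rw [mem_trans']
  intro c hc
  rw [bil_apply, ← act_cancel X γ c, ← map_mul, hX.tr_act, ← bil_apply,
    trans_alg ht (act_alg hX γ⁻¹ hc), mul_zero]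

/-- **The even and the odd part of the transcendental cohomology are good pieces.** -/
theorem exists_good (hX : IsGaloisVar χ X) (hDX : HomEqNum W X.X) (hs : SignAlgebraic W X.X)
    (hni : NoStableIsotropic X) (e : ℕ) : ∃ P : Piece W X.X, GoodPiece X P ∧
      Submodule.span W.K (Set.range P.x) = transcendental W X.X ⊓ hpar W X.X e := by
  obtain ⟨c₀, hc₀, h1, h2, h3⟩ := exists_tproj hDX
  obtain ⟨cs, hcs, h4⟩ := hs.exists_par
  obtain ⟨c', hc', h5⟩ := corr_comp_span hc₀ hcs
  have h6 : ∀ a, W.corr c' a = par (W.isInternal X.X) (W.corr c₀ a) := by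
    intro a
    rw [h5, LinearMap.comp_apply, h4 _ (h1 a)]
  have h2' : (2 : W.K) ≠ 0 := two_ne_zero
  set c : W.H (X.X.prod X.X) := (2 : W.K)⁻¹ • (c₀ + (-1 : W.K) ^ e • c') with hcdef
  have hc : c ∈ algSpan W (X.X.prod X.X) := Submodule.smul_mem _ _
    (Submodule.add_mem _ hc₀ (Submodule.smul_mem _ _ hc'))
  have hcorr : ∀ a, W.corr c a = (2 : W.K)⁻¹ • (W.corr c₀ a + (-1 : W.K) ^ e •
      par (W.isInternal X.X) (W.corr c₀ a)) := by
    intro a
    rw [hcdef, W.corr_smul, W.corr_add, W.corr_smul, LinearMap.smul_apply, LinearMap.add_apply,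
      LinearMap.smul_apply, h6]
  have hpt : ∀ t ∈ transcendental W X.X, par (W.isInternal X.X) t ∈ transcendental W X.X := by
    intro t ht
    rw [← h4 t ht]
    exact corr_trans hcs ht
  have hmem : ∀ a, W.corr c a ∈ transcendental W X.X ⊓ hpar W X.X e := by
    intro a
    rw [hcorr]
    exact ⟨Submodule.smul_mem _ _ (Submodule.add_mem _ (h1 a) (Submodule.smul_mem _ _
      (hpt _ (h1 a)))), Submodule.smul_mem _ _ (add_par e _)⟩
  have hsq : (-1 : W.K) ^ e * (-1 : W.K) ^ e = 1 := by
    rw [← pow_add, ← two_mul, pow_mul]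
    simp
  -- the projection is orthogonal
  have hcp : ∀ a, ∀ u ∈ transcendental W X.X ⊓ hpar W X.X e,
      W.tr X.X (W.corr c a * u) = W.tr X.X (a * u) := by
    intro a u hu
    have h7 : W.tr X.X (W.corr c₀ a * u) = W.tr X.X (a * u) := by
      have h8 := alg_trans hu.1 (h3 a)
      rw [bil_apply, sub_mul, map_sub, sub_eq_zero] at h8
      exact h8.symm
    have h9 : ∀ b, W.tr X.X ((-1 : W.K) ^ e • par (W.isInternal X.X) b * u) =
        W.tr X.X (b * u) := by
      intro b
      refine hpar_induction (p := fun b => W.tr X.X ((-1 : W.K) ^ e •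
        par (W.isInternal X.X) b * u) = W.tr X.X (b * u)) ?_ ?_ b
      · intro f _ b hb
        rw [par_hpar hb, smul_smul]
        by_cases hf : (f + e) % 2 = 0
        · have h10 : (-1 : W.K) ^ f = (-1) ^ e := sgn_congr (by omega)
          rw [h10, hsq, one_smul]
        · rw [smul_mul_assoc, map_smul, tr_par_zero hb hu.2 hf, smul_zero]
      · intro b b' hb hb'
        rw [map_add, smul_add, add_mul, add_mul, map_add, map_add, hb, hb']
    rw [hcorr, smul_mul_assoc, add_mul, map_smul, map_add, h9, h7, ← two_mul, smul_eq_mul,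
      inv_mul_cancel_left₀ h2']
  have hnd : ∀ u ∈ transcendental W X.X ⊓ hpar W X.X e,
      (∀ v ∈ transcendental W X.X ⊓ hpar W X.X e, W.tr X.X (u * v) = 0) → u = 0 := by
    intro u hu h7
    apply W.nondeg
    intro b
    refine hpar_induction (p := fun b => W.tr X.X (u * b) = 0) ?_ ?_ b
    · intro f _ b hb
      by_cases hf : (e + f) % 2 = 0
      · have hb' : b ∈ hpar W X.X e := by
          rw [← hpar_congr (show f % 2 = e % 2 by omega)]
          exact hb
        rw [hpar_comm e e u hu.2 b hb', map_smul, ← hcp b u hu,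
          hpar_comm e e _ (hmem b).2 u hu.2, map_smul, h7 _ (hmem b), smul_zero, smul_zero]
      · exact tr_par_zero hu.2 hb hf
    · intro b b' hb hb'
      rw [mul_add, map_add, hb, hb', add_zero]
  obtain ⟨P, hPe, hPθ, hPs⟩ := exists_piece (U := transcendental W X.X ⊓ hpar W X.X e)
    inf_le_right hnd hc hmem hcp
  refine ⟨P, ⟨fun γ q => ?_, fun γ => ⟨1, one_ne_zero, by rw [hPθ, map_one, one_smul]⟩, ?_⟩, hPs⟩
  · have h7 : P.x q ∈ transcendental W X.X ⊓ hpar W X.X e := by
      rw [← hPs]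
      exact Submodule.subset_span ⟨q, rfl⟩
    rw [hPs]
    exact ⟨act_trans' hX γ h7.1, act_hpar hX γ h7.2⟩
  · rw [hPs, hPθ]
    intro V hV hVΓ hVc hViso
    refine hni V (hV.trans inf_le_left) hVΓ (fun e' he' _ v hv => ?_) fun a ha b hb => ?_
    · obtain ⟨c, hc, rfl⟩ := mem_algCorr.1 he'
      exact hVc c hc (fun u hu => ⟨corr_trans hc hu.1, corr_hpar hc hu.2⟩) v hv
    have h7 := hViso a ha b hb
    rwa [mul_one] at h7

/-- The whole cohomology. -/
theorem gcl_base {G : Set (GVar W Γ)} {𝒵 : Set 𝒱.Obj} (hXG : X ∈ G) (hX : IsGaloisVar χ X)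
    (hDX : HomEqNum W X.X) (hs : SignAlgebraic W X.X) (hni : NoStableIsotropic X) :
    gcl W G 𝒵 X.X = ⊤ := by
  have h1 : ∀ e, transcendental W X.X ⊓ hpar W X.X e ≤ gcl W G 𝒵 X.X := by
    intro e
    obtain ⟨P, hP, hPs⟩ := exists_good hX hDX hs hni e
    rw [← hPs, Submodule.span_le]
    rintro _ ⟨q, rfl⟩
    have h2 := gcl_slot (𝒵 := 𝒵) (⟨X, hXG, P, hP, 𝟙 _, q⟩ : Slot W G X.X)
    rwa [Slot.val, W.map_id] at h2
  have h2 : transcendental W X.X ≤ gcl W G 𝒵 X.X := by
    intro t ht
    obtain ⟨cs, hcs, h4⟩ := hs.exists_par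
    have hpt : par (W.isInternal X.X) t ∈ transcendental W X.X := by
      rw [← h4 t ht]
      exact corr_trans hcs ht
    have h3 : t = (2 : W.K)⁻¹ • ((t + (-1 : W.K) ^ 0 • par (W.isInternal X.X) t) +
        (t + (-1 : W.K) ^ 1 • par (W.isInternal X.X) t)) := by
      rw [pow_zero, one_smul, pow_one, neg_smul, one_smul, add_add_add_comm, add_neg_cancel,
        add_zero, ← two_smul W.K t, smul_smul, inv_mul_cancel₀ two_ne_zero, one_smul]
    rw [h3]
    refine Submodule.smul_mem _ _ (Submodule.add_mem _ (h1 0 ⟨?_, add_par 0 t⟩)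
      (h1 1 ⟨?_, add_par 1 t⟩))
    · exact Submodule.add_mem _ ht (Submodule.smul_mem _ _ hpt)
    · exact Submodule.add_mem _ ht (Submodule.smul_mem _ _ hpt)
  rw [eq_top_iff, ← (isCompl hDX).sup_eq_top]
  exact sup_le (fun a ha => gcl_alg ha) h2

end

end Pool.Agent.Y104.Geo
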