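import Pool.Agent.Y104.Cl2
import Pool.Agent.Y104.Tpc

/-!
# Varieties whose cohomology is generated by a finite family of pieces
-/

open CategoryTheory AlgebraicGeometry
open scoped Matrix

set_option linter.unusedSectionVars false

universe u v w

namespace Pool.Agent.Y104.Geo

open Pool.Agent.H914 Pool.Agent.H914.VarClass Pool.Agent.H914.VarClass.Obj
  Pool.Agent.H914.WeilCohomology Pool.Agent.H281R3.HT Pool.Agent.TH125.Gal
  Pool.Agent.Y104.Kempf

variable {k : Type u} [Field k] {𝒱 : VarClass k} {ops : CycleOps 𝒱}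
  {W : WeilCohomology.{u, v} ops} {Γ : Type w} [Group Γ] {χ : Γ →* W.Kˣ} {G : Set (GVar W Γ)}

/-- A class of one of the pieces, pulled back to `Y`. -/
structure SlotC {ι : Type} {X : ι → GVar W Γ} (P : ∀ j, Piece W (X j).X) (Y : 𝒱.Obj) where
  /-- the index -/
  j : ι
  /-- the morphism -/
  p : Y ⟶ (X j).X
  /-- the class -/
  q : (P j).J

section

variable {ι : Type} [Fintype ι] [DecidableEq ι] {X : ι → GVar W Γ}
  (P : ∀ j, Piece W (X j).X) {Y Y' : 𝒱.Obj}

namespace SlotC

variable {P}

/-- The class on `Y`. -/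
noncomputable def val (s : SlotC P Y) : W.H Y := W.map s.p ((P s.j).x s.q)

/-- Pull-back. -/
def map (f : Y' ⟶ Y) (s : SlotC P Y) : SlotC P Y' := ⟨s.j, f ≫ s.p, s.q⟩

theorem val_map (f : Y' ⟶ Y) (s : SlotC P Y) : (s.map f).val = W.map f s.val :=
  W.map_comp _ _ _

theorem val_mem (s : SlotC P Y) : s.val ∈ hpar W Y (P s.j).e := hpar_map _ ((P s.j).x_mem _)

end SlotC

/-- The subspace spanned by the products of algebraic classes and classes pulled back from the
pieces. -/
def ccl (Y : 𝒱.Obj) : Submodule W.K (W.H Y) :=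
  Submodule.span W.K {c | ∃ a ∈ algSpan W Y, ∃ l : List (SlotC P Y),
    c = a * (l.map SlotC.val).prod}

variable {P}

theorem ccl_of {a : W.H Y} (ha : a ∈ algSpan W Y) (l : List (SlotC P Y)) :
    a * (l.map SlotC.val).prod ∈ ccl P Y := Submodule.subset_span ⟨a, ha, l, rfl⟩

theorem ccl_alg {a : W.H Y} (ha : a ∈ algSpan W Y) : a ∈ ccl P Y := by
  have h1 := ccl_of (P := P) ha []
  rwa [List.map_nil, List.prod_nil, mul_one] at h1

theorem ccl_slot (s : SlotC P Y) : s.val ∈ ccl P Y := by
  have h1 := ccl_of (algSpan_one (W := W) (X := Y)) [s]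
  rwa [List.map_cons, List.prod_cons, List.map_nil, List.prod_nil, mul_one, one_mul] at h1

theorem ccl_mul {c c' : W.H Y} (hc : c ∈ ccl P Y) (hc' : c' ∈ ccl P Y) : c * c' ∈ ccl P Y := by
  induction hc using Submodule.span_induction with
  | mem c hc =>
    obtain ⟨a, ha, l, rfl⟩ := hc
    induction hc' using Submodule.span_induction with
    | mem c' hc' =>
      obtain ⟨a', ha', l', rfl⟩ := hc'
      have h3 : a * (l.map SlotC.val).prod * (a' * (l'.map SlotC.val).prod) =
          a * a' * ((l ++ l').map SlotC.val).prod := by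
        rw [List.map_append, List.prod_append]
        calc a * (l.map SlotC.val).prod * (a' * (l'.map SlotC.val).prod)
            = a * ((l.map SlotC.val).prod * a') * (l'.map SlotC.val).prod := by
              simp only [mul_assoc]
          _ = _ := by
              rw [← alg_comm ha' (l.map SlotC.val).prod]
              simp only [mul_assoc]
      rw [h3]
      exact ccl_of (algSpan_mul ha ha') _
    | zero => rw [mul_zero]; exact Submodule.zero_mem _
    | add x y _ _ hx hy => rw [mul_add]; exact Submodule.add_mem _ hx hy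
    | smul q x _ hx => rw [mul_smul_comm]; exact Submodule.smul_mem _ _ hx
  | zero => rw [zero_mul]; exact Submodule.zero_mem _
  | add x y _ _ hx hy => rw [add_mul]; exact Submodule.add_mem _ hx hy
  | smul q x _ hx => rw [smul_mul_assoc]; exact Submodule.smul_mem _ _ hx

theorem ccl_map (f : Y' ⟶ Y) {c : W.H Y} (hc : c ∈ ccl P Y) : W.map f c ∈ ccl P Y' := by
  induction hc using Submodule.span_induction with
  | mem c hc =>
    obtain ⟨a, ha, l, rfl⟩ := hc
    have h1 := ccl_of (algSpan_map f ha) (l.map (SlotC.map f))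
    rw [List.map_map] at h1
    rw [map_mul, map_list_prod, List.map_map]
    have h2 : (SlotC.val ∘ SlotC.map f : SlotC P Y → W.H Y') = W.map f ∘ SlotC.val := by
      funext s
      exact s.val_map f
    rwa [h2] at h1
  | zero => rw [map_zero]; exact Submodule.zero_mem _
  | add x y _ _ hx hy => rw [map_add]; exact Submodule.add_mem _ hx hy
  | smul q x _ hx => rw [map_smul]; exact Submodule.smul_mem _ _ hx

/-- Products. -/
theorem ccl_prod (h : ccl P Y = ⊤) (h' : ccl P Y' = ⊤) : ccl P (Y.prod Y') = ⊤ := by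
  rw [eq_top_iff]
  intro c _
  refine W.kunneth_induction (p := fun c => c ∈ ccl P (Y.prod Y')) ?_ ?_ c
  · intro a b ha hb
    exact Submodule.add_mem _ ha hb
  · intro i j a _ b _
    exact ccl_mul (ccl_map _ (h ▸ Submodule.mem_top)) (ccl_map _ (h' ▸ Submodule.mem_top))

/-- **Orthogonality.** -/
theorem ccl_orth (hG : GaloisClass χ G) (hX : ∀ j, X j ∈ G) (hfo : FinOrb χ G)
    (hP : ∀ j, GoodP χ (X j) (P j)) (hdet : DetCond χ P) {z c : W.H Y}
    (hz : z ∈ rad W Y) (hc : c ∈ ccl P Y) : W.tr Y (z * c) = 0 := by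
  induction hc using Submodule.span_induction with
  | mem c hc =>
    obtain ⟨a, ha, l, rfl⟩ := hc
    have h1 := CSet_zero P hG hX hfo hP hdet (fun s : Fin l.length => (l.get s).j)
      (fun I => W.tr Y (z * a * (List.ofFn fun s => W.map (l.get s).p
        (xc P (l.get s).j (I s))).prod))
      ⟨Y, fun s => (l.get s).p, z * a, rad_mul hz ha, rfl⟩
    have h2 := congrFun h1 fun s => ⟨(l.get s).j, (l.get s).q⟩
    simp only [xc_self] at h2
    have h3 : (List.ofFn fun s : Fin l.length => W.map (l.get s).p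
        ((P (l.get s).j).x (l.get s).q)).prod = (l.map SlotC.val).prod := by
      congr 1
      conv_rhs => rw [← List.ofFn_get l]
      rw [List.map_ofFn]
      rfl
    rw [h3] at h2
    rw [← mul_assoc]
    exact h2
  | zero => rw [mul_zero, map_zero]
  | add x y _ _ hx hy => rw [mul_add, map_add, hx, hy, add_zero]
  | smul q x _ hx => rw [mul_smul_comm, map_smul, hx, smul_zero]

/-- **The radical vanishes.** -/
theorem rad_of_ccl (hG : GaloisClass χ G) (hX : ∀ j, X j ∈ G) (hfo : FinOrb χ G)
    (hP : ∀ j, GoodP χ (X j) (P j)) (hdet : DetCond χ P) (h : ccl P Y = ⊤) : rad W Y = ⊥ := by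
  rw [eq_bot_iff]
  intro z hz
  rw [Submodule.mem_bot]
  apply W.nondeg
  intro c
  exact ccl_orth hG hX hfo hP hdet hz (h ▸ Submodule.mem_top)

end

/-- A product of members of a set is a product of finitely many of them. -/
theorem IsProductOf.exists_fin {𝒮 : Set 𝒱.Obj} {Y : 𝒱.Obj} (hY : IsProductOf 𝒮 Y) :
    ∃ T : Finset 𝒱.Obj, (T : Set 𝒱.Obj) ⊆ 𝒮 ∧ IsProductOf (T : Set 𝒱.Obj) Y := by
  classical
  induction hY with
  | @base Y h => exact ⟨{Y}, by simpa using h, IsProductOf.base (by simp)⟩
  | prod _ _ ih ih' =>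
    obtain ⟨T, hT, hTY⟩ := ih
    obtain ⟨T', hT', hTY'⟩ := ih'
    refine ⟨T ∪ T', by simp [hT, hT'], ?_⟩
    have mono : ∀ {S S' : Set 𝒱.Obj} {Z : 𝒱.Obj}, S ⊆ S' → IsProductOf S Z →
        IsProductOf S' Z := by
      intro S S' Z hS h
      induction h with
      | base h => exact IsProductOf.base (hS h)
      | prod _ _ ih ih' => exact IsProductOf.prod ih ih'
    exact IsProductOf.prod (mono (by simp) hTY) (mono (by simp) hTY')

end Pool.Agent.Y104.Geo
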