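import Pool.Agent.Y104.Opt
import Pool.Agent.Y104.AlgC

/-!
# Galois descent and the vanishing theorem
-/

open Finset Module Matrix

set_option linter.unusedSectionVars false

namespace Pool.Agent.Y104.Kempf

universe u

section Descent

variable {K : Type u} [Field K] {L : Type*} [Field L] [Algebra K L] [IsGalois K L]

/-- **A nonzero Galois stable subspace contains a nonzero rational vector.** -/
theorem exists_rational {n : Type} [Fintype n] (F : Submodule L (n → L))
    (hF : ∀ σ : L ≃ₐ[K] L, ∀ x ∈ F, (fun p => σ (x p)) ∈ F) (hF0 : F ≠ ⊥) :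
    ∃ y : n → K, y ≠ 0 ∧ (fun p => algebraMap K L (y p)) ∈ F := by
  classical
  -- a vector of minimal support
  have h1 : ∃ k : ℕ, ∃ x ∈ F, x ≠ 0 ∧ (univ.filter fun p => x p ≠ 0).card = k := by
    obtain ⟨x, hx, hx0⟩ := F.exists_mem_ne_zero_of_ne_bot hF0
    exact ⟨_, x, hx, hx0, rfl⟩
  obtain ⟨x, hx, hx0, hk⟩ := Nat.find_spec h1
  have hmin : ∀ y ∈ F, (univ.filter fun p => y p ≠ 0).card <
      (univ.filter fun p => x p ≠ 0).card → y = 0 := by
    intro y hy hlt
    by_contra h0
    rw [hk] at hlt
    exact Nat.find_min h1 hlt ⟨y, hy, h0, rfl⟩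
  obtain ⟨p, hp⟩ := Function.ne_iff.1 hx0
  set x' : n → L := (x p)⁻¹ • x with hx'
  have hx'F : x' ∈ F := F.smul_mem _ hx
  have hx'p : x' p = 1 := inv_mul_cancel₀ hp
  have hsupp : ∀ q, x' q ≠ 0 ↔ x q ≠ 0 := by
    intro q
    rw [hx', Pi.smul_apply, smul_eq_mul, mul_ne_zero_iff]
    exact ⟨fun h => h.2, fun h => ⟨inv_ne_zero hp, h⟩⟩
  have hfix : ∀ (σ : L ≃ₐ[K] L) q, σ (x' q) = x' q := by
    intro σ
    have h2 : (fun p => σ (x' p)) - x' ∈ F := F.sub_mem (hF σ _ hx'F) hx'F
    have h3 := hmin _ h2 (by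
      refine Finset.card_lt_card (Finset.ssubset_iff_of_subset ?_ |>.2 ⟨p, ?_, ?_⟩)
      · intro q hq
        rw [mem_filter] at hq ⊢
        refine ⟨mem_univ _, (hsupp q).1 ?_⟩
        intro h4
        apply hq.2
        rw [Pi.sub_apply, h4, map_zero, sub_zero]
      · exact mem_filter.2 ⟨mem_univ _, hp⟩
      · rw [mem_filter, Pi.sub_apply, hx'p, map_one, sub_self]
        simp)
    intro q
    have h4 := congrFun h3 q
    rw [Pi.sub_apply, Pi.zero_apply, sub_eq_zero] at h4
    exact h4
  have h4 : ∀ q, ∃ y : K, algebraMap K L y = x' q := by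
    intro q
    have := (InfiniteGalois.mem_bot_iff_fixed (k := K) (x' q)).2 fun σ => hfix σ q
    rw [IntermediateField.mem_bot] at this
    exact this
  choose y hy using h4
  refine ⟨y, ?_, ?_⟩
  · intro h0
    have := hy p
    rw [h0, Pi.zero_apply, map_zero, hx'p] at this
    exact zero_ne_one this
  · simp only [hy]
    exact hx'F

end Descent

section

variable {ι : Type} [Fintype ι] [DecidableEq ι] {b : ι → Type} [∀ i, Fintype (b i)]
  [∀ i, DecidableEq (b i)] {S : Type} [Fintype S] [DecidableEq S] {c : S → ι}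
  {K : Type u} [Field K]

/-- Sums over tensors with a given pattern. -/
theorem sum_pattern {M : Type*} [AddCommMonoid M] (f : (S → Σ j, b j) → M)
    (hf : ∀ I, f I ≠ 0 → ∀ s, (I s).1 = c s) :
    ∑ I : ∀ s, b (c s), f (fun s => ⟨c s, I s⟩) = ∑ I, f I := by
  refine Fintype.sum_of_injective (fun (I : ∀ s, b (c s)) (s : S) => (⟨c s, I s⟩ : Σ j, b j))
    ?_ _ _ ?_ fun I => rfl
  · intro I I' h
    funext s
    have := congrFun h s
    exact eq_of_heq (Sigma.mk.inj this).2
  · intro I hI
    by_contra h
    apply hI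
    have h1 := hf I h
    refine ⟨fun s => h1 s ▸ (I s).2, ?_⟩
    funext s
    have : ∀ (i : Σ j, b j) (j : ι) (h : i.1 = j), (⟨j, h ▸ i.2⟩ : Σ j, b j) = i := by
      rintro ⟨i, p⟩ j rfl
      rfl
    exact this _ _ (h1 s)

/-- the values of a tensor on the rows of a matrix -/
theorem ev_rows {L : Type*} [Field L] [Algebra K L] (h : ∀ j, Matrix (b j) (b j) L)
    {z : (S → Σ j, b j) → K} (hz : ∀ I, z I ≠ 0 → ∀ s, (I s).1 = c s) (J : ∀ s, b (c s)) :
    ev (fun I : ∀ s, b (c s) => z (fun s => ⟨c s, I s⟩)) (fun s => h (c s) (J s)) =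
      tact (Matrix.blockDiagonal' h) (fun I => algebraMap K L (z I)) (fun s => ⟨c s, J s⟩) := by
  unfold ev tact
  rw [← sum_pattern (c := c)]
  · refine Finset.sum_congr rfl fun I _ => ?_
    congr 1
    refine Finset.prod_congr rfl fun s _ => ?_
    rw [Matrix.blockDiagonal'_apply_eq]
  · intro I hI
    refine hz I fun h0 => hI ?_
    simp only [h0, map_zero, mul_zero]

theorem irr_dual {n : Type} [Fintype n] [DecidableEq n] {G : Set (Matrix n n K)}
    (hirr : ∀ W : Submodule K (n → K), (∀ g ∈ G, ∀ x ∈ W, g *ᵥ x ∈ W) → W = ⊥ ∨ W = ⊤)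
    (W : Submodule K (n → K)) (hW : ∀ g ∈ G, ∀ x ∈ W, x ᵥ* g ∈ W) : W = ⊥ ∨ W = ⊤ := by
  let W' : Submodule K (n → K) :=
    { carrier := {y | ∀ x ∈ W, x ⬝ᵥ y = 0}
      add_mem' := fun {y y'} hy hy' x hx => by rw [dotProduct_add, hy x hx, hy' x hx, add_zero]
      zero_mem' := fun x _ => dotProduct_zero _
      smul_mem' := fun a y hy x hx => by rw [dotProduct_smul, hy x hx, smul_zero] }
  have h1 := hirr W' (by
    intro g hg y hy x hx
    rw [dotProduct_mulVec]
    exact hy _ (hW g hg x hx))
  rcases h1 with h1 | h1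
  · right
    by_contra h2
    obtain ⟨φ, hφ0, hφ⟩ := Submodule.exists_le_ker_of_lt_top W (lt_top_iff_ne_top.2 h2)
    have h3 : ∀ x : n → K, φ x = x ⬝ᵥ (fun p => φ (Pi.single p 1)) := by
      intro x
      conv_lhs => rw [← (Pi.basisFun K n).sum_repr x]
      rw [map_sum]
      refine Finset.sum_congr rfl fun p _ => ?_
      rw [map_smul, Pi.basisFun_apply, Pi.basisFun_repr, smul_eq_mul]
    have h4 : (fun p => φ (Pi.single p 1)) ∈ W' := by
      intro x hx
      rw [← h3]
      exact hφ hx
    rw [h1, Submodule.mem_bot] at h4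
    apply hφ0
    ext x
    rw [LinearMap.comp_apply, h3, h4, dotProduct_zero]
    rfl
  · left
    rw [Submodule.eq_bot_iff]
    intro x hx
    have h2 : ∀ y, x ⬝ᵥ y = 0 := by
      intro y
      have : y ∈ W' := by rw [h1]; trivial
      exact this x hx
    exact dotProduct_eq_zero x h2

/-- **The vanishing theorem.** -/
theorem core [CharZero K] [∀ j, Nonempty (b j)] {B : ∀ j, Matrix (b j) (b j) K}
    {ε : ι → K} (hε : ∀ j, (B j)ᵀ = ε j • B j) (hB : ∀ j, IsUnit (B j))
    {N : Set ((S → Σ j, b j) → K)} (hc : ∀ z ∈ N, ∀ I, z I ≠ 0 → ∀ s, (I s).1 = c s)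
    (hN : ∀ (m : ℕ) (z : Fin (m + 1) → (S → Σ j, b j) → K), (∀ i, z i ∈ N) →
      NullT (Matrix.blockDiagonal' B) (tp z))
    {G : Set (∀ j, Matrix (b j) (b j) K)} (hG : ∀ g ∈ G, ∀ j, IsUnit (g j))
    (hGN : ∀ g ∈ G, ∀ z ∈ N, tact (Matrix.blockDiagonal' g) z ∈ N)
    (hirr : ∀ j, ∀ W : Submodule K (b j → K), (∀ g ∈ G, ∀ x ∈ W, g j *ᵥ x ∈ W) →
      W = ⊥ ∨ W = ⊤) : ∀ z ∈ N, z = 0 := by
  classical
  intro z hz
  by_contra hz0
  let L := AlgebraicClosure K
  -- the tensors with dependent indices
  let r : ((S → Σ j, b j) → K) → ((∀ s, b (c s)) → K) := fun z I => z (fun s => ⟨c s, I s⟩)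
  let N' : Set ((∀ s, b (c s)) → K) := r '' N
  have hrz : r z ∈ N' := ⟨z, hz, rfl⟩
  have hrz0 : r z ≠ 0 := by
    intro h
    apply hz0
    funext I
    by_contra h1
    have h2 := hc z hz I h1
    have h3 := congrFun h (fun s => h2 s ▸ (I s).2)
    have h4 : ∀ (i : Σ j, b j) (j : ι) (h : i.1 = j), (⟨j, h ▸ i.2⟩ : Σ j, b j) = i := by
      rintro ⟨i, p⟩ j rfl
      rfl
    have h5 : (fun s => (⟨c s, h2 s ▸ (I s).2⟩ : Σ j, b j)) = I := funext fun s => h4 _ _ _
    apply h1
    rw [← h5]
    exact h3
  -- destabilising filtrations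
  obtain ⟨κ, _, ψ, h0, hh0, x, hx0, hx⟩ := exists_res_zero hε hB hc hN
  obtain ⟨h, hh, hbad⟩ := exists_alg ψ h0 hh0 {J : S → Σ j, b j | ∑ s, x (J s) ≤ 0} (N := N)
    (by
      intro J hJ z hz
      by_contra h1
      exact absurd (hx J ⟨z, hz, h1⟩) (not_lt.2 hJ))
  have hli : ∀ j, LinearIndependent L (h j).row := fun j =>
    Matrix.linearIndependent_rows_iff_isUnit.2 (hh j)
  let e : ∀ j, Basis (b j) L (b j → L) := fun j =>
    basisOfLinearIndependentOfCardEqFinrank (hli j) (by rw [finrank_fintype_fun_eq_card])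
  have he : ∀ j p, e j p = h j p := fun j p => by
    simp only [e]
    rw [coe_basisOfLinearIndependentOfCardEqFinrank]
    rfl
  have hpos : ∀ J : ∀ s, b (c s), (∃ z ∈ N', ev z (fun s => e (c s) (J s)) ≠ 0) →
      0 < ∑ s, (x ⟨c s, J s⟩ : ℚ) := by
    rintro J ⟨_, ⟨z, hz, rfl⟩, hJ⟩
    by_contra h1
    push Not at h1
    apply hJ
    have h2 := hbad (fun s => ⟨c s, J s⟩) h1 z hz
    rw [← ev_rows h (hc z hz) J] at h2
    simp only [he]
    exact h2
  -- scaling the weights
  let q : ℝ := (1 + ∑ i, (x i : ℝ) ^ 2)⁻¹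
  have hq1 : (1 : ℝ) ≤ 1 + ∑ i, (x i : ℝ) ^ 2 := by
    have : (0 : ℝ) ≤ ∑ i, (x i : ℝ) ^ 2 := Finset.sum_nonneg fun _ _ => sq_nonneg _
    linarith
  have hq : 0 < q := inv_pos.2 (by linarith)
  have hCs : (fun i => -(q * (x i : ℝ))) ∈ Cset b := by
    refine ⟨fun j => ?_, ?_⟩
    · rw [Finset.sum_neg_distrib, ← Finset.mul_sum]
      have h1 : ∑ p, (x ⟨j, p⟩ : ℝ) = 0 := by exact_mod_cast congrArg (Rat.cast : ℚ → ℝ) (hx0 j)
      rw [h1, mul_zero, neg_zero]
    · simp only [neg_sq, mul_pow]
      rw [← Finset.mul_sum]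
      set T := ∑ i, (x i : ℝ) ^ 2
      have hT : T ≤ 1 + T := by linarith
      have h1 : q * T ≤ 1 := by
        rw [← inv_mul_cancel₀ (show (1 + T) ≠ 0 by linarith)]
        exact mul_le_mul_of_nonneg_left hT hq.le
      have h2 : q ≤ 1 := inv_le_one_of_one_le₀ hq1
      have h3 : 0 ≤ q * T := mul_nonneg hq.le (by linarith)
      nlinarith
  obtain ⟨w, t, hw, hg, hopt⟩ := exists_opt (L := L) hrz hrz0
  have ht : 0 < t := by
    let X : Finset (∀ s, b (c s)) := univ.filter fun J => ∃ z ∈ N',
      ev z (fun s => e (c s) (J s)) ≠ 0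
    have hX : X.Nonempty := by
      obtain ⟨J, hJ⟩ := exists_ev hrz hrz0 e
      exact ⟨J, mem_filter.2 ⟨mem_univ _, hJ⟩⟩
    have h1 : 0 < X.inf' hX fun J => q * ∑ s, (x ⟨c s, J s⟩ : ℝ) := by
      rw [Finset.lt_inf'_iff]
      intro J hJ
      have h2 := hpos J (mem_filter.1 hJ).2
      exact mul_pos hq (by exact_mod_cast h2)
    have hG : Ge N' (X.inf' hX fun J => q * ∑ s, (x ⟨c s, J s⟩ : ℝ))
        fun j => nrm (e j) (fun p => (fun i => -(q * (x i : ℝ))) ⟨j, p⟩) := by
      refine Ge.of_weights (ω := fun i => -(q * (x i : ℝ))) e fun J hJ => ?_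
      rw [Finset.sum_neg_distrib, neg_le_neg_iff, ← Finset.mul_sum]
      have hJX : J ∈ X := mem_filter.2 ⟨mem_univ _, hJ⟩
      have h5 := Finset.inf'_le (fun J : ∀ s, b (c s) => q * ∑ s, (x ⟨c s, J s⟩ : ℝ)) hJX
      beta_reduce at h5
      exact h5
    exact lt_of_lt_of_le h1 (hopt _ _ (Adm.of_weights e hCs) hG)
  -- invariance under the Galois group
  have hgal : ∀ (σ : L ≃ₐ[K] L) j (y : b j → L), y ≠ 0 → w j (fun p => σ (y p)) = w j y := by
    intro σ j y hy
    refine opt_invariant hrz hrz0 ht hopt hw hg σ.toRingEquiv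
      (fun j => AddEquiv.piCongrRight fun _ => σ.toRingEquiv.toAddEquiv) ?_ ?_ j y hy
    · intro j a y
      funext p
      simp
    · intro z hz u hu
      refine ⟨z, hz, ?_⟩
      have h1 : ev z (fun s => (AddEquiv.piCongrRight fun _ => σ.toRingEquiv.toAddEquiv) (u s)) =
          σ (ev z u) := by
        unfold ev
        rw [map_sum]
        refine Finset.sum_congr rfl fun I _ => ?_
        rw [map_mul, map_prod, AlgEquiv.commutes]
        rfl
      rw [h1]
      exact (map_ne_zero _).2 hu
  -- invariance under the group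
  have hinv : ∀ g ∈ G, ∀ j (y : b j → L), y ≠ 0 →
      w j (y ᵥ* (g j).map (algebraMap K L)) = w j y := by
    intro g hg' j y hy
    have hgu : ∀ j, IsUnit ((g j).map (algebraMap K L)) := by
      intro j
      have := (hG g hg' j).map ((algebraMap K L).mapMatrix)
      exact this
    have hdet : ∀ j, IsUnit ((g j).map (algebraMap K L)).det := fun j =>
      (Matrix.isUnit_iff_isUnit_det _).1 (hgu j)
    let A : ∀ j, (b j → L) ≃+ (b j → L) := fun j =>
      { toFun := fun y => y ᵥ* ((g j).map (algebraMap K L))⁻¹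
        invFun := fun y => y ᵥ* (g j).map (algebraMap K L)
        left_inv := fun y => by
          beta_reduce
          rw [vecMul_vecMul, Matrix.nonsing_inv_mul _ (hdet j), vecMul_one]
        right_inv := fun y => by
          beta_reduce
          rw [vecMul_vecMul, Matrix.mul_nonsing_inv _ (hdet j), vecMul_one]
        map_add' := fun y y' => by rw [add_vecMul] }
    have h1 := opt_invariant hrz hrz0 ht hopt hw hg (RingEquiv.refl L) A (by
      intro j a y
      change (a • y) ᵥ* _ = a • (y ᵥ* _)
      rw [smul_vecMul]) (by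
      rintro _ ⟨z, hz, rfl⟩ u hu
      refine ⟨r (tact (Matrix.blockDiagonal' g) z), ⟨_, hGN g hg' z hz, rfl⟩, ?_⟩
      -- the value of the translate
      have h2 : ∀ v : ∀ s, b (c s) → L, ev (r (tact (Matrix.blockDiagonal' g) z)) v =
          ev (r z) (fun s => v s ᵥ* (g (c s)).map (algebraMap K L)) := by
        intro v
        have h3 : ∀ J : ∀ s, b (c s), r (tact (Matrix.blockDiagonal' g) z) J =
            ∑ I : ∀ s, b (c s), (∏ s, g (c s) (J s) (I s)) * r z I := by
          intro J
          change tact (Matrix.blockDiagonal' g) z (fun s => ⟨c s, J s⟩) = _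
          unfold tact
          rw [← sum_pattern (c := c)]
          · refine Finset.sum_congr rfl fun I _ => ?_
            congr 1
            refine Finset.prod_congr rfl fun s _ => ?_
            rw [Matrix.blockDiagonal'_apply_eq]
          · intro I hI
            exact hc z hz I fun h0 => hI (by rw [h0, mul_zero])
        unfold ev
        simp only [h3, map_sum, map_mul, map_prod, Finset.mul_sum]
        rw [Finset.sum_comm]
        refine Finset.sum_congr rfl fun I _ => ?_
        have h4 : ∏ s, (v s ᵥ* (g (c s)).map (algebraMap K L)) (I s) =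
            ∑ J : ∀ s, b (c s), ∏ s, v s (J s) * algebraMap K L (g (c s) (J s) (I s)) := by
          simp only [Matrix.vecMul, dotProduct, Matrix.map_apply]
          rw [Finset.prod_univ_sum, Fintype.piFinset_univ]
        rw [h4, Finset.sum_mul]
        refine Finset.sum_congr rfl fun J _ => ?_
        rw [Finset.prod_mul_distrib]
        ring
      rw [h2]
      have h5 : (fun s => (A (c s)) (u s) ᵥ* (g (c s)).map (algebraMap K L)) = u := by
        funext s
        exact (A (c s)).symm_apply_apply (u s)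
      rw [h5]
      exact hu) j (y ᵥ* (g j).map (algebraMap K L)) (by
        intro h0
        exact hy ((map_eq_zero_iff _ (A j).symm.injective).1 h0))
    rw [← h1]
    have h6 : A j (y ᵥ* (g j).map (algebraMap K L)) = y := (A j).apply_symm_apply y
    rw [h6]
  -- the filtrations are trivial
  have hconst : ∀ j, ∃ a : ℝ, ∀ y : b j → L, y ≠ 0 → w j y = a := by
    intro j
    obtain ⟨y0, hy0, hmax⟩ := (hw.1 j).exists_top
    refine ⟨w j y0, ?_⟩
    -- the top step
    let F : Submodule L (b j → L) :=
      { carrier := {y | y = 0 ∨ w j y0 ≤ w j y}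
        add_mem' := by
          intro y y' hy hy'
          by_cases h1 : y + y' = 0
          · exact Or.inl h1
          by_cases h2 : y = 0
          · rw [h2, zero_add]
            exact hy'
          by_cases h3 : y' = 0
          · rw [h3, add_zero]
            exact hy
          exact Or.inr ((le_min (hy.resolve_left h2) (hy'.resolve_left h3)).trans
            ((hw.1 j).add y y' h2 h3 h1))
        zero_mem' := Or.inl rfl
        smul_mem' := by
          intro a y hy
          by_cases h1 : a = 0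
          · exact Or.inl (by rw [h1, zero_smul])
          by_cases h2 : y = 0
          · exact Or.inl (by rw [h2, smul_zero])
          exact Or.inr (by rw [(hw.1 j).smul a y h1 h2]; exact hy.resolve_left h2) }
    have hF0 : F ≠ ⊥ := by
      intro h1
      have h2 : y0 ∈ F := Or.inr le_rfl
      rw [h1, Submodule.mem_bot] at h2
      exact hy0 h2
    have hFgal : ∀ σ : L ≃ₐ[K] L, ∀ y ∈ F, (fun p => σ (y p)) ∈ F := by
      intro σ y hy
      by_cases h1 : y = 0
      · left
        rw [h1]
        funext p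
        simp
      · right
        rw [hgal σ j y h1]
        exact hy.resolve_left h1
    let W : Submodule K (b j → K) :=
      { carrier := {y | (fun p => algebraMap K L (y p)) ∈ F}
        add_mem' := by
          intro y y' hy hy'
          have h1 : (fun p => algebraMap K L ((y + y') p)) =
              (fun p => algebraMap K L (y p)) + (fun p => algebraMap K L (y' p)) := by
            funext p
            simp
          change (fun p => algebraMap K L ((y + y') p)) ∈ F
          rw [h1]
          exact F.add_mem hy hy'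
        zero_mem' := by
          have h1 : (fun p => algebraMap K L ((0 : b j → K) p)) = 0 := by
            funext p
            simp
          change (fun p => algebraMap K L ((0 : b j → K) p)) ∈ F
          rw [h1]
          exact F.zero_mem
        smul_mem' := by
          intro a y hy
          have h1 : (fun p => algebraMap K L ((a • y) p)) =
              algebraMap K L a • (fun p => algebraMap K L (y p)) := by
            funext p
            simp
          change (fun p => algebraMap K L ((a • y) p)) ∈ F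
          rw [h1]
          exact F.smul_mem _ hy }
    have hW : W = ⊥ ∨ W = ⊤ := by
      refine irr_dual (G := (fun g => g j) '' G) (fun W hW => hirr j W fun g hg => ?_) W ?_
      · exact hW _ ⟨g, hg, rfl⟩
      · rintro _ ⟨g, hg, rfl⟩ y hy
        change (fun p => algebraMap K L ((y ᵥ* g j) p)) ∈ F
        have h1 : (fun p => algebraMap K L ((y ᵥ* g j) p)) =
            (fun p => algebraMap K L (y p)) ᵥ* (g j).map (algebraMap K L) := by
          funext p
          simp [Matrix.vecMul, dotProduct]
        rw [h1]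
        by_cases h2 : (fun p => algebraMap K L (y p)) = 0
        · rw [h2, zero_vecMul]
          exact F.zero_mem
        · right
          rw [hinv g hg j _ h2]
          exact (show (fun p => algebraMap K L (y p)) = 0 ∨ _ from hy).resolve_left h2
    have hWne : W ≠ ⊥ := by
      obtain ⟨y, hy, hyF⟩ := exists_rational F hFgal hF0
      intro h1
      have : y ∈ W := hyF
      rw [h1, Submodule.mem_bot] at this
      exact hy this
    have hWt := hW.resolve_left hWne
    have hFt : F = ⊤ := by
      rw [eq_top_iff]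
      intro y _
      rw [← (Pi.basisFun L (b j)).sum_repr y]
      refine F.sum_mem fun p _ => F.smul_mem _ ?_
      have h1 : (Pi.single p 1 : b j → K) ∈ W := by rw [hWt]; trivial
      have h2 : (fun q => algebraMap K L ((Pi.single p 1 : b j → K) q)) =
          Pi.basisFun L (b j) p := by
        funext q
        rw [Pi.basisFun_apply]
        by_cases h3 : q = p
        · subst h3
          simp
        · simp [Pi.single_eq_of_ne h3]
      rw [← h2]
      exact h1
    intro y hy
    have h1 : y ∈ F := by rw [hFt]; trivial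
    exact le_antisymm (hmax y hy) ((show y = 0 ∨ _ from h1).resolve_left hy)
  -- the contradiction
  obtain ⟨_, e', he', htr, _⟩ := hw
  have hzero : ∀ j (y : b j → L), y ≠ 0 → w j y = 0 := by
    intro j y hy
    obtain ⟨a, ha⟩ := hconst j
    have h1 := htr j
    rw [Finset.sum_congr rfl fun p _ => ha _ ((e' j).ne_zero p), Finset.sum_const, card_univ,
      nsmul_eq_mul] at h1
    have h2 : (Fintype.card (b j) : ℝ) ≠ 0 := by exact_mod_cast Fintype.card_ne_zero
    rw [ha y hy]
    exact (mul_eq_zero.1 h1).resolve_left h2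
  obtain ⟨J, z', hz', hJ⟩ := exists_ev hrz hrz0 e'
  have h1 := hg z' hz' _ hJ
  rw [Finset.sum_eq_zero fun s _ => hzero _ _ ((e' (c s)).ne_zero (J s))] at h1
  linarith

end

end Pool.Agent.Y104.Kempf
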