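import Mathlib

/-!
# Fourier-Motzkin elimination for strict and non-strict inequalities
-/

open Finset

namespace Pool.Agent.Y104.Kempf

/-- lower and upper bounds, some of them strict -/
theorem exists_between_mixed (A B : Finset (ℚ × Bool))
    (h : ∀ u ∈ A, ∀ v ∈ B, if u.2 || v.2 then u.1 < v.1 else u.1 ≤ v.1) :
    ∃ y : ℚ, (∀ u ∈ A, if u.2 then u.1 < y else u.1 ≤ y) ∧
      ∀ v ∈ B, if v.2 then y < v.1 else y ≤ v.1 := by
  classical
  rcases A.eq_empty_or_nonempty with hA | hA
  · rcases B.eq_empty_or_nonempty with hB | hB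
    · exact ⟨0, by simp [hA], by simp [hB]⟩
    · refine ⟨B.inf' hB Prod.fst - 1, by simp [hA], fun v hv => ?_⟩
      have := Finset.inf'_le (f := Prod.fst) (s := B) hv
      split_ifs <;> linarith
  rcases B.eq_empty_or_nonempty with hB | hB
  · refine ⟨A.sup' hA Prod.fst + 1, fun u hu => ?_, by simp [hB]⟩
    have := Finset.le_sup' (f := Prod.fst) (s := A) hu
    split_ifs <;> linarith
  have hle : ∀ u ∈ A, ∀ v ∈ B, u.1 ≤ v.1 := by
    intro u hu v hv
    have := h u hu v hv
    split_ifs at this
    · exact this.le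
    · exact this
  set lo := A.sup' hA Prod.fst with hlo
  set hi := B.inf' hB Prod.fst with hhi
  have h1 : lo ≤ hi := Finset.sup'_le _ _ fun u hu => Finset.le_inf' _ _ fun v hv => hle u hu v hv
  rcases h1.lt_or_eq with h2 | h2
  · refine ⟨(lo + hi) / 2, fun u hu => ?_, fun v hv => ?_⟩
    · have := Finset.le_sup' (f := Prod.fst) (s := A) hu
      split_ifs <;> linarith
    · have := Finset.inf'_le (f := Prod.fst) (s := B) hv
      split_ifs <;> linarith
  · obtain ⟨u0, hu0, hu0'⟩ := Finset.exists_mem_eq_sup' hA Prod.fst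
    obtain ⟨v0, hv0, hv0'⟩ := Finset.exists_mem_eq_inf' hB Prod.fst
    refine ⟨lo, fun u hu => ?_, fun v hv => ?_⟩
    · have h3 := Finset.le_sup' (f := Prod.fst) (s := A) hu
      split_ifs with h4
      · have h5 := h u hu v0 hv0
        rw [if_pos (by simp [h4])] at h5
        rw [h2, hhi, hv0']
        exact h5
      · exact h3
    · have h3 := Finset.inf'_le (f := Prod.fst) (s := B) hv
      split_ifs with h4
      · have h5 := h u0 hu0 v hv
        rw [if_pos (by simp [h4])] at h5
        rw [hlo, hu0']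
        exact h5
      · rw [h2]
        exact h3

/-- the inequality with the given strictness -/
def Ineq {V : Type*} [Zero V] [Preorder V] (s : Bool) (x : V) : Prop :=
  if s then 0 < x else 0 ≤ x

theorem Ineq.le {V : Type*} [Zero V] [Preorder V] {s : Bool} {x : V} (h : Ineq s x) : 0 ≤ x := by
  unfold Ineq at h
  split_ifs at h
  · exact h.le
  · exact h

theorem fm_mixed_fin {V : Type*} [AddCommGroup V] [LinearOrder V] [IsOrderedAddMonoid V] :
    ∀ (n : ℕ) (F : Finset ((Fin n → ℤ) × Bool)) (a : Fin n → V),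
      (∀ c ∈ F, Ineq c.2 (∑ i, c.1 i • a i)) →
      ∃ x : Fin n → ℚ, ∀ c ∈ F, Ineq c.2 (∑ i, (c.1 i : ℚ) * x i) := by
  classical
  intro n
  induction n with
  | zero =>
    intro F a h
    refine ⟨fun _ => 0, fun c hc => ?_⟩
    have := h c hc
    unfold Ineq at this ⊢
    split_ifs at this ⊢
    · simp at this
    · simp
  | succ n ih =>
    intro F a h
    -- the new system
    set F0 : Finset ((Fin n → ℤ) × Bool) := (F.filter fun c => c.1 (Fin.last n) = 0).image
      fun c => (fun i => c.1 i.castSucc, c.2) with hF0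
    set F1 : Finset ((Fin n → ℤ) × Bool) := ((F.filter fun c => 0 < c.1 (Fin.last n)) ×ˢ
      (F.filter fun c => c.1 (Fin.last n) < 0)).image
        fun p => (fun i => p.1.1 (Fin.last n) * p.2.1 i.castSucc -
          p.2.1 (Fin.last n) * p.1.1 i.castSucc, p.1.2 || p.2.2) with hF1
    obtain ⟨x, hx⟩ := ih (F0 ∪ F1) (fun i => a i.castSucc) (by
      intro c hc
      rw [mem_union] at hc
      rcases hc with hc | hc
      · rw [hF0, mem_image] at hc
        obtain ⟨d, hd, rfl⟩ := hc
        rw [mem_filter] at hd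
        have h1 := h d hd.1
        rw [Fin.sum_univ_castSucc, hd.2, zero_smul, add_zero] at h1
        exact h1
      · rw [hF1, mem_image] at hc
        obtain ⟨⟨p, q⟩, hpq, rfl⟩ := hc
        rw [mem_product, mem_filter, mem_filter] at hpq
        obtain ⟨⟨hp, hp0⟩, hq, hq0⟩ := hpq
        have h1 := h p hp
        have h2 := h q hq
        rw [Fin.sum_univ_castSucc] at h1 h2
        have h1' := h1.le
        have h2' := h2.le
        set P := ∑ i : Fin n, p.1 i.castSucc • a i.castSucc + p.1 (Fin.last n) • a (Fin.last n)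
          with hP
        set Q := ∑ i : Fin n, q.1 i.castSucc • a i.castSucc + q.1 (Fin.last n) • a (Fin.last n)
          with hQ
        have e0 : p.1 (Fin.last n) • Q + (-q.1 (Fin.last n)) • P = ∑ i : Fin n,
            (p.1 (Fin.last n) * q.1 i.castSucc - q.1 (Fin.last n) * p.1 i.castSucc) •
              a i.castSucc := by
          have e1 : ∀ (m l : ℤ) (y : V), m • l • y = (m * l) • y := fun m l y => by
            rw [mul_smul]
          rw [hP, hQ]
          simp only [smul_add, Finset.smul_sum, sub_smul, Finset.sum_sub_distrib, e1]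
          have e2 : (-q.1 (Fin.last n) * p.1 (Fin.last n)) • a (Fin.last n) =
              -((p.1 (Fin.last n) * q.1 (Fin.last n)) • a (Fin.last n)) := by
            rw [← neg_smul]
            congr 1
            ring
          have e3 : ∑ i : Fin n, (-q.1 (Fin.last n) * p.1 i.castSucc) • a i.castSucc =
              -∑ i : Fin n, (q.1 (Fin.last n) * p.1 i.castSucc) • a i.castSucc := by
            rw [← Finset.sum_neg_distrib]
            refine Finset.sum_congr rfl fun i _ => ?_
            rw [← neg_smul]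
            congr 1
            ring
          rw [e2, e3]
          abel
        change Ineq (p.2 || q.2) (∑ i : Fin n,
            (p.1 (Fin.last n) * q.1 i.castSucc - q.1 (Fin.last n) * p.1 i.castSucc) •
              a i.castSucc)
        rw [← e0]
        have hq0' : 0 < -q.1 (Fin.last n) := by simpa using hq0
        have k1 : 0 ≤ p.1 (Fin.last n) • Q := zsmul_nonneg h2' hp0.le
        have k2 : 0 ≤ (-q.1 (Fin.last n)) • P := zsmul_nonneg h1' hq0'.le
        unfold Ineq
        unfold Ineq at h1 h2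
        cases hp2 : p.2 <;> cases hq2 : q.2 <;> simp only [hp2, hq2] at h1 h2 ⊢ <;>
          simp only [Bool.or_self, Bool.or_true, Bool.true_or, if_true, Bool.false_eq_true,
            if_false] at h1 h2 ⊢
        · exact add_nonneg k1 k2
        · exact add_pos_of_pos_of_nonneg (zsmul_pos h2 hp0) k2
        · exact add_pos_of_nonneg_of_pos k1 (zsmul_pos h1 hq0')
        · exact add_pos_of_pos_of_nonneg (zsmul_pos h2 hp0) k2)
    obtain ⟨y, hy1, hy2⟩ := exists_between_mixed
      ((F.filter fun c => 0 < c.1 (Fin.last n)).image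
        (fun c => (-(∑ i : Fin n, (c.1 i.castSucc : ℚ) * x i) / (c.1 (Fin.last n) : ℚ), c.2)))
      ((F.filter fun c => c.1 (Fin.last n) < 0).image
        (fun c => (-(∑ i : Fin n, (c.1 i.castSucc : ℚ) * x i) / (c.1 (Fin.last n) : ℚ), c.2)))
      (by
        intro u hu v hv
        rw [mem_image] at hu hv
        obtain ⟨p, hp, rfl⟩ := hu
        obtain ⟨q, hq, rfl⟩ := hv
        have h1 := hx (fun i => p.1 (Fin.last n) * q.1 i.castSucc -
          q.1 (Fin.last n) * p.1 i.castSucc, p.2 || q.2) (by
          rw [mem_union]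
          right
          rw [hF1, mem_image]
          exact ⟨(p, q), mem_product.2 ⟨hp, hq⟩, rfl⟩)
        rw [mem_filter] at hp hq
        have hp0 : (0 : ℚ) < (p.1 (Fin.last n) : ℚ) := by exact_mod_cast hp.2
        have hq0 : (q.1 (Fin.last n) : ℚ) < 0 := by exact_mod_cast hq.2
        have h2 : ∑ i : Fin n, ((p.1 (Fin.last n) * q.1 i.castSucc -
            q.1 (Fin.last n) * p.1 i.castSucc : ℤ) :
            ℚ) * x i = (p.1 (Fin.last n) : ℚ) * ∑ i : Fin n, (q.1 i.castSucc : ℚ) * x i -
            (q.1 (Fin.last n) : ℚ) * ∑ i : Fin n, (p.1 i.castSucc : ℚ) * x i := by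
          rw [Finset.mul_sum, Finset.mul_sum, ← Finset.sum_sub_distrib]
          refine Finset.sum_congr rfl fun i _ => ?_
          push_cast
          ring
        change Ineq (p.2 || q.2) (∑ i : Fin n, ((p.1 (Fin.last n) * q.1 i.castSucc -
            q.1 (Fin.last n) * p.1 i.castSucc : ℤ) : ℚ) * x i) at h1
        rw [h2] at h1
        change if (p.2 || q.2) = true then
          -(∑ i : Fin n, (p.1 i.castSucc : ℚ) * x i) / (p.1 (Fin.last n) : ℚ) <
          -(∑ i : Fin n, (q.1 i.castSucc : ℚ) * x i) / (q.1 (Fin.last n) : ℚ) else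
          -(∑ i : Fin n, (p.1 i.castSucc : ℚ) * x i) / (p.1 (Fin.last n) : ℚ) ≤
          -(∑ i : Fin n, (q.1 i.castSucc : ℚ) * x i) / (q.1 (Fin.last n) : ℚ)
        set A := ∑ i : Fin n, (p.1 i.castSucc : ℚ) * x i
        set B := ∑ i : Fin n, (q.1 i.castSucc : ℚ) * x i
        have h3 : -B / (q.1 (Fin.last n) : ℚ) - -A / (p.1 (Fin.last n) : ℚ) =
            -((p.1 (Fin.last n) : ℚ) * B - (q.1 (Fin.last n) : ℚ) * A) /
              ((q.1 (Fin.last n) : ℚ) * (p.1 (Fin.last n) : ℚ)) := by
          rw [div_sub_div _ _ hq0.ne hp0.ne']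
          congr 1
          ring
        have h4 : (q.1 (Fin.last n) : ℚ) * (p.1 (Fin.last n) : ℚ) < 0 :=
          mul_neg_of_neg_of_pos hq0 hp0
        unfold Ineq at h1
        split_ifs at h1 ⊢
        · rw [← sub_pos, h3]
          exact div_pos_of_neg_of_neg (by linarith) h4
        · rw [← sub_nonneg, h3]
          exact div_nonneg_of_nonpos (by linarith) h4.le)
    refine ⟨Fin.snoc x y, fun c hc => ?_⟩
    rw [Fin.sum_univ_castSucc]
    simp only [Fin.snoc_castSucc, Fin.snoc_last]
    rcases lt_trichotomy (c.1 (Fin.last n)) 0 with h0 | h0 | h0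
    · have h1 := hy2 _ (mem_image.2 ⟨c, mem_filter.2 ⟨hc, h0⟩, rfl⟩)
      have hq0 : (c.1 (Fin.last n) : ℚ) < 0 := by exact_mod_cast h0
      unfold Ineq
      simp only at h1
      split_ifs at h1 ⊢
      · rw [lt_div_iff_of_neg hq0] at h1
        linarith
      · rw [le_div_iff_of_neg hq0] at h1
        linarith
    · have h1 := hx (fun i => c.1 i.castSucc, c.2) (by
        rw [mem_union]
        left
        rw [hF0, mem_image]
        exact ⟨c, mem_filter.2 ⟨hc, h0⟩, rfl⟩)
      rw [h0]
      simpa using h1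
    · have h1 := hy1 _ (mem_image.2 ⟨c, mem_filter.2 ⟨hc, h0⟩, rfl⟩)
      have hq0 : (0 : ℚ) < (c.1 (Fin.last n) : ℚ) := by exact_mod_cast h0
      unfold Ineq
      simp only at h1
      split_ifs at h1 ⊢
      · rw [div_lt_iff₀ hq0] at h1
        linarith
      · rw [div_le_iff₀ hq0] at h1
        linarith

/-- **Fourier-Motzkin elimination.** -/
theorem fourier_motzkin_mixed {V : Type*} [AddCommGroup V] [LinearOrder V]
    [IsOrderedAddMonoid V] {β : Type*} [Fintype β] {F F' : Set (β → ℤ)} (hF : F.Finite)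
    (hF' : F'.Finite) (a : β → V) (h : ∀ c ∈ F, 0 < ∑ i, c i • a i)
    (h' : ∀ c ∈ F', 0 ≤ ∑ i, c i • a i) :
    ∃ x : β → ℚ, (∀ c ∈ F, 0 < ∑ i, (c i : ℚ) * x i) ∧
      ∀ c ∈ F', 0 ≤ ∑ i, (c i : ℚ) * x i := by
  classical
  let e := Fintype.equivFin β
  obtain ⟨x, hx⟩ := fm_mixed_fin (Fintype.card β)
    ((hF.toFinset.image fun c => ((fun i => c (e.symm i)), true)) ∪
      (hF'.toFinset.image fun c => ((fun i => c (e.symm i)), false)))
    (fun i => a (e.symm i)) (by
      intro c hc
      rw [mem_union, mem_image, mem_image] at hc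
      rcases hc with ⟨d, hd, rfl⟩ | ⟨d, hd, rfl⟩
      · rw [Set.Finite.mem_toFinset] at hd
        change 0 < _
        refine lt_of_lt_of_eq (h d hd) ?_
        exact (Equiv.sum_comp e.symm fun i => d i • a i).symm
      · rw [Set.Finite.mem_toFinset] at hd
        change 0 ≤ _
        refine le_of_le_of_eq (h' d hd) ?_
        exact (Equiv.sum_comp e.symm fun i => d i • a i).symm)
  refine ⟨fun b => x (e b), fun c hc => ?_, fun c hc => ?_⟩
  · have h1 := hx ((fun i => c (e.symm i)), true) (mem_union_left _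
      (mem_image.2 ⟨c, by rwa [Set.Finite.mem_toFinset], rfl⟩))
    change 0 < _ at h1
    refine lt_of_lt_of_eq h1 ?_
    rw [← Equiv.sum_comp e.symm fun i => (c i : ℚ) * x (e i)]
    simp
  · have h1 := hx ((fun i => c (e.symm i)), false) (mem_union_right _
      (mem_image.2 ⟨c, by rwa [Set.Finite.mem_toFinset], rfl⟩))
    change 0 ≤ _ at h1
    refine le_of_le_of_eq h1 ?_
    rw [← Equiv.sum_comp e.symm fun i => (c i : ℚ) * x (e i)]
    simp

end Pool.Agent.Y104.Kempf
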