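import Pool.Agent.Y104.Val2
import Pool.Agent.Y104.FM2
import Pool.Agent.Y104.AlgC

/-!
# A destabilising basis which is compatible with the form
-/

open MvPolynomial Finset Matrix

set_option linter.unusedSectionVars false

namespace Pool.Agent.Y104.Kempf

variable {ι : Type} [Fintype ι] [DecidableEq ι] {b : ι → Type} [∀ i, Fintype (b i)]
  [∀ i, DecidableEq (b i)] {S : Type} [Fintype S] [DecidableEq S]

universe u

variable {K : Type u} [Field K]

theorem conj_aux {n R : Type*} [Fintype n] [DecidableEq n] [CommRing R]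
    (P G Q D R' : Matrix n n R) (h : P * G = D * R') :
    P * (G * Q * Gᵀ) * Pᵀ = D * (R' * Q * R'ᵀ) * Dᵀ := by
  have h1 : P * (G * Q * Gᵀ) * Pᵀ = (P * G) * Q * (P * G)ᵀ := by
    rw [Matrix.transpose_mul]
    simp only [Matrix.mul_assoc]
  rw [h1, h, Matrix.transpose_mul]
  simp only [Matrix.mul_assoc]

/-- **A destabilising block matrix over a residue field.** -/
theorem exists_res2 [CharZero K] {B Q : ∀ j, Matrix (b j) (b j) K} {ε : ι → K}
    (hε : ∀ j, (B j)ᵀ = ε j • B j) (hQB : ∀ j, Q j * B j = 1) {c : S → ι}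
    {N : Set ((S → Σ j, b j) → K)} (hc : ∀ z ∈ N, ∀ I, z I ≠ 0 → ∀ s, (I s).1 = c s)
    (hN : ∀ (m : ℕ) (z : Fin (m + 1) → (S → Σ j, b j) → K), (∀ i, z i ∈ N) →
      NullT (Matrix.blockDiagonal' B) (tp z)) :
    ∃ (κ : Type u) (_ : Field κ) (ψ : K →+* κ) (h : ∀ j, Matrix (b j) (b j) κ),
      (∀ j, IsUnit (h j)) ∧ ∃ x : (Σ j, b j) → ℚ, (∀ j, ∑ p, x ⟨j, p⟩ = 0) ∧
      (∀ j p q, (h j * (Q j).map ψ * (h j)ᵀ) p q ≠ 0 → 0 ≤ x ⟨j, p⟩ + x ⟨j, q⟩) ∧
      ∀ J : S → Σ j, b j,
        (∃ z ∈ N, tact (Matrix.blockDiagonal' h) (fun I => ψ (z I)) J ≠ 0) →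
        0 < ∑ s, x (J s) := by
  classical
  obtain ⟨O, hO, hOQ, hOd, hO'⟩ := exists_val2 hε hQB
    (U := {u | ∃ z ∈ N, ∃ J, u = act (GM b K) z J})
    (fun l hl hlU => apo_list hc hN l hl hlU)
  set F := FractionRing (Ply b K) with hF
  set φ : Ply b K →+* F := algebraMap (Ply b K) F with hφ
  have hφi : Function.Injective φ := IsFractionRing.injective _ _
  have hdetQ : ∀ j, (Q j).det ≠ 0 := fun j => by
    have := congrArg Matrix.det (hQB j)
    rw [det_mul, det_one] at this
    exact left_ne_zero_of_mul_eq_one this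
  -- Smith normal forms
  choose P R hP hR a ha using fun j => good (O := O) ((gm b K j).map φ)
  -- the inverse of R
  have hR' : ∀ j, ∃ R' : Matrix (b j) (b j) O, R j * R' = 1 ∧ R' * R j = 1 := by
    intro j
    obtain ⟨u, hu⟩ := hR j
    exact ⟨(u⁻¹ : (Matrix (b j) (b j) O)ˣ), by rw [← hu]; exact u.mul_inv,
      by rw [← hu]; exact u.inv_mul⟩
  choose R' hR1 hR2 using hR'
  set am : (Σ j, b j) → F := fun x => a x.1 x.2 with ham
  have hmain1 : ∀ j, (P j).map (algebraMap O F) * (gm b K j).map φ =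
      Matrix.diagonal (a j) * (R' j).map (algebraMap O F) := by
    intro j
    have h1 := congrArg (· * (R' j).map (algebraMap O F)) (ha j)
    simp only [Matrix.mul_assoc] at h1
    rw [← Matrix.map_mul, hR1, Matrix.map_one _ (map_zero _) (map_one _), Matrix.mul_one] at h1
    exact h1
  have hmain : (Matrix.blockDiagonal' P).map (algebraMap O F) * (GM b K).map φ =
      Matrix.diagonal am * (Matrix.blockDiagonal' R').map (algebraMap O F) := by
    rw [GM_eq, Matrix.blockDiagonal'_map _ _ (map_zero _), Matrix.blockDiagonal'_map _ _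
      (map_zero _), Matrix.blockDiagonal'_map _ _ (map_zero _),
      ← Matrix.blockDiagonal'_diagonal, ← Matrix.blockDiagonal'_mul,
      ← Matrix.blockDiagonal'_mul]
    congr 1
    funext j
    exact hmain1 j
  -- determinants
  have hdet : ∀ j, O.valuation (φ (dg b K j)) = ∏ p, O.valuation (a j p) := by
    intro j
    have h1 := congrArg Matrix.det (ha j)
    rw [det_mul, det_mul, det_diagonal] at h1
    have h2 : ∀ X : Matrix (b j) (b j) O, IsUnit X →
        O.valuation ((X.map (algebraMap O F)).det) = 1 := by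
      intro X hX
      have h3 : (X.map (algebraMap O F)).det = algebraMap O F X.det := by
        rw [RingHom.map_det]
        rfl
      rw [h3]
      exact (O.valuation_eq_one_iff _).1 ((Matrix.isUnit_iff_isUnit_det _).1 hX)
    have h4 : ((gm b K j).map φ).det = φ (dg b K j) := by
      rw [dg, RingHom.map_det]
      rfl
    rw [← map_prod, ← h1, map_mul, map_mul, h2 _ (hP j), h2 _ (hR j), one_mul, mul_one, h4]
  have hav : ∀ i, O.valuation (am i) ≠ 0 := by
    rintro ⟨j, p⟩ h
    have h1 := hdet j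
    rw [Finset.prod_eq_zero (mem_univ p) h] at h1
    exact (map_ne_zero_iff _ hφi).2 (dg_ne j) (by simpa using h1)
  have hd1 : ∀ j, ∏ p, O.valuation (am ⟨j, p⟩) = 1 := by
    intro j
    change ∏ p, O.valuation (a j p) = 1
    rw [← hdet]
    have h1 : O.valuation (φ (dg b K j ^ 2)) ≤ 1 :=
      (O.valuation_le_one_iff _).2 (hOQ _ (dg_sq_mem hdetQ j))
    have h2 : O.valuation (φ (dg b K j ^ 2))⁻¹ ≤ 1 := (O.valuation_le_one_iff _).2 (hOd j)
    have h3 : O.valuation (φ (dg b K j ^ 2)) ≠ 0 := by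
      rw [Valuation.ne_zero_iff]
      exact (map_ne_zero_iff _ hφi).2 (pow_ne_zero 2 (dg_ne j))
    rw [map_inv₀] at h2
    have h4 : O.valuation (φ (dg b K j ^ 2)) = 1 :=
      le_antisymm h1 ((inv_le_one₀ (zero_lt_iff.2 h3)).1 h2)
    rw [map_pow, map_pow] at h4
    exact (pow_eq_one_iff_of_nonneg zero_le two_ne_zero).1 h4
  -- coordinates
  let ρ : K →+* O := (algebraMap K F).codRestrict O.toSubring hO
  let ψ : K →+* IsLocalRing.ResidueField O := (IsLocalRing.residue O).comp ρ
  have hlt : ∀ J : S → Σ j, b j,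
      (∃ z ∈ N, tact (Matrix.blockDiagonal' fun j => (R' j).map (IsLocalRing.residue O))
        (fun I => ψ (z I)) J ≠ 0) →
      ∏ i, O.valuation (am i) ^ (Finset.card {s | J s = i}) < 1 := by
    rintro J ⟨z, hz, hJ⟩
    set q : O := tact (Matrix.blockDiagonal' R') (fun I => ρ (z I)) J with hq
    have h1 : O.valuation (algebraMap O F q) = 1 := by
      have h2 : IsLocalRing.residue O q ≠ 0 := by
        rw [hq, ← tact_map, Matrix.blockDiagonal'_map _ _ (map_zero _)]
        exact hJ
      refine (O.valuation_eq_one_iff q).1 ?_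
      rwa [IsLocalRing.residue_ne_zero_iff_isUnit] at h2
    have h3 : ∀ J', O.valuation (tact ((GM b K).map φ) (fun I => algebraMap K F (z I)) J') <
        1 := by
      intro J'
      have h4 := hO' _ ⟨z, hz, J', rfl⟩
      rw [ValuationSubring.mem_nonunits_iff] at h4
      have h5 : algebraMap (Ply b K) F (act (GM b K) z J') =
          tact ((GM b K).map φ) (fun I => algebraMap K F (z I)) J' := by
        rw [act_eq, ← hφ, ← tact_map]
        rfl
      rw [h5] at h4
      exact h4
    have h7 : tact ((Matrix.blockDiagonal' P).map (algebraMap O F))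
        (tact ((GM b K).map φ) (fun I => algebraMap K F (z I))) J =
        (∏ s, am (J s)) * algebraMap O F q := by
      rw [← tact_mul, hmain, tact_mul, tact_diagonal, hq, ← tact_map]
      rfl
    have h8 : O.valuation ((∏ s, am (J s)) * algebraMap O F q) < 1 := by
      rw [← h7]
      refine Valuation.map_sum_lt _ one_ne_zero fun I _ => ?_
      rw [map_mul]
      refine mul_lt_one_of_nonneg_of_lt_one_right ?_ zero_le (h3 I)
      rw [map_prod]
      refine Finset.prod_le_one' fun s _ => ?_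
      exact (O.valuation_le_one_iff _).2 (SetLike.coe_mem _)
    rw [map_mul, h1, mul_one, map_prod] at h8
    refine lt_of_le_of_lt (le_of_eq ?_) h8
    rw [← Finset.prod_fiberwise univ J]
    refine Finset.prod_congr rfl fun i _ => ?_
    rw [Finset.prod_congr rfl fun s (hs : s ∈ Finset.filter (fun s => J s = i) univ) => by
      rw [(mem_filter.1 hs).2], Finset.prod_const]
  -- the form
  have hsd : ∀ j p q, ((R' j).map (IsLocalRing.residue O) * (Q j).map ψ *
      ((R' j).map (IsLocalRing.residue O))ᵀ) p q ≠ 0 →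
      O.valuation (am ⟨j, p⟩) * O.valuation (am ⟨j, q⟩) ≤ 1 := by
    intro j p q h0
    set Cj : Matrix (b j) (b j) O := R' j * (Q j).map ρ * (R' j)ᵀ with hCj
    have h1 : O.valuation (algebraMap O F (Cj p q)) = 1 := by
      have h2 : IsLocalRing.residue O (Cj p q) ≠ 0 := by
        have h3 : Cj.map (IsLocalRing.residue O) = (R' j).map (IsLocalRing.residue O) *
            (Q j).map ψ * ((R' j).map (IsLocalRing.residue O))ᵀ := by
          rw [hCj, Matrix.map_mul, Matrix.map_mul, Matrix.transpose_map]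
          rfl
        have h4 := congrFun (congrFun h3 p) q
        rw [Matrix.map_apply] at h4
        rw [h4]
        exact h0
      refine (O.valuation_eq_one_iff _).1 ?_
      rwa [IsLocalRing.residue_ne_zero_iff_isUnit] at h2
    -- the integral matrix
    have h2 : (P j).map (algebraMap O F) * (gm b K j * (Q j).map C * (gm b K j)ᵀ).map φ *
        ((P j).map (algebraMap O F))ᵀ =
        Matrix.diagonal (a j) * Cj.map (algebraMap O F) * Matrix.diagonal (a j) := by
      have h3 : (gm b K j * (Q j).map C * (gm b K j)ᵀ).map φ =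
          (gm b K j).map φ * (Q j).map (algebraMap K F) * ((gm b K j).map φ)ᵀ := by
        rw [Matrix.map_mul, Matrix.map_mul, Matrix.transpose_map]
        congr 2
      have h4 : Cj.map (algebraMap O F) = (R' j).map (algebraMap O F) *
          (Q j).map (algebraMap K F) * ((R' j).map (algebraMap O F))ᵀ := by
        rw [hCj, Matrix.map_mul, Matrix.map_mul, Matrix.transpose_map]
        rfl
      rw [h3, h4]
      have h5 := conj_aux _ _ ((Q j).map (algebraMap K F)) _ _ (hmain1 j)
      rw [Matrix.diagonal_transpose] at h5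
      exact h5
    have h3 := congrFun (congrFun h2 p) q
    rw [Matrix.mul_diagonal, Matrix.diagonal_mul, Matrix.map_apply] at h3
    have h4 : O.valuation (((P j).map (algebraMap O F) *
        (gm b K j * (Q j).map C * (gm b K j)ᵀ).map φ * ((P j).map (algebraMap O F))ᵀ) p q) ≤
        1 := by
      rw [O.valuation_le_one_iff]
      rw [Matrix.mul_apply]
      refine sum_mem fun k _ => mul_mem ?_ (SetLike.coe_mem _)
      rw [Matrix.mul_apply]
      refine sum_mem fun i _ => mul_mem (SetLike.coe_mem _) ?_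
      refine hOQ _ ?_
      have h5 : GQ (Matrix.blockDiagonal' Q) =
          Matrix.blockDiagonal' (fun j => gm b K j * (Q j).map C * (gm b K j)ᵀ) := by
        rw [GQ, GM_eq, Matrix.blockDiagonal'_map _ _ (map_zero _), ← Matrix.blockDiagonal'_mul,
          Matrix.blockDiagonal'_transpose, ← Matrix.blockDiagonal'_mul]
      have h6 := GQ_mem (Matrix.blockDiagonal' Q) ⟨j, i⟩ ⟨j, k⟩
      rw [h5, Matrix.blockDiagonal'_apply_eq] at h6
      exact h6
    rw [h3, map_mul, map_mul, h1, mul_one] at h4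
    exact h4
  -- linear inequalities
  let V := Additive (O.ValueGroup)ˣ
  let α : (Σ j, b j) → V := fun i => Additive.ofMul ((Units.mk0 _ (hav i))⁻¹)
  let G : Set ((Σ j, b j) → ℤ) := (fun (J : S → Σ j, b j) (i : Σ j, b j) =>
    ((Finset.card {s | J s = i} : ℕ) : ℤ)) ''
    {J | ∃ z ∈ N, tact (Matrix.blockDiagonal' fun j => (R' j).map (IsLocalRing.residue O))
        (fun I => ψ (z I)) J ≠ 0}
  let G' : Set ((Σ j, b j) → ℤ) :=
    ((fun (y : (Σ j, b j) × (Σ j, b j)) (i : Σ j, b j) =>
      (if i = y.1 then (1 : ℤ) else 0) + if i = y.2 then 1 else 0) ''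
      {y | O.valuation (am y.1) * O.valuation (am y.2) ≤ 1}) ∪
    ((Set.range fun (j : ι) (i : Σ j, b j) => if i.1 = j then (1 : ℤ) else 0) ∪
      Set.range fun (j : ι) (i : Σ j, b j) => if i.1 = j then (-1 : ℤ) else 0)
  have hcount : ∀ J : S → Σ j, b j, ∀ x : (Σ j, b j) → ℚ,
      ∑ i, (((Finset.card {s | J s = i} : ℕ) : ℤ) : ℚ) * x i = ∑ s, x (J s) := by
    intro J x
    rw [← Finset.sum_fiberwise univ J]
    refine Finset.sum_congr rfl fun i _ => ?_
    rw [Finset.sum_congr rfl fun s (hs : s ∈ Finset.filter (fun s => J s = i) univ) => by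
      rw [(mem_filter.1 hs).2], Finset.sum_const, nsmul_eq_mul]
    push_cast
    rfl
  have hblk : ∀ (j : ι) {M : Type u} [AddCommGroup M] (y : (Σ j, b j) → M) (n : ℤ),
      ∑ i : (Σ j, b j), (if i.1 = j then n else 0) • y i = n • ∑ p, y ⟨j, p⟩ := by
    intro j M _ y n
    rw [Fintype.sum_sigma, Finset.sum_eq_single j]
    · rw [Finset.smul_sum]
      refine Finset.sum_congr rfl fun p _ => ?_
      rw [if_pos rfl]
    · intro i _ hi
      refine Finset.sum_eq_zero fun p _ => ?_
      rw [if_neg hi, zero_smul]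
    · intro h
      exact absurd (mem_univ _) h
  have hα0 : ∀ j, ∑ p, α ⟨j, p⟩ = 0 := by
    intro j
    change ∏ p, (Units.mk0 _ (hav ⟨j, p⟩))⁻¹ = 1
    rw [Finset.prod_inv_distrib, inv_eq_one]
    apply Units.ext
    rw [Units.coe_prod]
    exact hd1 j
  obtain ⟨x, hx, hx'⟩ := fourier_motzkin_mixed (F := G) (F' := G') ((Set.toFinite _).image _)
    (((Set.toFinite _).image _).union ((Set.toFinite _).union (Set.toFinite _))) α (by
    rintro _ ⟨J, hJ, rfl⟩
    have h1 := hlt J hJ
    change (1 : (O.ValueGroup)ˣ) < ∏ i, ((Units.mk0 _ (hav i))⁻¹) ^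
      ((Finset.card {s | J s = i} : ℕ) : ℤ)
    simp only [zpow_natCast, inv_pow]
    rw [Finset.prod_inv_distrib, one_lt_inv']
    rw [← Units.val_lt_val]
    push_cast
    simpa using h1) (by
    rintro _ (⟨⟨y1, y2⟩, hy, rfl⟩ | ⟨j, rfl⟩ | ⟨j, rfl⟩)
    · simp only [add_smul, Finset.sum_add_distrib, ite_smul, one_smul, zero_smul,
        Finset.sum_ite_eq', mem_univ, if_true]
      change (1 : (O.ValueGroup)ˣ) ≤ (Units.mk0 _ (hav y1))⁻¹ * (Units.mk0 _ (hav y2))⁻¹
      rw [← mul_inv, one_le_inv']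
      rw [← Units.val_le_val]
      exact hy
    · rw [hblk, hα0, smul_zero]
    · rw [hblk, hα0, smul_zero])
  have hblkQ : ∀ (j : ι) (n : ℤ), ∑ i : (Σ j, b j), ((if i.1 = j then n else 0 : ℤ) : ℚ) * x i =
      n * ∑ p, x ⟨j, p⟩ := by
    intro j n
    rw [Fintype.sum_sigma, Finset.sum_eq_single j]
    · rw [Finset.mul_sum]
      refine Finset.sum_congr rfl fun p _ => ?_
      rw [if_pos rfl]
    · intro i _ hi
      refine Finset.sum_eq_zero fun p _ => ?_
      rw [if_neg hi, Int.cast_zero, zero_mul]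
    · intro h
      exact absurd (mem_univ _) h
  refine ⟨IsLocalRing.ResidueField O, inferInstance, ψ,
    fun j => (R' j).map (IsLocalRing.residue O), fun j => ?_, x, fun j => ?_, fun j p q h => ?_,
    fun J hJ => ?_⟩
  · refine IsUnit.of_mul_eq_one ((R j).map (IsLocalRing.residue O)) ?_
    rw [← Matrix.map_mul, hR2, Matrix.map_one _ (map_zero _) (map_one _)]
  · have h1 := hx' _ (Or.inr (Or.inl ⟨j, rfl⟩))
    have h2 := hx' _ (Or.inr (Or.inr ⟨j, rfl⟩))
    rw [hblkQ] at h1 h2
    push_cast at h1 h2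
    linarith
  · have h1 := hx' _ (Or.inl ⟨(⟨j, p⟩, ⟨j, q⟩), hsd j p q h, rfl⟩)
    push_cast at h1
    simp only [add_mul, Finset.sum_add_distrib, ite_mul, one_mul, zero_mul,
      Finset.sum_ite_eq', mem_univ, if_true] at h1
    exact h1
  · have := hx _ ⟨J, hJ, rfl⟩
    rw [hcount] at this
    exact this

end Pool.Agent.Y104.Kempf
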