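import Pool.Agent.Y104.Opt2
import Pool.Agent.Y104.Res2
import Pool.Agent.Y104.AlgC2
import Pool.Agent.Y104.Core
import Pool.Agent.Y104.Bch

/-!
# The vanishing theorem, self-dual version with operators
-/

open Finset Module Matrix

set_option linter.unusedSectionVars false

namespace Pool.Agent.Y104.Kempf

universe u

section

variable {β : Type} [Fintype β] [DecidableEq β] {R : Type*} [CommRing R] {S : Type} [Fintype S]
  [DecidableEq S]

/-- The action of a family of matrices on tensors. -/
def gtact (M : S → Matrix β β R) (Y : (S → β) → R) (J : S → β) : R :=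
  ∑ I : S → β, (∏ s, M s (J s) (I s)) * Y I

end

section

variable {ι : Type} [Fintype ι] [DecidableEq ι] {b : ι → Type} [∀ i, Fintype (b i)]
  [∀ i, DecidableEq (b i)] {S : Type} [Fintype S] [DecidableEq S] {c : S → ι}
  {K : Type u} [Field K] {L : Type*} [Field L] [Algebra K L]

/-- restriction of a tensor to the indices with a given pattern -/
def rst (c : S → ι) (z : (S → Σ j, b j) → K) (I : ∀ s, b (c s)) : K := z (fun s => ⟨c s, I s⟩)

/-- The value of a translated tensor. -/
theorem ev_gtact {z : (S → Σ j, b j) → K} (hz : ∀ I, z I ≠ 0 → ∀ s, (I s).1 = c s)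
    (e : S → ∀ j, Matrix (b j) (b j) K) (v : ∀ s, b (c s) → L) :
    ev (rst c (gtact (fun s => Matrix.blockDiagonal' fun j => (e s j)ᵀ) z)) v =
      ev (rst c z) (fun s => (e s (c s)).map (algebraMap K L) *ᵥ v s) := by
  have h3 : ∀ J : ∀ s, b (c s),
      rst c (gtact (fun s => Matrix.blockDiagonal' fun j => (e s j)ᵀ) z) J =
      ∑ I : ∀ s, b (c s), (∏ s, e s (c s) (I s) (J s)) * rst c z I := by
    intro J
    change gtact _ z (fun s => ⟨c s, J s⟩) = _
    unfold gtact
    rw [← sum_pattern (c := c)]
    · refine Finset.sum_congr rfl fun I _ => ?_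
      congr 1
      refine Finset.prod_congr rfl fun s _ => ?_
      exact Matrix.blockDiagonal'_apply_eq (fun j => (e s j)ᵀ) (c s) (J s) (I s)
    · intro I hI
      exact hz I fun h0 => hI (by rw [h0, mul_zero])
  unfold ev
  simp only [h3, map_sum, map_mul, map_prod, Finset.mul_sum]
  rw [Finset.sum_comm]
  refine Finset.sum_congr rfl fun I _ => ?_
  have h4 : ∏ s, ((e s (c s)).map (algebraMap K L) *ᵥ v s) (I s) =
      ∑ J : ∀ s, b (c s), ∏ s, algebraMap K L (e s (c s) (I s) (J s)) * v s (J s) := by
    simp only [Matrix.mulVec, dotProduct, Matrix.map_apply]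
    rw [Finset.prod_univ_sum, Fintype.piFinset_univ]
  rw [h4, Finset.sum_mul]
  refine Finset.sum_congr rfl fun J _ => ?_
  rw [Finset.prod_mul_distrib]
  ring

theorem ev_add (z : (∀ s, b (c s)) → K) (v : ∀ s, b (c s) → L) (s₀ : S) (x y : b (c s₀) → L) :
    ev z (Function.update v s₀ (x + y)) =
      ev z (Function.update v s₀ x) + ev z (Function.update v s₀ y) := by
  unfold ev
  rw [← Finset.sum_add_distrib]
  refine Finset.sum_congr rfl fun I _ => ?_
  rw [← Finset.mul_prod_erase _ _ (mem_univ s₀), ← Finset.mul_prod_erase _ _ (mem_univ s₀),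
    ← Finset.mul_prod_erase _ _ (mem_univ s₀), Function.update_self, Function.update_self,
    Function.update_self]
  have h1 : ∀ x : b (c s₀) → L, ∏ s ∈ univ.erase s₀, Function.update v s₀ x s (I s) =
      ∏ s ∈ univ.erase s₀, v s (I s) := fun x =>
    Finset.prod_congr rfl fun s hs => by
      rw [Function.update_of_ne (Finset.ne_of_mem_erase hs)]
  rw [h1, h1, h1, Pi.add_apply]
  ring

theorem ev_smul (z : (∀ s, b (c s)) → K) (v : ∀ s, b (c s) → L) (s₀ : S) (a : L)
    (x : b (c s₀) → L) :
    ev z (Function.update v s₀ (a • x)) = a * ev z (Function.update v s₀ x) := by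
  unfold ev
  rw [Finset.mul_sum]
  refine Finset.sum_congr rfl fun I _ => ?_
  rw [← Finset.mul_prod_erase _ _ (mem_univ s₀), ← Finset.mul_prod_erase _ _ (mem_univ s₀),
    Function.update_self, Function.update_self]
  have h1 : ∀ x : b (c s₀) → L, ∏ s ∈ univ.erase s₀, Function.update v s₀ x s (I s) =
      ∏ s ∈ univ.erase s₀, v s (I s) := fun x =>
    Finset.prod_congr rfl fun s hs => by
      rw [Function.update_of_ne (Finset.ne_of_mem_erase hs)]
  rw [h1, h1, Pi.smul_apply, smul_eq_mul]
  ring

/-- vanishing for operators in the base change -/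
theorem ev_baseC (E : ∀ j, Subalgebra K (Matrix (b j) (b j) K)) (z : (∀ s, b (c s)) → K)
    (v : ∀ s, b (c s) → L)
    (h : ∀ e : ∀ s, Matrix (b (c s)) (b (c s)) K, (∀ s, e s ∈ E (c s)) →
      ev z (fun s => (e s).map (algebraMap K L) *ᵥ v s) = 0)
    (a : ∀ s, Matrix (b (c s)) (b (c s)) L) (ha : ∀ s, a s ∈ baseC L (E (c s))) :
    ev z (fun s => a s *ᵥ v s) = 0 := by
  have key : ∀ (T : Finset S) (a : ∀ s, Matrix (b (c s)) (b (c s)) L),
      (∀ s ∈ T, a s ∈ baseC L (E (c s))) →
      (∀ s ∉ T, ∃ e ∈ E (c s), a s = e.map (algebraMap K L)) →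
      ev z (fun s => a s *ᵥ v s) = 0 := by
    intro T
    induction T using Finset.induction_on with
    | empty =>
      intro a _ ha
      choose e he he' using fun s => ha s (Finset.notMem_empty s)
      have h1 : (fun s => a s *ᵥ v s) = fun s => (e s).map (algebraMap K L) *ᵥ v s :=
        funext fun s => by rw [he']
      rw [h1]
      exact h e he
    | insert s₀ T hs₀ ih =>
      intro a ha ha'
      have h1 := ha s₀ (mem_insert_self _ _)
      rw [mem_baseC] at h1
      have h2 : ∀ x ∈ Submodule.span L ((fun e => e.map (algebraMap K L)) ''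
          (E (c s₀) : Set (Matrix (b (c s₀)) (b (c s₀)) K))),
          ev z (Function.update (fun s => a s *ᵥ v s) s₀ (x *ᵥ v s₀)) = 0 := by
        intro x hx
        induction hx using Submodule.span_induction with
        | mem x hx =>
          obtain ⟨e, he, rfl⟩ := hx
          have h3 := ih (Function.update a s₀ (e.map (algebraMap K L))) (fun s hs => by
            have : s ≠ s₀ := fun h => hs₀ (h ▸ hs)
            rw [Function.update_of_ne this]
            exact ha s (mem_insert_of_mem hs)) (fun s hs => by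
            by_cases hss : s = s₀
            · subst hss
              rw [Function.update_self]
              exact ⟨e, he, rfl⟩
            · rw [Function.update_of_ne hss]
              refine ha' s ?_
              rw [mem_insert, not_or]
              exact ⟨hss, hs⟩)
          have h4 : (fun s => Function.update a s₀ (e.map (algebraMap K L)) s *ᵥ v s) =
              Function.update (fun s => a s *ᵥ v s) s₀ (e.map (algebraMap K L) *ᵥ v s₀) := by
            funext s
            by_cases hss : s = s₀
            · subst hss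
              rw [Function.update_self, Function.update_self]
            · rw [Function.update_of_ne hss, Function.update_of_ne hss]
          rw [← h4]
          exact h3
        | zero =>
          rw [Matrix.zero_mulVec]
          have := ev_smul z (fun s => a s *ᵥ v s) s₀ 0 0
          rw [zero_smul, zero_mul] at this
          exact this
        | add x y _ _ h h' => rw [Matrix.add_mulVec, ev_add, h, h', add_zero]
        | smul t x _ h => rw [Matrix.smul_mulVec, ev_smul, h, mul_zero]
      have h3 := h2 _ h1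
      rw [Function.update_eq_self] at h3
      exact h3
  exact key univ a (fun s _ => ha s) (fun s hs => absurd (mem_univ s) hs)

/-- **The vanishing theorem.** -/
theorem core3 [CharZero K] {Q : ∀ j, Matrix (b j) (b j) K} {ε : ι → K}
    (hε1 : ∀ j, ε j * ε j = 1) (hε : ∀ j, (Q j)ᵀ = ε j • Q j) (hQ : ∀ j, IsUnit (Q j))
    {N : Set ((S → Σ j, b j) → K)} (hc : ∀ z ∈ N, ∀ I, z I ≠ 0 → ∀ s, (I s).1 = c s)
    (hN : ∀ (m : ℕ) (z : Fin (m + 1) → (S → Σ j, b j) → K), (∀ i, z i ∈ N) →
      NullT (Matrix.blockDiagonal' fun j => (Q j)⁻¹) (tp z))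
    {G : Set (∀ j, Matrix (b j) (b j) K)} (hG : ∀ g ∈ G, ∀ j, IsUnit (g j))
    (hGQ : ∀ g ∈ G, ∀ j, ∃ a : K, a ≠ 0 ∧ (g j)ᵀ * Q j * g j = a • Q j)
    (hGN : ∀ g ∈ G, ∀ z ∈ N, gtact (fun _ => Matrix.blockDiagonal' fun j => (g j)ᵀ) z ∈ N)
    (E : ∀ j, Subalgebra K (Matrix (b j) (b j) K))
    (hadj : ∀ j, ∀ e ∈ E j, (Q j)⁻¹ * eᵀ * Q j ∈ E j)
    (hGE : ∀ g ∈ G, ∀ j, ∀ e ∈ E j, g j * e * (g j)⁻¹ ∈ E j ∧ (g j)⁻¹ * e * g j ∈ E j)
    (hEN : ∀ e : S → ∀ j, Matrix (b j) (b j) K, (∀ s j, e s j ∈ E j) → ∀ z ∈ N,
      gtact (fun s => Matrix.blockDiagonal' fun j => (e s j)ᵀ) z ∈ N)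
    (hiso : ∀ j, ∀ W : Submodule K (b j → K), (∀ g ∈ G, ∀ x ∈ W, g j *ᵥ x ∈ W) →
      (∀ e ∈ E j, ∀ x ∈ W, e *ᵥ x ∈ W) → (∀ x ∈ W, ∀ y ∈ W, x ⬝ᵥ (Q j *ᵥ y) = 0) → W = ⊥) :
    ∀ z ∈ N, z = 0 := by
  classical
  intro z hz
  by_contra hz0
  let L := AlgebraicClosure K
  have hQd : ∀ j, IsUnit (Q j).det := fun j => (Matrix.isUnit_iff_isUnit_det _).1 (hQ j)
  have hQi : ∀ j, Q j * (Q j)⁻¹ = 1 := fun j => Matrix.mul_nonsing_inv _ (hQd j)
  have hQi' : ∀ j, (Q j)⁻¹ * Q j = 1 := fun j => Matrix.nonsing_inv_mul _ (hQd j)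
  have hBε : ∀ j, ((Q j)⁻¹)ᵀ = ε j • (Q j)⁻¹ := by
    intro j
    rw [Matrix.transpose_nonsing_inv, hε]
    refine Matrix.inv_eq_left_inv ?_
    rw [Matrix.smul_mul, Matrix.mul_smul, smul_smul, hε1, one_smul, hQi']
  let QL : ∀ j, Matrix (b j) (b j) L := fun j => (Q j).map (algebraMap K L)
  have hQLu : ∀ j, IsUnit (QL j) := fun j => (hQ j).map ((algebraMap K L).mapMatrix)
  -- the tensors with dependent indices
  let N' : Set ((∀ s, b (c s)) → K) := rst c '' N
  have hrz : rst c z ∈ N' := ⟨z, hz, rfl⟩
  have hrz0 : rst c z ≠ 0 := by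
    intro h
    apply hz0
    funext I
    by_contra h1
    have h2 := hc z hz I h1
    have h3 := congrFun h (fun s => h2 s ▸ (I s).2)
    have h4 : ∀ (i : Σ j, b j) (j : ι) (h : i.1 = j), (⟨j, h ▸ i.2⟩ : Σ j, b j) = i := by
      rintro ⟨i, p⟩ j rfl
      rfl
    have h5 : (fun s => (⟨c s, h2 s ▸ (I s).2⟩ : Σ j, b j)) = I := funext fun s => h4 _ _ _
    apply h1
    rw [← h5]
    exact h3
  -- destabilising filtrations
  obtain ⟨κ, _, ψ, h0, hh0, x, hx0, hxQ, hx⟩ := exists_res2 (B := fun j => (Q j)⁻¹) hBε hQi hc hN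
  obtain ⟨h, hh, hbad, hbadQ⟩ := exists_alg2 ψ h0 hh0 {J : S → Σ j, b j | ∑ s, x (J s) ≤ 0}
    (N := N) (by
      intro J hJ z hz
      by_contra h1
      exact absurd (hx J ⟨z, hz, h1⟩) (not_lt.2 hJ)) Q
    (fun j p q => x ⟨j, p⟩ + x ⟨j, q⟩ < 0) (by
      intro j p q hpq
      by_contra h1
      exact absurd (hxQ j p q h1) (not_le.2 hpq))
  have hli : ∀ j, LinearIndependent L (h j).row := fun j =>
    Matrix.linearIndependent_rows_iff_isUnit.2 (hh j)
  have hsp : ∀ j, ⊤ ≤ Submodule.span L (Set.range (h j).row) := by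
    intro j
    rw [top_le_iff]
    refine (hli j).span_eq_top_of_card_eq_finrank' ?_
    rw [finrank_fintype_fun_eq_card]
  let e : ∀ j, Basis (b j) L (b j → L) := fun j => Basis.mk (hli j) (hsp j)
  have he : ∀ j p, e j p = h j p := fun j p => by
    simp only [e]
    rw [Basis.mk_apply]
    rfl
  have hpos : ∀ J : ∀ s, b (c s), (∃ z ∈ N', ev z (fun s => e (c s) (J s)) ≠ 0) →
      0 < ∑ s, (x ⟨c s, J s⟩ : ℚ) := by
    rintro J ⟨_, ⟨z, hz, rfl⟩, hJ⟩
    by_contra h1
    push Not at h1
    apply hJ
    have h2 := hbad (fun s => ⟨c s, J s⟩) h1 z hz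
    rw [← ev_rows h (hc z hz) J] at h2
    simp only [he]
    exact h2
  have hposQ : ∀ j p q, Rl QL e j p q → 0 ≤ x ⟨j, p⟩ + x ⟨j, q⟩ := by
    intro j p q hpq
    by_contra h1
    push Not at h1
    apply hpq
    have h2 := hbadQ j p q h1
    rw [he, he]
    rw [← h2, Matrix.mul_assoc, Matrix.mul_apply]
    rfl
  -- scaling the weights
  let q : ℝ := (1 + ∑ i, (x i : ℝ) ^ 2)⁻¹
  have hq1 : (1 : ℝ) ≤ 1 + ∑ i, (x i : ℝ) ^ 2 := by
    have : (0 : ℝ) ≤ ∑ i, (x i : ℝ) ^ 2 := Finset.sum_nonneg fun _ _ => sq_nonneg _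
    linarith
  have hq : 0 < q := inv_pos.2 (by linarith)
  have hCs : (fun i => -(q * (x i : ℝ))) ∈ Cset2 b (Rl QL e) := by
    refine ⟨⟨fun j => ?_, ?_⟩, fun j p p' hR => ?_⟩
    · rw [Finset.sum_neg_distrib, ← Finset.mul_sum]
      have h1 : ∑ p, (x ⟨j, p⟩ : ℝ) = 0 := by exact_mod_cast congrArg (Rat.cast : ℚ → ℝ) (hx0 j)
      rw [h1, mul_zero, neg_zero]
    · simp only [neg_sq, mul_pow]
      rw [← Finset.mul_sum]
      set T := ∑ i, (x i : ℝ) ^ 2
      have hT : T ≤ 1 + T := by linarith
      have h1 : q * T ≤ 1 := by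
        rw [← inv_mul_cancel₀ (show (1 + T) ≠ 0 by linarith)]
        exact mul_le_mul_of_nonneg_left hT hq.le
      have h2 : q ≤ 1 := inv_le_one_of_one_le₀ hq1
      have h3 : 0 ≤ q * T := mul_nonneg hq.le (by linarith)
      nlinarith
    · have h1 := hposQ j p p' hR
      have h2 : (0 : ℝ) ≤ (x ⟨j, p⟩ : ℝ) + (x ⟨j, p'⟩ : ℝ) := by exact_mod_cast h1
      have h3 := mul_nonneg hq.le h2
      linarith
  obtain ⟨w, t, hw, hg, hopt⟩ := exists_opt2 (L := L) QL hrz hrz0
  have ht : 0 < t := by
    let X : Finset (∀ s, b (c s)) := univ.filter fun J => ∃ z ∈ N',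
      ev z (fun s => e (c s) (J s)) ≠ 0
    have hX : X.Nonempty := by
      obtain ⟨J, hJ⟩ := exists_ev hrz hrz0 e
      exact ⟨J, mem_filter.2 ⟨mem_univ _, hJ⟩⟩
    have h1 : 0 < X.inf' hX fun J => q * ∑ s, (x ⟨c s, J s⟩ : ℝ) := by
      rw [Finset.lt_inf'_iff]
      intro J hJ
      have h2 := hpos J (mem_filter.1 hJ).2
      exact mul_pos hq (by exact_mod_cast h2)
    have hG : Ge N' (X.inf' hX fun J => q * ∑ s, (x ⟨c s, J s⟩ : ℝ))
        fun j => nrm (e j) (fun p => (fun i => -(q * (x i : ℝ))) ⟨j, p⟩) := by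
      refine Ge.of_weights (ω := fun i => -(q * (x i : ℝ))) e fun J hJ => ?_
      rw [Finset.sum_neg_distrib, neg_le_neg_iff, ← Finset.mul_sum]
      have hJX : J ∈ X := mem_filter.2 ⟨mem_univ _, hJ⟩
      have h5 := Finset.inf'_le (fun J : ∀ s, b (c s) => q * ∑ s, (x ⟨c s, J s⟩ : ℝ)) hJX
      beta_reduce at h5
      exact h5
    exact lt_of_lt_of_le h1 (hopt _ _ (Adm2.of_weights QL e hCs) hG)
  -- invariance under the Galois group
  have hgal : ∀ (σ : L ≃ₐ[K] L) j (y : b j → L), y ≠ 0 → w j (fun p => σ (y p)) = w j y := by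
    intro σ j y hy
    refine opt_invariant2 hrz hrz0 ht hopt hw hg σ.toRingEquiv
      (fun j => AddEquiv.piCongrRight fun _ => σ.toRingEquiv.toAddEquiv) ?_ ?_ ?_ j y hy
    · intro j a y
      funext p
      simp
    · intro j y y' h1
      have h2 : (AddEquiv.piCongrRight fun _ => σ.toRingEquiv.toAddEquiv : (b j → L) ≃+ (b j → L))
          y ⬝ᵥ (QL j *ᵥ (AddEquiv.piCongrRight fun _ => σ.toRingEquiv.toAddEquiv :
            (b j → L) ≃+ (b j → L)) y') = σ (y ⬝ᵥ (QL j *ᵥ y')) := by
        simp only [dotProduct, Matrix.mulVec, map_sum, map_mul]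
        refine Finset.sum_congr rfl fun p _ => ?_
        congr 1
        refine Finset.sum_congr rfl fun p' _ => ?_
        congr 1
        exact (σ.commutes _).symm
      rw [h2]
      exact (map_ne_zero _).2 h1
    · intro z hz u hu
      refine ⟨z, hz, ?_⟩
      have h1 : ev z (fun s => (AddEquiv.piCongrRight fun _ => σ.toRingEquiv.toAddEquiv) (u s)) =
          σ (ev z u) := by
        unfold ev
        rw [map_sum]
        refine Finset.sum_congr rfl fun I _ => ?_
        rw [map_mul, map_prod, AlgEquiv.commutes]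
        rfl
      rw [h1]
      exact (map_ne_zero _).2 hu
  -- invariance under the group
  have hinv : ∀ g ∈ G, ∀ j (y : b j → L), y ≠ 0 →
      w j ((g j).map (algebraMap K L) *ᵥ y) = w j y := by
    intro g hg' j y hy
    have hgu : ∀ j, IsUnit ((g j).map (algebraMap K L)) := by
      intro j
      exact (hG g hg' j).map ((algebraMap K L).mapMatrix)
    have hdet : ∀ j, IsUnit ((g j).map (algebraMap K L)).det := fun j =>
      (Matrix.isUnit_iff_isUnit_det _).1 (hgu j)
    let A : ∀ j, (b j → L) ≃+ (b j → L) := fun j =>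
      { toFun := fun y => ((g j).map (algebraMap K L))⁻¹ *ᵥ y
        invFun := fun y => (g j).map (algebraMap K L) *ᵥ y
        left_inv := fun y => by
          beta_reduce
          rw [mulVec_mulVec, Matrix.mul_nonsing_inv _ (hdet j), one_mulVec]
        right_inv := fun y => by
          beta_reduce
          rw [mulVec_mulVec, Matrix.nonsing_inv_mul _ (hdet j), one_mulVec]
        map_add' := fun y y' => by rw [mulVec_add] }
    have hAi : ∀ j y, (g j).map (algebraMap K L) *ᵥ A j y = y := fun j y =>
      (A j).symm_apply_apply y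
    have h1 := opt_invariant2 hrz hrz0 ht hopt hw hg (RingEquiv.refl L) A (by
      intro j a y
      change _ *ᵥ (a • y) = a • (_ *ᵥ y)
      rw [mulVec_smul]) (by
      intro j y y' h1 h2
      obtain ⟨a, ha, haQ⟩ := hGQ g hg' j
      apply h1
      have haQ' : ((g j).map (algebraMap K L))ᵀ * QL j * (g j).map (algebraMap K L) =
          algebraMap K L a • QL j := by
        have h3 := congrArg (fun X => X.map (algebraMap K L)) haQ
        simp only [Matrix.map_mul] at h3
        rw [← Matrix.transpose_map]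
        rw [h3]
        ext i k
        simp [QL]
      have h4 : y ⬝ᵥ (QL j *ᵥ y') = algebraMap K L a * (A j y ⬝ᵥ (QL j *ᵥ A j y')) := by
        conv_lhs => rw [← hAi j y, ← hAi j y']
        rw [mulVec_mulVec, dotProduct_mulVec, vecMul_mulVec, ← dotProduct_mulVec,
          ← Matrix.mul_assoc, haQ', smul_mulVec, dotProduct_smul, smul_eq_mul]
      rw [h4, h2, mul_zero]) (by
      rintro _ ⟨z, hz, rfl⟩ u hu
      refine ⟨rst c (gtact (fun _ => Matrix.blockDiagonal' fun j => (g j)ᵀ) z),
        ⟨_, hGN g hg' z hz, rfl⟩, ?_⟩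
      rw [ev_gtact (hc z hz) (fun _ => g)]
      have h5 : (fun s => (g (c s)).map (algebraMap K L) *ᵥ A (c s) (u s)) = u := by
        funext s
        exact hAi (c s) (u s)
      rw [h5]
      exact hu) j ((g j).map (algebraMap K L) *ᵥ y) (by
        intro h0
        exact hy ((map_eq_zero_iff _ (A j).symm.injective).1 h0))
    rw [← h1]
    have h6 : A j ((g j).map (algebraMap K L) *ᵥ y) = y := (A j).apply_symm_apply y
    rw [h6]
  -- invariance under the unitary elements
  have huni : ∀ j, ∀ e₀ ∈ baseC L (E j), adjL (QL j) e₀ * e₀ = 1 → ∀ y : b j → L, y ≠ 0 →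
      w j (e₀ *ᵥ y) = w j y := by
    intro j e₀ he₀ hue y hy
    let a : ∀ j, Matrix (b j) (b j) L := Function.update (fun _ => 1) j e₀
    have ha1 : ∀ i, a i ∈ baseC L (E i) := by
      intro i
      by_cases h1 : i = j
      · subst h1
        simp only [a, Function.update_self]
        exact he₀
      · simp only [a, Function.update_of_ne h1]
        exact one_mem _
    have ha2 : ∀ i, adjL (QL i) (a i) * a i = 1 := by
      intro i
      by_cases h1 : i = j
      · subst h1
        simp only [a, Function.update_self]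
        exact hue
      · simp only [a, Function.update_of_ne h1]
        rw [Matrix.mul_one, adjL_apply, Matrix.transpose_one, Matrix.mul_one,
          Matrix.nonsing_inv_mul _ ((Matrix.isUnit_iff_isUnit_det _).1 (hQLu i))]
    have ha2' : ∀ i, a i * adjL (QL i) (a i) = 1 := fun i => mul_eq_one_comm.1 (ha2 i)
    have ha3 : ∀ i, (a i)ᵀ * QL i * a i = QL i := by
      intro i
      have h1 := ha2 i
      rw [adjL_apply] at h1
      have h2 := congrArg (fun X => QL i * X) h1
      simp only [Matrix.mul_one] at h2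
      rw [← Matrix.mul_assoc, ← Matrix.mul_assoc, ← Matrix.mul_assoc,
        Matrix.mul_nonsing_inv _ ((Matrix.isUnit_iff_isUnit_det _).1 (hQLu i)),
        Matrix.one_mul] at h2
      exact h2
    let A : ∀ j, (b j → L) ≃+ (b j → L) := fun i =>
      { toFun := fun y => a i *ᵥ y
        invFun := fun y => adjL (QL i) (a i) *ᵥ y
        left_inv := fun y => by
          beta_reduce
          rw [mulVec_mulVec, ha2, one_mulVec]
        right_inv := fun y => by
          beta_reduce
          rw [mulVec_mulVec, ha2', one_mulVec]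
        map_add' := fun y y' => by rw [mulVec_add] }
    have h1 := opt_invariant2 hrz hrz0 ht hopt hw hg (RingEquiv.refl L) A (by
      intro j a y
      change _ *ᵥ (a • y) = a • (_ *ᵥ y)
      rw [mulVec_smul]) (by
      intro i y y' h1
      have h4 : A i y ⬝ᵥ (QL i *ᵥ A i y') = y ⬝ᵥ (QL i *ᵥ y') := by
        change (a i *ᵥ y) ⬝ᵥ (QL i *ᵥ (a i *ᵥ y')) = _
        rw [mulVec_mulVec, dotProduct_mulVec, vecMul_mulVec, ← dotProduct_mulVec,
          ← Matrix.mul_assoc, ha3]
      rw [h4]
      exact h1) (by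
      rintro _ ⟨z, hz, rfl⟩ u hu
      by_contra hcon
      push Not at hcon
      apply hu
      have h5 : u = fun s => adjL (QL (c s)) (a (c s)) *ᵥ A (c s) (u s) := by
        funext s
        exact ((A (c s)).symm_apply_apply (u s)).symm
      rw [h5]
      refine ev_baseC E _ _ ?_ _ (fun s => adjL_mem (hQ _) (hadj _) (ha1 _))
      intro f hf
      -- extend the family to all colours
      let f' : S → ∀ j, Matrix (b j) (b j) K := fun s => Function.update (fun _ => 1) (c s) (f s)
      have hf' : ∀ s j, f' s j ∈ E j := by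
        intro s i
        by_cases h1 : i = c s
        · subst h1
          simp only [f', Function.update_self]
          exact hf s
        · simp only [f', Function.update_of_ne h1]
          exact one_mem _
      have h6 := hcon _ ⟨_, hEN f' hf' z hz, rfl⟩
      rw [ev_gtact (hc z hz)] at h6
      simp only [f', Function.update_self] at h6
      exact h6) j y hy
    have h6 : A j y = e₀ *ᵥ y := by
      change a j *ᵥ y = _
      simp only [a, Function.update_self]
    rw [← h6]
    exact h1
  -- the positive parts vanish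
  have hneg : ∀ j (y : b j → L), y ≠ 0 → w j y ≤ 0 := by
    intro j
    -- the positive part
    let F : Submodule L (b j → L) := (hw.1.1 j).gt 0
    have hmem : ∀ y, y ∈ F ↔ y = 0 ∨ 0 < w j y := fun y => (hw.1.1 j).mem_gt 0 y
    have hFgal : ∀ σ : L ≃ₐ[K] L, ∀ y ∈ F, (fun p => σ (y p)) ∈ F := by
      intro σ y hy
      rw [hmem]
      by_cases h1 : y = 0
      · left
        rw [h1]
        funext p
        simp
      · right
        rw [hgal σ j y h1]
        exact ((hmem y).1 hy).resolve_left h1
    have hFE : ∀ e₀ ∈ baseC L (E j), ∀ y ∈ F, e₀ *ᵥ y ∈ F := by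
      refine Pool.Agent.Y154.Uni.unitary_stable (baseC L (E j)) (adjL (QL j))
        (fun x hx => adjL_mem (hQ j) (hadj j) hx)
        (fun x _ => adjL_adjL (hQLu j) (ε := algebraMap K L (ε j))
          (by rw [← map_mul, hε1, map_one]) ?_ x)
        (fun x _ y _ => adjL_mul (hQLu j) x y) (fun x _ => adjL_trace (hQLu j) x)
        (baseC_nondeg (Pool.Agent.Y154.Trf.trace_nondeg (E j) (Q j) (hQ j) (hadj j) ((fun g => g j) '' G) ?_ ?_ ?_))
        F ?_
      · change ((Q j).map (algebraMap K L))ᵀ = _
        rw [← Matrix.transpose_map, hε]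
        ext i k
        simp [QL]
      · rintro _ ⟨g, hg, rfl⟩
        exact hG g hg j
      · rintro _ ⟨g, hg, rfl⟩ e he
        exact hGE g hg j e he
      · intro W hW1 hW2 hW3
        exact hiso j W (fun g hg => hW1 _ ⟨g, hg, rfl⟩) hW2 hW3
      · intro u hu hu' y hy
        rw [hmem]
        by_cases h1 : y = 0
        · left
          rw [h1, mulVec_zero]
        · right
          rw [huni j u hu hu' y h1]
          exact ((hmem y).1 hy).resolve_left h1
    let W : Submodule K (b j → K) :=
      { carrier := {y | (fun p => algebraMap K L (y p)) ∈ F}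
        add_mem' := by
          intro y y' hy hy'
          have h1 : (fun p => algebraMap K L ((y + y') p)) =
              (fun p => algebraMap K L (y p)) + (fun p => algebraMap K L (y' p)) := by
            funext p
            simp
          change (fun p => algebraMap K L ((y + y') p)) ∈ F
          rw [h1]
          exact F.add_mem hy hy'
        zero_mem' := by
          have h1 : (fun p => algebraMap K L ((0 : b j → K) p)) = 0 := by
            funext p
            simp
          change (fun p => algebraMap K L ((0 : b j → K) p)) ∈ F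
          rw [h1]
          exact F.zero_mem
        smul_mem' := by
          intro a y hy
          have h1 : (fun p => algebraMap K L ((a • y) p)) =
              algebraMap K L a • (fun p => algebraMap K L (y p)) := by
            funext p
            simp
          change (fun p => algebraMap K L ((a • y) p)) ∈ F
          rw [h1]
          exact F.smul_mem _ hy }
    have hmv : ∀ (g : Matrix (b j) (b j) K) (y : b j → K),
        (fun p => algebraMap K L ((g *ᵥ y) p)) =
          g.map (algebraMap K L) *ᵥ (fun p => algebraMap K L (y p)) := by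
      intro g y
      funext p
      simp [Matrix.mulVec, dotProduct]
    have hW : W = ⊥ := by
      refine hiso j W ?_ ?_ ?_
      · intro g hg y hy
        change (fun p => algebraMap K L ((g j *ᵥ y) p)) ∈ F
        rw [hmv, hmem]
        by_cases h2 : (fun p => algebraMap K L (y p)) = 0
        · left
          rw [h2, mulVec_zero]
        · right
          rw [hinv g hg j _ h2]
          exact ((hmem _).1 hy).resolve_left h2
      · intro e he y hy
        change (fun p => algebraMap K L ((e *ᵥ y) p)) ∈ F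
        rw [hmv]
        exact hFE _ (map_mem_baseC he) _ hy
      · intro y hy y' hy'
        by_contra h1
        have h2 : (fun p => algebraMap K L (y p)) ⬝ᵥ
            (QL j *ᵥ (fun p => algebraMap K L (y' p))) ≠ 0 := by
          have h3 : (fun p => algebraMap K L (y p)) ⬝ᵥ
              (QL j *ᵥ (fun p => algebraMap K L (y' p))) =
              algebraMap K L (y ⬝ᵥ (Q j *ᵥ y')) := by
            rw [← hmv]
            simp [dotProduct]
          rw [h3]
          exact (map_ne_zero _).2 h1
        have h4 := hw.2 j _ _ h2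
        have h5 : (fun p => algebraMap K L (y p)) ≠ 0 := by
          intro h6
          rw [h6, zero_dotProduct] at h2
          exact h2 rfl
        have h6 : (fun p => algebraMap K L (y' p)) ≠ 0 := by
          intro h6
          rw [h6, mulVec_zero, dotProduct_zero] at h2
          exact h2 rfl
        have h7 := ((hmem _).1 hy).resolve_left h5
        have h8 := ((hmem _).1 hy').resolve_left h6
        linarith
    have hF0 : F = ⊥ := by
      by_contra hF0
      obtain ⟨y, hy, hyF⟩ := exists_rational F hFgal hF0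
      have h1 : y ∈ W := hyF
      rw [hW, Submodule.mem_bot] at h1
      exact hy h1
    intro y hy
    by_contra h1
    push Not at h1
    have h2 : y ∈ F := (hmem y).2 (Or.inr h1)
    rw [hF0, Submodule.mem_bot] at h2
    exact hy h2
  -- the contradiction
  obtain ⟨⟨_, e', he', htr, _⟩, _⟩ := hw
  have hzero : ∀ j p, w j (e' j p) = 0 := by
    intro j p
    exact (Finset.sum_eq_zero_iff_of_nonpos fun p _ => hneg j _ ((e' j).ne_zero p)).1 (htr j) p
      (mem_univ p)
  obtain ⟨J, z', hz', hJ⟩ := exists_ev hrz hrz0 e'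
  have h1 := hg z' hz' _ hJ
  rw [Finset.sum_eq_zero fun s _ => hzero _ _] at h1
  linarith

end

end Pool.Agent.Y104.Kempf
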