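import Pool.Agent.Y104.Opt2

/-!
# Generalized eigenvectors and multilinear forms; adapted bases of generalized eigenvectors
-/

open Finset Module

set_option linter.unusedSectionVars false

namespace Pool.Agent.Y104.Kempf

/-- A multilinear form which is multiplied by `c` by the transformations `g` vanishes on generalized
eigenvectors if the product of the eigenvalues is not `c`. -/
theorem mul_eig {S : Type*} [Fintype S] [DecidableEq S] {L : Type*} [Field L] {V : S → Type*}
    [∀ s, AddCommGroup (V s)] [∀ s, Module L (V s)] (f : MultilinearMap L V L)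
    (g : ∀ s, V s →ₗ[L] V s) (c : L) (h : ∀ u, f (fun s => g s (u s)) = c * f u) (α : S → L)
    (hc : ∏ s, α s ≠ c) (u : ∀ s, V s) (hu : ∀ s, u s ∈ Module.End.maxGenEigenspace (g s) (α s)) :
    f u = 0 := by
  choose m hm using fun s => (Module.End.mem_maxGenEigenspace (g s) (α s) (u s)).1 (hu s)
  suffices H : ∀ (N : ℕ) (u : ∀ s, V s) (m : S → ℕ), ∑ s, m s = N →
      (∀ s, ((g s - α s • (1 : Module.End L (V s))) ^ m s) (u s) = 0) → f u = 0 from
    H _ u m rfl hm
  intro N
  induction N using Nat.strong_induction_on with
  | _ N ih =>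
    intro u m hN hm
    by_cases h0 : ∃ s, m s = 0
    · obtain ⟨s, hs⟩ := h0
      have h1 := hm s
      rw [hs, pow_zero, Module.End.one_apply] at h1
      exact f.map_coord_zero s h1
    push Not at h0
    have h2 : (fun s => g s (u s)) = (fun s => (g s - α s • (1 : Module.End L (V s))) (u s)) +
        fun s => α s • u s := by
      funext s
      simp
    have h3 := h u
    rw [h2, MultilinearMap.map_add_univ] at h3
    rw [Finset.sum_eq_single_of_mem (∅ : Finset S) (mem_univ _)] at h3
    · rw [Finset.piecewise_empty, MultilinearMap.map_smul_univ, smul_eq_mul] at h3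
      have h4 : (∏ s, α s - c) * f u = 0 := by rw [sub_mul, h3, sub_self]
      exact (mul_eq_zero.1 h4).resolve_left (sub_ne_zero.2 hc)
    · intro T _ hT
      obtain ⟨s₀, hs₀⟩ := Finset.nonempty_iff_ne_empty.2 hT
      refine ih (∑ s, if s ∈ T then m s - 1 else m s) ?_ _ (fun s => if s ∈ T then m s - 1 else m s)
        rfl ?_
      · rw [← hN]
        refine Finset.sum_lt_sum (fun s _ => ?_) ⟨s₀, mem_univ _, ?_⟩
        · split_ifs <;> omega
        · rw [if_pos hs₀]
          have := h0 s₀
          omega
      · intro s
        by_cases hs : s ∈ T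
        · rw [if_pos hs, Finset.piecewise_eq_of_mem _ _ _ hs]
          have h5 := hm s
          obtain ⟨k, hk⟩ := Nat.exists_eq_succ_of_ne_zero (h0 s)
          rw [hk] at h5 ⊢
          rw [Nat.succ_sub_one]
          rw [pow_succ, Module.End.mul_apply] at h5
          exact h5
        · rw [if_neg hs, Finset.piecewise_eq_of_notMem _ _ _ hs, map_smul, hm s, smul_zero]

/-- The determinant is the product of the eigenvalues. -/
theorem det_eig {n : Type*} [Fintype n] [DecidableEq n] {L : Type*} [Field L] {V : Type*}
    [AddCommGroup V] [Module L V] (g : V →ₗ[L] V) (e : Basis n L V) (α : n → L)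
    (he : ∀ p, e p ∈ Module.End.maxGenEigenspace g (α p)) : ∏ p, α p = LinearMap.det g := by
  by_contra hc
  have h1 := mul_eig (V := fun _ : n => V) e.det.toMultilinearMap (fun _ => g) (LinearMap.det g)
    (fun u => e.det_comp g u) α hc e he
  have h2 : e.det e = 1 := e.det_self
  rw [AlternatingMap.coe_multilinearMap] at h1
  rw [h2] at h1
  exact one_ne_zero h1

section

variable {L : Type*} [Field L] {V : Type*} [AddCommGroup V] [Module L V]

/-- The subspace of vectors of norm at least `r`. -/
def IsNrm.ge {w : V → ℝ} (h : IsNrm L w) (r : ℝ) : Submodule L V where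
  carrier := {x | x = 0 ∨ r ≤ w x}
  add_mem' := by
    intro x y hx hy
    by_cases h0 : x + y = 0
    · exact Or.inl h0
    rcases hx with hx | hx
    · subst hx
      rw [zero_add] at h0 ⊢
      exact hy
    · rcases hy with hy | hy
      · subst hy
        rw [add_zero] at h0 ⊢
        exact Or.inr hx
      · by_cases hx0 : x = 0
        · subst hx0
          rw [zero_add]
          exact Or.inr hy
        · by_cases hy0 : y = 0
          · subst hy0
            rw [add_zero]
            exact Or.inr hx
          · exact Or.inr ((le_min hx hy).trans (h.add x y hx0 hy0 h0))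
  zero_mem' := Or.inl rfl
  smul_mem' := by
    intro c x hx
    by_cases hc : c = 0
    · exact Or.inl (by rw [hc, zero_smul])
    · rcases hx with hx | hx
      · exact Or.inl (by rw [hx, smul_zero])
      · by_cases hx0 : x = 0
        · exact Or.inl (by rw [hx0, smul_zero])
        · exact Or.inr (by rw [h.smul c x hc hx0]; exact hx)

theorem IsNrm.mem_ge {w : V → ℝ} (h : IsNrm L w) (r : ℝ) (x : V) :
    x ∈ h.ge r ↔ x = 0 ∨ r ≤ w x := Iff.rfl

/-- **A norm invariant under a transformation has an adapted basis of generalized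
eigenvectors.** -/
theorem exists_adp_eig [IsAlgClosed L] [FiniteDimensional L V] {n : Type} [Fintype n]
    (hn : Fintype.card n = finrank L V) {w : V → ℝ} (hw : IsNrm L w) (g : V →ₗ[L] V)
    (hg : ∀ x, g x ≠ 0 → w x ≤ w (g x)) : ∃ (e : Basis n L V) (α : n → L), Adp w e ∧
      ∀ p, e p ∈ Module.End.maxGenEigenspace g (α p) := by
  classical
  let A : L → Submodule L V := fun α => Module.End.maxGenEigenspace g α
  have hA : DirectSum.IsInternal A := by
    refine DirectSum.isInternal_submodule_of_iSupIndep_of_iSup_eq_top
      (Module.End.independent_maxGenEigenspace g) ?_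
    exact Module.End.iSup_maxGenEigenspace_eq_top g
  choose e he using fun α => exists_common (L := L) (finrank L (A α)) rfl
    (hw.restrict (A α)) (hw.restrict (A α))
  let f := hA.collectedBasis e
  have hf : Adp w f := by
    rintro x ⟨α, i⟩ hx
    by_cases hx0 : x = 0
    · subst hx0
      rw [map_zero] at hx
      exact absurd rfl hx
    have h1 : x ∈ hw.ge (w x) := Or.inr le_rfl
    have h2 : hw.ge (w x) = ⨆ μ, hw.ge (w x) ⊓ A μ := by
      have h3 := Submodule.inf_iSup_genEigenspace (K := L) (p := hw.ge (w x)) (f := g) ?_ ⊤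
      · have h4 : (⨆ μ, Module.End.genEigenspace g μ ⊤) = ⊤ :=
          Module.End.iSup_maxGenEigenspace_eq_top g
        rw [h4, inf_top_eq] at h3
        exact h3
      · intro y hy
        rw [hw.mem_ge] at hy ⊢
        by_cases h0 : g y = 0
        · exact Or.inl h0
        · right
          have hy0 : y ≠ 0 := fun h => h0 (by rw [h, map_zero])
          exact (hy.resolve_left hy0).trans (hg y h0)
    rw [h2, Submodule.mem_iSup_iff_exists_finsupp] at h1
    obtain ⟨y, hy, hyx⟩ := h1
    have h3 : f.repr x ⟨α, i⟩ = (e α).repr ⟨y α, (hy α).2⟩ i := by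
      have h30 : f.repr x ⟨α, i⟩ = f.repr (∑ β ∈ y.support, y β) ⟨α, i⟩ :=
        congrArg (fun t => f.repr t ⟨α, i⟩) hyx.symm
      rw [h30, map_sum, Finsupp.finsetSum_apply]
      by_cases h4 : α ∈ y.support
      · rw [Finset.sum_eq_single_of_mem α h4]
        · exact hA.collectedBasis_repr_of_mem e (hy α).2
        · intro β _ hβ
          exact hA.collectedBasis_repr_of_mem_ne e hβ (hy β).2
      · rw [Finset.sum_eq_zero]
        · have h5 : y α = 0 := Finsupp.notMem_support_iff.1 h4
          have h6 : (⟨y α, (hy α).2⟩ : A α) = 0 := Subtype.ext h5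
          rw [h6, map_zero]
          rfl
        · intro β hβ
          have hβα : β ≠ α := fun h => h4 (h ▸ hβ)
          exact hA.collectedBasis_repr_of_mem_ne e hβα (hy β).2
    rw [h3] at hx
    have h4 := (he α).1 _ _ hx
    have h5 : y α ≠ 0 := by
      intro h6
      have h7 : (⟨y α, (hy α).2⟩ : A α) = 0 := Subtype.ext h6
      rw [h7, map_zero] at hx
      exact hx rfl
    have h6 := ((hw.mem_ge _ _).1 (hy α).1).resolve_left h5
    refine h6.trans (h4.trans (le_of_eq ?_))
    change w (e α i) = w (f ⟨α, i⟩)
    congr 1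
    exact (congrFun (hA.collectedBasis_coe e) ⟨α, i⟩).symm
  have hfin : Finite (Σ α, Fin (finrank L (A α))) := Module.Finite.finite_basis f
  have : Fintype (Σ α, Fin (finrank L (A α))) := Fintype.ofFinite _
  have hcard : Fintype.card (Σ α, Fin (finrank L (A α))) = Fintype.card n := by
    rw [hn, finrank_eq_card_basis f]
  let σ : (Σ α, Fin (finrank L (A α))) ≃ n := Fintype.equivOfCardEq hcard
  refine ⟨f.reindex σ, fun p => (σ.symm p).1, ?_, ?_⟩
  · intro x p hx
    rw [Basis.repr_reindex_apply] at hx
    rw [Basis.reindex_apply]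
    exact hf x _ hx
  · intro p
    rw [Basis.reindex_apply]
    exact hA.collectedBasis_mem e (σ.symm p)

end

end Pool.Agent.Y104.Kempf
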