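import Mathlib

/-!
# Homomorphisms to the rational numbers; rational solutions of linear equations
-/

open Finset Module

set_option linter.unusedSectionVars false

namespace Pool.Agent.Y104.Kempf

/-- An element of infinite order is detected by a homomorphism to the rational numbers. -/
theorem exists_hom {A : Type*} [AddCommGroup A] (a : A) (ha : ∀ n : ℕ, 0 < n → n • a ≠ 0) :
    ∃ v : A →+ ℚ, v a ≠ 0 := by
  let S := nonZeroDivisors ℤ
  let M := LocalizedModule S A
  let x : M := LocalizedModule.mkLinearMap S A a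
  have hx : x ≠ 0 := by
    intro h
    have h1 : LocalizedModule.mk a (1 : S) = LocalizedModule.mk 0 1 := by
      rw [LocalizedModule.zero_mk]
      exact h
    rw [LocalizedModule.mk_eq] at h1
    obtain ⟨c, hc⟩ := h1
    have hc0 : (c : ℤ) ≠ 0 := nonZeroDivisors.ne_zero c.2
    rw [one_smul, one_smul, smul_zero] at hc
    have hc' : (c : ℤ) • a = 0 := hc
    apply ha (c : ℤ).natAbs (Int.natAbs_pos.2 hc0)
    rcases Int.natAbs_eq (c : ℤ) with h2 | h2
    · rw [h2, natCast_zsmul] at hc'
      exact hc'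
    · rw [h2, neg_smul, natCast_zsmul, neg_eq_zero] at hc'
      exact hc'
  have h2 : ∃ φ : Module.Dual (FractionRing ℤ) M, φ x ≠ 0 := by
    by_contra h
    push Not at h
    exact hx ((Module.forall_dual_apply_eq_zero_iff (FractionRing ℤ) x).1 h)
  obtain ⟨φ, hφ⟩ := h2
  let ψ : FractionRing ℤ →+* ℚ := (FractionRing.algEquiv ℤ ℚ).toRingEquiv.toRingHom
  refine ⟨ψ.toAddMonoidHom.comp (φ.toAddMonoidHom.comp
    (LocalizedModule.mkLinearMap S A).toAddMonoidHom), ?_⟩
  change ψ (φ x) ≠ 0
  exact (map_ne_zero ψ).2 hφ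

/-- **Positive real solutions of rational equations give positive integral solutions.** -/
theorem exists_nat_sol {n : Type*} [Fintype n] (x : n → ℝ) (hx : ∀ i, 0 < x i) :
    ∃ y : n → ℕ, (∀ i, 0 < y i) ∧ ∀ q : n → ℚ, ∑ i, (q i : ℝ) * x i = 0 →
      ∑ i, q i * (y i : ℚ) = 0 := by
  classical
  -- the span of the numbers
  let U : Submodule ℚ ℝ := Submodule.span ℚ (Set.range x)
  have hU : FiniteDimensional ℚ U := FiniteDimensional.span_of_finite ℚ (Set.finite_range x)
  let r := Module.finBasis ℚ U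
  let d := Module.finrank ℚ U
  let xU : n → U := fun i => ⟨x i, Submodule.subset_span ⟨i, rfl⟩⟩
  let c : n → Fin d → ℚ := fun i k => r.repr (xU i) k
  have hxc : ∀ i, x i = ∑ k, (c i k : ℝ) * (r k : ℝ) := by
    intro i
    have h1 := congrArg (Subtype.val) (r.sum_repr (xU i))
    rw [Submodule.coe_sum] at h1
    rw [show x i = ((xU i : U) : ℝ) from rfl, ← h1]
    refine Finset.sum_congr rfl fun k _ => ?_
    rw [Submodule.coe_smul, Rat.smul_def]
  -- the open set of positivity
  have hopen : IsOpen {s : Fin d → ℝ | ∀ i, 0 < ∑ k, (c i k : ℝ) * s k} := by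
    rw [Set.ofPred_forall]
    refine isOpen_iInter_of_finite fun i => ?_
    exact isOpen_lt continuous_const (by fun_prop)
  have hmem : (fun k => (r k : ℝ)) ∈ {s : Fin d → ℝ | ∀ i, 0 < ∑ k, (c i k : ℝ) * s k} := by
    intro i
    rw [← hxc]
    exact hx i
  have hdense : Dense (Set.range fun s : Fin d → ℚ => fun k => (s k : ℝ)) := by
    have h1 : DenseRange fun s : Fin d → ℚ => fun k => (s k : ℝ) :=
      DenseRange.piMap fun _ => Rat.denseRange_cast
    exact h1
  obtain ⟨_, ⟨s, rfl⟩, hs⟩ := hdense.exists_mem_open hopen ⟨_, hmem⟩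
  -- the rational solution
  let y : n → ℚ := fun i => ∑ k, c i k * s k
  have hy : ∀ i, 0 < y i := by
    intro i
    have h1 := hs i
    have h2 : (0 : ℝ) < ((y i : ℚ) : ℝ) := by
      simp only [y, Rat.cast_sum, Rat.cast_mul]
      exact h1
    exact_mod_cast h2
  have hyq : ∀ q : n → ℚ, ∑ i, (q i : ℝ) * x i = 0 → ∑ i, q i * y i = 0 := by
    intro q hq
    have h1 : ∑ i, q i • xU i = 0 := by
      apply Subtype.ext
      rw [Submodule.coe_sum, ZeroMemClass.coe_zero, ← hq]
      refine Finset.sum_congr rfl fun i _ => ?_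
      rw [Submodule.coe_smul, Rat.smul_def]
    have h2 : ∀ k, ∑ i, q i * c i k = 0 := by
      intro k
      have h3 := congrArg (fun u => r.repr u k) h1
      simp only [map_sum, map_smul, map_zero, Finsupp.zero_apply, Finsupp.finsetSum_apply,
        Finsupp.smul_apply, smul_eq_mul] at h3
      exact h3
    calc ∑ i, q i * y i = ∑ k, (∑ i, q i * c i k) * s k := by
          simp only [y, Finset.mul_sum, Finset.sum_mul]
          rw [Finset.sum_comm]
          refine Finset.sum_congr rfl fun k _ => Finset.sum_congr rfl fun i _ => ?_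
          ring
      _ = 0 := by simp only [h2, zero_mul, Finset.sum_const_zero]
  -- clearing denominators
  let D : ℕ := ∏ i, (y i).den
  have hD : 0 < D := Finset.prod_pos fun i _ => (y i).den_pos
  have h4 : ∀ i, ∃ m : ℕ, 0 < m ∧ (m : ℚ) = D * y i := by
    intro i
    have h5 : (y i).den ∣ D := Finset.dvd_prod_of_mem _ (mem_univ i)
    obtain ⟨e, he⟩ := h5
    have hnum : 0 < (y i).num := Rat.num_pos.2 (hy i)
    have he0 : 0 < e := Nat.pos_of_ne_zero fun h => by
      rw [h, mul_zero] at he
      omega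
    refine ⟨e * (y i).num.toNat, Nat.mul_pos he0 (by omega), ?_⟩
    have h6 : (((y i).num.toNat : ℕ) : ℚ) = ((y i).num : ℚ) := by
      have : (((y i).num.toNat : ℕ) : ℤ) = (y i).num := Int.toNat_of_nonneg hnum.le
      exact_mod_cast this
    rw [he]
    push_cast
    rw [h6]
    have h7 : ((y i).den : ℚ) ≠ 0 := by exact_mod_cast (y i).den_nz
    have h9 : ((y i).den : ℚ) * y i = ((y i).num : ℚ) := Rat.den_mul_eq_num (y i)
    rw [← h9]
    ring
  choose m hm hm' using h4
  refine ⟨m, hm, fun q hq => ?_⟩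
  have h5 := hyq q hq
  calc ∑ i, q i * (m i : ℚ) = D * ∑ i, q i * y i := by
        rw [Finset.mul_sum]
        refine Finset.sum_congr rfl fun i _ => ?_
        rw [hm']
        ring
    _ = 0 := by rw [h5, mul_zero]

end Pool.Agent.Y104.Kempf
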