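import Pool.Agent.Y104.Opt2

/-!
# Variation of the optimal norm
-/

open Finset Module Matrix

set_option linter.unusedSectionVars false

namespace Pool.Agent.Y104.Kempf

section

variable {ι : Type} [Fintype ι] [DecidableEq ι] {b : ι → Type} [∀ i, Fintype (b i)]
  [∀ i, DecidableEq (b i)] {S : Type} [Fintype S] [DecidableEq S] {c : S → ι}
  {K : Type*} [Field K] {L : Type*} [Field L] [Algebra K L]

/-- **The optimal norm is orthogonal to all variations which do not change the conditions.** -/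
theorem opt_variation {Q : ∀ j, Matrix (b j) (b j) L} {N : Set ((∀ s, b (c s)) → K)}
    {w : ∀ j, (b j → L) → ℝ} {t : ℝ}
    (ht : 0 < t) (hw : Adm2 Q w) (hg : Ge N t w)
    (hopt : ∀ (w' : ∀ j, (b j → L) → ℝ) (t' : ℝ), Adm2 Q w' → Ge N t' w' → t' ≤ t)
    {e : ∀ j, Basis (b j) L (b j → L)} (he : ∀ j, Adp (w j) (e j)) (y : ∀ j, b j → ℝ)
    (hy0 : ∀ j, ∑ p, y j p = 0) (hyQ : ∀ j p q, Rl Q e j p q → y j p + y j q = 0)
    (hyN : ∀ z ∈ N, ∀ J : ∀ s, b (c s), ev z (fun s => e (c s) (J s)) ≠ 0 →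
      ∑ s, y (c s) (J s) = 0) : ∑ j, ∑ p, w j (e j p) * y j p = 0 := by
  classical
  by_contra hne
  obtain ⟨hw1, hw2⟩ := hw.1.any he
  set A : ℝ := ∑ j, ∑ p, w j (e j p) * y j p with hA
  set B : ℝ := ∑ j, ∑ p, y j p ^ 2 with hB
  set C : ℝ := ∑ j, ∑ p, w j (e j p) ^ 2 with hC
  have hB0 : 0 < B := by
    refine lt_of_le_of_ne (Finset.sum_nonneg fun j _ => Finset.sum_nonneg fun p _ => sq_nonneg _) ?_
    intro h
    apply hne
    have h1 := (Finset.sum_eq_zero_iff_of_nonneg (fun j _ =>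
      Finset.sum_nonneg fun p _ => sq_nonneg (y j p))).1 h.symm
    rw [hA]
    refine Finset.sum_eq_zero fun j _ => Finset.sum_eq_zero fun p _ => ?_
    have h2 := (Finset.sum_eq_zero_iff_of_nonneg (fun p _ => sq_nonneg (y j p))).1
      (h1 j (mem_univ j)) p (mem_univ p)
    rw [pow_eq_zero_iff two_ne_zero] at h2
    rw [h2, mul_zero]
  set ε : ℝ := -A / B with hε
  let ω : (Σ j, b j) → ℝ := fun x => w x.1 (e x.1 x.2) + ε * y x.1 x.2
  have hnorm : ∑ x, ω x ^ 2 = C - A ^ 2 / B := by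
    rw [Fintype.sum_sigma]
    have h1 : ∀ j, ∑ p, ω ⟨j, p⟩ ^ 2 = ∑ p, w j (e j p) ^ 2 +
        (2 * ε * ∑ p, w j (e j p) * y j p) + ε ^ 2 * ∑ p, y j p ^ 2 := by
      intro j
      rw [Finset.mul_sum, Finset.mul_sum, ← Finset.sum_add_distrib, ← Finset.sum_add_distrib]
      refine Finset.sum_congr rfl fun p _ => ?_
      simp only [ω]
      ring
    simp only [h1]
    rw [Finset.sum_add_distrib, Finset.sum_add_distrib, ← Finset.mul_sum, ← Finset.mul_sum, ← hA,
      ← hB, ← hC, hε]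
    field_simp
    ring
  set D : ℝ := ∑ x, ω x ^ 2 with hD
  have hD1 : D < 1 := by
    rw [hnorm]
    have : 0 < A ^ 2 / B := by positivity
    linarith
  have hD0 : 0 ≤ D := Finset.sum_nonneg fun _ _ => sq_nonneg _
  set r : ℝ := 2 / (1 + D) with hr
  have hr1 : 1 < r := by
    rw [hr, lt_div_iff₀ (by linarith)]
    linarith
  have hrD : r ^ 2 * D ≤ 1 := by
    rw [hr, div_pow, div_mul_eq_mul_div, div_le_one (by positivity)]
    nlinarith [sq_nonneg (1 - D)]
  have hCs : (fun x => r * ω x) ∈ Cset2 b (Rl Q e) := by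
    refine ⟨⟨fun j => ?_, ?_⟩, fun j p q hR => ?_⟩
    · rw [← Finset.mul_sum]
      simp only [ω]
      rw [Finset.sum_add_distrib, ← Finset.mul_sum, hw1 j, hy0 j]
      ring
    · simp only [mul_pow]
      rw [← Finset.mul_sum]
      exact hrD
    · have h1 := hw.2 j _ _ hR
      have h2 := hyQ j p q hR
      have h3 : r * ω ⟨j, p⟩ + r * ω ⟨j, q⟩ =
          r * (w j (e j p) + w j (e j q)) + r * ε * (y j p + y j q) := by
        simp only [ω]
        ring
      rw [h3, h2, mul_zero, add_zero]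
      exact mul_nonpos_of_nonneg_of_nonpos (by linarith) h1
  have hGe : Ge N (r * t) fun j => nrm (e j) (fun p => (fun x => r * ω x) ⟨j, p⟩) := by
    refine Ge.of_weights (ω := fun x => r * ω x) e fun J hJ => ?_
    obtain ⟨z', hz', hJ⟩ := hJ
    have h1 := hg z' hz' _ hJ
    have h2 := hyN z' hz' J hJ
    rw [← Finset.mul_sum]
    have h3 : ∑ s, ω ⟨c s, J s⟩ = ∑ s, w (c s) (e (c s) (J s)) + ε * ∑ s, y (c s) (J s) := by
      rw [Finset.mul_sum, ← Finset.sum_add_distrib]
    rw [h3, h2, mul_zero, add_zero, ← mul_neg]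
    exact mul_le_mul_of_nonneg_left h1 (by linarith)
  have h1 := hopt _ _ (Adm2.of_weights Q e hCs) hGe
  nlinarith

end

/-- Powers of a transformation. -/
theorem mem_maxGen_pow {L : Type*} [Field L] {V : Type*} [AddCommGroup V] [Module L V]
    (g : Module.End L V) (α : L) (m : ℕ) {x : V} (hx : x ∈ Module.End.maxGenEigenspace g α) :
    x ∈ Module.End.maxGenEigenspace (g ^ m) (α ^ m) := by
  rw [Module.End.mem_maxGenEigenspace] at hx ⊢
  obtain ⟨k, hk⟩ := hx
  refine ⟨k, ?_⟩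
  have hc : Commute g (α • (1 : Module.End L V)) := (Commute.one_right g).smul_right α
  have h1 := hc.geom_sum₂_mul m
  have h2 : (α • (1 : Module.End L V)) ^ m = α ^ m • 1 := by rw [smul_pow, one_pow]
  rw [h2] at h1
  rw [← h1]
  have h3 : Commute (∑ i ∈ range m, g ^ i * (α • (1 : Module.End L V)) ^ (m - 1 - i))
      (g - α • (1 : Module.End L V)) := by
    refine Commute.sum_left _ _ _ fun i _ => Commute.mul_left ?_ ?_
    · exact ((Commute.refl g).sub_right hc).pow_left i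
    · exact (hc.symm.sub_right (Commute.refl _)).pow_left _
  rw [h3.mul_pow, Module.End.mul_apply, hk, map_zero]

end Pool.Agent.Y104.Kempf
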