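import Pool.Agent.Y104.Dsc
import Pool.Agent.Y104.Gev
import Pool.Agent.Y104.Vry
import Pool.Agent.Y104.Hom

/-!
# Determinants on invariant subspaces
-/

open Finset Module Matrix

set_option linter.unusedSectionVars false

namespace Pool.Agent.Y104.Kempf

universe u

open Classical in
/-- The determinant of the restriction of `f` to an invariant subspace. -/
noncomputable def detOn {K V : Type*} [Field K] [AddCommGroup V] [Module K V] (f : V →ₗ[K] V)
    (F : Submodule K V) : K :=
  if h : ∀ x ∈ F, f x ∈ F then LinearMap.det (f.restrict h) else 1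

theorem detOn_eq {K V : Type*} [Field K] [AddCommGroup V] [Module K V] (f : V →ₗ[K] V)
    (F : Submodule K V) (h : ∀ x ∈ F, f x ∈ F) : detOn f F = LinearMap.det (f.restrict h) := by
  rw [detOn, dif_pos h]

section

variable {K : Type u} [Field K] {L : Type*} [Field L] [Algebra K L]

theorem exl_mulVec {n : Type} [Fintype n] (g : Matrix n n K) (y : n → K) :
    exl L n (g *ᵥ y) = g.map (algebraMap K L) *ᵥ exl L n y := by
  funext p
  simp [exl_apply, Matrix.mulVec, dotProduct]

theorem det_ratPart [IsGalois K L] {n : Type} [Fintype n] [DecidableEq n] (F : Submodule L (n → L))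
    (hF : ∀ σ : L ≃ₐ[K] L, ∀ x ∈ F, (fun p => σ (x p)) ∈ F) (g : Matrix n n K)
    (hK : ∀ y ∈ ratPart K F, g.mulVecLin y ∈ ratPart K F)
    (hL : ∀ x ∈ F, (g.map (algebraMap K L)).mulVecLin x ∈ F) :
    LinearMap.det ((g.map (algebraMap K L)).mulVecLin.restrict hL) =
      algebraMap K L (LinearMap.det (g.mulVecLin.restrict hK)) := by
  classical
  let f := finBasis K (ratPart K F)
  obtain ⟨f', hf'⟩ := descent F hF f
  rw [← LinearMap.det_toMatrix f', ← LinearMap.det_toMatrix f, RingHom.map_det]
  congr 1
  ext i k
  rw [LinearMap.toMatrix_apply, RingHom.mapMatrix_apply, Matrix.map_apply,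
    LinearMap.toMatrix_apply]
  have h1 : (g.map (algebraMap K L)).mulVecLin.restrict hL (f' k) =
      ∑ i, algebraMap K L (f.repr (g.mulVecLin.restrict hK (f k)) i) • f' i := by
    apply Subtype.ext
    rw [LinearMap.coe_restrict_apply, Submodule.coe_sum, Matrix.mulVecLin_apply, hf', ← exl_mulVec]
    have h2 := congrArg (fun t : ratPart K F => exl L n (t : n → K))
      (f.sum_repr (g.mulVecLin.restrict hK (f k)))
    beta_reduce at h2
    rw [Submodule.coe_sum, map_sum, LinearMap.coe_restrict_apply, Matrix.mulVecLin_apply] at h2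
    rw [← h2]
    refine Finset.sum_congr rfl fun i _ => ?_
    rw [Submodule.coe_smul, map_smul, Submodule.coe_smul, hf', algebraMap_smul]
  rw [h1, map_sum, Finsupp.finsetSum_apply, Finset.sum_eq_single i]
  · rw [map_smul, Finsupp.smul_apply, f'.repr_self, Finsupp.single_eq_same, smul_eq_mul, mul_one]
  · intro k' _ hk'
    rw [map_smul, Finsupp.smul_apply, f'.repr_self, Finsupp.single_eq_of_ne hk'.symm, smul_zero]
  · intro h
    exact absurd (mem_univ _) h

theorem finrank_ratPart [IsGalois K L] {n : Type} [Fintype n] (F : Submodule L (n → L))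
    (hF : ∀ σ : L ≃ₐ[K] L, ∀ x ∈ F, (fun p => σ (x p)) ∈ F) :
    finrank K (ratPart K F) = finrank L F := by
  obtain ⟨f', -⟩ := descent F hF (finBasis K (ratPart K F))
  rw [finrank_eq_card_basis f', Fintype.card_fin]

end

section

variable {L : Type*} [Field L] {V : Type*} [AddCommGroup V] [Module L V]

/-- An adapted basis contains bases of the steps of the filtration. -/
theorem exists_basis_ge {n : Type} [Fintype n] {w : V → ℝ} (hw : IsNrm L w) {e : Basis n L V}
    (he : Adp w e) (r : ℝ) : ∃ f : Basis {p // r ≤ w (e p)} L (hw.ge r),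
      ∀ p, (f p : V) = e p := by
  classical
  let v : {p // r ≤ w (e p)} → hw.ge r := fun p => ⟨e p, Or.inr p.2⟩
  have hv : LinearIndependent L v := by
    rw [← LinearMap.linearIndependent_iff (hw.ge r).subtype (Submodule.ker_subtype _)]
    exact e.linearIndependent.comp (fun p : {p // r ≤ w (e p)} => (p : n)) Subtype.val_injective
  have hspan : ⊤ ≤ Submodule.span L (Set.range v) := by
    rintro ⟨x, hx⟩ -
    have h1 : (⟨x, hx⟩ : hw.ge r) = ∑ p : {p // r ≤ w (e p)}, e.repr x p • v p := by
      apply Subtype.ext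
      rw [Submodule.coe_sum]
      change x = ∑ p : {p // r ≤ w (e p)}, e.repr x p • e p
      conv_lhs => rw [← e.sum_repr x]
      symm
      refine Fintype.sum_of_injective (fun p : {p // r ≤ w (e p)} => (p : n))
        Subtype.val_injective _ _ ?_ fun p => rfl
      intro p hp
      have h2 : e.repr x p = 0 := by
        by_contra h3
        have hx0 : x ≠ 0 := by
          rintro rfl
          rw [map_zero] at h3
          exact h3 rfl
        exact hp ⟨⟨p, (hx.resolve_left hx0).trans (he x p h3)⟩, rfl⟩
      rw [h2, zero_smul]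
    rw [h1]
    exact Submodule.sum_mem _ fun i _ => Submodule.smul_mem _ _ (Submodule.subset_span ⟨i, rfl⟩)
  refine ⟨Basis.mk hv hspan, fun p => ?_⟩
  rw [Basis.mk_apply]

end

end Pool.Agent.Y104.Kempf
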