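import Pool.Agent.Y104.Pub2

/-!
# Flags of isotropic subspaces and their determinants: definitions
-/

open CategoryTheory AlgebraicGeometry

universe u v w

namespace Pool.Agent.Y104.Geo

section Lin

variable {K : Type*} [Field K] {A : Type*} [AddCommGroup A] [Module K A]

/-- The subspace `V` is the sum of its homogeneous parts. -/
def GradedSub (gr : ℕ → Submodule K A) (V : Submodule K A) : Prop :=
  ∀ a ∈ V, a ∈ ⨆ i, V ⊓ gr i

/-- The sum of the degrees of the members of a homogeneous basis of `V`, if all degrees are at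
most `n`: the sum of the `i * dim (V ∩ gr i)`. -/
noncomputable def degSum (gr : ℕ → Submodule K A) (n : ℕ) (V : Submodule K A) : ℕ :=
  ∑ i ∈ Finset.range (n + 1), i * Module.finrank K ↥(V ⊓ gr i)

/-- `f` maps the subspace `V` to itself. -/
def Keeps (f : A →ₗ[K] A) (V : Submodule K A) : Prop := ∀ a ∈ V, f a ∈ V

/-- The determinant of the restriction of `f` to an invariant subspace. -/
noncomputable def detKeeps (f : A →ₗ[K] A) (V : Submodule K A) (h : Keeps f V) : K :=
  LinearMap.det (f.restrict h)

open Classical in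
/-- The determinant of the restriction of `f` to the subspace `V` if `V` is invariant, and `1`
otherwise. -/
noncomputable def detIn (f : A →ₗ[K] A) (V : Submodule K A) : K :=
  if h : Keeps f V then detKeeps f V h else 1

end Lin

section Alg

variable {K : Type*} [Field K] {A : Type*} [Ring A] [Algebra K A] {Γ : Type*} [Group Γ]

/-- Every subspace `V` of `U` which is stable under the group `Γ` and under all operators in `E`
which preserve `U` has a complement in `U` which is stable under these operators. -/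
def SemisimpleIn (U : Submodule K A) (ρ : Γ →* (A ≃ₐ[K] A)) (E : Set (A →ₗ[K] A)) : Prop :=
  ∀ V ≤ U, StableAct ρ V → StableUnder E U V →
    ∃ V' ≤ U, StableUnder E U V' ∧ V ⊓ V' = ⊥ ∧ V ⊔ V' = U

/-- `V 0 ⊇ V 1 ⊇ ⋯` are homogeneous subspaces of `U` which are stable under the group `Γ` and under
all operators in `E` which preserve `U`, and isotropic for the form `tr (a b)`. -/
structure IsotropicFlag (tr : A →ₗ[K] K) (gr : ℕ → Submodule K A) (U : Submodule K A)
    (ρ : Γ →* (A ≃ₐ[K] A)) (E : Set (A →ₗ[K] A)) {r : ℕ} (V : Fin r → Submodule K A) : Prop where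
  anti : Antitone V
  le : ∀ i, V i ≤ U
  graded : ∀ i, GradedSub gr (V i)
  stableAct : ∀ i, StableAct ρ (V i)
  stableUnder : ∀ i, StableUnder E U (V i)
  isotropic : ∀ i, ∀ a ∈ V i, ∀ b ∈ V i, tr (a * b) = 0

/-- `a` and `b` are equal up to a root of unity. -/
def UpToRoots (a b : K) : Prop := ∃ n : ℕ, 0 < n ∧ a ^ n = b ^ n

/-- The product of the `det (g | V i) ^ (2 * e i)`. -/
noncomputable def flagDet (ρ : Γ →* (A ≃ₐ[K] A)) (g : Γ) {r : ℕ} (V : Fin r → Submodule K A)
    (e : Fin r → ℕ) : K :=
  ∏ i, detIn (ρ g).toLinearMap (V i) ^ (2 * e i)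

/-- The sum of the `e i * degSum (V i)`, where `degSum (V i)` is the sum of the degrees of the
members of a homogeneous basis of `V i`. -/
noncomputable def flagWeight (gr : ℕ → Submodule K A) (n : ℕ) {r : ℕ}
    (V : Fin r → Submodule K A) (e : Fin r → ℕ) : ℕ :=
  ∑ i, e i * degSum gr n (V i)

end Alg

section Family

variable {K : Type*} [Field K] {Γ : Type*} [Group Γ] {I : Type*} {A : I → Type*}
  [∀ x, Ring (A x)] [∀ x, Algebra K (A x)]

/-- Let `X j` be finitely many different members of `S`, let `V j 0 ⊇ V j 1 ⊇ ⋯` be homogeneous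
isotropic subspaces of `U (X j)`, stable under the group `Γ` and the operators in `E (X j)` which
preserve `U (X j)`, and `e i` positive integers such that for all `g` in `Γ` the product of the
`det (g | V j i) ^ (2 * e i)` is equal up to a root of unity to the power of `χ g` with exponent the
sum of the `e i * degSum (V j i)`. Then all `V j i` are zero. -/
def NoTorsionFlags (χ : Γ →* Kˣ) (S : Set I) (tr : ∀ x, A x →ₗ[K] K)
    (gr : ∀ x, ℕ → Submodule K (A x)) (n : I → ℕ) (U : ∀ x, Submodule K (A x))
    (ρ : ∀ x, Γ →* (A x ≃ₐ[K] A x)) (E : ∀ x, Set (A x →ₗ[K] A x)) : Prop :=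
  ∀ (m : ℕ) (X : Fin m → I), Function.Injective X → (∀ j, X j ∈ S) →
    ∀ (r : ℕ) (V : ∀ j, Fin r → Submodule K (A (X j))) (e : Fin r → ℕ), (∀ i, 0 < e i) →
      (∀ j, IsotropicFlag (tr (X j)) (gr (X j)) (U (X j)) (ρ (X j)) (E (X j)) (V j)) →
      (∀ g, UpToRoots (∏ j, flagDet (ρ (X j)) g (V j) e)
        ((χ g : K) ^ ∑ j, flagWeight (gr (X j)) (n (X j)) (V j) e)) → ∀ j i, V j i = ⊥

end Family

/-- The linear form `a ↦ tr (a ξ ^ n)`. -/
def twistBy {K : Type*} [Field K] {A : Type*} [Ring A] [Algebra K A] (tr : A →ₗ[K] K) (ξ : A)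
    (n : ℕ) : A →ₗ[K] K :=
  tr ∘ₗ LinearMap.mulRight K (ξ ^ n)

/-- The operators `a ↦ q (c * p a)` for `c` in `C`. -/
def OpsOf {K : Type*} [Field K] {A B : Type*} [Ring A] [Algebra K A] [Ring B] [Algebra K B]
    (C : Submodule K B) (p : A →ₐ[K] B) (q : B →ₗ[K] A) : Set (A →ₗ[K] A) :=
  {e | ∃ c ∈ C, Pool.Agent.H914.corrOp p q c = e}

/-- The linear map `q` takes the value `1` on `C`. -/
def TakesOne {K : Type*} [Field K] {A B : Type*} [Ring A] [Algebra K A] [Ring B] [Algebra K B]
    (C : Submodule K B) (q : B →ₗ[K] A) : Prop :=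
  ∃ c ∈ C, q c = 1

open Classical in
/-- `a` if `p` is true, and `b` otherwise. -/
noncomputable def pick {α : Type*} (p : Prop) (a b : α) : α := if p then a else b

open Pool.Agent.H914 Pool.Agent.H914.VarClass Pool.Agent.H914.VarClass.Obj
  Pool.Agent.H914.WeilCohomology Pool.Agent.H281R3.HT Pool.Agent.TH125.Gal

variable {k : Type u} [Field k] {𝒱 : VarClass k} {ops : CycleOps 𝒱}

/-- The linear combinations of the operators on the cohomology of `X` which are induced by
algebraic correspondences from `X` to `X` of any degree. -/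
def CorrOps (W : WeilCohomology.{u, v} ops) (X : 𝒱.Obj) : Set (W.H X →ₗ[W.K] W.H X) :=
  OpsOf (algSpan W (X.prod X)) (W.map (fst X X)) (W.push (snd X X))

/-- The sign conjecture for the transcendental cohomology `T(X)`: the operator on `T(X)` which is
the multiplication by `(-1) ^ i` in degree `i` is a linear combination of algebraic
correspondences. -/
def SignIsAlgebraic (W : WeilCohomology.{u, v} ops) (X : 𝒱.Obj) : Prop :=
  SignIn (W.gr X) (transcendental W X) (CorrOps W X)

/-- There are a morphism `f` from `Y` to `Y'` and a linear combination `a` of classes of cycles on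
`Y` with `f_* a = 1` (for instance, `f` is surjective). -/
def Covers (W : WeilCohomology.{u, v} ops) (Y Y' : 𝒱.Obj) : Prop :=
  ∃ f : Y ⟶ Y', TakesOne (algSpan W Y) (W.push f)

variable {W : WeilCohomology.{u, v} ops} {Γ : Type w} [Group Γ]

/-- The condition `NoTorsionFlags` for the union of the sets `S` and `S'`: for `X` in `S'` the
subspace is `H¹(X)` with the form `tr (a b ξ ^ (dim X - 1))` given by `ξ X`, and for the other `X` it
is the transcendental cohomology `T(X)` with the form `tr (a b)`. -/
def NoTorsion (χ : Γ →* W.Kˣ) (S S' : Set (GVar W Γ)) (ξ : ∀ A : GVar W Γ, W.H A.X) : Prop :=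
  NoTorsionFlags χ (S ∪ S')
    (fun X => pick (X ∈ S') (twistBy (W.tr X.X) (ξ X) (X.X.dim - 1)) (W.tr X.X))
    (fun X => W.gr X.X) (fun X => 2 * X.X.dim)
    (fun X => pick (X ∈ S') (W.gr X.X 1) (transcendental W X.X)) (fun X => X.act)
    fun X => CorrOps W X.X

end Pool.Agent.Y104.Geo
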