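import Pool.Agent.Y104.Twa
import Pool.Agent.Y104.Pub3

/-!
# Determinants on sums of invariant subspaces
-/

open CategoryTheory AlgebraicGeometry Module
open scoped Matrix

set_option linter.unusedSectionVars false

universe u v w

namespace Pool.Agent.Y104.Kempf

section

variable {K V : Type*} [Field K] [AddCommGroup V] [Module K V]

theorem detOn_comp (f g : V →ₗ[K] V) (F : Submodule K V) (hf : ∀ x ∈ F, f x ∈ F)
    (hg : ∀ x ∈ F, g x ∈ F) : detOn (f ∘ₗ g) F = detOn f F * detOn g F := by
  rw [detOn_eq f F hf, detOn_eq g F hg, detOn_eq (f ∘ₗ g) F fun x hx => hf _ (hg x hx),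
    ← LinearMap.det_comp]
  rfl

theorem detOn_id (F : Submodule K V) : detOn (LinearMap.id : V →ₗ[K] V) F = 1 := by
  rw [detOn_eq _ F fun x hx => hx]
  exact LinearMap.det_id

theorem detOn_bot (f : V →ₗ[K] V) : detOn f ⊥ = 1 := by
  have h : ∀ x ∈ (⊥ : Submodule K V), f x ∈ (⊥ : Submodule K V) := by
    intro x hx
    rw [Submodule.mem_bot] at hx ⊢
    rw [hx, map_zero]
  rw [detOn_eq _ _ h, LinearMap.det_eq_one_of_subsingleton]

theorem detOn_scalar [FiniteDimensional K V] (f : V →ₗ[K] V) (F : Submodule K V) (c : K)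
    (h : ∀ x ∈ F, f x = c • x) : detOn f F = c ^ finrank K F := by
  have hs : ∀ x ∈ F, f x ∈ F := fun x hx => by rw [h x hx]; exact F.smul_mem _ hx
  rw [detOn_eq _ _ hs]
  have h1 : f.restrict hs = c • LinearMap.id := by
    ext x
    rw [LinearMap.coe_restrict_apply, LinearMap.smul_apply, LinearMap.id_apply,
      Submodule.coe_smul]
    exact h x x.2
  rw [h1, LinearMap.det_smul, LinearMap.det_id, mul_one]

theorem detOn_congr {f g : V →ₗ[K] V} {F : Submodule K V} (h : ∀ x ∈ F, f x = g x) :
    detOn f F = detOn g F := by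
  by_cases hs : ∀ x ∈ F, f x ∈ F
  · have hs' : ∀ x ∈ F, g x ∈ F := fun x hx => by rw [← h x hx]; exact hs x hx
    rw [detOn_eq f F hs, detOn_eq g F hs']
    congr 1
    ext x
    exact h x x.2
  · have hs' : ¬ ∀ x ∈ F, g x ∈ F := fun h' => hs fun x hx => by rw [h x hx]; exact h' x hx
    rw [detOn, detOn, dif_neg hs, dif_neg hs']

theorem detOn_sup [FiniteDimensional K V] (f : V →ₗ[K] V) (F F' : Submodule K V)
    (hF : ∀ x ∈ F, f x ∈ F) (hF' : ∀ x ∈ F', f x ∈ F') (hd : F ⊓ F' = ⊥) :
    detOn f (F ⊔ F') = detOn f F * detOn f F' := by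
  have hs : ∀ x ∈ F ⊔ F', f x ∈ F ⊔ F' := by
    intro x hx
    obtain ⟨a, ha, b, hb, rfl⟩ := Submodule.mem_sup.1 hx
    rw [map_add]
    exact Submodule.add_mem_sup (hF a ha) (hF' b hb)
  rw [detOn_eq f F hF, detOn_eq f F' hF', detOn_eq f _ hs]
  let φ : (F × F') →ₗ[K] ↥(F ⊔ F') :=
    (Submodule.inclusion le_sup_left).coprod (Submodule.inclusion le_sup_right)
  have hφ : ∀ p : F × F', (φ p : V) = p.1 + p.2 := fun p => by
    rw [LinearMap.coprod_apply, Submodule.coe_add, Submodule.coe_inclusion,
      Submodule.coe_inclusion]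
  have hbij : Function.Bijective φ := by
    constructor
    · rw [← LinearMap.ker_eq_bot, eq_bot_iff]
      rintro ⟨a, b⟩ h
      rw [LinearMap.mem_ker] at h
      have h1 : (a : V) + b = 0 := by rw [← hφ (a, b), h]; rfl
      have h2 : (a : V) ∈ F ⊓ F' := by
        refine ⟨a.2, ?_⟩
        rw [eq_neg_of_add_eq_zero_left h1]
        exact F'.neg_mem b.2
      rw [hd, Submodule.mem_bot] at h2
      have h3 : (b : V) = 0 := by rwa [h2, zero_add] at h1
      rw [Submodule.mem_bot]
      exact Prod.ext (Subtype.ext h2) (Subtype.ext h3)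
    · rintro ⟨x, hx⟩
      obtain ⟨a, ha, b, hb, rfl⟩ := Submodule.mem_sup.1 hx
      exact ⟨(⟨a, ha⟩, ⟨b, hb⟩), Subtype.ext (hφ _)⟩
  let e := LinearEquiv.ofBijective φ hbij
  rw [← LinearMap.det_prodMap, ← LinearMap.det_conj ((f.restrict hF).prodMap (f.restrict hF')) e]
  congr 1
  refine LinearMap.ext fun x => ?_
  obtain ⟨p, rfl⟩ := e.surjective x
  rw [LinearMap.comp_apply, LinearMap.comp_apply, LinearEquiv.coe_coe, LinearEquiv.coe_coe,
    LinearEquiv.symm_apply_apply]
  apply Subtype.ext
  rw [LinearMap.coe_restrict_apply]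
  change f (φ p) = φ _
  rw [hφ, hφ, map_add]
  rfl

end

end Pool.Agent.Y104.Kempf

namespace Pool.Agent.Y104.Geo

open Pool.Agent.H914 Pool.Agent.H914.VarClass Pool.Agent.H914.VarClass.Obj
  Pool.Agent.H914.WeilCohomology Pool.Agent.H281R3.HT Pool.Agent.TH125.Gal
  Pool.Agent.Y104.Kempf


variable {k : Type u} [Field k] {𝒱 : VarClass k} {ops : CycleOps 𝒱}
  {W : WeilCohomology.{u, v} ops} {X : 𝒱.Obj}

theorem detIn_eq {K V : Type*} [Field K] [AddCommGroup V] [Module K V] (f : V →ₗ[K] V)
    (F : Submodule K V) : detIn f F = detOn f F := rfl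

theorem detOn_tw {V : Submodule W.K (W.H X)} (hV : GradedSub (W.gr X) V) (t : W.K) :
    detOn (tw W X t) V = t ^ degSum (W.gr X) (2 * X.dim) V := by
  let U : ℕ → Submodule W.K (W.H X) := fun n => ⨆ i ∈ Finset.range n, V ⊓ W.gr X i
  have hU0 : U 0 = ⊥ := by simp [U]
  have hUs : ∀ n, U (n + 1) = U n ⊔ (V ⊓ W.gr X n) := by
    intro n
    simp only [U, Finset.range_add_one]
    rw [Finset.iSup_insert, sup_comm]
  have hstab : ∀ n, ∀ x ∈ V ⊓ W.gr X n, tw W X t x ∈ V ⊓ W.gr X n := by
    intro n x hx
    rw [tw_apply hx.2]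
    exact Submodule.smul_mem _ _ hx
  have hUst : ∀ n, ∀ x ∈ U n, tw W X t x ∈ U n := by
    intro n
    induction n with
    | zero =>
      intro x hx
      rw [hU0, Submodule.mem_bot] at hx ⊢
      rw [hx, map_zero]
    | succ n ih =>
      intro x hx
      rw [hUs] at hx ⊢
      obtain ⟨a, ha, b, hb, rfl⟩ := Submodule.mem_sup.1 hx
      rw [map_add]
      exact Submodule.add_mem_sup (ih a ha) (hstab n b hb)
  have hdis : ∀ n, U n ⊓ (V ⊓ W.gr X n) = ⊥ := by
    intro n
    rw [eq_bot_iff]
    rintro x ⟨hx1, hx2⟩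
    have h1 : proj (W.isInternal X) n x = 0 := by
      have h2 : ∀ m ≤ n, ∀ y ∈ U m, proj (W.isInternal X) n y = 0 := by
        intro m
        induction m with
        | zero =>
          intro _ y hy
          rw [hU0, Submodule.mem_bot] at hy
          rw [hy, map_zero]
        | succ m ih =>
          intro hm y hy
          rw [hUs] at hy
          obtain ⟨a, ha, b, hb, rfl⟩ := Submodule.mem_sup.1 hy
          rw [map_add, ih (by omega) a ha, proj_ne _ hb.2 (by omega), add_zero]
      exact h2 n le_rfl x hx1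
    rw [proj_same _ hx2.2] at h1
    rw [Submodule.mem_bot]
    exact h1
  have hmain : ∀ n, detOn (tw W X t) (U n) =
      t ^ ∑ i ∈ Finset.range n, i * Module.finrank W.K ↥(V ⊓ W.gr X i) := by
    intro n
    induction n with
    | zero => rw [hU0, detOn_bot, Finset.range_zero, Finset.sum_empty, pow_zero]
    | succ n ih =>
      rw [hUs, detOn_sup _ _ _ (hUst n) (hstab n) (hdis n), ih,
        detOn_scalar (tw W X t) (V ⊓ W.gr X n) (t ^ n) fun x hx => tw_apply hx.2, ← pow_mul,
        ← pow_add,
        Finset.sum_range_succ]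
  have hVU : V = U (2 * X.dim + 1) := by
    apply le_antisymm
    · intro a ha
      have h1 : (⨆ i, V ⊓ W.gr X i) ≤ U (2 * X.dim + 1) := by
        refine iSup_le fun i => ?_
        by_cases hi : i < 2 * X.dim + 1
        · exact le_iSup₂_of_le i (Finset.mem_range.2 hi) le_rfl
        · rw [W.gr_eq_bot X i (by omega), inf_bot_eq]
          exact bot_le
      exact h1 (hV a ha)
    · exact iSup₂_le fun i _ => inf_le_left
  conv_lhs => rw [hVU]
  rw [hmain]
  rfl

/-- A subspace stable under one of the automorphisms given by the degree is graded. -/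
theorem gradedSub_of_tw {V : Submodule W.K (W.H X)} (h : ∀ t : W.Kˣ, ∀ a ∈ V, tw W X t a ∈ V) :
    GradedSub (W.gr X) V := by
  have h2 : ∀ a ∈ V, tw W X 2 a ∈ V := fun a ha =>
    h (Units.mk0 2 two_ne_zero) a ha
  -- the projections are polynomials in the operator
  have hinj : ∀ i j : ℕ, (2 : W.K) ^ i = 2 ^ j → i = j := by
    intro i j hij
    have h3 : ((2 ^ i : ℕ) : W.K) = ((2 ^ j : ℕ) : W.K) := by push_cast; exact hij
    exact Nat.pow_right_injective le_rfl (Nat.cast_injective h3)
  have hfilt : ∀ (n : ℕ) (a : W.H X), a ∈ V → (∀ i, n ≤ i → proj (W.isInternal X) i a = 0) →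
      ∀ i, proj (W.isInternal X) i a ∈ V := by
    intro n
    induction n with
    | zero =>
      intro a _ h0 i
      rw [h0 i (Nat.zero_le _)]
      exact V.zero_mem
    | succ n ih =>
      intro a ha h0 i
      have hprj : ∀ i, proj (W.isInternal X) i (tw W X 2 a) =
          (2 : W.K) ^ i • proj (W.isInternal X) i a := by
        intro i
        refine gr_induction (W.isInternal X) (p := fun a => proj (W.isInternal X) i
          (tw W X 2 a) = (2 : W.K) ^ i • proj (W.isInternal X) i a) ?_ ?_ a
        · intro j a ha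
          rw [tw_apply ha, map_smul]
          by_cases hij : j = i
          · rw [hij]
          · rw [proj_ne _ ha hij, smul_zero, smul_zero]
        · intro a b ha hb
          rw [map_add, map_add, map_add, ha, hb, smul_add]
      -- remove the component of degree `n`
      have hb : tw W X 2 a - (2 : W.K) ^ n • a ∈ V :=
        V.sub_mem (h2 a ha) (V.smul_mem _ ha)
      have hpb : ∀ i, proj (W.isInternal X) i (tw W X 2 a - (2 : W.K) ^ n • a) =
          ((2 : W.K) ^ i - 2 ^ n) • proj (W.isInternal X) i a := by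
        intro i
        rw [map_sub, hprj, map_smul, sub_smul]
      have hb0 : ∀ i, n ≤ i → proj (W.isInternal X) i (tw W X 2 a - (2 : W.K) ^ n • a) = 0 := by
        intro i hi
        rw [hpb]
        rcases eq_or_lt_of_le hi with rfl | hi
        · rw [sub_self, zero_smul]
        · rw [h0 i hi, smul_zero]
      have hlow : ∀ i, i ≠ n → proj (W.isInternal X) i a ∈ V := by
        intro i hi
        have h3 := ih _ hb hb0 i
        rw [hpb] at h3
        have h4 : (2 : W.K) ^ i - 2 ^ n ≠ 0 := fun h => hi (hinj _ _ (sub_eq_zero.1 h))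
        have h5 := V.smul_mem ((2 : W.K) ^ i - 2 ^ n)⁻¹ h3
        rwa [smul_smul, inv_mul_cancel₀ h4, one_smul] at h5
      by_cases hi : i = n
      · subst hi
        have h3 := sum_proj (W.isInternal X) (N := 2 * X.dim + 1 + i + 1)
          (fun j hj => W.gr_eq_bot X j (by omega))
        have h4 := congrArg (fun F => F a) h3
        simp only [LinearMap.sum_apply, Module.End.one_apply] at h4
        have h5 : proj (W.isInternal X) i a = a -
            ∑ l ∈ (Finset.range (2 * X.dim + 1 + i + 1)).erase i,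
              proj (W.isInternal X) l a := by
          rw [← Finset.add_sum_erase _ _ (Finset.mem_range.2 (by omega :
            i < 2 * X.dim + 1 + i + 1))] at h4
          exact eq_sub_of_add_eq h4
        rw [h5]
        exact V.sub_mem ha (V.sum_mem fun l hl => hlow l (Finset.mem_erase.1 hl).1)
      · exact hlow i hi
  intro a ha
  have hN : ∀ i, 2 * X.dim + 1 ≤ i → proj (W.isInternal X) i a = 0 := by
    intro i hi
    have h3 := proj_mem (W.isInternal X) i a
    rwa [W.gr_eq_bot X i (by omega), Submodule.mem_bot] at h3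
  have hall := hfilt _ a ha hN
  have h3 := sum_proj (W.isInternal X) (N := 2 * X.dim + 1)
    (fun j hj => W.gr_eq_bot X j (by omega))
  have h4 := congrArg (fun F => F a) h3
  simp only [LinearMap.sum_apply, Module.End.one_apply] at h4
  rw [← h4]
  refine Submodule.sum_mem _ fun i _ => ?_
  exact Submodule.mem_iSup_of_mem i ⟨hall i, proj_mem _ _ _⟩

end Pool.Agent.Y104.Geo
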