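import Pool.Agent.Y104.Core

/-!
# Galois descent for subspaces
-/

open Finset Module Matrix

set_option linter.unusedSectionVars false

namespace Pool.Agent.Y104.Kempf

universe u

section

variable {K : Type u} [Field K] {L : Type*} [Field L] [Algebra K L]

/-- The rational vectors in a subspace. -/
def ratPart (K : Type u) [Field K] {L : Type*} [Field L] [Algebra K L] {n : Type}
    (F : Submodule L (n → L)) : Submodule K (n → K) where
  carrier := {y | (fun p => algebraMap K L (y p)) ∈ F}
  add_mem' := by
    intro y y' hy hy'
    have h1 : (fun p => algebraMap K L ((y + y') p)) =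
        (fun p => algebraMap K L (y p)) + (fun p => algebraMap K L (y' p)) := by
      funext p
      simp
    change (fun p => algebraMap K L ((y + y') p)) ∈ F
    rw [h1]
    exact F.add_mem hy hy'
  zero_mem' := by
    have h1 : (fun p => algebraMap K L ((0 : n → K) p)) = 0 := by
      funext p
      simp
    change (fun p => algebraMap K L ((0 : n → K) p)) ∈ F
    rw [h1]
    exact F.zero_mem
  smul_mem' := by
    intro a y hy
    have h1 : (fun p => algebraMap K L ((a • y) p)) =
        algebraMap K L a • (fun p => algebraMap K L (y p)) := by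
      funext p
      simp
    change (fun p => algebraMap K L ((a • y) p)) ∈ F
    rw [h1]
    exact F.smul_mem _ hy

theorem mem_ratPart {n : Type} {F : Submodule L (n → L)} {y : n → K} :
    y ∈ ratPart K F ↔ (fun p => algebraMap K L (y p)) ∈ F := Iff.rfl

/-- The extension of scalars of a vector. -/
def exl (L : Type*) [Field L] [Algebra K L] (n : Type) : (n → K) →ₗ[K] (n → L) where
  toFun y p := algebraMap K L (y p)
  map_add' y y' := by
    funext p
    simp
  map_smul' a y := by
    funext p
    simp [Algebra.smul_def]

theorem exl_apply {n : Type} (y : n → K) (p : n) : exl L n y p = algebraMap K L (y p) := rfl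

/-- The extension of scalars of a basis. -/
theorem exists_basis_exl {m : Type*} [Fintype m] {n : Type} [Fintype n]
    (B : Basis m K (n → K)) : ∃ B' : Basis m L (n → L), ∀ i, B' i = exl L n (B i) := by
  classical
  have hcard : Fintype.card m = Fintype.card n := by
    have h1 := finrank_eq_card_basis B
    rw [finrank_fintype_fun_eq_card] at h1
    exact h1.symm
  let σ : m ≃ n := Fintype.equivOfCardEq hcard
  let M : Matrix n n K := fun i => (B.reindex σ) i
  have hM : IsUnit M := by
    rw [← Matrix.linearIndependent_rows_iff_isUnit]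
    exact (B.reindex σ).linearIndependent
  have hM' : IsUnit (M.map (algebraMap K L)) := hM.map ((algebraMap K L).mapMatrix)
  have hli : LinearIndependent L (M.map (algebraMap K L)).row :=
    Matrix.linearIndependent_rows_iff_isUnit.2 hM'
  let B'' : Basis n L (n → L) :=
    basisOfLinearIndependentOfCardEqFinrank' _ hli (by rw [finrank_fintype_fun_eq_card])
  refine ⟨B''.reindex σ.symm, fun i => ?_⟩
  rw [Basis.reindex_apply, Equiv.symm_symm]
  simp only [B'']
  rw [coe_basisOfLinearIndependentOfCardEqFinrank']
  funext p
  change algebraMap K L ((B.reindex σ) (σ i) p) = _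
  rw [Basis.reindex_apply, Equiv.symm_apply_apply]
  rfl

/-- **Galois descent for subspaces.** -/
theorem descent [IsGalois K L] {n : Type} [Fintype n] (F : Submodule L (n → L))
    (hF : ∀ σ : L ≃ₐ[K] L, ∀ x ∈ F, (fun p => σ (x p)) ∈ F) {m : Type*} [Fintype m]
    (f : Basis m K (ratPart K F)) :
    ∃ f' : Basis m L F, ∀ i, (f' i : n → L) = exl L n (f i : n → K) := by
  classical
  obtain ⟨C, hC⟩ := Submodule.exists_isCompl (ratPart K F)
  let fC := finBasis K C
  let B : Basis (m ⊕ Fin (finrank K C)) K (n → K) :=
    (f.prod fC).map (Submodule.prodEquivOfIsCompl _ _ hC)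
  have hB1 : ∀ i, B (Sum.inl i) = (f i : n → K) := by
    intro i
    simp [B]
  have hB2 : ∀ i, B (Sum.inr i) = (fC i : n → K) := by
    intro i
    simp [B]
  obtain ⟨B', hB'⟩ := exists_basis_exl (L := L) B
  let CL : Submodule L (n → L) := Submodule.span L (Set.range fun i => B' (Sum.inr i))
  have hmem : ∀ i, B' (Sum.inl i) ∈ F := by
    intro i
    rw [hB', hB1]
    exact (f i).2
  -- the Galois action on the coordinates
  have hgal : ∀ (σ : L ≃ₐ[K] L), ∀ x ∈ CL, (fun p => σ (x p)) ∈ CL := by
    intro σ x hx
    induction hx using Submodule.span_induction with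
    | mem x hx =>
      obtain ⟨i, rfl⟩ := hx
      have h1 : (fun p => σ (B' (Sum.inr i) p)) = B' (Sum.inr i) := by
        funext p
        rw [hB', exl_apply, AlgEquiv.commutes]
      beta_reduce
      rw [h1]
      exact Submodule.subset_span ⟨i, rfl⟩
    | zero =>
      have h1 : (fun p => σ ((0 : n → L) p)) = 0 := by
        funext p
        simp
      rw [h1]
      exact CL.zero_mem
    | add x y _ _ hx hy =>
      have h1 : (fun p => σ ((x + y) p)) = (fun p => σ (x p)) + fun p => σ (y p) := by
        funext p
        simp
      rw [h1]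
      exact CL.add_mem hx hy
    | smul a x _ hx =>
      have h1 : (fun p => σ ((a • x) p)) = σ a • fun p => σ (x p) := by
        funext p
        simp
      rw [h1]
      exact CL.smul_mem _ hx
  have hCLr : ∀ x ∈ CL, ∀ i, B'.repr x (Sum.inl i) = 0 := by
    intro x hx i
    induction hx using Submodule.span_induction with
    | mem x hx =>
      obtain ⟨k, rfl⟩ := hx
      beta_reduce
      rw [B'.repr_self, Finsupp.single_apply, if_neg (by simp)]
    | zero => simp
    | add x y _ _ hx hy => rw [map_add, Finsupp.add_apply, hx, hy, add_zero]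
    | smul a x _ hx => rw [map_smul, Finsupp.smul_apply, hx, smul_zero]
  have hdisj : F ⊓ CL = ⊥ := by
    by_contra h0
    obtain ⟨y, hy0, hyF⟩ := exists_rational (K := K) (F ⊓ CL) (fun σ x hx =>
      ⟨hF σ x hx.1, hgal σ x hx.2⟩) h0
    have hyW : y ∈ ratPart K F := hyF.1
    have h1 : exl L n y = ∑ i, algebraMap K L (f.repr ⟨y, hyW⟩ i) • B' (Sum.inl i) := by
      have h2 := congrArg (fun t : ratPart K F => exl L n (t : n → K)) (f.sum_repr ⟨y, hyW⟩)
      beta_reduce at h2
      rw [← h2, Submodule.coe_sum, map_sum]
      refine Finset.sum_congr rfl fun i _ => ?_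
      rw [Submodule.coe_smul, map_smul, hB', hB1, algebraMap_smul]
    have h3 : exl L n y = 0 := by
      apply B'.repr.injective
      rw [map_zero]
      ext i
      rcases i with i | i
      · rw [Finsupp.zero_apply]
        exact hCLr _ hyF.2 i
      · rw [h1, map_sum, Finsupp.finsetSum_apply, Finsupp.zero_apply]
        refine Finset.sum_eq_zero fun k _ => ?_
        rw [map_smul, Finsupp.smul_apply, B'.repr_self, Finsupp.single_apply, if_neg (by simp),
          smul_zero]
    apply hy0
    funext p
    have h4 := congrFun h3 p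
    rw [exl_apply, Pi.zero_apply] at h4
    exact (map_eq_zero _).1 h4
  let v : m → F := fun i => ⟨B' (Sum.inl i), hmem i⟩
  have hv : LinearIndependent L v := by
    rw [← LinearMap.linearIndependent_iff F.subtype (Submodule.ker_subtype F)]
    exact B'.linearIndependent.comp Sum.inl Sum.inl_injective
  have hspan : ⊤ ≤ Submodule.span L (Set.range v) := by
    rintro ⟨x, hx⟩ -
    let x' : F := ∑ i, B'.repr x (Sum.inl i) • v i
    have hx' : (x' : n → L) = ∑ i, B'.repr x (Sum.inl i) • B' (Sum.inl i) := by
      simp only [x', v]
      rw [Submodule.coe_sum]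
      rfl
    have h1 : x - x' ∈ F ⊓ CL := by
      refine ⟨F.sub_mem hx x'.2, ?_⟩
      have h2 : x - x' = ∑ i, B'.repr x (Sum.inr i) • B' (Sum.inr i) := by
        have h3 := B'.sum_repr x
        rw [Fintype.sum_sum_type] at h3
        rw [hx', sub_eq_iff_eq_add, add_comm]
        exact h3.symm
      rw [h2]
      exact CL.sum_mem fun i _ => CL.smul_mem _ (Submodule.subset_span ⟨i, rfl⟩)
    rw [hdisj, Submodule.mem_bot, sub_eq_zero] at h1
    have h2 : (⟨x, hx⟩ : F) = x' := Subtype.ext h1
    rw [h2]
    exact Submodule.sum_mem _ fun i _ => Submodule.smul_mem _ _ (Submodule.subset_span ⟨i, rfl⟩)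
  refine ⟨Basis.mk hv hspan, fun i => ?_⟩
  rw [Basis.mk_apply]
  change B' (Sum.inl i) = _
  rw [hB', hB1]

end

end Pool.Agent.Y104.Kempf
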