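import Pool.Agent.Y104.Est

/-!
# Numerically trivial classes are orthogonal to the classes generated by self-dual pieces
-/

open CategoryTheory AlgebraicGeometry
open scoped Matrix

set_option linter.unusedSectionVars false

universe u v w

namespace Pool.Agent.Y104.Geo

open Pool.Agent.H914 Pool.Agent.H914.VarClass Pool.Agent.H914.VarClass.Obj
  Pool.Agent.H914.WeilCohomology Pool.Agent.H281R3.HT Pool.Agent.TH125.Gal
  Pool.Agent.Y104.Kempf

variable {k : Type u} [Field k] {𝒱 : VarClass k} {ops : CycleOps 𝒱}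
  {W : WeilCohomology.{u, v} ops} {Γ : Type w} [Group Γ] {χ : Γ →* W.Kˣ} {G : Set (GVar W Γ)}

/-- The classes span a subspace stable under the group, the twist is semi-invariant, and there
are no isotropic subspaces stable under the group and the algebraic correspondences. -/
structure GoodPiece (X : GVar W Γ) (P : Piece W X.X) : Prop where
  stable : ∀ γ q, X.act γ (P.x q) ∈ Submodule.span W.K (Set.range P.x)
  semi : ∀ γ, ∃ a : W.K, a ≠ 0 ∧ X.act γ P.θ = a • P.θ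
  noIso : ∀ V ≤ Submodule.span W.K (Set.range P.x), (∀ γ, ∀ v ∈ V, X.act γ v ∈ V) →
    (∀ c ∈ algSpan W (X.X.prod X.X), (∀ u ∈ Submodule.span W.K (Set.range P.x),
      W.corr c u ∈ Submodule.span W.K (Set.range P.x)) → ∀ v ∈ V, W.corr c v ∈ V) →
    (∀ a ∈ V, ∀ b ∈ V, W.tr X.X (a * b * P.θ) = 0) → V = ⊥

/-- The action and push-forwards to the second factor. -/
theorem act_push_snd {B C : GVar W Γ} (hB : IsGaloisVar χ B) (hC : IsGaloisVar χ C)
    (f : C.X ⟶ B.X) (hf : Equivariant (A := C) (B := B) f) (γ : Γ) (u : W.H C.X) :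
    (χ γ : W.K) ^ C.X.dim • B.act γ (W.push f u) =
      (χ γ : W.K) ^ B.X.dim • W.push f (C.act γ u) := by
  apply W.tr_ext
  intro b
  rw [smul_mul_assoc, smul_mul_assoc, map_smul, map_smul, W.tr_push, ← act_cancel B γ b,
    ← hf γ, ← map_mul, ← map_mul, hB.tr_act, hC.tr_act, W.tr_push, smul_eq_mul, smul_eq_mul]
  ring

/-- **Conjugation of correspondences.** -/
theorem act_corr (hG : GaloisClass χ G) {A : GVar W Γ} (hA : A ∈ G) (γ : Γ)
    {c : W.H (A.X.prod A.X)} (hc : c ∈ algSpan W (A.X.prod A.X)) :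
    ∃ c' ∈ algSpan W (A.X.prod A.X), ∀ a, A.act γ (W.corr c (A.act γ⁻¹ a)) = W.corr c' a := by
  obtain ⟨C, hC, hCp⟩ := hG.prod A hA A hA
  obtain ⟨υ, h1, h2⟩ := hCp
  have hCG := hG.galois _ hC
  refine ⟨((χ γ : W.K) ^ A.X.dim)⁻¹ • υ γ c, Submodule.smul_mem _ _ (act_alg hCG γ hc),
    fun a => ?_⟩
  have h3 := act_push_snd (B := A) (hG.galois A hA) hCG (snd A.X A.X) h2 γ
    (c * W.map (fst A.X A.X) (A.act γ⁻¹ a))
  have hne : (χ γ : W.K) ^ A.X.dim ≠ 0 := pow_ne_zero _ (Units.ne_zero _)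
  have h4 : (⟨A.X.prod A.X, υ⟩ : GVar W Γ).act γ (c * W.map (fst A.X A.X) (A.act γ⁻¹ a)) =
      υ γ c * W.map (fst A.X A.X) a := by
    rw [map_mul]
    congr 1
    refine (h1 γ (A.act γ⁻¹ a)).trans ?_
    rw [act_cancel]
  rw [h4] at h3
  have h5 : (χ γ : W.K) ^ (A.X.prod A.X).dim = (χ γ : W.K) ^ A.X.dim * (χ γ : W.K) ^ A.X.dim := by
    rw [dim_prod, pow_add]
  change (χ γ : W.K) ^ (A.X.prod A.X).dim • A.act γ (W.push (snd A.X A.X)
    (c * W.map (fst A.X A.X) (A.act γ⁻¹ a))) = _ at h3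
  rw [h5, mul_smul] at h3
  have h6 := congrArg (fun t => ((χ γ : W.K) ^ A.X.dim)⁻¹ • t) h3
  simp only [smul_smul, inv_mul_cancel₀ hne, one_smul] at h6
  rw [inv_mul_cancel_left₀ hne] at h6
  rw [W.corr_smul, LinearMap.smul_apply, W.corr_apply, W.corr_apply, ← h6, smul_smul,
    inv_mul_cancel₀ hne, one_smul]

section

variable {X : GVar W Γ} {P : Piece W X.X}

theorem exists_coef {v : W.H X.X} (hv : v ∈ Submodule.span W.K (Set.range P.x)) :
    ∃ a : P.J → W.K, v = ∑ p, a p • P.x p := by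
  obtain ⟨a, ha⟩ := (Submodule.mem_span_range_iff_exists_fun W.K).1 hv
  exact ⟨a, ha.symm⟩

theorem sum_mem_span (a : P.J → W.K) : ∑ p, a p • P.x p ∈
    Submodule.span W.K (Set.range P.x) :=
  Submodule.sum_mem _ fun p _ => Submodule.smul_mem _ _ (Submodule.subset_span ⟨p, rfl⟩)

/-- A linear map on a combination of the classes. -/
theorem lin_sum {φ : W.H X.X →ₗ[W.K] W.H X.X} {e : Matrix P.J P.J W.K}
    (h : ∀ q, φ (P.x q) = ∑ p, e p q • P.x p) (a : P.J → W.K) :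
    φ (∑ q, a q • P.x q) = ∑ p, (e *ᵥ a) p • P.x p := by
  rw [map_sum]
  simp only [map_smul, h, Finset.smul_sum, smul_smul]
  rw [Finset.sum_comm]
  refine Finset.sum_congr rfl fun p _ => ?_
  rw [← Finset.sum_smul]
  congr 1
  exact Finset.sum_congr rfl fun q _ => mul_comm _ _

/-- The matrices of the group elements. -/
theorem exists_gmat (hP : GoodPiece X P) (γ : Γ) : ∃ g : Matrix P.J P.J W.K,
    ∀ q, X.act γ (P.x q) = ∑ p, g p q • P.x p := by
  choose a ha using fun q => exists_coef (hP.stable γ q)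
  exact ⟨fun p q => a q p, ha⟩

theorem gmat_mul {γ γ' : Γ} {g g' : Matrix P.J P.J W.K}
    (hg : ∀ q, X.act γ (P.x q) = ∑ p, g p q • P.x p)
    (hg' : ∀ q, X.act γ' (P.x q) = ∑ p, g' p q • P.x p) (q : P.J) :
    X.act (γ * γ') (P.x q) = ∑ p, (g * g') p q • P.x p := by
  rw [map_mul, AlgEquiv.mul_apply, hg']
  exact lin_sum (φ := (X.act γ).toLinearMap) hg _

theorem mat_ext {e e' : Matrix P.J P.J W.K}
    (h : ∀ q, ∑ p, e p q • P.x p = ∑ p, e' p q • P.x p) : e = e' := by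
  ext p q
  exact congrFun (P.sum_inj (h q)) p

theorem gmat_inv {γ : Γ} {g g' : Matrix P.J P.J W.K}
    (hg : ∀ q, X.act γ (P.x q) = ∑ p, g p q • P.x p)
    (hg' : ∀ q, X.act γ⁻¹ (P.x q) = ∑ p, g' p q • P.x p) : g * g' = 1 := by
  apply mat_ext
  intro q
  rw [← gmat_mul hg hg', mul_inv_cancel, map_one, Finset.sum_eq_single q]
  · rw [Matrix.one_apply_eq, one_smul]
    rfl
  · intro p _ hp
    rw [Matrix.one_apply_ne hp, zero_smul]
  · intro h
    exact absurd (Finset.mem_univ _) h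

/-- Conjugation of the algebra of correspondences. -/
theorem conj_mem (hG : GaloisClass χ G) (hX : X ∈ G) {γ : Γ} {g g' : Matrix P.J P.J W.K}
    (hg : ∀ q, X.act γ (P.x q) = ∑ p, g p q • P.x p)
    (hg' : ∀ q, X.act γ⁻¹ (P.x q) = ∑ p, g' p q • P.x p) {e : Matrix P.J P.J W.K}
    (he : e ∈ P.Ealg) : g * e * g' ∈ P.Ealg := by
  obtain ⟨c, hc, h⟩ := he
  obtain ⟨c', hc', h'⟩ := act_corr hG hX γ hc
  refine ⟨c', hc', fun q => ?_⟩
  rw [← h', hg', lin_sum h]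
  have h1 := lin_sum (φ := (X.act γ).toLinearMap) hg (e *ᵥ fun p => g' p q)
  refine h1.trans ?_
  refine Finset.sum_congr rfl fun p _ => ?_
  congr 1
  rw [Matrix.mulVec_mulVec]
  rfl

/-- The form is multiplied by a scalar. -/
theorem gmat_form (hX : IsGaloisVar χ X) (hP : GoodPiece X P) {γ : Γ} {g : Matrix P.J P.J W.K}
    (hg : ∀ q, X.act γ (P.x q) = ∑ p, g p q • P.x p) :
    ∃ a : W.K, a ≠ 0 ∧ gᵀ * P.Q * g = a • P.Q := by
  obtain ⟨a, ha, h1⟩ := hP.semi γ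
  refine ⟨a⁻¹ * (χ γ : W.K) ^ X.X.dim, mul_ne_zero (inv_ne_zero ha)
    (pow_ne_zero _ (Units.ne_zero _)), ?_⟩
  ext p q
  have h2 : W.tr X.X (X.act γ (P.x p) * X.act γ (P.x q) * P.θ) = (gᵀ * P.Q * g) p q := by
    rw [hg p, hg q, Matrix.mul_assoc, Matrix.mul_apply, Finset.sum_mul, Finset.sum_mul, map_sum]
    refine Finset.sum_congr rfl fun r _ => ?_
    rw [smul_mul_assoc, smul_mul_assoc, map_smul, P.pair_sum, smul_eq_mul,
      Matrix.transpose_apply]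
    rfl
  have h3 : W.tr X.X (X.act γ (P.x p) * X.act γ (P.x q) * (a • P.θ)) =
      (χ γ : W.K) ^ X.X.dim * P.Q p q := by
    rw [← h1, ← map_mul, ← map_mul, hX.tr_act, P.Q_eq]
  rw [mul_smul_comm, map_smul, h2, smul_eq_mul] at h3
  rw [Matrix.smul_apply, smul_eq_mul, mul_assoc a⁻¹, ← h3, inv_mul_cancel_left₀ ha]

end

variable {n : ℕ} {X : Fin n → GVar W Γ} (P : ∀ s, Piece W (X s).X) {𝒵 : Set 𝒱.Obj}

/-- **The vanishing of the tensors.** -/
theorem NSet_zero (hG : GaloisClass χ G) (hX : ∀ s, X s ∈ G) (hP : ∀ s, GoodPiece (X s) (P s))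
    (h𝒵 : ∀ Z ∈ 𝒵, ∀ Z' ∈ 𝒵, Z.prod Z' ∈ 𝒵) (h𝒵0 : ∀ Z ∈ 𝒵, rad W Z = ⊥)
    (h𝒵G : ∀ Z ∈ 𝒵, ∃ Z' ∈ G, Z'.X = Z) : ∀ y ∈ NSet P 𝒵, y = 0 := by
  classical
  rcases Nat.eq_zero_or_pos n with rfl | hn
  · rintro y ⟨Y, p, z, hz, e, w, hw, rfl⟩
    funext I
    rw [List.ofFn_zero, List.prod_nil, mul_one]
    exact hw.tr_eq_zero h𝒵0 hz
  have hgm : ∀ γ : Γ, ∃ g : ∀ s, Matrix (P s).J (P s).J W.K,
      ∀ s q, (X s).act γ ((P s).x q) = ∑ p, g s p q • (P s).x p := by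
    intro γ
    choose g hg using fun s => exists_gmat (hP s) γ
    exact ⟨g, hg⟩
  have hinv : ∀ g ∈ GSet P, ∃ γ : Γ, ∃ g' : ∀ s, Matrix (P s).J (P s).J W.K,
      (∀ s q, (X s).act γ ((P s).x q) = ∑ p, g s p q • (P s).x p) ∧
      (∀ s q, (X s).act γ⁻¹ ((P s).x q) = ∑ p, g' s p q • (P s).x p) ∧
      ∀ s, g s * g' s = 1 ∧ (g s)⁻¹ = g' s := by
    rintro g ⟨γ, hγ⟩
    obtain ⟨g', hg'⟩ := hgm γ⁻¹
    exact ⟨γ, g', hγ, hg', fun s => ⟨gmat_inv (hγ s) (hg' s),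
      Matrix.inv_eq_right_inv (gmat_inv (hγ s) (hg' s))⟩⟩
  refine core3 (c := id) (Q := fun s => (P s).Q) (ε := fun s => (P s).ε) (fun s => (P s).ε_sq)
    (fun s => (P s).Q_symm) (fun s => (P s).isUnit) (N := NSet P 𝒵) (NSet_color P 𝒵)
    (fun m z hz => NSet_null P h𝒵 h𝒵0 m z hz) (G := GSet P) ?_ ?_
    (fun g hg y hy => NSet_act P hG hX h𝒵G ⟨0, hn⟩ hg hy) (fun s => (P s).Ealg)
    (fun s e he => (P s).adj_mem he) ?_
    (fun e he y hy => NSet_corr P e (fun s => he s s) hy) ?_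
  · intro g hg s
    obtain ⟨γ, g', -, -, h3⟩ := hinv g hg
    exact IsUnit.of_mul_eq_one _ (h3 s).1
  · intro g hg s
    obtain ⟨γ, hγ⟩ := hg
    exact gmat_form (hG.galois _ (hX s)) (hP s) (hγ s)
  · intro g hg s e he
    obtain ⟨γ, g', h1, h2, h3⟩ := hinv g hg
    rw [(h3 s).2]
    refine ⟨conj_mem hG (hX s) (h1 s) (h2 s) he, conj_mem hG (hX s) (γ := γ⁻¹) (h2 s) ?_ he⟩
    rw [inv_inv]
    exact h1 s
  · intro s V hVG hVE hViso
    let V' : Submodule W.K (W.H (X s).X) := V.map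
      (Fintype.linearCombination W.K (P s).x)
    have hlc : ∀ a : (P s).J → W.K, Fintype.linearCombination W.K (P s).x a =
        ∑ p, a p • (P s).x p := fun a => Fintype.linearCombination_apply _ _ _
    have h0 : V' = ⊥ := by
      refine (hP s).noIso V' ?_ ?_ ?_ ?_
      · rintro _ ⟨a, _, rfl⟩
        rw [hlc]
        exact sum_mem_span a
      · rintro γ _ ⟨a, ha, rfl⟩
        obtain ⟨g, hg⟩ := hgm γ
        refine ⟨g s *ᵥ a, hVG g ⟨γ, hg⟩ a ha, ?_⟩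
        rw [hlc, hlc]
        exact (lin_sum (φ := ((X s).act γ).toLinearMap) (hg s) a).symm
      · rintro c hc hcs _ ⟨a, ha, rfl⟩
        choose e he using fun q => exists_coef (P := P s) (hcs _
          (Submodule.subset_span ⟨q, rfl⟩))
        refine ⟨(fun p q => e q p : Matrix (P s).J (P s).J W.K) *ᵥ a, hVE _ ⟨c, hc, he⟩ a ha, ?_⟩
        rw [hlc, hlc]
        exact (lin_sum (φ := W.corr c) he a).symm
      · rintro _ ⟨a, ha, rfl⟩ _ ⟨b, hb, rfl⟩
        rw [hlc, hlc, Finset.sum_mul, Finset.sum_mul, map_sum]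
        rw [← hViso a ha b hb]
        refine Finset.sum_congr rfl fun p _ => ?_
        rw [smul_mul_assoc, smul_mul_assoc, map_smul, (P s).pair_sum, smul_eq_mul]
    rw [eq_bot_iff]
    intro a ha
    have h1 : ∑ p, a p • (P s).x p ∈ V' := ⟨a, ha, hlc a⟩
    rw [h0, Submodule.mem_bot] at h1
    exact (P s).sum_eq_zero h1

end Pool.Agent.Y104.Geo
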