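import Pool.Agent.Y104.Gst

/-!
# The action of the algebraic correspondences on the tensors
-/

open CategoryTheory AlgebraicGeometry
open scoped Matrix

set_option linter.unusedSectionVars false

universe u v w

namespace Pool.Agent.Y104.Geo

open Pool.Agent.H914 Pool.Agent.H914.VarClass Pool.Agent.H914.VarClass.Obj
  Pool.Agent.H914.WeilCohomology Pool.Agent.H281R3.HT Pool.Agent.TH125.Gal
  Pool.Agent.Y104.Kempf

section

variable {K : Type*} [Field K] {S : Type} [Fintype S] [DecidableEq S] {β : Type} [Fintype β]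
  [DecidableEq β]

theorem gtact_mul (M M' : S → Matrix β β K) (Y : (S → β) → K) :
    gtact (fun s => M s * M' s) Y = gtact M (gtact M' Y) := by
  funext J
  unfold gtact
  simp only [Matrix.mul_apply, Finset.prod_univ_sum, Fintype.piFinset_univ, Finset.mul_sum,
    Finset.sum_mul]
  rw [Finset.sum_comm]
  refine Finset.sum_congr rfl fun I _ => Finset.sum_congr rfl fun I' _ => ?_
  rw [Finset.prod_mul_distrib]
  ring

theorem gtact_one (Y : (S → β) → K) : gtact (fun _ : S => (1 : Matrix β β K)) Y = Y := by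
  funext J
  unfold gtact
  rw [Finset.sum_eq_single J]
  · rw [Finset.prod_eq_one fun s _ => Matrix.one_apply_eq _, one_mul]
  · intro I _ hI
    obtain ⟨s, hs⟩ : ∃ s, J s ≠ I s := by
      by_contra hcon
      push Not at hcon
      exact hI (funext fun s => (hcon s).symm)
    have h0 : ∏ s, (1 : Matrix β β K) (J s) (I s) = 0 :=
      Finset.prod_eq_zero (Finset.mem_univ s) (Matrix.one_apply_ne hs)
    exact (congrArg (· * Y I) h0).trans (zero_mul _)
  · intro h
    exact absurd (Finset.mem_univ _) h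

end

variable {k : Type u} [Field k] {𝒱 : VarClass k} {ops : CycleOps 𝒱}
  {W : WeilCohomology.{u, v} ops}

section

variable {n : ℕ} {X : Fin n → 𝒱.Obj} (P : ∀ s, Piece W (X s)) {𝒵 : Set 𝒱.Obj}

/-- One slot. -/
theorem NSet_slot (s₀ : Fin n) (e : ∀ j, Matrix (P j).J (P j).J W.K)
    (he : ∃ c ∈ algSpan W ((X s₀).prod (X s₀)), ∀ q, W.corr c ((P s₀).x q) =
      ∑ p, e s₀ p q • (P s₀).x p) {y : (Fin n → Tx P) → W.K} (hy : y ∈ NSet P 𝒵) :
    gtact (fun s => if s = s₀ then Matrix.blockDiagonal' fun j => (e j)ᵀ else 1) y ∈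
      NSet P 𝒵 := by
  obtain ⟨c, hc, hce⟩ := he
  obtain ⟨Y, p, z, hz, f, w, hw, rfl⟩ := hy
  refine ⟨Y.prod (X s₀), Function.update (fun s => fst Y (X s₀) ≫ p s) s₀ (snd Y (X s₀)),
    W.map (fst Y (X s₀)) z * W.map (Obj.lift (snd Y (X s₀)) (fst Y (X s₀) ≫ p s₀)) c,
    rad_mul (rad_map _ hz) (algSpan_map _ hc), f, W.map (fst Y (X s₀)) w, hw.map _, ?_⟩
  funext J
  rw [gtact_eq (W.tr Y) (z * w) (fun s i => W.map (p s) (xv P s i))]
  refine tr_slot (p s₀) c hc s₀ _ _ (xv P s₀ (J s₀)) ?_ ?_ ?_ z w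
  · intro t ht
    rw [Function.update_of_ne ht, W.map_comp, Finset.sum_eq_single (J t)]
    · rw [if_neg ht, Matrix.one_apply_eq, one_smul]
    · intro i _ hi
      rw [if_neg ht, Matrix.one_apply_ne (Ne.symm hi), zero_smul]
    · intro h
      exact absurd (Finset.mem_univ _) h
  · simp only [if_true]
    refine (xv_lin P ((W.map (p s₀)).toLinearMap ∘ₗ W.corr c)
      (W.map (p s₀)).toLinearMap e (fun q => ?_) (J s₀)).symm
    change W.map (p s₀) (W.corr c ((P s₀).x q)) = _
    rw [hce, map_sum]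
    exact Finset.sum_congr rfl fun p _ => map_smul _ _ _
  · rw [Function.update_self]

/-- **The tensors are stable under algebraic correspondences.** -/
theorem NSet_corr (e : Fin n → ∀ j, Matrix (P j).J (P j).J W.K)
    (he : ∀ s, ∃ c ∈ algSpan W ((X s).prod (X s)), ∀ q, W.corr c ((P s).x q) =
      ∑ p, e s s p q • (P s).x p) {y : (Fin n → Tx P) → W.K} (hy : y ∈ NSet P 𝒵) :
    gtact (fun s => Matrix.blockDiagonal' fun j => (e s j)ᵀ) y ∈ NSet P 𝒵 := by
  classical
  have key : ∀ F : Finset (Fin n), gtact (fun s => if s ∈ F then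
      Matrix.blockDiagonal' fun j => (e s j)ᵀ else 1) y ∈ NSet P 𝒵 := by
    intro F
    induction F using Finset.induction_on with
    | empty =>
      simp only [Finset.notMem_empty, if_false]
      rw [gtact_one]
      exact hy
    | insert s₀ F hs ih =>
      have h1 : (fun s => if s ∈ insert s₀ F then Matrix.blockDiagonal' fun j => (e s j)ᵀ
          else (1 : Matrix (Tx P) (Tx P) W.K)) = fun s =>
          (if s = s₀ then Matrix.blockDiagonal' fun j => (e s₀ j)ᵀ else 1) *
            (if s ∈ F then Matrix.blockDiagonal' fun j => (e s j)ᵀ else 1) := by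
        funext s
        by_cases h : s = s₀
        · subst h
          rw [if_pos (Finset.mem_insert_self _ _), if_pos rfl, if_neg hs, Matrix.mul_one]
        · rw [if_neg h, Matrix.one_mul]
          simp only [Finset.mem_insert, h, false_or]
      rw [h1, gtact_mul]
      exact NSet_slot P s₀ (e s₀) (he s₀) ih
  have h1 := key Finset.univ
  simpa using h1

end

section

variable {X Y Z : 𝒱.Obj}

/-- Composition of correspondences. -/
theorem corr_comp_span {c : W.H (X.prod Y)} (hc : c ∈ algSpan W (X.prod Y)) {d : W.H (Y.prod Z)}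
    (hd : d ∈ algSpan W (Y.prod Z)) : ∃ c' ∈ algSpan W (X.prod Z),
      W.corr c' = W.corr d ∘ₗ W.corr c := by
  refine ⟨W.push (p13 X Y Z) (W.map (p12 X Y Z) c * W.map (p23 X Y Z) d),
    algSpan_push _ (algSpan_mul (algSpan_map _ hc) (algSpan_map _ hd)), ?_⟩
  refine algSpan_ind (p := fun d => W.corr (W.push (p13 X Y Z) (W.map (p12 X Y Z) c *
    W.map (p23 X Y Z) d)) = W.corr d ∘ₗ W.corr c) ?_ ?_ ?_ ?_ hd
  · intro j d hd
    exact W.corr_comp c (alg_gr hd)
  · rw [map_zero, mul_zero, map_zero, W.corr_zero, W.corr_zero, LinearMap.zero_comp]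
  · intro a b ha hb
    rw [map_add, mul_add, map_add, W.corr_add, ha, hb, W.corr_add, LinearMap.add_comp]
  · intro q a ha
    rw [map_smul, mul_smul_comm, map_smul, W.corr_smul, ha, W.corr_smul, LinearMap.smul_comp]

/-- The trace of a class on `X × Y` with the factors exchanged. -/
theorem tr_swap (u : W.H (X.prod Y)) :
    W.tr (Y.prod X) (W.map (Obj.lift (snd Y X) (fst Y X)) u) = W.tr (X.prod Y) u := by
  refine W.kunneth_induction (p := fun u => W.tr (Y.prod X)
    (W.map (Obj.lift (snd Y X) (fst Y X)) u) = W.tr (X.prod Y) u) ?_ ?_ u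
  · intro a b ha hb
    rw [map_add, map_add, ha, hb, map_add]
  · intro i j a ha b hb
    rw [map_mul (W.map (Obj.lift _ _)), ← W.map_comp, ← W.map_comp, Obj.lift_fst, Obj.lift_snd,
      W.comm (W.map_mem (snd Y X) ha) (W.map_mem (fst Y X) hb), map_smul, W.tr_prod, W.tr_prod,
      smul_eq_mul]
    by_cases hi : i = 2 * X.dim
    · subst hi
      rw [mul_assoc 2, pow_mul]
      simp [mul_comm]
    · rw [W.tr_eq_zero ha hi]
      ring

theorem tr_corr (c : W.H (X.prod Y)) (a : W.H X) (b : W.H Y) :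
    W.tr Y (W.corr c a * b) = W.tr (X.prod Y) (c * (W.map (fst X Y) a * W.map (snd X Y) b)) := by
  rw [W.corr_apply, W.tr_push, mul_assoc]

/-- The transposed correspondence. -/
theorem tr_corr_swap {c : W.H (X.prod Y)} (hc : c ∈ algSpan W (X.prod Y)) (a : W.H X)
    (b : W.H Y) :
    W.tr X (a * W.corr (W.map (Obj.lift (snd Y X) (fst Y X)) c) b) = W.tr Y (W.corr c a * b) := by
  have hc' := algSpan_map (Obj.lift (snd Y X) (fst Y X)) hc
  rw [tr_corr, W.corr_apply, mul_push', tr_push_one,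
    ← tr_swap (c * (W.map (fst X Y) a * W.map (snd X Y) b))]
  congr 1
  rw [← mul_assoc, ← alg_comm hc', map_mul (W.map (Obj.lift (snd Y X) (fst Y X))),
    map_mul (W.map (Obj.lift (snd Y X) (fst Y X))),
    ← W.map_comp, ← W.map_comp, Obj.lift_fst, Obj.lift_snd, mul_assoc]

theorem corr_hpar {c : W.H (X.prod Y)} (hc : c ∈ algSpan W (X.prod Y)) {e : ℕ} {a : W.H X}
    (ha : a ∈ hpar W X e) : W.corr c a ∈ hpar W Y e := by
  rw [W.corr_apply]
  have h1 := hpar_mul (algSpan_hpar hc) (hpar_map (fst X Y) ha)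
  rw [zero_add] at h1
  exact hpar_push _ h1

theorem corr_diag_one (a : W.H X) : W.corr (W.push (diag X) 1) a = a := by
  rw [W.corr_diag, one_mul]

theorem diag_mem {c : W.H X} (hc : c ∈ algSpan W X) :
    W.push (diag X) c ∈ algSpan W (X.prod X) := algSpan_push _ hc

end

namespace Piece

variable {X : 𝒱.Obj} (P : Piece W X)

/-- The sign of the form. -/
noncomputable def ε : W.K := (-1 : W.K) ^ (P.e * P.e)

theorem ε_sq : P.ε * P.ε = 1 := by
  rw [ε, ← pow_add, ← two_mul, pow_mul]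
  simp

theorem Q_symm : P.Qᵀ = P.ε • P.Q := by
  ext p q
  rw [Matrix.transpose_apply, Matrix.smul_apply, P.Q_eq, P.Q_eq,
    hpar_comm P.e P.e _ (P.x_mem q) _ (P.x_mem p), smul_mul_assoc, map_smul]
  rfl

theorem Q_mul_inv : P.Q * P.Q⁻¹ = 1 :=
  Matrix.mul_nonsing_inv _ ((Matrix.isUnit_iff_isUnit_det _).1 P.isUnit)

theorem inv_mul_Q : P.Q⁻¹ * P.Q = 1 :=
  Matrix.nonsing_inv_mul _ ((Matrix.isUnit_iff_isUnit_det _).1 P.isUnit)

theorem inv_symm : (P.Q⁻¹)ᵀ = P.ε • P.Q⁻¹ := by
  rw [Matrix.transpose_nonsing_inv, Q_symm]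
  refine Matrix.inv_eq_left_inv ?_
  rw [Matrix.smul_mul, Matrix.mul_smul, smul_smul, ε_sq, one_smul, inv_mul_Q]

/-- The pairing of a combination of the classes. -/
theorem pair_sum (v : P.J → W.K) (p : P.J) :
    W.tr X (P.x p * (∑ q, v q • P.x q) * P.θ) = (P.Q *ᵥ v) p := by
  rw [Finset.mul_sum, Finset.sum_mul, map_sum]
  change _ = ∑ q, P.Q p q * v q
  refine Finset.sum_congr rfl fun q _ => ?_
  rw [mul_smul_comm, smul_mul_assoc, map_smul, smul_eq_mul, P.Q_eq, mul_comm]

theorem sum_eq_zero {v : P.J → W.K} (h : ∑ q, v q • P.x q = 0) : v = 0 := by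
  have h1 : P.Q *ᵥ v = 0 := by
    funext p
    rw [← P.pair_sum, h, mul_zero, zero_mul, map_zero]
    rfl
  have h2 : (P.Q⁻¹ * P.Q) *ᵥ v = 0 := by
    rw [← Matrix.mulVec_mulVec, h1, Matrix.mulVec_zero]
  rwa [inv_mul_Q, Matrix.one_mulVec] at h2

theorem sum_inj {v w : P.J → W.K} (h : ∑ q, v q • P.x q = ∑ q, w q • P.x q) : v = w := by
  rw [← sub_eq_zero]
  apply P.sum_eq_zero
  simp only [Pi.sub_apply, sub_smul, Finset.sum_sub_distrib, h, sub_self]

/-- The algebra of the operators induced by algebraic correspondences. -/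
def Ealg : Subalgebra W.K (Matrix P.J P.J W.K) where
  carrier := {e | ∃ c ∈ algSpan W (X.prod X), ∀ q, W.corr c (P.x q) = ∑ p, e p q • P.x p}
  mul_mem' := by
    rintro e e' ⟨c, hc, h⟩ ⟨c', hc', h'⟩
    obtain ⟨d, hd, h1⟩ := corr_comp_span hc' hc
    refine ⟨d, hd, fun q => ?_⟩
    rw [h1, LinearMap.comp_apply, h', map_sum]
    simp only [map_smul, h, Matrix.mul_apply, Finset.smul_sum, Finset.sum_smul, smul_smul]
    rw [Finset.sum_comm]
    exact Finset.sum_congr rfl fun p _ => Finset.sum_congr rfl fun r _ => by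
      rw [mul_comm]
  add_mem' := by
    rintro e e' ⟨c, hc, h⟩ ⟨c', hc', h'⟩
    refine ⟨c + c', Submodule.add_mem _ hc hc', fun q => ?_⟩
    rw [W.corr_add, LinearMap.add_apply, h, h', ← Finset.sum_add_distrib]
    exact Finset.sum_congr rfl fun p _ => by rw [Matrix.add_apply, add_smul]
  algebraMap_mem' := by
    intro a
    refine ⟨a • W.push (diag X) 1, Submodule.smul_mem _ _ (diag_mem algSpan_one), fun q => ?_⟩
    rw [W.corr_smul, LinearMap.smul_apply, corr_diag_one, Finset.sum_eq_single q]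
    · rw [Matrix.algebraMap_matrix_apply, if_pos rfl]
      rfl
    · intro p _ hp
      rw [Matrix.algebraMap_matrix_apply, if_neg hp, zero_smul]
    · intro h
      exact absurd (Finset.mem_univ _) h

theorem mem_Ealg {e : Matrix P.J P.J W.K} : e ∈ P.Ealg ↔ ∃ c ∈ algSpan W (X.prod X),
    ∀ q, W.corr c (P.x q) = ∑ p, e p q • P.x p := Iff.rfl

/-- **The adjoint of a correspondence.** -/
theorem adj_mem {e : Matrix P.J P.J W.K} (he : e ∈ P.Ealg) : P.Q⁻¹ * eᵀ * P.Q ∈ P.Ealg := by
  obtain ⟨c, hc, h⟩ := he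
  obtain ⟨d, hd, h1⟩ := corr_comp_span (diag_mem P.θ_mem)
    (algSpan_map (Obj.lift (snd X X) (fst X X)) hc)
  obtain ⟨d', hd', h2⟩ := corr_comp_span hd P.β_mem
  refine ⟨d', hd', fun q => ?_⟩
  set y := W.corr (W.map (Obj.lift (snd X X) (fst X X)) c) (P.x q * P.θ) with hy
  have h3 : W.corr d' (P.x q) = W.corr (∑ p, ∑ q, P.Q⁻¹ p q • (W.map (fst X X) (P.x p) *
      W.map (snd X X) (P.x q))) y := by
    rw [h2, h1, LinearMap.comp_apply, LinearMap.comp_apply, W.corr_diag, alg_comm P.θ_mem]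
  have hyp : y ∈ hpar W X P.e := by
    refine corr_hpar (algSpan_map _ hc) ?_
    have h4 := hpar_mul (P.x_mem q) (algSpan_hpar P.θ_mem)
    rwa [add_zero] at h4
  have h4 : ∀ p, W.tr X (P.x p * y) = (eᵀ * P.Q) p q := by
    intro p
    rw [hy, tr_corr_swap hc, h, ← mul_assoc, Finset.sum_mul, Finset.sum_mul, map_sum,
      Matrix.mul_apply]
    refine Finset.sum_congr rfl fun r _ => ?_
    rw [smul_mul_assoc, smul_mul_assoc, map_smul, ← P.Q_eq, smul_eq_mul, Matrix.transpose_apply]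
  have h5 : W.corr d' (P.x q) = ∑ p, ∑ r, (P.Q⁻¹ p r * (P.ε * (eᵀ * P.Q) p q)) • P.x r := by
    rw [h3, W.corr_apply, Finset.sum_mul, map_sum]
    refine Finset.sum_congr rfl fun p _ => ?_
    rw [Finset.sum_mul, map_sum]
    refine Finset.sum_congr rfl fun r _ => ?_
    rw [smul_mul_assoc, map_smul, mul_assoc, hpar_comm P.e P.e _ (hpar_map (snd X X) (P.x_mem r))
      _ (hpar_map (fst X X) hyp), mul_smul_comm, map_smul, ← mul_assoc, ← map_mul, W.push_snd,
      h4, smul_smul, smul_smul, mul_assoc]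
    rfl
  rw [h5, Finset.sum_comm]
  refine Finset.sum_congr rfl fun r _ => ?_
  rw [← Finset.sum_smul]
  congr 1
  rw [Matrix.mul_assoc, Matrix.mul_apply]
  refine Finset.sum_congr rfl fun p _ => ?_
  have h6 : P.Q⁻¹ r p = P.ε * P.Q⁻¹ p r := by
    have h7 := congrFun (congrFun P.inv_symm p) r
    rw [Matrix.transpose_apply, Matrix.smul_apply, smul_eq_mul] at h7
    exact h7
  rw [h6]
  ring

end Piece

end Pool.Agent.Y104.Geo
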