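import Mathlib

/-!
# Fourier-Motzkin elimination
-/

open Finset

namespace Pool.Agent.Y104.Kempf

/-- Fourier-Motzkin: a finite system of strict homogeneous linear inequalities with integer
coefficients which has a solution in some linearly ordered abelian group has a rational solution. -/
theorem fourier_motzkin_fin {V : Type*} [AddCommGroup V] [LinearOrder V] [IsOrderedAddMonoid V] :
    ∀ (n : ℕ) (F : Finset (Fin n → ℤ)) (a : Fin n → V), (∀ c ∈ F, 0 < ∑ i, c i • a i) →
      ∃ x : Fin n → ℚ, ∀ c ∈ F, 0 < ∑ i, (c i : ℚ) * x i := by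
  classical
  intro n
  induction n with
  | zero =>
    intro F a h
    refine ⟨fun _ => 0, fun c hc => ?_⟩
    have := h c hc
    simp at this
  | succ n ih =>
    intro F a h
    -- the new system
    set F0 : Finset (Fin n → ℤ) := (F.filter fun c => c (Fin.last n) = 0).image
      fun c => fun i => c i.castSucc with hF0
    set F1 : Finset (Fin n → ℤ) := ((F.filter fun c => 0 < c (Fin.last n)) ×ˢ
      (F.filter fun c => c (Fin.last n) < 0)).image
        fun p => fun i => p.1 (Fin.last n) * p.2 i.castSucc -
          p.2 (Fin.last n) * p.1 i.castSucc with hF1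
    obtain ⟨x, hx⟩ := ih (F0 ∪ F1) (fun i => a i.castSucc) (by
      intro c hc
      rw [mem_union] at hc
      rcases hc with hc | hc
      · rw [hF0, mem_image] at hc
        obtain ⟨d, hd, rfl⟩ := hc
        rw [mem_filter] at hd
        have h1 := h d hd.1
        rw [Fin.sum_univ_castSucc, hd.2, zero_smul, add_zero] at h1
        exact h1
      · rw [hF1, mem_image] at hc
        obtain ⟨⟨p, q⟩, hpq, rfl⟩ := hc
        rw [mem_product, mem_filter, mem_filter] at hpq
        obtain ⟨⟨hp, hp0⟩, hq, hq0⟩ := hpq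
        have h1 := h p hp
        have h2 := h q hq
        rw [Fin.sum_univ_castSucc] at h1 h2
        have h3 : 0 < p (Fin.last n) • (∑ i : Fin n, q i.castSucc • a i.castSucc +
            q (Fin.last n) • a (Fin.last n)) + (-q (Fin.last n)) •
              (∑ i : Fin n, p i.castSucc • a i.castSucc + p (Fin.last n) • a (Fin.last n)) :=
          add_pos (zsmul_pos h2 hp0) (zsmul_pos h1 (by simpa using hq0))
        refine lt_of_lt_of_eq h3 ?_
        have e1 : ∀ (m l : ℤ) (y : V), m • l • y = (m * l) • y := fun m l y => by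
          rw [mul_smul]
        simp only [smul_add, Finset.smul_sum, sub_smul, Finset.sum_sub_distrib, e1]
        have e2 : (-q (Fin.last n) * p (Fin.last n)) • a (Fin.last n) =
            -((p (Fin.last n) * q (Fin.last n)) • a (Fin.last n)) := by
          rw [← neg_smul]
          congr 1
          ring
        have e3 : ∑ i : Fin n, (-q (Fin.last n) * p i.castSucc) • a i.castSucc =
            -∑ i : Fin n, (q (Fin.last n) * p i.castSucc) • a i.castSucc := by
          rw [← Finset.sum_neg_distrib]
          refine Finset.sum_congr rfl fun i _ => ?_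
          rw [← neg_smul]
          congr 1
          ring
        rw [e2, e3]
        abel)
    have hlo : ∀ u ∈ (F.filter fun c => 0 < c (Fin.last n)).image
        (fun c => -(∑ i : Fin n, (c i.castSucc : ℚ) * x i) / (c (Fin.last n) : ℚ)),
        ∀ v ∈ (F.filter fun c => c (Fin.last n) < 0).image
        (fun c => -(∑ i : Fin n, (c i.castSucc : ℚ) * x i) / (c (Fin.last n) : ℚ)), u < v := by
      intro u hu v hv
      rw [mem_image] at hu hv
      obtain ⟨p, hp, rfl⟩ := hu
      obtain ⟨q, hq, rfl⟩ := hv
      have h1 := hx (fun i => p (Fin.last n) * q i.castSucc - q (Fin.last n) * p i.castSucc) (by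
        rw [mem_union]
        right
        rw [hF1, mem_image]
        exact ⟨(p, q), mem_product.2 ⟨hp, hq⟩, rfl⟩)
      rw [mem_filter] at hp hq
      have hp0 : (0 : ℚ) < (p (Fin.last n) : ℚ) := by exact_mod_cast hp.2
      have hq0 : (q (Fin.last n) : ℚ) < 0 := by exact_mod_cast hq.2
      have h2 : ∑ i : Fin n, ((p (Fin.last n) * q i.castSucc - q (Fin.last n) * p i.castSucc : ℤ) :
          ℚ) * x i = (p (Fin.last n) : ℚ) * ∑ i : Fin n, (q i.castSucc : ℚ) * x i -
          (q (Fin.last n) : ℚ) * ∑ i : Fin n, (p i.castSucc : ℚ) * x i := by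
        rw [Finset.mul_sum, Finset.mul_sum, ← Finset.sum_sub_distrib]
        refine Finset.sum_congr rfl fun i _ => ?_
        push_cast
        ring
      rw [h2] at h1
      rw [← sub_pos]
      set A := ∑ i : Fin n, (p i.castSucc : ℚ) * x i
      set B := ∑ i : Fin n, (q i.castSucc : ℚ) * x i
      have h3 : -B / (q (Fin.last n) : ℚ) - -A / (p (Fin.last n) : ℚ) =
          -((p (Fin.last n) : ℚ) * B - (q (Fin.last n) : ℚ) * A) /
            ((q (Fin.last n) : ℚ) * (p (Fin.last n) : ℚ)) := by
        rw [div_sub_div _ _ hq0.ne hp0.ne']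
        congr 1
        ring
      rw [h3]
      exact div_pos_of_neg_of_neg (by linarith) (mul_neg_of_neg_of_pos hq0 hp0)
    obtain ⟨y, hy1, hy2⟩ := Order.exists_between_finsets _ _ hlo
    refine ⟨Fin.snoc x y, fun c hc => ?_⟩
    rw [Fin.sum_univ_castSucc]
    simp only [Fin.snoc_castSucc, Fin.snoc_last]
    rcases lt_trichotomy (c (Fin.last n)) 0 with h0 | h0 | h0
    · have h1 := hy2 _ (mem_image.2 ⟨c, mem_filter.2 ⟨hc, h0⟩, rfl⟩)
      have hq0 : (c (Fin.last n) : ℚ) < 0 := by exact_mod_cast h0
      rw [lt_div_iff_of_neg hq0] at h1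
      linarith
    · have h1 := hx (fun i => c i.castSucc) (by
        rw [mem_union]
        left
        rw [hF0, mem_image]
        exact ⟨c, mem_filter.2 ⟨hc, h0⟩, rfl⟩)
      rw [h0]
      simpa using h1
    · have h1 := hy1 _ (mem_image.2 ⟨c, mem_filter.2 ⟨hc, h0⟩, rfl⟩)
      have hq0 : (0 : ℚ) < (c (Fin.last n) : ℚ) := by exact_mod_cast h0
      rw [div_lt_iff₀ hq0] at h1
      linarith

/-- The same for variables indexed by any finite type and for families of inequalities. -/
theorem fourier_motzkin {V : Type*} [AddCommGroup V] [LinearOrder V] [IsOrderedAddMonoid V]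
    {β : Type*} [Fintype β] {F : Set (β → ℤ)} (hF : F.Finite) (a : β → V)
    (h : ∀ c ∈ F, 0 < ∑ i, c i • a i) :
    ∃ x : β → ℚ, ∀ c ∈ F, 0 < ∑ i, (c i : ℚ) * x i := by
  classical
  let e := Fintype.equivFin β
  obtain ⟨x, hx⟩ := fourier_motzkin_fin (Fintype.card β)
    (hF.toFinset.image fun c => fun i => c (e.symm i)) (fun i => a (e.symm i)) (by
      intro c hc
      rw [mem_image] at hc
      obtain ⟨d, hd, rfl⟩ := hc
      rw [Set.Finite.mem_toFinset] at hd
      refine lt_of_lt_of_eq (h d hd) ?_
      exact (Equiv.sum_comp e.symm fun i => d i • a i).symm)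
  refine ⟨fun b => x (e b), fun c hc => ?_⟩
  have h1 := hx (fun i => c (e.symm i)) (mem_image.2 ⟨c, by rwa [Set.Finite.mem_toFinset], rfl⟩)
  refine lt_of_lt_of_eq h1 ?_
  rw [← Equiv.sum_comp e.symm fun i => (c i : ℚ) * x (e i)]
  simp

end Pool.Agent.Y104.Kempf
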