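import Pool.Agent.Y104.Gp2

/-!
# The determinant criterion for the conjecture D
-/

open CategoryTheory AlgebraicGeometry
open scoped Matrix

set_option linter.unusedSectionVars false

universe u v w

namespace Pool.Agent.Y104.Geo

open Pool.Agent.H914 Pool.Agent.H914.VarClass Pool.Agent.H914.VarClass.Obj
  Pool.Agent.H914.WeilCohomology Pool.Agent.H281R3.HT Pool.Agent.TH125.Gal
  Pool.Agent.Y104.Kempf

variable {k : Type u} [Field k] {𝒱 : VarClass k} {ops : CycleOps 𝒱}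
  {W : WeilCohomology.{u, v} ops} {Γ : Type w} [Group Γ] {χ : Γ →* W.Kˣ} {G : Set (GVar W Γ)}

/-- The normalized determinant. -/
theorem detOn_gext {X : GVar W Γ} (h : Grd X) (γ : Γ) {V : Submodule W.K (W.H X.X)}
    (hV : GradedSub (W.gr X.X) V) (hVa : ∀ g, ∀ a ∈ V, (gext X h).act g a ∈ V) :
    detOn ((gext X h).act (γ ^ 2, (χ γ)⁻¹)).toLinearMap V =
      detOn (X.act γ).toLinearMap V ^ 2 *
        ((χ γ : W.K)⁻¹) ^ degSum (W.gr X.X) (2 * X.X.dim) V := by
  have h1 : ∀ t : W.Kˣ, ∀ a ∈ V, tw W X.X t a ∈ V := by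
    intro t a ha
    have h2 := hVa (1, t) a ha
    change X.act 1 (tw W X.X t a) ∈ V at h2
    rwa [map_one] at h2
  have h2 : ∀ γ, ∀ a ∈ V, X.act γ a ∈ V := by
    intro γ a ha
    have h3 := hVa (γ, 1) a ha
    change X.act γ (tw W X.X ((1 : W.Kˣ) : W.K) a) ∈ V at h3
    rwa [Units.val_one, tw_one] at h3
  have h3 : ((gext X h).act (γ ^ 2, (χ γ)⁻¹)).toLinearMap =
      ((X.act γ).toLinearMap ∘ₗ (X.act γ).toLinearMap) ∘ₗ
        tw W X.X (((χ γ)⁻¹ : W.Kˣ) : W.K) := by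
    ext a
    change X.act (γ ^ 2) (tw W X.X (((χ γ)⁻¹ : W.Kˣ) : W.K) a) = _
    rw [pow_two, map_mul]
    rfl
  rw [h3, detOn_comp _ _ V (fun a ha => h2 γ _ (h2 γ a ha)) (fun a ha => h1 _ a ha),
    detOn_comp _ _ V (h2 γ) (h2 γ), detOn_tw hV, pow_two, Units.val_inv_eq_inv_val]

/-- The condition on the determinants. -/
theorem torsionAt_of {m r : ℕ} {X : Fin m → GVar W Γ} {e : Fin r → ℕ}
    {V : ∀ j, Fin r → Submodule W.K (W.H (X j).X)} {γ : Γ} {n : ℕ} (hn : 0 < n)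
    (h : (∏ i, ∏ j, (detOn ((X j).act γ).toLinearMap (V j i) ^ 2 *
      ((χ γ : W.K)⁻¹) ^ degSum (W.gr (X j).X) (2 * (X j).X.dim) (V j i)) ^ e i) ^ n = 1) :
    UpToRoots (∏ j, flagDet (X j).act γ (V j) e)
      ((χ γ : W.K) ^ ∑ j, flagWeight (W.gr (X j).X) (2 * (X j).X.dim) (V j) e) := by
  refine ⟨n, hn, ?_⟩
  have hχ : (χ γ : W.K) ≠ 0 := Units.ne_zero _
  rw [Finset.prod_comm] at h
  have h1 : ∏ j, ∏ i, (detOn ((X j).act γ).toLinearMap (V j i) ^ 2 *
      ((χ γ : W.K)⁻¹) ^ degSum (W.gr (X j).X) (2 * (X j).X.dim) (V j i)) ^ e i =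
      (∏ j, flagDet (X j).act γ (V j) e) *
        ((χ γ : W.K)⁻¹) ^ ∑ j, flagWeight (W.gr (X j).X) (2 * (X j).X.dim) (V j) e := by
    rw [← Finset.prod_pow_eq_pow_sum, ← Finset.prod_mul_distrib]
    refine Finset.prod_congr rfl fun j _ => ?_
    rw [flagWeight, ← Finset.prod_pow_eq_pow_sum, flagDet, ← Finset.prod_mul_distrib]
    refine Finset.prod_congr rfl fun i _ => ?_
    rw [mul_pow, ← pow_mul, ← pow_mul, mul_comm (degSum _ _ _), detIn_eq]
  rw [h1, mul_pow, ← pow_mul, inv_pow, mul_inv_eq_one₀ (pow_ne_zero _ hχ)] at h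
  rw [h, ← pow_mul]

theorem χext_norm (γ : Γ) : χext χ (γ ^ 2, (χ γ)⁻¹) = 1 := by
  rw [χext_apply, map_pow]
  change χ γ ^ 2 * (χ γ)⁻¹ ^ 2 = 1
  rw [inv_pow, mul_inv_cancel]

/-- **The determinant criterion: the conditions on the pieces.** -/
theorem detCond_T {m : ℕ} {X : Fin m → GVar W Γ} (h : ∀ j, Grd (X j)) (P : ∀ j : Fin m × Fin 2, Piece W (gext (X j.1) (h j.1)).X)
    (hPθ : ∀ j, (P j).θ = 1)
    (hPs : ∀ j, Submodule.span W.K (Set.range (P j).x) =
      transcendental W (X j.1).X ⊓ hpar W (X j.1).X j.2)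
    (hF : ∀ (r : ℕ) (V : ∀ j, Fin r → Submodule W.K (W.H (X j).X)) (e : Fin r → ℕ),
      (∀ i, 0 < e i) → (∀ j, IsotropicFlag (W.tr (X j).X) (W.gr (X j).X)
        (transcendental W (X j).X) (X j).act (AlgCorr W (X j).X) (V j)) →
      (∀ γ, UpToRoots (∏ j, flagDet (X j).act γ (V j) e)
        ((χ γ : W.K) ^ ∑ j, flagWeight (W.gr (X j).X) (2 * (X j).X.dim) (V j) e)) →
          ∀ j i, V j i = ⊥) :
    DetCond (X := fun j : Fin m × Fin 2 => gext (X j.1) (h j.1)) (χext χ) P := by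
  intro r F e he hanti hle hact hcorr hiso hdet
  have hle' : ∀ j i, F j i ≤ transcendental W (X j.1).X ⊓ hpar W (X j.1).X j.2 := fun j i =>
    (hle j i).trans (hPs j).le
  have htw : ∀ j i (t : W.Kˣ), ∀ a ∈ F j i, tw W (X j.1).X t a ∈ F j i := by
    intro j i t a ha
    have h2 := hact j i (1, t) a ha
    change (X j.1).act 1 (tw W (X j.1).X t a) ∈ F j i at h2
    rwa [map_one] at h2
  have hacta : ∀ j i γ, ∀ a ∈ F j i, (X j.1).act γ a ∈ F j i := by
    intro j i γ a ha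
    have h3 := hact j i (γ, 1) a ha
    change (X j.1).act γ (tw W (X j.1).X ((1 : W.Kˣ) : W.K) a) ∈ F j i at h3
    rwa [Units.val_one, tw_one] at h3
  have hc : ∀ (j : Fin m × Fin 2) (i : Fin r), ∀ d ∈ algSpan W ((X j.1).X.prod (X j.1).X),
      ∀ v ∈ F j i,
      W.corr d v ∈ F j i := by
    intro j i d hd v hv
    refine hcorr j i d hd ?_ v hv
    rw [hPs]
    exact fun u hu => ⟨corr_trans hd hu.1, corr_hpar hd hu.2⟩
  let V : ∀ a : Fin m, Fin r → Submodule W.K (W.H (X a).X) := fun a i => F (a, 0) i ⊔ F (a, 1) i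
  have hVdef : ∀ a i, V a i = F (a, 0) i ⊔ F (a, 1) i := fun _ _ => rfl
  have hVtw : ∀ a i (t : W.Kˣ), ∀ x ∈ V a i, tw W (X a).X t x ∈ V a i := by
    intro a i t x hx
    obtain ⟨y, hy, z, hz, rfl⟩ := Submodule.mem_sup.1 hx
    rw [map_add]
    exact Submodule.add_mem_sup (htw (a, 0) i t y hy) (htw (a, 1) i t z hz)
  have hVact : ∀ a i γ, ∀ x ∈ V a i, (X a).act γ x ∈ V a i := by
    intro a i γ x hx
    obtain ⟨y, hy, z, hz, rfl⟩ := Submodule.mem_sup.1 hx
    rw [map_add]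
    exact Submodule.add_mem_sup (hacta (a, 0) i γ y hy) (hacta (a, 1) i γ z hz)
  have hVgr : ∀ a i, GradedSub (W.gr (X a).X) (V a i) := fun a i => gradedSub_of_tw (hVtw a i)
  have hdisj : ∀ a i, F (a, 0) i ⊓ F (a, 1) i = ⊥ := by
    intro a i
    rw [eq_bot_iff]
    rintro x ⟨hx0, hx1⟩
    have h0 := par_hpar (hle' (a, 0) i hx0).2
    have h1 := par_hpar (hle' (a, 1) i hx1).2
    rw [h0] at h1
    have h2 : (2 : W.K) • x = 0 := by
      have h3 : x = -x := by simpa using h1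
      rw [two_smul]
      nth_rw 1 [h3]
      exact neg_add_cancel x
    rw [Submodule.mem_bot]
    exact (smul_eq_zero.1 h2).resolve_left two_ne_zero
  have hV := hF r V e he (fun a => ?_) (fun γ => ?_)
  · rintro ⟨a, b⟩ i
    have h1 := hV a i
    rw [hVdef, sup_eq_bot_iff] at h1
    fin_cases b
    · exact h1.1
    · exact h1.2
  · refine ⟨fun i i' hii => sup_le_sup (hanti (a, 0) hii) (hanti (a, 1) hii), fun i => ?_,
      fun i => hVgr a i, fun i γ => hVact a i γ, fun i => ?_, fun i x hx y hy => ?_⟩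
    · exact sup_le ((hle' (a, 0) i).trans inf_le_left) ((hle' (a, 1) i).trans inf_le_left)
    · rintro _ ⟨d, hd, rfl⟩ _ x hx
      obtain ⟨y, hy, z, hz, rfl⟩ := Submodule.mem_sup.1 hx
      change W.corr d (y + z) ∈ V a i
      rw [map_add]
      exact Submodule.add_mem_sup (hc (a, 0) i d hd y hy) (hc (a, 1) i d hd z hz)
    · obtain ⟨x0, hx0, x1, hx1, rfl⟩ := Submodule.mem_sup.1 hx
      obtain ⟨y0, hy0, y1, hy1, rfl⟩ := Submodule.mem_sup.1 hy
      have h00 := hiso (a, 0) i x0 hx0 y0 hy0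
      have h11 := hiso (a, 1) i x1 hx1 y1 hy1
      rw [hPθ, mul_one] at h00 h11
      have h01 := tr_par_zero (e := 0) (i := 1) (hle' (a, 0) i hx0).2 (hle' (a, 1) i hy1).2
        (by decide)
      have h10 := tr_par_zero (e := 1) (i := 0) (hle' (a, 1) i hx1).2 (hle' (a, 0) i hy0).2
        (by decide)
      rw [add_mul, mul_add, mul_add, map_add, map_add, map_add, h01, h10]
      change W.tr (X a).X (x0 * y0) + 0 + (0 + W.tr (X a).X (x1 * y1)) = 0
      rw [show W.tr (X a).X (x0 * y0) = 0 from h00, show W.tr (X a).X (x1 * y1) = 0 from h11]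
      simp
  · obtain ⟨n, hn, h1⟩ := hdet (γ ^ 2, (χ γ)⁻¹) (χext_norm γ)
    refine torsionAt_of hn ?_
    rw [← h1]
    congr 1
    refine Finset.prod_congr rfl fun i _ => ?_
    rw [Fintype.prod_prod_type]
    refine Finset.prod_congr rfl fun a _ => ?_
    rw [Fin.prod_univ_two, ← mul_pow]
    congr 1
    rw [← detOn_gext (h a) γ (hVgr a i) (fun g x hx => hVact a i _ _ (hVtw a i _ x hx)),
      hVdef]
    exact detOn_sup _ _ _ (fun x hx => hact (a, 0) i _ x hx)
      (fun x hx => hact (a, 1) i _ x hx) (hdisj a i)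

/-- The whole cohomology is generated. -/
theorem ccl_base_T {m : ℕ} {X : Fin m → GVar W Γ} (h : ∀ j, Grd (X j))
    (P : ∀ j : Fin m × Fin 2, Piece W (gext (X j.1) (h j.1)).X)
    (hPs : ∀ j, Submodule.span W.K (Set.range (P j).x) =
      transcendental W (X j.1).X ⊓ hpar W (X j.1).X j.2) (a : Fin m)
    (hDX : HomEqNum W (X a).X) (hs : SignAlgebraic W (X a).X) :
    ccl (X := fun j : Fin m × Fin 2 => gext (X j.1) (h j.1)) P (X a).X = ⊤ := by
  have h1 : ∀ e : Fin 2, transcendental W (X a).X ⊓ hpar W (X a).X e ≤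
      ccl (X := fun j : Fin m × Fin 2 => gext (X j.1) (h j.1)) P (X a).X := by
    intro e
    rw [← hPs (a, e), Submodule.span_le]
    rintro _ ⟨q, rfl⟩
    have h2 := ccl_slot (X := fun j : Fin m × Fin 2 => gext (X j.1) (h j.1)) (P := P)
      (Y := (X a).X) ⟨(a, e), 𝟙 _, q⟩
    rwa [SlotC.val, W.map_id] at h2
  have h2 : transcendental W (X a).X ≤
      ccl (X := fun j : Fin m × Fin 2 => gext (X j.1) (h j.1)) P (X a).X := by
    intro t ht
    obtain ⟨cs, hcs, h4⟩ := hs.exists_par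
    have hpt : par (W.isInternal (X a).X) t ∈ transcendental W (X a).X := by
      rw [← h4 t ht]
      exact corr_trans hcs ht
    have h3 : t = (2 : W.K)⁻¹ • ((t + (-1 : W.K) ^ 0 • par (W.isInternal (X a).X) t) +
        (t + (-1 : W.K) ^ 1 • par (W.isInternal (X a).X) t)) := by
      rw [pow_zero, one_smul, pow_one, neg_smul, one_smul, add_add_add_comm, add_neg_cancel,
        add_zero, ← two_smul W.K t, smul_smul, inv_mul_cancel₀ two_ne_zero, one_smul]
    rw [h3]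
    refine Submodule.smul_mem _ _ (Submodule.add_mem _ (h1 0 ⟨?_, add_par 0 t⟩)
      (h1 1 ⟨?_, add_par 1 t⟩))
    · exact Submodule.add_mem _ ht (Submodule.smul_mem _ _ hpt)
    · exact Submodule.add_mem _ ht (Submodule.smul_mem _ _ hpt)
  rw [eq_top_iff, ← (isCompl hDX).sup_eq_top]
  exact sup_le (fun a ha => ccl_alg ha) h2

/-- A product of members of a set of varieties with an action is a product of finitely many
different members. -/
theorem exists_fin_gvar {S : Set (GVar W Γ)} {Y : 𝒱.Obj} (hY : IsProductOf (GVar.X '' S) Y) :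
    ∃ (m : ℕ) (X : Fin m → GVar W Γ), Function.Injective X ∧ (∀ j, X j ∈ S) ∧
      IsProductOf (Set.range fun j => (X j).X) Y := by
  classical
  obtain ⟨T, hT, hTY⟩ := IsProductOf.exists_fin hY
  choose g hg hgX using fun Z : T => hT Z.2
  refine ⟨T.card, fun j => g (T.equivFin.symm j), ?_, fun j => hg _, ?_⟩
  · intro j j' hjj
    have h1 := congrArg GVar.X hjj
    simp only [hgX] at h1
    exact T.equivFin.symm.injective (Subtype.ext h1)
  · have h1 : (Set.range fun j => (g (T.equivFin.symm j)).X) = (T : Set 𝒱.Obj) := by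
      ext Z
      simp only [hgX, Set.mem_range, Finset.mem_coe]
      constructor
      · rintro ⟨j, rfl⟩
        exact (T.equivFin.symm j).2
      · intro hZ
        exact ⟨T.equivFin ⟨Z, hZ⟩, by rw [Equiv.symm_apply_apply]⟩
    rw [h1]
    exact hTY

end Pool.Agent.Y104.Geo
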