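import Pool.Agent.Y104.Fin4

/-!
# The determinant criterion for abelian varieties
-/

open CategoryTheory AlgebraicGeometry
open scoped Matrix

set_option linter.unusedSectionVars false

universe u v w

namespace Pool.Agent.Y104.Geo

open Pool.Agent.H914 Pool.Agent.H914.VarClass Pool.Agent.H914.VarClass.Obj
  Pool.Agent.H914.WeilCohomology Pool.Agent.H281R3.HT Pool.Agent.TH125.Gal
  Pool.Agent.Y104.Kempf

variable {k : Type u} [Field k] {𝒱 : VarClass k} {ops : CycleOps 𝒱}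
  {W : WeilCohomology.{u, v} ops} {Γ : Type w} [Group Γ] {χ : Γ →* W.Kˣ} {G : Set (GVar W Γ)}

theorem tw_pow {X : 𝒱.Obj} (t : W.K) (a : W.H X) (l : ℕ) :
    tw W X t (a ^ l) = tw W X t a ^ l := by
  induction l with
  | zero => rw [pow_zero, pow_zero, tw_apply (W.one_mem X), pow_zero, one_smul]
  | succ l ih => rw [pow_succ, tw_mul, ih, pow_succ]

/-- **The first cohomology is a good piece.** -/
theorem exists_goodH (hG : GaloisClass χ G) {A : GVar W Γ} (hAG : A ∈ G) (h : Grd A)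
    {ξ : W.H A.X} (hA : IsAbelian χ A ξ)
    (hss : SemisimpleIn (W.gr A.X 1) A.act (AlgCorr W A.X)) :
    ∃ P : Piece W A.X, GoodP (χext χ) (gext A h) P ∧ P.θ = ξ ^ (A.X.dim - 1) ∧
      Submodule.span W.K (Set.range P.x) = W.gr A.X 1 := by
  obtain ⟨_, ⟨m, rfl⟩, hm⟩ := hA.add
  have hξ2 : ξ ∈ W.gr A.X 2 := by
    have h1 : Submodule.span W.K (algClasses W A.X 1) ≤ W.gr A.X 2 :=
      Submodule.span_le.2 fun c hc => alg_gr hc
    exact h1 hA.pol.1
  obtain ⟨P, hPe, hPθ, hPs⟩ := Y154.Hpc.exists_hpiece m ξ hA.pol.1 (gr_two_le hA.gen hξ2) hm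
    hA.pol.2.1
  refine ⟨P, goodP_gext hG hAG h ?_ ?_ (A.X.dim - 1) ?_ ?_, hPθ, hPs⟩
  · rw [hPs]
    exact fun γ a ha => h γ 1 a ha
  · rw [hPs]
    exact fun t a ha => tw_gr ha
  · intro γ t
    rw [hPθ, tw_pow, tw_apply hξ2, smul_pow, map_smul, map_pow, hA.pol.2.2, smul_pow, smul_smul,
      ← mul_pow, mul_comm]
  · rw [hPs]
    exact hss

end Pool.Agent.Y104.Geo
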