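import Pool.Agent.Y104.Fin5

/-!
# The determinant criterion for products of abelian and other varieties
-/

open CategoryTheory AlgebraicGeometry
open scoped Matrix

set_option linter.unusedSectionVars false

universe u v w

namespace Pool.Agent.Y104.Geo

open Pool.Agent.H914 Pool.Agent.H914.VarClass Pool.Agent.H914.VarClass.Obj
  Pool.Agent.H914.WeilCohomology Pool.Agent.H281R3.HT Pool.Agent.TH125.Gal
  Pool.Agent.Y104.Kempf

variable {k : Type u} [Field k] {𝒱 : VarClass k} {ops : CycleOps 𝒱}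
  {W : WeilCohomology.{u, v} ops} {Γ : Type w} [Group Γ] {χ : Γ →* W.Kˣ} {G : Set (GVar W Γ)}

/-- Varieties whose cohomology is generated by a subspace with two good pieces. -/
structure Src (χ : Γ →* W.Kˣ) (X : GVar W Γ) (h : Grd X) (U : Submodule W.K (W.H X.X))
    (φ : W.H X.X →ₗ[W.K] W.K) (θ : W.H X.X) : Prop where
  form : ∀ a, φ a = W.tr X.X (a * θ)
  even : θ ∈ hpar W X.X 0
  good : ∀ e : Fin 2, ∃ P : Piece W X.X, GoodP (χext χ) (gext X h) P ∧ P.θ = θ ∧
    Submodule.span W.K (Set.range P.x) = U ⊓ hpar W X.X e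
  gen : ∀ C : Submodule W.K (W.H X.X), (∀ a ∈ C, ∀ b ∈ C, a * b ∈ C) → algSpan W X.X ≤ C →
    (∀ e : Fin 2, U ⊓ hpar W X.X e ≤ C) → C = ⊤

theorem src_T (hG : GaloisClass χ G) {X : GVar W Γ} (hX : X ∈ G) (h : Grd X)
    (hDX : HomEqNum W X.X) (hs : SignAlgebraic W X.X)
    (hss : SemisimpleIn (transcendental W X.X) X.act (AlgCorr W X.X)) :
    Src χ X h (transcendental W X.X) (W.tr X.X) 1 where
  form := fun a => by rw [mul_one]
  even := algSpan_hpar algSpan_one
  good := fun e => exists_goodT hG hX h hDX hs hss e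
  gen := fun C _ hC hCe => by
    have h2 : transcendental W X.X ≤ C := by
      intro t ht
      obtain ⟨cs, hcs, h4⟩ := hs.exists_par
      have hpt : par (W.isInternal X.X) t ∈ transcendental W X.X := by
        rw [← h4 t ht]
        exact corr_trans hcs ht
      have h3 : t = (2 : W.K)⁻¹ • ((t + (-1 : W.K) ^ 0 • par (W.isInternal X.X) t) +
          (t + (-1 : W.K) ^ 1 • par (W.isInternal X.X) t)) := by
        rw [pow_zero, one_smul, pow_one, neg_smul, one_smul, add_add_add_comm, add_neg_cancel,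
          add_zero, ← two_smul W.K t, smul_smul, inv_mul_cancel₀ two_ne_zero, one_smul]
      rw [h3]
      refine Submodule.smul_mem _ _ (Submodule.add_mem _ (hCe 0 ⟨?_, add_par 0 t⟩)
        (hCe 1 ⟨?_, add_par 1 t⟩))
      · exact Submodule.add_mem _ ht (Submodule.smul_mem _ _ hpt)
      · exact Submodule.add_mem _ ht (Submodule.smul_mem _ _ hpt)
    rw [eq_top_iff, ← (isCompl hDX).sup_eq_top]
    exact sup_le hC h2

theorem gr_hpar_disj {X : 𝒱.Obj} : W.gr X 1 ⊓ hpar W X 0 = ⊥ := by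
  rw [eq_bot_iff]
  rintro x ⟨hx0, hx1⟩
  have h0 := par_hpar (hpar_of rfl hx0 : x ∈ hpar W X 1)
  have h1 := par_hpar hx1
  rw [h0] at h1
  have h2 : (2 : W.K) • x = 0 := by
    have h3 : -x = x := by simpa using h1
    rw [two_smul]
    nth_rw 1 [← h3]
    exact neg_add_cancel x
  rw [Submodule.mem_bot]
  exact (smul_eq_zero.1 h2).resolve_left two_ne_zero

theorem gr_hpar_one {X : 𝒱.Obj} : W.gr X 1 ⊓ hpar W X 1 = W.gr X 1 :=
  inf_eq_left.2 fun _ hx => hpar_of rfl hx

theorem θ_algSpan {X : 𝒱.Obj} {ξ : W.H X} (hξ : ξ ∈ algSpan W X) (n : ℕ) :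
    ξ ^ n ∈ algSpan W X := by
  induction n with
  | zero => rw [pow_zero]; exact algSpan_one
  | succ n ih => rw [pow_succ]; exact algSpan_mul ih hξ

theorem src_H (hG : GaloisClass χ G) {A : GVar W Γ} (hAG : A ∈ G) (h : Grd A) {ξ : W.H A.X}
    (hA : IsAbelian χ A ξ) (hss : SemisimpleIn (W.gr A.X 1) A.act (AlgCorr W A.X)) :
    Src χ A h (W.gr A.X 1) (twistBy (W.tr A.X) ξ (A.X.dim - 1)) (ξ ^ (A.X.dim - 1)) where
  form := fun a => rfl
  even := algSpan_hpar (θ_algSpan (by
    have h1 : Submodule.span W.K (algClasses W A.X 1) ≤ algSpan W A.X :=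
      Submodule.span_le.2 fun c hc => alg_mem hc
    exact h1 hA.pol.1) _)
  good := fun e => by
    have hξ : ξ ∈ algSpan W A.X := by
      have h1 : Submodule.span W.K (algClasses W A.X 1) ≤ algSpan W A.X :=
        Submodule.span_le.2 fun c hc => alg_mem hc
      exact h1 hA.pol.1
    obtain ⟨P, hP, hPθ, hPs⟩ := exists_goodH hG hAG h hA hss
    fin_cases e
    · -- the empty piece
      refine ⟨{
        J := Fin 0
        fin := inferInstance
        dec := inferInstance
        x := fun p => p.elim0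
        e := 0
        x_mem := fun p => p.elim0
        θ := ξ ^ (A.X.dim - 1)
        θ_mem := θ_algSpan hξ _
        Q := 1
        Q_eq := fun p => p.elim0
        isUnit := isUnit_one
        β_mem := by
          rw [Finset.univ_eq_empty, Finset.sum_empty]
          exact Submodule.zero_mem _ }, ⟨fun γ p => p.elim0, ?_, ?_, ?_⟩, rfl, ?_⟩
      · intro γ
        obtain ⟨a, ha, h1⟩ := hP.semi γ
        rw [hPθ] at h1
        exact ⟨a, ha, h1⟩
      · intro γ hγ
        have h1 := hP.fix γ hγ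
        rw [hPθ] at h1
        exact h1
      · intro e _ _
        ext p
        exact p.elim0
      · change Submodule.span W.K (Set.range fun p : Fin 0 => (p.elim0 : W.H A.X)) =
          W.gr A.X 1 ⊓ hpar W A.X 0
        rw [gr_hpar_disj, Set.range_eq_empty, Submodule.span_empty]
    · refine ⟨P, hP, hPθ, ?_⟩
      rw [hPs]
      exact gr_hpar_one.symm
  gen := fun C hmul hC hCe => by
    have h1 : W.gr A.X 1 ≤ C := by
      have h2 := hCe 1
      change W.gr A.X 1 ⊓ hpar W A.X 1 ≤ C at h2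
      rwa [gr_hpar_one] at h2
    rw [eq_top_iff]
    intro a _
    have h2 : a ∈ Algebra.adjoin W.K (W.gr A.X 1 : Set (W.H A.X)) := by
      rw [show Algebra.adjoin W.K (W.gr A.X 1 : Set (W.H A.X)) = ⊤ from hA.gen]
      exact Algebra.mem_top
    induction h2 using Algebra.adjoin_induction with
    | mem x hx => exact h1 hx
    | algebraMap r =>
      rw [Algebra.algebraMap_eq_smul_one]
      exact Submodule.smul_mem _ _ (hC algSpan_one)
    | add x y _ _ hx hy => exact Submodule.add_mem _ (hx Submodule.mem_top) (hy Submodule.mem_top)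
    | mul x y _ _ hx hy => exact hmul _ (hx Submodule.mem_top) _ (hy Submodule.mem_top)

/-- **The determinant criterion: the conditions on the pieces.** -/
theorem detCond_mixed {m : ℕ} {X : Fin m → GVar W Γ} (h : ∀ j, Grd (X j))
    (P : ∀ j : Fin m × Fin 2, Piece W (gext (X j.1) (h j.1)).X)
    {U : ∀ X : GVar W Γ, Submodule W.K (W.H X.X)} {φ : ∀ X : GVar W Γ, W.H X.X →ₗ[W.K] W.K}
    {θ : ∀ j, W.H (X j).X} (hφ : ∀ j a, φ (X j) a = W.tr (X j).X (a * θ j))
    (hθ : ∀ j, θ j ∈ hpar W (X j).X 0) (hPθ : ∀ j, (P j).θ = θ j.1)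
    (hPs : ∀ j, Submodule.span W.K (Set.range (P j).x) = U (X j.1) ⊓ hpar W (X j.1).X j.2)
    (hF : ∀ (r : ℕ) (V : ∀ j, Fin r → Submodule W.K (W.H (X j).X)) (e : Fin r → ℕ),
      (∀ i, 0 < e i) → (∀ j, IsotropicFlag (φ (X j)) (W.gr (X j).X)
        (U (X j)) (X j).act (AlgCorr W (X j).X) (V j)) →
      (∀ γ, UpToRoots (∏ j, flagDet (X j).act γ (V j) e)
        ((χ γ : W.K) ^ ∑ j, flagWeight (W.gr (X j).X) (2 * (X j).X.dim) (V j) e)) →
          ∀ j i, V j i = ⊥) :
    DetCond (X := fun j : Fin m × Fin 2 => gext (X j.1) (h j.1)) (χext χ) P := by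
  intro r F e he hanti hle hact hcorr hiso hdet
  have hle' : ∀ j i, F j i ≤ U (X j.1) ⊓ hpar W (X j.1).X j.2 := fun j i =>
    (hle j i).trans (hPs j).le
  have htw : ∀ j i (t : W.Kˣ), ∀ a ∈ F j i, tw W (X j.1).X t a ∈ F j i := by
    intro j i t a ha
    have h2 := hact j i (1, t) a ha
    change (X j.1).act 1 (tw W (X j.1).X t a) ∈ F j i at h2
    rwa [map_one] at h2
  have hacta : ∀ j i γ, ∀ a ∈ F j i, (X j.1).act γ a ∈ F j i := by
    intro j i γ a ha
    have h3 := hact j i (γ, 1) a ha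
    change (X j.1).act γ (tw W (X j.1).X ((1 : W.Kˣ) : W.K) a) ∈ F j i at h3
    rwa [Units.val_one, tw_one] at h3
  have hc : ∀ (j : Fin m × Fin 2) (i : Fin r), ∀ d ∈ algSpan W ((X j.1).X.prod (X j.1).X),
      (∀ u ∈ U (X j.1), W.corr d u ∈ U (X j.1)) → ∀ v ∈ F j i, W.corr d v ∈ F j i := by
    intro j i d hd hdU v hv
    refine hcorr j i d hd ?_ v hv
    rw [hPs]
    exact fun u hu => ⟨hdU u hu.1, corr_hpar hd hu.2⟩
  let V : ∀ a : Fin m, Fin r → Submodule W.K (W.H (X a).X) := fun a i => F (a, 0) i ⊔ F (a, 1) i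
  have hVdef : ∀ a i, V a i = F (a, 0) i ⊔ F (a, 1) i := fun _ _ => rfl
  have hVtw : ∀ a i (t : W.Kˣ), ∀ x ∈ V a i, tw W (X a).X t x ∈ V a i := by
    intro a i t x hx
    obtain ⟨y, hy, z, hz, rfl⟩ := Submodule.mem_sup.1 hx
    rw [map_add]
    exact Submodule.add_mem_sup (htw (a, 0) i t y hy) (htw (a, 1) i t z hz)
  have hVact : ∀ a i γ, ∀ x ∈ V a i, (X a).act γ x ∈ V a i := by
    intro a i γ x hx
    obtain ⟨y, hy, z, hz, rfl⟩ := Submodule.mem_sup.1 hx
    rw [map_add]
    exact Submodule.add_mem_sup (hacta (a, 0) i γ y hy) (hacta (a, 1) i γ z hz)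
  have hVgr : ∀ a i, GradedSub (W.gr (X a).X) (V a i) := fun a i => gradedSub_of_tw (hVtw a i)
  have hdisj : ∀ a i, F (a, 0) i ⊓ F (a, 1) i = ⊥ := by
    intro a i
    rw [eq_bot_iff]
    rintro x ⟨hx0, hx1⟩
    have h0 := par_hpar (hle' (a, 0) i hx0).2
    have h1 := par_hpar (hle' (a, 1) i hx1).2
    rw [h0] at h1
    have h2 : (2 : W.K) • x = 0 := by
      have h3 : x = -x := by simpa using h1
      rw [two_smul]
      nth_rw 1 [h3]
      exact neg_add_cancel x
    rw [Submodule.mem_bot]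
    exact (smul_eq_zero.1 h2).resolve_left two_ne_zero
  have hV := hF r V e he (fun a => ?_) (fun γ => ?_)
  · rintro ⟨a, b⟩ i
    have h1 := hV a i
    rw [hVdef, sup_eq_bot_iff] at h1
    fin_cases b
    · exact h1.1
    · exact h1.2
  · refine ⟨fun i i' hii => sup_le_sup (hanti (a, 0) hii) (hanti (a, 1) hii), fun i => ?_,
      fun i => hVgr a i, fun i γ => hVact a i γ, fun i => ?_, fun i x hx y hy => ?_⟩
    · exact sup_le ((hle' (a, 0) i).trans inf_le_left) ((hle' (a, 1) i).trans inf_le_left)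
    · rintro _ ⟨d, hd, rfl⟩ hdU x hx
      obtain ⟨y, hy, z, hz, rfl⟩ := Submodule.mem_sup.1 hx
      change W.corr d (y + z) ∈ V a i
      rw [map_add]
      exact Submodule.add_mem_sup (hc (a, 0) i d hd hdU y hy) (hc (a, 1) i d hd hdU z hz)
    · obtain ⟨x0, hx0, x1, hx1, rfl⟩ := Submodule.mem_sup.1 hx
      obtain ⟨y0, hy0, y1, hy1, rfl⟩ := Submodule.mem_sup.1 hy
      have h00 := hiso (a, 0) i x0 hx0 y0 hy0
      have h11 := hiso (a, 1) i x1 hx1 y1 hy1
      rw [hPθ] at h00 h11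
      have hpy : ∀ e (y : W.H (X a).X), y ∈ hpar W (X a).X e →
          y * θ a ∈ hpar W (X a).X e := by
        intro e y hy
        have h1 := hpar_mul hy (hθ a)
        rwa [add_zero] at h1
      have h01 := tr_par_zero (e := 0) (i := 1) (hle' (a, 0) i hx0).2
        (hpy 1 y1 (hle' (a, 1) i hy1).2) (by decide)
      have h10 := tr_par_zero (e := 1) (i := 0) (hle' (a, 1) i hx1).2
        (hpy 0 y0 (hle' (a, 0) i hy0).2) (by decide)
      rw [← mul_assoc] at h01 h10
      rw [hφ, add_mul, mul_add, mul_add, add_mul, add_mul, add_mul, map_add, map_add, map_add,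
        h01, h10]
      change W.tr (X a).X (x0 * y0 * θ a) + 0 + (0 + W.tr (X a).X (x1 * y1 * θ a)) = 0
      rw [show W.tr (X a).X (x0 * y0 * θ a) = 0 from h00,
        show W.tr (X a).X (x1 * y1 * θ a) = 0 from h11]
      simp
  · obtain ⟨n, hn, h1⟩ := hdet (γ ^ 2, (χ γ)⁻¹) (χext_norm γ)
    refine torsionAt_of hn ?_
    rw [← h1]
    congr 1
    refine Finset.prod_congr rfl fun i _ => ?_
    rw [Fintype.prod_prod_type]
    refine Finset.prod_congr rfl fun a _ => ?_
    rw [Fin.prod_univ_two, ← mul_pow]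
    congr 1
    rw [← detOn_gext (h a) γ (hVgr a i) (fun g x hx => hVact a i _ _ (hVtw a i _ x hx)),
      hVdef]
    exact detOn_sup _ _ _ (fun x hx => hact (a, 0) i _ x hx)
      (fun x hx => hact (a, 1) i _ x hx) (hdisj a i)

/-- **The determinant criterion for products of abelian and other varieties.** -/
theorem homEqNum_mixed (hG : GaloisClass χ G) {S S' : Set (GVar W Γ)} (hSG : S ∪ S' ⊆ G)
    {ξ : ∀ A : GVar W Γ, W.H A.X}
    (hS : ∀ X ∈ S, HomEqNum W X.X ∧ SignIsAlgebraic W X.X ∧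
      SemisimpleIn (transcendental W X.X) X.act (CorrOps W X.X))
    (hS' : ∀ A ∈ S', IsAbelian χ A (ξ A) ∧ SemisimpleIn (W.gr A.X 1) A.act (CorrOps W A.X))
    (hF : NoTorsion χ S S' ξ) {Y : 𝒱.Obj} (hY : IsProductOf (GVar.X '' (S ∪ S')) Y) :
    HomEqNum W Y := by
  classical
  obtain ⟨m, X, hinj, hXS, hXY⟩ := exists_fin_gvar hY
  have h : ∀ j, Grd (X j) := fun j => (hG.galois _ (hSG (hXS j))).gr_mem
  let U : ∀ X : GVar W Γ, Submodule W.K (W.H X.X) := fun X =>
    pick (X ∈ S') (W.gr X.X 1) (transcendental W X.X)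
  let φ : ∀ X : GVar W Γ, W.H X.X →ₗ[W.K] W.K := fun X =>
    pick (X ∈ S') (twistBy (W.tr X.X) (ξ X) (X.X.dim - 1)) (W.tr X.X)
  have hsrc : ∀ j, ∃ θ, Src χ (X j) (h j) (U (X j)) (φ (X j)) θ := by
    intro j
    by_cases hj : X j ∈ S'
    · have hU : U (X j) = W.gr (X j).X 1 := if_pos hj
      have hφ : φ (X j) = twistBy (W.tr (X j).X) (ξ (X j)) ((X j).X.dim - 1) := if_pos hj
      rw [hU, hφ]
      exact ⟨_, src_H hG (hSG (hXS j)) (h j) (hS' _ hj).1 (hS' _ hj).2⟩
    · have hU : U (X j) = transcendental W (X j).X := if_neg hj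
      have hφ : φ (X j) = W.tr (X j).X := if_neg hj
      have h1 := hS _ ((hXS j).resolve_right hj)
      rw [hU, hφ]
      exact ⟨_, src_T hG (hSG (hXS j)) (h j) h1.1 h1.2.1 h1.2.2⟩
  choose θ hθ using hsrc
  choose P hP hPθ hPs using fun j : Fin m × Fin 2 => (hθ j.1).good j.2
  have hbase : ∀ Z, IsProductOf (Set.range fun j => (X j).X) Z →
      ccl (X := fun j : Fin m × Fin 2 => gext (X j.1) (h j.1)) P Z = ⊤ := by
    intro Z hZ
    induction hZ with
    | base hZ =>
      obtain ⟨j, rfl⟩ := hZ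
      refine (hθ j).gen _ (fun a ha b hb => ccl_mul ha hb) (fun a ha => ccl_alg ha) fun e => ?_
      rw [← hPs (j, e), Submodule.span_le]
      rintro _ ⟨q, rfl⟩
      have h2 := ccl_slot (X := fun j : Fin m × Fin 2 => gext (X j.1) (h j.1)) (P := P)
        (Y := (X j).X) ⟨(j, e), 𝟙 _, q⟩
      rwa [SlotC.val, W.map_id] at h2
    | prod _ _ ih ih' => exact ccl_prod ih ih'
  exact homEqNum_of_rad (rad_of_ccl (X := fun j : Fin m × Fin 2 => gext (X j.1) (h j.1))
    (P := P) (galoisClass_gext hG)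
    (fun j => ⟨_, hSG (hXS j.1), h j.1, rfl⟩) (finOrb_of (galoisClass_gext hG)) hP
    (detCond_mixed h P (fun j => (hθ j).form) (fun j => (hθ j).even) hPθ hPs
      (hF m X hinj hXS)) (hbase Y hXY))

/-- Images. -/
theorem homEqNum_of_covers {Y Y' : 𝒱.Obj} (h : HomEqNum W Y) (hc : Covers W Y Y') :
    HomEqNum W Y' := by
  obtain ⟨f, a, ha, h1⟩ := hc
  refine homEqNum_of_rad ?_
  rw [eq_bot_iff]
  intro z hz
  have h2 := rad_map f hz
  rw [rad_eq_bot h, Submodule.mem_bot] at h2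
  have h3 : z = W.push f (a * W.map f z) := by
    rw [W.push_mul, h1, one_mul]
  rw [h3, h2, mul_zero, map_zero]
  exact Submodule.zero_mem _

end Pool.Agent.Y104.Geo
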