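import Pool.Agent.Y104.Tpc

/-!
# The conjecture D for products of varieties without stable isotropic subspaces
-/

open CategoryTheory AlgebraicGeometry
open scoped Matrix

set_option linter.unusedSectionVars false

universe u v w

namespace Pool.Agent.Y104.Geo

open Pool.Agent.H914 Pool.Agent.H914.VarClass Pool.Agent.H914.VarClass.Obj
  Pool.Agent.H914.WeilCohomology Pool.Agent.H281R3.HT Pool.Agent.TH125.Gal
  Pool.Agent.Y104.Kempf

variable {k : Type u} [Field k] {𝒱 : VarClass k} {ops : CycleOps 𝒱}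
  {W : WeilCohomology.{u, v} ops} {Γ : Type w} [Group Γ] {χ : Γ →* W.Kˣ} {G : Set (GVar W Γ)}

/-- products carry actions -/
theorem exists_prod_act (hG : GaloisClass χ G) {R : Set (GVar W Γ)} (hR : R ⊆ G) {Y : 𝒱.Obj}
    (hY : IsProductOf (GVar.X '' R) Y) : ∃ Z ∈ G, Z.X = Y := by
  induction hY with
  | base h =>
    obtain ⟨Z, hZ, rfl⟩ := h
    exact ⟨Z, hR hZ, rfl⟩
  | prod _ _ ih ih' =>
    obtain ⟨Z, hZ, rfl⟩ := ih
    obtain ⟨Z', hZ', rfl⟩ := ih'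
    obtain ⟨C, hC, hCp⟩ := hG.prod Z hZ Z' hZ'
    obtain ⟨υ, _, _⟩ := hCp
    exact ⟨_, hC, rfl⟩

/-- **The general criterion.** -/
theorem homEqNum_of_gen (hG : GaloisClass χ G) {S R : Set (GVar W Γ)} (hR : R ⊆ G)
    (hS : ∀ X ∈ S, gcl W G {Y | IsProductOf (GVar.X '' R) Y} X.X = ⊤)
    (hRD : ∀ Y, IsProductOf (GVar.X '' R) Y → HomEqNum W Y) {Y : 𝒱.Obj}
    (hY : IsProductOf (GVar.X '' (S ∪ R)) Y) : HomEqNum W Y := by
  have h𝒵 : ∀ Z ∈ {Y | IsProductOf (GVar.X '' R) Y}, ∀ Z' ∈ {Y | IsProductOf (GVar.X '' R) Y},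
      Z.prod Z' ∈ {Y | IsProductOf (GVar.X '' R) Y} := fun Z hZ Z' hZ' => hZ.prod hZ'
  refine homEqNum_of_rad (rad_of_gcl (𝒵 := {Y | IsProductOf (GVar.X '' R) Y}) hG h𝒵
    (fun Z hZ => rad_eq_bot (hRD Z hZ)) (fun Z hZ => exists_prod_act hG hR hZ) ?_)
  induction hY with
  | base h =>
    obtain ⟨X, hX, rfl⟩ := h
    rcases hX with hX | hX
    · exact hS X hX
    · rw [eq_top_iff]
      intro a _
      have h1 := gcl_mult (G := G) (𝒵 := {Y | IsProductOf (GVar.X '' R) Y}) (Y := X.X)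
        (IsProductOf.base ⟨X, hX, rfl⟩) (𝟙 _) a
      rwa [W.map_id] at h1
  | prod _ _ ih ih' => exact gcl_prod h𝒵 ih ih'

/-- **The conjecture D for products.** -/
theorem homEqNum_trans (hG : GaloisClass χ G) {S R : Set (GVar W Γ)} (hSG : S ⊆ G) (hR : R ⊆ G)
    (hS : ∀ X ∈ S, HomEqNum W X.X ∧ SignAlgebraic W X.X ∧ NoStableIsotropic X)
    (hRD : ∀ Y, IsProductOf (GVar.X '' R) Y → HomEqNum W Y) {Y : 𝒱.Obj}
    (hY : IsProductOf (GVar.X '' (S ∪ R)) Y) : HomEqNum W Y :=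
  homEqNum_of_gen hG hR (fun X hX => gcl_base (hSG hX) (hG.galois X (hSG hX)) (hS X hX).1
    (hS X hX).2.1 (hS X hX).2.2) hRD hY

end Pool.Agent.Y104.Geo
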