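import Pool.Agent.Y104.Kmp

/-!
# Sums over the steps of a filtration; the eigenvalues of a similitude
-/

open Finset Module Matrix

set_option linter.unusedSectionVars false

namespace Pool.Agent.Y104.Kempf

theorem exists_gaps {k : ℕ} (ω : Fin k → ℝ) (hm : StrictMono ω) (hpos : ∀ i, 0 < ω i) :
    ∃ c : Fin k → ℝ, (∀ i, 0 < c i) ∧ ∀ m, ∑ i, (if i ≤ m then c i else 0) = ω m := by
  let ωn : ℕ → ℝ := fun i => if h : i < k then ω ⟨i, h⟩ else 0
  have hωn : ∀ i : Fin k, ωn i = ω i := fun i => by simp [ωn]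
  let cn : ℕ → ℝ := fun i => ωn i - if i = 0 then 0 else ωn (i - 1)
  have hsum : ∀ m : ℕ, ∑ i ∈ range (m + 1), cn i = ωn m := by
    intro m
    induction m with
    | zero => simp [cn]
    | succ m ih =>
      rw [Finset.sum_range_succ, ih]
      simp only [cn]
      rw [if_neg (Nat.succ_ne_zero m), Nat.add_sub_cancel]
      ring
  refine ⟨fun i => cn i, fun i => ?_, fun m => ?_⟩
  · simp only [cn]
    by_cases h : (i : ℕ) = 0
    · rw [if_pos h, sub_zero, hωn]
      exact hpos i
    · rw [if_neg h, hωn, sub_pos]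
      have h1 : (i : ℕ) - 1 < k := by omega
      have h2 : ωn ((i : ℕ) - 1) = ω ⟨(i : ℕ) - 1, h1⟩ := by
        simp only [ωn]
        rw [dif_pos h1]
      rw [h2]
      apply hm
      rw [Fin.lt_def]
      change (i : ℕ) - 1 < i
      omega
  · have h1 : ∑ i : Fin k, (if i ≤ m then cn i else 0) =
        ∑ i ∈ range k, (if i ≤ (m : ℕ) then cn i else 0) := by
      rw [← Fin.sum_univ_eq_sum_range (fun i => if i ≤ (m : ℕ) then cn i else 0) k]
      refine Finset.sum_congr rfl fun i _ => ?_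
      simp only [Fin.le_def]
    rw [h1, ← Finset.sum_filter]
    have h2 : (range k).filter (fun i => i ≤ (m : ℕ)) = range ((m : ℕ) + 1) := by
      ext i
      simp only [mem_filter, mem_range]
      have := m.2
      omega
    rw [h2, hsum, hωn]

/-- Summation over the steps of a self-dual filtration. -/
theorem sum_gaps {n : Type*} [Fintype n] {k : ℕ} {ω c : Fin k → ℝ} (hm : StrictMono ω)
    (hpos : ∀ i, 0 < ω i) (hc : ∀ m, ∑ i, (if i ≤ m then c i else 0) = ω m) (w y : n → ℝ)
    (hw : ∀ p, 0 < w p → ∃ i, ω i = w p) (σ : Equiv.Perm n) (hσw : ∀ p, w (σ p) = -w p)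
    (hσy : ∀ p, y (σ p) = -y p) :
    ∑ p, w p * y p = 2 * ∑ i, c i * ∑ p, (if ω i ≤ w p then y p else 0) := by
  have h1 : ∀ p, ∑ i, (if ω i ≤ w p then c i else 0) = max (w p) 0 := by
    intro p
    by_cases hp : 0 < w p
    · obtain ⟨m, hm'⟩ := hw p hp
      rw [max_eq_left hp.le, ← hm']
      refine Eq.trans (Finset.sum_congr rfl fun i _ => ?_) (hc m)
      simp only [hm.le_iff_le]
    · rw [max_eq_right (not_lt.1 hp)]
      refine Finset.sum_eq_zero fun i _ => ?_
      rw [if_neg]
      intro h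
      exact hp ((hpos i).trans_le h)
  have h2 : ∑ i, c i * ∑ p, (if ω i ≤ w p then y p else 0) = ∑ p, max (w p) 0 * y p := by
    simp only [Finset.mul_sum]
    rw [Finset.sum_comm]
    refine Finset.sum_congr rfl fun p _ => ?_
    rw [← h1, Finset.sum_mul]
    refine Finset.sum_congr rfl fun i _ => ?_
    split_ifs <;> ring
  rw [h2]
  have h3 : ∑ p, max (-w p) 0 * y p = -∑ p, max (w p) 0 * y p := by
    rw [← Equiv.sum_comp σ, ← Finset.sum_neg_distrib]
    refine Finset.sum_congr rfl fun p _ => ?_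
    rw [hσw, hσy, neg_neg]
    ring
  have h4 : ∀ p, w p = max (w p) 0 - max (-w p) 0 := by
    intro p
    rcases le_total (w p) 0 with h | h
    · rw [max_eq_right h, max_eq_left (by linarith)]
      ring
    · rw [max_eq_left h, max_eq_right (by linarith)]
      ring
  calc ∑ p, w p * y p = ∑ p, (max (w p) 0 * y p - max (-w p) 0 * y p) := by
        refine Finset.sum_congr rfl fun p _ => ?_
        conv_lhs => rw [h4 p]
        ring
    _ = 2 * ∑ p, max (w p) 0 * y p := by
        rw [Finset.sum_sub_distrib, h3]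
        ring

section

variable {L : Type*} [Field L]

theorem exists_perm_gram {n : Type} [Fintype n] [DecidableEq n] (Q : Matrix n n L) (hQ : IsUnit Q)
    (e : Basis n L (n → L)) : ∃ σ : Equiv.Perm n, ∀ p, e (σ p) ⬝ᵥ (Q *ᵥ e p) ≠ 0 := by
  let M : Matrix n n L := fun p => e p
  have hM : IsUnit M := by
    rw [← Matrix.linearIndependent_rows_iff_isUnit]
    exact e.linearIndependent
  have hdet : (M * Q * Mᵀ).det ≠ 0 := by
    rw [Matrix.det_mul, Matrix.det_mul, Matrix.det_transpose]
    have h1 := ((Matrix.isUnit_iff_isUnit_det M).1 hM).ne_zero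
    have h2 := ((Matrix.isUnit_iff_isUnit_det Q).1 hQ).ne_zero
    exact mul_ne_zero (mul_ne_zero h1 h2) h1
  have hG : ∀ p q, (M * Q * Mᵀ) p q = e p ⬝ᵥ (Q *ᵥ e q) := by
    intro p q
    rw [Matrix.mul_assoc, Matrix.mul_apply]
    simp only [dotProduct, Matrix.mulVec]
    rfl
  rw [Matrix.det_apply] at hdet
  obtain ⟨σ, -, hσ⟩ := Finset.exists_ne_zero_of_sum_ne_zero hdet
  refine ⟨σ, fun p h => hσ ?_⟩
  rw [Finset.prod_eq_zero (mem_univ p) (by rw [hG]; exact h), smul_zero]

/-- A matrix as a multilinear form in two variables. -/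
def bilM {n : Type} [Fintype n] (Q : Matrix n n L) :
    MultilinearMap L (fun _ : Fin 2 => n → L) L where
  toFun u := u 0 ⬝ᵥ (Q *ᵥ u 1)
  map_update_add' := by
    intro _ m i x y
    fin_cases i
    · simp
    · simp [mulVec_add]
  map_update_smul' := by
    intro _ m i x y
    fin_cases i
    · simp
    · simp [mulVec_smul]

theorem bil_eig {n : Type} [Fintype n] [DecidableEq n] {Q g : Matrix n n L} {a : L}
    (h : gᵀ * Q * g = a • Q) {x y : n → L} {α β : L}
    (hx : x ∈ Module.End.maxGenEigenspace g.mulVecLin α)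
    (hy : y ∈ Module.End.maxGenEigenspace g.mulVecLin β) (hxy : x ⬝ᵥ (Q *ᵥ y) ≠ 0) :
    α * β = a := by
  by_contra hc
  apply hxy
  have h1 := mul_eig (V := fun _ : Fin 2 => n → L) (bilM Q) (fun _ => g.mulVecLin) a (by
    intro u
    change (g *ᵥ u 0) ⬝ᵥ (Q *ᵥ (g *ᵥ u 1)) = a * (u 0 ⬝ᵥ (Q *ᵥ u 1))
    rw [mulVec_mulVec, dotProduct_mulVec, vecMul_mulVec, ← dotProduct_mulVec,
      ← Matrix.mul_assoc, h, smul_mulVec, dotProduct_smul, smul_eq_mul]) ![α, β] (by
    rw [Fin.prod_univ_two]
    exact hc) ![x, y] (by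
    intro s
    fin_cases s
    · exact hx
    · exact hy)
  exact h1

theorem eig_ne_zero {V : Type*} [AddCommGroup V] [Module L V] {g : Module.End L V}
    (hg : Function.Injective g) {α : L} {x : V} (hx : x ∈ Module.End.maxGenEigenspace g α)
    (hx0 : x ≠ 0) : α ≠ 0 := by
  rintro rfl
  obtain ⟨k, hk⟩ := (Module.End.mem_maxGenEigenspace g 0 x).1 hx
  rw [zero_smul, sub_zero] at hk
  apply hx0
  have h1 : Function.Injective (g ^ k) := by
    rw [Module.End.coe_pow]
    exact hg.iterate k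
  exact h1 (by rw [hk, map_zero])

end

end Pool.Agent.Y104.Kempf
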