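import Pool.Agent.Y104.Apo

/-!
# Generic block diagonal matrices acting on tensors, and contractions
-/

open MvPolynomial Finset Matrix

set_option linter.unusedSectionVars false

namespace Pool.Agent.Y104.Kempf

variable {ι : Type} [Fintype ι] [DecidableEq ι] (b : ι → Type) [∀ i, Fintype (b i)]
  [∀ i, DecidableEq (b i)] (K : Type*) [Field K]

/-- The polynomials in the entries of matrices. -/
abbrev Ply := MvPolynomial ((Σ j, b j) × (Σ j, b j)) K

/-- The generic matrix of a block. -/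
noncomputable def gm (j : ι) : Matrix (b j) (b j) (Ply b K) :=
  fun p q => X (⟨j, p⟩, ⟨j, q⟩)

/-- The generic block diagonal matrix. -/
noncomputable def GM : Matrix (Σ j, b j) (Σ j, b j) (Ply b K) :=
  fun x y => if x.1 = y.1 then X (x, y) else 0

theorem GM_eq : GM b K = Matrix.blockDiagonal' (gm b K) := by
  ext ⟨i, p⟩ ⟨j, q⟩ : 1
  by_cases h : i = j
  · subst h
    rw [Matrix.blockDiagonal'_apply_eq]
    simp [GM, gm]
  · rw [Matrix.blockDiagonal'_apply_ne _ _ _ h]
    simp [GM, h]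

variable {b K}

/-- The matrix `G B Gᵀ`. -/
noncomputable def GQ (B : Matrix (Σ j, b j) (Σ j, b j) K) :
    Matrix (Σ j, b j) (Σ j, b j) (Ply b K) :=
  GM b K * B.map C * (GM b K)ᵀ

/-- The action of matrices on tensors. -/
def act {R : Type*} [CommRing R] [Algebra K R] (M : Matrix (Σ j, b j) (Σ j, b j) R) {S : Type}
    [Fintype S] [DecidableEq S] (y : (S → Σ j, b j) → K) (J : S → Σ j, b j) : R :=
  ∑ I : S → Σ j, b j, (∏ s, M (J s) (I s)) * algebraMap K R (y I)

/-- All full contractions with the matrix `B` vanish. -/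
def NullT (B : Matrix (Σ j, b j) (Σ j, b j) K) {S : Type} [Fintype S] [DecidableEq S]
    (y : (S → Σ j, b j) → K) : Prop :=
  ∀ (r : ℕ) (e : Fin r × Fin 2 ≃ S), ∑ I, y I * ∏ l, B (I (e (l, 0))) (I (e (l, 1))) = 0

section

variable {S : Type} [Fintype S] [DecidableEq S] {S' : Type} [Fintype S'] [DecidableEq S']

open Classical in
theorem prod_GM (J I : S → Σ j, b j) :
    ∏ s, GM b K (J s) (I s) = if ∀ s, (J s).1 = (I s).1 then ∏ s, X (J s, I s) else 0 := by
  split_ifs with h
  · exact Finset.prod_congr rfl fun s _ => by rw [GM, if_pos (h s)]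
  · push Not at h
    obtain ⟨s, hs⟩ := h
    exact Finset.prod_eq_zero (mem_univ s) (by rw [GM, if_neg hs])

/-- The sum over a finite type does not depend on the enumeration. -/
theorem sum_inst {α M : Type*} [AddCommMonoid M] (i1 i2 : Fintype α) (f : α → M) :
    (@Finset.univ α i1).sum f = (@Finset.univ α i2).sum f := by
  rw [Subsingleton.elim i1 i2]

open Classical in
theorem apo_prod_GM (J I : S → Σ j, b j) (P I' : S' → Σ j, b j) :
    apo (∏ s, GM b K (J s) (I s)) (∏ x, GM b K (P x) (I' x)) =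
      ∑ e : S' ≃ S, if (∀ s, (J s).1 = (I s).1) ∧ (∀ x, J (e x) = P x) ∧ ∀ x, I (e x) = I' x
        then 1 else 0 := by
  rw [prod_GM, prod_GM]
  by_cases h : ∀ s, (J s).1 = (I s).1
  · rw [if_pos h]
    by_cases h' : ∀ x, (P x).1 = (I' x).1
    · rw [if_pos h', apo_prod_X]
      refine (sum_inst _ _ _).trans (Finset.sum_congr rfl fun e _ => ?_)
      by_cases h1 : (∀ x, J (e x) = P x) ∧ ∀ x, I (e x) = I' x
      · rw [if_pos fun x => Prod.ext (h1.1 x) (h1.2 x), if_pos ⟨h, h1⟩]
      · rw [if_neg fun h2 => h1 ⟨fun x => congrArg Prod.fst (h2 x), fun x =>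
          congrArg Prod.snd (h2 x)⟩, if_neg fun h2 => h1 h2.2]
    · rw [if_neg h', map_zero]
      symm
      refine Finset.sum_eq_zero fun e _ => ?_
      rw [if_neg]
      rintro ⟨_, h1, h2⟩
      exact h' fun x => by rw [← h1, ← h2]; exact h _
  · rw [if_neg h, map_zero, LinearMap.zero_apply]
    symm
    refine Finset.sum_eq_zero fun e _ => ?_
    rw [if_neg]
    rintro ⟨h1, _⟩
    exact h h1

/-- pairs of indices -/
def pairEquiv (r : ℕ) (β : Type) : (Fin r → β × β) ≃ (Fin r × Fin 2 → β) where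
  toFun f x := if x.2 = 0 then (f x.1).1 else (f x.1).2
  invFun g l := (g (l, 0), g (l, 1))
  left_inv f := by
    funext l
    simp
  right_inv g := by
    funext ⟨l, i⟩
    fin_cases i <;> simp

theorem GQ_apply (B : Matrix (Σ j, b j) (Σ j, b j) K) (x y : Σ j, b j) :
    GQ B x y =
      ∑ z : (Σ j, b j) × (Σ j, b j), C (B z.1 z.2) * (GM b K x z.1 * GM b K y z.2) := by
  rw [GQ, Matrix.mul_apply, Fintype.sum_prod_type_right]
  refine Finset.sum_congr rfl fun k _ => ?_
  rw [Matrix.mul_apply, Finset.sum_mul]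
  refine Finset.sum_congr rfl fun i _ => ?_
  rw [Matrix.map_apply, Matrix.transpose_apply]
  ring

/-- the product of the entries of `G B Gᵀ` -/
theorem prod_entries (B : Matrix (Σ j, b j) (Σ j, b j) K) (r : ℕ)
    (P : Fin r × Fin 2 → Σ j, b j) :
    ∏ l : Fin r, GQ B (P (l, 0)) (P (l, 1)) =
      ∑ I' : Fin r × Fin 2 → Σ j, b j, C (∏ l, B (I' (l, 0)) (I' (l, 1))) *
        ∏ x, GM b K (P x) (I' x) := by
  simp only [GQ_apply]
  rw [Finset.prod_univ_sum, Fintype.piFinset_univ]
  refine Fintype.sum_equiv (pairEquiv r _) _ _ fun f => ?_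
  rw [Finset.prod_mul_distrib, map_prod, Fintype.prod_prod_type]
  congr 1
  refine Finset.prod_congr rfl fun l _ => ?_
  rw [Fin.prod_univ_two]
  rfl

/-- **The action on a tensor all of whose full contractions vanish is orthogonal to the products
of the entries of `G B Gᵀ`.** -/
theorem apo_act {B : Matrix (Σ j, b j) (Σ j, b j) K} {y : (S → Σ j, b j) → K}
    (hy : NullT B y) {c : S → ι} (hc : ∀ I, y I ≠ 0 → ∀ s, (I s).1 = c s) (J : S → Σ j, b j)
    (r : ℕ) (P : Fin r × Fin 2 → Σ j, b j) :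
    apo (act (GM b K) y J) (∏ l : Fin r, GQ B (P (l, 0)) (P (l, 1))) = 0 := by
  classical
  rw [prod_entries, map_sum]
  have h1 : ∀ I' : Fin r × Fin 2 → Σ j, b j,
      apo (act (GM b K) y J) (C (∏ l, B (I' (l, 0)) (I' (l, 1))) * ∏ x, GM b K (P x) (I' x)) =
      ∑ e : Fin r × Fin 2 ≃ S, ∑ I : S → Σ j, b j,
        if (∀ s, (J s).1 = (I s).1) ∧ (∀ x, J (e x) = P x) ∧ ∀ x, I (e x) = I' x
          then y I * ∏ l, B (I (e (l, 0))) (I (e (l, 1))) else 0 := by
    intro I'
    rw [apo_C_mul_right, act, map_sum, LinearMap.sum_apply, Finset.mul_sum, Finset.sum_comm]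
    refine Finset.sum_congr rfl fun I _ => ?_
    rw [mul_comm (∏ s, GM b K (J s) (I s)), algebraMap_eq, apo_C_mul, apo_prod_GM,
      Finset.mul_sum, Finset.mul_sum]
    refine (sum_inst _ _ _).trans (Finset.sum_congr rfl fun e _ => ?_)
    by_cases h : (∀ s, (J s).1 = (I s).1) ∧ (∀ x, J (e x) = P x) ∧ ∀ x, I (e x) = I' x
    · rw [if_pos h, if_pos h, mul_one, mul_comm]
      congr 1
      refine Finset.prod_congr rfl fun l _ => ?_
      rw [h.2.2, h.2.2]
    · rw [if_neg h, if_neg h, mul_zero, mul_zero]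
  rw [Finset.sum_congr rfl fun I' _ => h1 I', Finset.sum_comm]
  refine Finset.sum_eq_zero fun e _ => ?_
  rw [Finset.sum_comm]
  have h2 : ∀ I : S → Σ j, b j, ∑ I' : Fin r × Fin 2 → Σ j, b j,
      (if (∀ s, (J s).1 = (I s).1) ∧ (∀ x, J (e x) = P x) ∧ ∀ x, I (e x) = I' x
          then y I * ∏ l, B (I (e (l, 0))) (I (e (l, 1))) else 0) =
      if (∀ s, (J s).1 = (I s).1) ∧ (∀ x, J (e x) = P x)
        then y I * ∏ l, B (I (e (l, 0))) (I (e (l, 1))) else 0 := by
    intro I
    rw [Finset.sum_eq_single (fun x => I (e x))]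
    · simp
    · intro I' _ hI'
      rw [if_neg]
      rintro ⟨_, _, h⟩
      exact hI' (funext fun x => (h x).symm)
    · intro h
      exact absurd (mem_univ _) h
  rw [Finset.sum_congr rfl fun I _ => h2 I]
  by_cases hP : ∀ x, J (e x) = P x
  · by_cases hJ : ∀ s, (J s).1 = c s
    · refine Eq.trans ?_ (hy r e)
      refine Finset.sum_congr rfl fun I _ => ?_
      by_cases hI : y I = 0
      · rw [hI, zero_mul]
        split_ifs <;> rfl
      · rw [if_pos ⟨fun s => by rw [hJ, hc I hI], hP⟩]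
    · refine Finset.sum_eq_zero fun I _ => ?_
      by_cases hI : y I = 0
      · rw [hI, zero_mul]
        split_ifs <;> rfl
      · rw [if_neg]
        rintro ⟨h, _⟩
        exact hJ fun s => by rw [h, hc I hI]
  · refine Finset.sum_eq_zero fun I _ => ?_
    rw [if_neg]
    rintro ⟨_, h⟩
    exact hP h

end

end Pool.Agent.Y104.Kempf
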