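import Pool.Agent.Y154.Trf

/-!
# The trace form of an algebra of operators on a semisimple space
-/

set_option autoImplicit false

open Matrix

namespace Pool.Agent.Y104.Kempf

open Pool.Agent.Y154.Trf

/-- If every subspace stable under the group and the algebra has a complement stable under the
algebra, the trace form of the algebra is not degenerate. -/
theorem trace_nondeg_ss {K : Type*} [Field K] [CharZero K] {n : Type*} [Fintype n]
    [DecidableEq n] (E : Subalgebra K (Matrix n n K)) (G : Set (Matrix n n K))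
    (hG : ∀ g ∈ G, IsUnit g)
    (hGE : ∀ g ∈ G, ∀ e ∈ E, g * e * g⁻¹ ∈ E ∧ g⁻¹ * e * g ∈ E)
    (hss : ∀ W : Submodule K (n → K), (∀ g ∈ G, ∀ x ∈ W, g *ᵥ x ∈ W) →
      (∀ e ∈ E, ∀ x ∈ W, e *ᵥ x ∈ W) → ∃ W' : Submodule K (n → K),
        (∀ e ∈ E, ∀ x ∈ W', e *ᵥ x ∈ W') ∧ W ⊓ W' = ⊥ ∧ W ⊔ W' = ⊤) :
    ∀ x ∈ E, (∀ y ∈ E, (x * y).trace = 0) → x = 0 := by
  let J : Submodule K (Matrix n n K) :=
    { carrier := {x | x ∈ E ∧ ∀ y ∈ E, (x * y).trace = 0}
      add_mem' := fun {a b} ha hb => ⟨E.add_mem ha.1 hb.1, fun y hy => by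
        rw [add_mul, trace_add, ha.2 y hy, hb.2 y hy, add_zero]⟩
      zero_mem' := ⟨E.zero_mem, fun y _ => by rw [zero_mul, trace_zero]⟩
      smul_mem' := fun c x hx => ⟨E.smul_mem hx.1 c, fun y hy => by
        rw [smul_mul_assoc, trace_smul, hx.2 y hy, smul_zero]⟩ }
  have hJE : ∀ x ∈ J, x ∈ E := fun x hx => hx.1
  have hJl : ∀ e ∈ E, ∀ x ∈ J, e * x ∈ J := by
    intro e he x hx
    refine ⟨E.mul_mem he hx.1, fun y hy => ?_⟩
    rw [Matrix.mul_assoc, Matrix.trace_mul_comm, Matrix.mul_assoc]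
    exact hx.2 _ (E.mul_mem hy he)
  have hJn : ∀ x ∈ J, IsNilpotent x := fun x hx => nilpotent_of_trace E x hx.1 hx.2
  have hJG : ∀ g ∈ G, ∀ x ∈ J, g * x * g⁻¹ ∈ J := by
    intro g hg x hx
    refine ⟨(hGE g hg x hx.1).1, fun y hy => ?_⟩
    have h1 : (g * x * g⁻¹ * y).trace = (x * (g⁻¹ * y * g)).trace := by
      rw [Matrix.mul_assoc, Matrix.mul_assoc, Matrix.trace_mul_comm]
      simp only [Matrix.mul_assoc]
    rw [h1]
    exact hx.2 _ (hGE g hg y hy).2
  obtain ⟨k, hk⟩ := exists_length E J hJE hJl hJn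
  -- the images of the products of `j` elements
  let S : ℕ → Set (n → K) := fun j => {w | ∃ (l : List (Matrix n n K)) (v : n → K),
    (∀ x ∈ l, x ∈ J) ∧ l.length = j ∧ w = l.prod *ᵥ v}
  have hSE : ∀ e ∈ E, ∀ x ∈ Submodule.span K (S 1), e *ᵥ x ∈ Submodule.span K (S 1) := by
    intro e he x hx
    induction hx using Submodule.span_induction with
    | mem w hw =>
      obtain ⟨l, v, hl, hlen, rfl⟩ := hw
      obtain ⟨a, rfl⟩ := List.length_eq_one_iff.1 hlen
      apply Submodule.subset_span
      refine ⟨[e * a], v, ?_, rfl, ?_⟩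
      · intro x hx
        rw [List.mem_singleton] at hx
        rw [hx]
        exact hJl e he a (hl a (List.mem_singleton.2 rfl))
      · rw [List.prod_singleton, List.prod_singleton, Matrix.mulVec_mulVec]
    | zero => rw [Matrix.mulVec_zero]; exact Submodule.zero_mem _
    | add a b _ _ ha hb => rw [Matrix.mulVec_add]; exact Submodule.add_mem _ ha hb
    | smul c a _ ha => rw [Matrix.mulVec_smul]; exact Submodule.smul_mem _ _ ha
  have hSG : ∀ g ∈ G, ∀ x ∈ Submodule.span K (S 1), g *ᵥ x ∈ Submodule.span K (S 1) := by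
    intro g hg x hx
    induction hx using Submodule.span_induction with
    | mem w hw =>
      obtain ⟨l, v, hl, hlen, rfl⟩ := hw
      obtain ⟨a, rfl⟩ := List.length_eq_one_iff.1 hlen
      apply Submodule.subset_span
      have hgd : IsUnit g.det := (Matrix.isUnit_iff_isUnit_det g).1 (hG g hg)
      refine ⟨[g * a * g⁻¹], g *ᵥ v, ?_, rfl, ?_⟩
      · intro x hx
        rw [List.mem_singleton] at hx
        rw [hx]
        exact hJG g hg a (hl a (List.mem_singleton.2 rfl))
      · rw [List.prod_singleton, List.prod_singleton, Matrix.mulVec_mulVec, Matrix.mulVec_mulVec,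
          Matrix.mul_assoc, Matrix.nonsing_inv_mul g hgd, Matrix.mul_one]
    | zero => rw [Matrix.mulVec_zero]; exact Submodule.zero_mem _
    | add a b _ _ ha hb => rw [Matrix.mulVec_add]; exact Submodule.add_mem _ ha hb
    | smul c a _ ha => rw [Matrix.mulVec_smul]; exact Submodule.smul_mem _ _ ha
  obtain ⟨W', hW'E, hinf, hsup⟩ := hss _ hSG hSE
  have hstep : ∀ x ∈ J, ∀ v : n → K, ∃ w ∈ Submodule.span K (S 1), x *ᵥ v = x *ᵥ w := by
    intro x hx v
    obtain ⟨w, hw, w', hw', hv⟩ := Submodule.mem_sup.1 (hsup ▸ Submodule.mem_top : v ∈ _)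
    refine ⟨w, hw, ?_⟩
    have h1 : x *ᵥ w' ∈ Submodule.span K (S 1) ⊓ W' := by
      refine ⟨Submodule.subset_span ⟨[x], w', ?_, rfl, ?_⟩, hW'E x (hJE x hx) w' hw'⟩
      · intro y hy
        rw [List.mem_singleton] at hy
        rw [hy]
        exact hx
      · rw [List.prod_singleton]
    rw [hinf, Submodule.mem_bot] at h1
    rw [← hv, Matrix.mulVec_add, h1, add_zero]
  have hall : ∀ j, Submodule.span K (S 1) ≤ Submodule.span K (S (j + 1)) := by
    intro j
    induction j with
    | zero => exact le_rfl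
    | succ j ih =>
      rw [Submodule.span_le]
      rintro _ ⟨l, v, hl, hlen, rfl⟩
      obtain ⟨a, rfl⟩ := List.length_eq_one_iff.1 hlen
      have ha : a ∈ J := hl a (List.mem_singleton.2 rfl)
      rw [List.prod_singleton]
      obtain ⟨w, hw, h1⟩ := hstep a ha v
      rw [h1]
      have h2 := ih hw
      clear h1 hw
      change a *ᵥ w ∈ Submodule.span K (S (j + 1 + 1))
      induction h2 using Submodule.span_induction with
      | mem w hw =>
        obtain ⟨l, v, hl', hlen', rfl⟩ := hw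
        apply Submodule.subset_span
        refine ⟨a :: l, v, ?_, by rw [List.length_cons, hlen'], ?_⟩
        · intro x hx
          rcases List.mem_cons.1 hx with rfl | hx
          · exact ha
          · exact hl' x hx
        · rw [List.prod_cons, Matrix.mulVec_mulVec]
      | zero => rw [Matrix.mulVec_zero]; exact Submodule.zero_mem _
      | add a b _ _ ha hb => rw [Matrix.mulVec_add]; exact Submodule.add_mem _ ha hb
      | smul c a _ ha => rw [Matrix.mulVec_smul]; exact Submodule.smul_mem _ _ ha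
  have hbot : Submodule.span K (S 1) = ⊥ := by
    rw [eq_bot_iff]
    refine (hall k).trans ?_
    rw [Submodule.span_le]
    rintro _ ⟨l, v, hl, hlen, rfl⟩
    rw [hk l hl (by omega), Matrix.zero_mulVec]
    exact Submodule.zero_mem _
  intro x hx hx0
  have hxJ : x ∈ J := ⟨hx, hx0⟩
  ext i j
  have h1 : x *ᵥ (Pi.single j 1) ∈ Submodule.span K (S 1) := by
    refine Submodule.subset_span ⟨[x], Pi.single j 1, ?_, rfl, ?_⟩
    · intro y hy
      rw [List.mem_singleton] at hy
      rw [hy]
      exact hxJ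
    · rw [List.prod_singleton]
  rw [hbot, Submodule.mem_bot] at h1
  have h2 := congrFun h1 i
  rw [Matrix.mulVec_single_one] at h2
  simpa using h2

end Pool.Agent.Y104.Kempf
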