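import Pool.Agent.Y104.Det2
import Pool.Agent.Y104.Sst
import Pool.Agent.Y104.AbD

/-!
# Good pieces from semisimplicity
-/

open CategoryTheory AlgebraicGeometry
open scoped Matrix

set_option linter.unusedSectionVars false

universe u v w

namespace Pool.Agent.Y104.Geo

open Pool.Agent.H914 Pool.Agent.H914.VarClass Pool.Agent.H914.VarClass.Obj
  Pool.Agent.H914.WeilCohomology Pool.Agent.H281R3.HT Pool.Agent.TH125.Gal
  Pool.Agent.Y104.Kempf

variable {k : Type u} [Field k] {𝒱 : VarClass k} {ops : CycleOps 𝒱}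
  {W : WeilCohomology.{u, v} ops}

/-- The even and the odd part of the transcendental cohomology are pieces. -/
theorem exists_tpiece {X : 𝒱.Obj} (hDX : HomEqNum W X) (hs : SignAlgebraic W X) (e : ℕ) :
    ∃ P : Piece W X, P.θ = 1 ∧
      Submodule.span W.K (Set.range P.x) = transcendental W X ⊓ hpar W X e := by
  obtain ⟨c₀, hc₀, h1, h2, h3⟩ := exists_tproj hDX
  obtain ⟨cs, hcs, h4⟩ := hs.exists_par
  obtain ⟨c', hc', h5⟩ := corr_comp_span hc₀ hcs
  have h6 : ∀ a, W.corr c' a = par (W.isInternal X) (W.corr c₀ a) := by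
    intro a
    rw [h5, LinearMap.comp_apply, h4 _ (h1 a)]
  have h2' : (2 : W.K) ≠ 0 := two_ne_zero
  set c : W.H (X.prod X) := (2 : W.K)⁻¹ • (c₀ + (-1 : W.K) ^ e • c') with hcdef
  have hc : c ∈ algSpan W (X.prod X) := Submodule.smul_mem _ _
    (Submodule.add_mem _ hc₀ (Submodule.smul_mem _ _ hc'))
  have hcorr : ∀ a, W.corr c a = (2 : W.K)⁻¹ • (W.corr c₀ a + (-1 : W.K) ^ e •
      par (W.isInternal X) (W.corr c₀ a)) := by
    intro a
    rw [hcdef, W.corr_smul, W.corr_add, W.corr_smul, LinearMap.smul_apply, LinearMap.add_apply,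
      LinearMap.smul_apply, h6]
  have hpt : ∀ t ∈ transcendental W X, par (W.isInternal X) t ∈ transcendental W X := by
    intro t ht
    rw [← h4 t ht]
    exact corr_trans hcs ht
  have hmem : ∀ a, W.corr c a ∈ transcendental W X ⊓ hpar W X e := by
    intro a
    rw [hcorr]
    exact ⟨Submodule.smul_mem _ _ (Submodule.add_mem _ (h1 a) (Submodule.smul_mem _ _
      (hpt _ (h1 a)))), Submodule.smul_mem _ _ (add_par e _)⟩
  have hsq : (-1 : W.K) ^ e * (-1 : W.K) ^ e = 1 := by
    rw [← pow_add, ← two_mul, pow_mul]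
    simp
  have hcp : ∀ a, ∀ u ∈ transcendental W X ⊓ hpar W X e,
      W.tr X (W.corr c a * u) = W.tr X (a * u) := by
    intro a u hu
    have h7 : W.tr X (W.corr c₀ a * u) = W.tr X (a * u) := by
      have h8 := alg_trans hu.1 (h3 a)
      rw [bil_apply, sub_mul, map_sub, sub_eq_zero] at h8
      exact h8.symm
    have h9 : ∀ b, W.tr X ((-1 : W.K) ^ e • par (W.isInternal X) b * u) =
        W.tr X (b * u) := by
      intro b
      refine hpar_induction (p := fun b => W.tr X ((-1 : W.K) ^ e •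
        par (W.isInternal X) b * u) = W.tr X (b * u)) ?_ ?_ b
      · intro f _ b hb
        rw [par_hpar hb, smul_smul]
        by_cases hf : (f + e) % 2 = 0
        · have h10 : (-1 : W.K) ^ f = (-1) ^ e := sgn_congr (by omega)
          rw [h10, hsq, one_smul]
        · rw [smul_mul_assoc, map_smul, tr_par_zero hb hu.2 hf, smul_zero]
      · intro b b' hb hb'
        rw [map_add, smul_add, add_mul, add_mul, map_add, map_add, hb, hb']
    rw [hcorr, smul_mul_assoc, add_mul, map_smul, map_add, h9, h7, ← two_mul, smul_eq_mul,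
      inv_mul_cancel_left₀ h2']
  have hnd : ∀ u ∈ transcendental W X ⊓ hpar W X e,
      (∀ v ∈ transcendental W X ⊓ hpar W X e, W.tr X (u * v) = 0) → u = 0 := by
    intro u hu h7
    apply W.nondeg
    intro b
    refine hpar_induction (p := fun b => W.tr X (u * b) = 0) ?_ ?_ b
    · intro f _ b hb
      by_cases hf : (e + f) % 2 = 0
      · have hb' : b ∈ hpar W X e := by
          rw [← hpar_congr (show f % 2 = e % 2 by omega)]
          exact hb
        rw [hpar_comm e e u hu.2 b hb', map_smul, ← hcp b u hu,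
          hpar_comm e e _ (hmem b).2 u hu.2, map_smul, h7 _ (hmem b), smul_zero, smul_zero]
      · exact tr_par_zero hu.2 hb hf
    · intro b b' hb hb'
      rw [mul_add, map_add, hb, hb', add_zero]
  obtain ⟨P, hPe, hPθ, hPs⟩ := exists_piece (U := transcendental W X ⊓ hpar W X e)
    inf_le_right hnd hc hmem hcp
  exact ⟨P, hPθ, hPs⟩

variable {Γ : Type w} [Group Γ] {χ : Γ →* W.Kˣ} {G : Set (GVar W Γ)}

section

variable {X : GVar W Γ} {P : Piece W X.X}

/-- **The trace form is nondegenerate.** -/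
theorem nd_of_ss (hG : GaloisClass χ G) (hX : X ∈ G)
    (hst : ∀ γ q, X.act γ (P.x q) ∈ Submodule.span W.K (Set.range P.x))
    (hss : SemisimpleIn (Submodule.span W.K (Set.range P.x)) X.act (AlgCorr W X.X)) :
    ∀ e ∈ P.Ealg, (∀ e' ∈ P.Ealg, (e * e').trace = 0) → e = 0 := by
  classical
  have hgm : ∀ γ : Γ, ∃ g : Matrix P.J P.J W.K, ∀ q, X.act γ (P.x q) = ∑ p, g p q • P.x p := by
    intro γ
    choose a ha using fun q => exists_coef (hst γ q)
    exact ⟨fun p q => a q p, ha⟩
  let Gm : Set (Matrix P.J P.J W.K) := {g | ∃ γ, ∀ q, X.act γ (P.x q) = ∑ p, g p q • P.x p}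
  have hinv : ∀ g ∈ Gm, ∃ γ : Γ, ∃ g' : Matrix P.J P.J W.K,
      (∀ q, X.act γ (P.x q) = ∑ p, g p q • P.x p) ∧
      (∀ q, X.act γ⁻¹ (P.x q) = ∑ p, g' p q • P.x p) ∧ g * g' = 1 ∧ g⁻¹ = g' := by
    rintro g ⟨γ, hγ⟩
    obtain ⟨g', hg'⟩ := hgm γ⁻¹
    exact ⟨γ, g', hγ, hg', gmat_inv hγ hg', Matrix.inv_eq_right_inv (gmat_inv hγ hg')⟩
  have hlc : ∀ (a : P.J → W.K), Fintype.linearCombination W.K P.x a =
      ∑ p, a p • P.x p := fun a => Fintype.linearCombination_apply _ _ _
  have hinj : Function.Injective (Fintype.linearCombination W.K P.x) := by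
    intro a b hab
    rw [hlc, hlc] at hab
    exact P.sum_inj hab
  refine trace_nondeg_ss P.Ealg Gm ?_ ?_ ?_
  · intro g hg
    obtain ⟨γ, g', -, -, h3, -⟩ := hinv g hg
    exact IsUnit.of_mul_eq_one _ h3
  · intro g hg e he
    obtain ⟨γ, g', h1, h2, h3, h4⟩ := hinv g hg
    rw [h4]
    refine ⟨conj_mem hG hX h1 h2 he, conj_mem hG hX (γ := γ⁻¹) h2 ?_ he⟩
    rw [inv_inv]
    exact h1
  · intro V hVG hVE
    have h0 := hss (V.map (Fintype.linearCombination W.K P.x)) ?_ ?_ ?_
    · obtain ⟨V', hV'le, hV'E, hinf, hsup⟩ := h0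
      refine ⟨V'.comap (Fintype.linearCombination W.K P.x), ?_, ?_, ?_⟩
      · intro e he a ha
        obtain ⟨c, hc, hce⟩ := he
        rw [Submodule.mem_comap, hlc] at ha ⊢
        have h1 := lin_sum (φ := W.corr c) hce a
        rw [← h1]
        refine hV'E (W.corr c) ⟨c, hc, rfl⟩ ?_ _ ha
        intro u hu
        obtain ⟨b, rfl⟩ := exists_coef hu
        rw [lin_sum hce b]
        exact sum_mem_span _
      · rw [eq_bot_iff]
        rintro a ⟨ha, ha'⟩
        have h1 : Fintype.linearCombination W.K P.x a ∈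
            V.map (Fintype.linearCombination W.K P.x) ⊓ V' := ⟨⟨a, ha, rfl⟩, ha'⟩
        rw [hinf, Submodule.mem_bot] at h1
        rw [Submodule.mem_bot]
        exact hinj (by rw [h1, map_zero])
      · rw [eq_top_iff]
        intro a _
        have h1 : Fintype.linearCombination W.K P.x a ∈
            V.map (Fintype.linearCombination W.K P.x) ⊔ V' := by
          rw [hsup, hlc]
          exact sum_mem_span a
        obtain ⟨_, ⟨b, hb, rfl⟩, v, hv, h2⟩ := Submodule.mem_sup.1 h1
        obtain ⟨b', hb'⟩ := exists_coef (hV'le hv)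
        have h3 : a = b + b' := by
          apply hinj
          rw [map_add, ← h2, hlc b', ← hb']
        rw [h3]
        refine Submodule.add_mem_sup hb ?_
        rw [Submodule.mem_comap, hlc, ← hb']
        exact hv
    · rintro _ ⟨a, _, rfl⟩
      rw [hlc]
      exact sum_mem_span a
    · rintro γ _ ⟨a, ha, rfl⟩
      obtain ⟨g, hg⟩ := hgm γ
      refine ⟨g *ᵥ a, hVG g ⟨γ, hg⟩ a ha, ?_⟩
      rw [hlc, hlc]
      exact (lin_sum (φ := (X.act γ).toLinearMap) hg a).symm
    · rintro _ ⟨d, hd, rfl⟩ hds _ ⟨a, ha, rfl⟩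
      choose m hm using fun q => exists_coef (P := P) (hds _
        (Submodule.subset_span ⟨q, rfl⟩))
      refine ⟨(fun p q => m q p : Matrix P.J P.J W.K) *ᵥ a, hVE _ ⟨d, hd, hm⟩ a ha, ?_⟩
      rw [hlc, hlc]
      exact (lin_sum (φ := W.corr d) hm a).symm

/-- Good pieces for the extended group. -/
theorem goodP_gext (hG : GaloisClass χ G) (hX : X ∈ G) (h : Grd X)
    (hst : ∀ γ, ∀ a ∈ Submodule.span W.K (Set.range P.x),
      X.act γ a ∈ Submodule.span W.K (Set.range P.x))
    (htw : ∀ t : W.K, ∀ a ∈ Submodule.span W.K (Set.range P.x),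
      tw W X.X t a ∈ Submodule.span W.K (Set.range P.x)) (l : ℕ)
    (hθ : ∀ (γ : Γ) (t : W.K), X.act γ (tw W X.X t P.θ) = ((χ γ : W.K) * t ^ 2) ^ l • P.θ)
    (hss : SemisimpleIn (Submodule.span W.K (Set.range P.x)) X.act (AlgCorr W X.X)) :
    GoodP (χext χ) (gext X h) P where
  stable := fun g q => hst g.1 _ (htw _ _ (Submodule.subset_span ⟨q, rfl⟩))
  semi := fun g => ⟨(χext χ g : W.K) ^ l, pow_ne_zero _ (Units.ne_zero _), by
    rw [χext_apply, Units.val_mul, Units.val_pow_eq_pow_val]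
    exact hθ g.1 g.2⟩
  fix := fun g hg => by
    have h1 := hθ g.1 g.2
    have h2 : (χ g.1 : W.K) * (g.2 : W.K) ^ 2 = 1 := by
      rw [← Units.val_pow_eq_pow_val, ← Units.val_mul, ← χext_apply, hg, Units.val_one]
    rw [h2, one_pow, one_smul] at h1
    exact h1
  nd := nd_of_ss hG hX (fun γ q => hst γ _ (Submodule.subset_span ⟨q, rfl⟩)) hss

end

section

variable {X : GVar W Γ}

theorem tw_hpar {X : 𝒱.Obj} {e : ℕ} {a : W.H X} (t : W.K) (ha : a ∈ hpar W X e) :
    tw W X t a ∈ hpar W X e := by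
  induction ha using Submodule.span_induction with
  | mem a ha =>
    obtain ⟨i, hi, ha⟩ := ha
    exact hpar_of hi (tw_gr ha)
  | zero => rw [map_zero]; exact Submodule.zero_mem _
  | add x y _ _ hx hy => rw [map_add]; exact Submodule.add_mem _ hx hy
  | smul q x _ hx => rw [map_smul]; exact Submodule.smul_mem _ _ hx

theorem tw_alg {X : 𝒱.Obj} (t : W.K) {c : W.H X} (hc : c ∈ algSpan W X) :
    tw W X t c ∈ algSpan W X := by
  refine algSpan_ind (p := fun c => tw W X t c ∈ algSpan W X) ?_ ?_ ?_ ?_ hc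
  · intro j c hc
    rw [tw_apply (alg_gr hc)]
    exact Submodule.smul_mem _ _ (alg_mem hc)
  · rw [map_zero]; exact Submodule.zero_mem _
  · intro a b ha hb
    rw [map_add]; exact Submodule.add_mem _ ha hb
  · intro q a ha
    rw [map_smul]; exact Submodule.smul_mem _ _ ha

theorem tw_trans {X : 𝒱.Obj} (t : W.K) {a : W.H X} (ha : a ∈ transcendental W X) :
    tw W X t a ∈ transcendental W X := by
  by_cases ht : t = 0
  · subst ht
    -- degree zero is algebraic
    have h1 : tw W X 0 a = proj (W.isInternal X) 0 a := by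
      refine gr_induction (W.isInternal X)
        (p := fun a => tw W X 0 a = proj (W.isInternal X) 0 a) ?_ ?_ a
      · intro i a ha
        rw [tw_apply ha]
        by_cases hi : i = 0
        · subst hi
          rw [pow_zero, one_smul, proj_same _ ha]
        · rw [zero_pow hi, zero_smul, proj_ne _ ha hi]
      · intro a b ha hb
        rw [map_add, map_add, ha, hb]
    rw [h1]
    exact proj_trans 0 ha
  · rw [mem_trans']
    intro c hc
    have h1 : c = tw W X t (tw W X t⁻¹ c) := by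
      rw [tw_tw, mul_inv_cancel₀ ht, tw_one]
    rw [bil_apply, h1, ← tw_mul, tr_tw, ← bil_apply, trans_alg ha (tw_alg _ hc), mul_zero]

/-- **The even and the odd part of the transcendental cohomology are good pieces.** -/
theorem exists_goodT (hG : GaloisClass χ G) (hX : X ∈ G) (h : Grd X) (hDX : HomEqNum W X.X)
    (hs : SignAlgebraic W X.X)
    (hss : SemisimpleIn (transcendental W X.X) X.act (AlgCorr W X.X)) (e : ℕ) :
    ∃ P : Piece W X.X, GoodP (χext χ) (gext X h) P ∧ P.θ = 1 ∧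
      Submodule.span W.K (Set.range P.x) = transcendental W X.X ⊓ hpar W X.X e := by
  obtain ⟨P, hPθ, hPs⟩ := exists_tpiece hDX hs e
  have hXg := hG.galois X hX
  refine ⟨P, goodP_gext hG hX h ?_ ?_ 0 ?_ ?_, hPθ, hPs⟩
  · rw [hPs]
    exact fun γ a ha => ⟨act_trans' hXg γ ha.1, act_hpar hXg γ ha.2⟩
  · rw [hPs]
    exact fun t a ha => ⟨tw_trans t ha.1, tw_hpar t ha.2⟩
  · intro γ t
    rw [hPθ, tw_apply (W.one_mem X.X), pow_zero, one_smul, map_one, pow_zero, one_smul]
  · rw [hPs]
    intro V hV hVΓ hVE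
    have hpres : ∀ e' ∈ AlgCorr W X.X, ∀ a ∈ transcendental W X.X ⊓ hpar W X.X e,
        e' a ∈ transcendental W X.X ⊓ hpar W X.X e := by
      rintro _ ⟨c, hc, rfl⟩ a ha
      exact ⟨corr_trans hc ha.1, corr_hpar hc ha.2⟩
    obtain ⟨V', hV'le, hV'E, hinf, hsup⟩ := hss V (hV.trans inf_le_left) hVΓ
      (fun e' he' _ v hv => hVE e' he' (hpres e' he') v hv)
    refine ⟨V' ⊓ hpar W X.X e, inf_le_inf_right _ hV'le, ?_, ?_, ?_⟩
    · rintro _ ⟨c, hc, rfl⟩ _ a ha
      refine ⟨hV'E _ ⟨c, hc, rfl⟩ ?_ a ha.1, corr_hpar hc ha.2⟩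
      exact fun a ha => corr_trans hc ha
    · rw [eq_bot_iff, ← hinf, ← inf_assoc]
      exact inf_le_left
    · apply le_antisymm
      · exact sup_le hV (inf_le_inf_right _ hV'le)
      · rintro a ⟨ha1, ha2⟩
        rw [← hsup] at ha1
        obtain ⟨v, hv, v', hv', rfl⟩ := Submodule.mem_sup.1 ha1
        refine Submodule.add_mem_sup hv ⟨hv', ?_⟩
        have h1 := Submodule.sub_mem _ ha2 (hV hv).2
        rwa [add_sub_cancel_left] at h1

end

end Pool.Agent.Y104.Geo
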