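import Pool.Agent.Y104.Hn

/-!
# The action of the Galois group on the tensors
-/

open CategoryTheory AlgebraicGeometry
open scoped Matrix

set_option linter.unusedSectionVars false

universe u v w

namespace Pool.Agent.Y104.Geo

open Pool.Agent.H914 Pool.Agent.H914.VarClass Pool.Agent.H914.VarClass.Obj
  Pool.Agent.H914.WeilCohomology Pool.Agent.H281R3.HT Pool.Agent.TH125.Gal
  Pool.Agent.Y104.Kempf

variable {k : Type u} [Field k] {𝒱 : VarClass k} {ops : CycleOps 𝒱}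
  {W : WeilCohomology.{u, v} ops} {Γ : Type w} [Group Γ] {χ : Γ →* W.Kˣ} {G : Set (GVar W Γ)}

theorem equi_comp {A B C : GVar W Γ} {f : A.X ⟶ B.X} {g : B.X ⟶ C.X} (hf : Equivariant f)
    (hg : Equivariant g) : Equivariant (A := A) (B := C) (f ≫ g) := by
  intro γ a
  rw [W.map_comp, W.map_comp, hf γ, hg γ]

/-- The universal product with an action. -/
theorem exists_univ (hG : GaloisClass χ G) (n : ℕ) : ∀ (X : Fin n → GVar W Γ),
    (∀ s, X s ∈ G) → ∀ Z : GVar W Γ, Z ∈ G →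
    ∃ C ∈ G, ∃ (pr : ∀ s, C.X ⟶ (X s).X) (qz : C.X ⟶ Z.X),
      (∀ s, Equivariant (A := C) (B := X s) (pr s)) ∧ Equivariant (A := C) (B := Z) qz ∧
      ∀ (Y : 𝒱.Obj) (p : ∀ s, Y ⟶ (X s).X) (q : Y ⟶ Z.X), ∃ f : Y ⟶ C.X,
        (∀ s, f ≫ pr s = p s) ∧ f ≫ qz = q := by
  induction n with
  | zero =>
    intro X _ Z hZ
    refine ⟨Z, hZ, fun s => s.elim0, 𝟙 _, fun s => s.elim0, fun γ a => ?_, fun Y p q =>
      ⟨q, fun s => s.elim0, Category.comp_id q⟩⟩
    rw [W.map_id, W.map_id]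
  | succ n ih =>
    intro X hX Z hZ
    obtain ⟨C, hC, pr, qz, hpr, hqz, hun⟩ := ih (fun s => X s.succ) (fun s => hX _) Z hZ
    obtain ⟨D, hD, hDp⟩ := hG.prod (X 0) (hX 0) C hC
    obtain ⟨υ, h1, h2⟩ := hDp
    refine ⟨_, hD, Fin.cases (motive := fun s => ((X 0).X.prod C.X ⟶ (X s).X))
      (fst (X 0).X C.X) (fun s => snd (X 0).X C.X ≫ pr s), snd (X 0).X C.X ≫ qz, ?_, ?_, ?_⟩
    · intro s
      refine Fin.cases ?_ (fun s => ?_) s
      · exact h1
      · exact equi_comp (A := ⟨(X 0).X.prod C.X, υ⟩) (B := C) (C := X s.succ) h2 (hpr s)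
    · exact equi_comp (A := ⟨(X 0).X.prod C.X, υ⟩) (B := C) (C := Z) h2 hqz
    · intro Y p q
      obtain ⟨f, hf, hfq⟩ := hun Y (fun s => p s.succ) q
      refine ⟨Obj.lift (p 0) f, fun s => ?_, ?_⟩
      · refine Fin.cases ?_ (fun s => ?_) s
        · exact Obj.lift_fst _ _
        · change Obj.lift (p 0) f ≫ snd (X 0).X C.X ≫ pr s = _
          rw [← Category.assoc, Obj.lift_snd, hf]
      · rw [← Category.assoc, Obj.lift_snd, hfq]

section

variable {C : GVar W Γ} (hC : IsGaloisVar χ C)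

theorem act_cancel (C : GVar W Γ) (γ : Γ) (a : W.H C.X) : C.act γ (C.act γ⁻¹ a) = a := by
  rw [← AlgEquiv.mul_apply, ← map_mul, mul_inv_cancel, map_one]
  rfl

theorem act_cancel' (C : GVar W Γ) (γ : Γ) (a : W.H C.X) : C.act γ⁻¹ (C.act γ a) = a := by
  rw [← AlgEquiv.mul_apply, ← map_mul, inv_mul_cancel, map_one]
  rfl

include hC

theorem act_alg (γ : Γ) {c : W.H C.X} (hc : c ∈ algSpan W C.X) : C.act γ c ∈ algSpan W C.X := by
  refine algSpan_ind (p := fun c => C.act γ c ∈ algSpan W C.X) ?_ ?_ ?_ ?_ hc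
  · intro j c hc
    obtain ⟨c', hc', h1⟩ := hC.cl_act γ j c hc
    rw [h1]
    exact Submodule.smul_mem _ _ (alg_mem hc')
  · rw [map_zero]; exact Submodule.zero_mem _
  · intro a b ha hb
    rw [map_add]; exact Submodule.add_mem _ ha hb
  · intro q a ha
    rw [map_smul]; exact Submodule.smul_mem _ _ ha

theorem act_rad (γ : Γ) {c : W.H C.X} (hc : c ∈ rad W C.X) : C.act γ c ∈ rad W C.X := by
  rw [mem_rad] at hc ⊢
  refine ⟨act_alg hC γ hc.1, fun a ha => ?_⟩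
  rw [← act_cancel C γ a, ← map_mul, hC.tr_act, hc.2 _ (act_alg hC γ⁻¹ ha), mul_zero]

theorem act_hpar (γ : Γ) {e : ℕ} {a : W.H C.X} (ha : a ∈ hpar W C.X e) :
    C.act γ a ∈ hpar W C.X e := by
  induction ha using Submodule.span_induction with
  | mem a ha =>
    obtain ⟨i, hi, ha⟩ := ha
    exact hpar_of hi (hC.gr_mem γ i a ha)
  | zero => rw [map_zero]; exact Submodule.zero_mem _
  | add x y _ _ hx hy => rw [map_add]; exact Submodule.add_mem _ hx hy
  | smul q x _ hx => rw [map_smul]; exact Submodule.smul_mem _ _ hx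

end

variable {n : ℕ} {X : Fin n → GVar W Γ} (P : ∀ s, Piece W (X s).X) {𝒵 : Set 𝒱.Obj}

/-- The families of matrices given by the elements of the group. -/
def GSet : Set (∀ s, Matrix (P s).J (P s).J W.K) :=
  {g | ∃ γ : Γ, ∀ s q, (X s).act γ ((P s).x q) = ∑ p, g s p q • (P s).x p}

/-- **The tensors are stable under the group.** -/
theorem NSet_act (hG : GaloisClass χ G) (hX : ∀ s, X s ∈ G) (h𝒵G : ∀ Z ∈ 𝒵, ∃ Z' ∈ G, Z'.X = Z)
    (s₀ : Fin n) {g : ∀ s, Matrix (P s).J (P s).J W.K} (hg : g ∈ GSet P)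
    {y : (Fin n → Tx P) → W.K} (hy : y ∈ NSet P 𝒵) :
    gtact (fun _ => Matrix.blockDiagonal' fun j => (g j)ᵀ) y ∈ NSet P 𝒵 := by
  obtain ⟨γ, hγ⟩ := hg
  obtain ⟨Y, p, z, hz, e, w, hw, rfl⟩ := hy
  obtain ⟨Z, hZ, q, h, hh, rfl, hM⟩ : ∃ Z ∈ G, ∃ (q : Y ⟶ Z.X) (h : W.H Z.X)
      (_ : h ∈ hpar W Z.X e), w = W.map q h ∧ ∀ (C : 𝒱.Obj) (qz : C ⟶ Z.X),
        Mult W 𝒵 C e (W.map qz (Z.act γ⁻¹ h)) := by
    rcases hw with ⟨rfl, rfl⟩ | ⟨Z, hZ, q, h, hh, rfl⟩
    · exact ⟨X s₀, hX s₀, p s₀, 1, hpar_one, (map_one _).symm, fun C qz => by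
        rw [map_one, map_one]; exact Mult.one⟩
    · obtain ⟨Z', hZ', rfl⟩ := h𝒵G Z hZ
      exact ⟨Z', hZ', q, h, hh, rfl, fun C qz => Or.inr ⟨_, hZ, qz, _,
        act_hpar (hG.galois _ hZ') _ hh, rfl⟩⟩
  obtain ⟨C, hC, pr, qz, hpr, hqz, hun⟩ := exists_univ hG n X hX Z hZ
  obtain ⟨f, hf, hfq⟩ := hun Y p q
  have hCG := hG.galois C hC
  have h1 : (fun I : Fin n → Tx P => W.tr Y (z * W.map q h *
      (List.ofFn fun s => W.map (p s) (xv P s (I s))).prod)) = fun I => W.tr C.X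
        (W.push f z * W.map qz h * (List.ofFn fun s => W.map (pr s) (xv P s (I s))).prod) := by
    funext I
    rw [mul_assoc (W.push f z), W.tr_push, map_mul (W.map f), map_list_prod, List.map_ofFn,
      ← W.map_comp, hfq, mul_assoc]
    congr 4
    refine congrArg List.ofFn (funext fun s => ?_)
    change _ = W.map f (W.map (pr s) _)
    rw [← W.map_comp, hf]
  rw [h1]
  refine ⟨C.X, pr, (χ γ : W.K) ^ C.X.dim • C.act γ⁻¹ (W.push f z),
    Submodule.smul_mem _ _ (act_rad hCG _ (rad_push f hz)), e, _, hM C.X qz, ?_⟩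
  funext J
  rw [gtact_eq (W.tr C.X) (W.push f z * W.map qz h) (fun s i => W.map (pr s) (xv P s i))]
  have h2 : ∀ s, ∑ i, Matrix.blockDiagonal' (fun j => (g j)ᵀ) (J s) i •
      W.map (pr s) (xv P s i) = C.act γ (W.map (pr s) (xv P s (J s))) := by
    intro s
    rw [hpr s γ]
    refine (xv_lin P ((W.map (pr s)).toLinearMap ∘ₗ ((X s).act γ).toLinearMap)
      (W.map (pr s)).toLinearMap g (fun q => ?_) (J s)).symm
    change W.map (pr s) ((X s).act γ ((P s).x q)) = _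
    rw [hγ s q, map_sum]
    exact Finset.sum_congr rfl fun p _ => map_smul _ _ _
  simp only [h2]
  have h3 : (List.ofFn fun s => C.act γ (W.map (pr s) (xv P s (J s)))).prod =
      C.act γ (List.ofFn fun s => W.map (pr s) (xv P s (J s))).prod := by
    rw [map_list_prod, List.map_ofFn]
    rfl
  have h4 : W.push f z * W.map qz h * C.act γ (List.ofFn fun s => W.map (pr s)
      (xv P s (J s))).prod = C.act γ (C.act γ⁻¹ (W.push f z) * C.act γ⁻¹ (W.map qz h) *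
        (List.ofFn fun s => W.map (pr s) (xv P s (J s))).prod) := by
    rw [map_mul, map_mul, act_cancel, act_cancel]
  rw [h3, h4, hCG.tr_act, hqz γ⁻¹ h, smul_mul_assoc, smul_mul_assoc, map_smul, smul_eq_mul]

end Pool.Agent.Y104.Geo
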