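import Pool.Agent.Y104.Ten

/-!
# All contractions of the tensors given by numerically trivial classes vanish
-/

open CategoryTheory AlgebraicGeometry
open scoped Matrix

set_option linter.unusedSectionVars false

universe u v w

namespace Pool.Agent.Y104.Geo

open Pool.Agent.H914 Pool.Agent.H914.VarClass Pool.Agent.H914.VarClass.Obj
  Pool.Agent.H914.WeilCohomology Pool.Agent.H281R3.HT Pool.Agent.TH125.Gal
  Pool.Agent.Y104.Kempf

section Lists

variable {H : Type*} [Ring H] {Ω : Type*}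

theorem map_flatMap_prod {α : Type*} (g : α → List Ω) (f : Ω → H) (l : List α) :
    ((l.flatMap g).map f).prod = (l.map fun i => ((g i).map f).prod).prod := by
  induction l with
  | nil => rfl
  | cons a l ih =>
    rw [List.flatMap_cons, List.map_append, List.prod_append, ih, List.map_cons, List.prod_cons]

/-- The order of the factors: first the classes on the factors of the product. -/
def lst1 (m n : ℕ) : List (Fin m ⊕ Fin m ⊕ (Fin m × Fin n)) :=
  (List.finRange m).flatMap fun i => Sum.inl i :: Sum.inr (Sum.inl i) ::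
    (List.finRange n).map fun s => Sum.inr (Sum.inr (i, s))

/-- The order of the factors: first the numerically trivial classes, then the multipliers, then
the slots in pairs. -/
def lst2 (m n r : ℕ) (e : Fin r × Fin 2 ≃ Fin m × Fin n) :
    List (Fin m ⊕ Fin m ⊕ (Fin m × Fin n)) :=
  (List.finRange m).map Sum.inl ++ ((List.finRange m).map (fun i => Sum.inr (Sum.inl i)) ++
    (List.finRange r).flatMap fun l => [Sum.inr (Sum.inr (e (l, 0))), Sum.inr (Sum.inr (e (l, 1)))])

theorem nodup_lst1 (m n : ℕ) : (lst1 m n).Nodup := by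
  rw [lst1, List.nodup_flatMap]
  refine ⟨fun i _ => ?_, ?_⟩
  · rw [List.nodup_cons, List.nodup_cons]
    refine ⟨?_, ?_, ?_⟩
    · simp
    · simp
    · refine (List.nodup_finRange n).map fun s s' h => ?_
      simpa using h
  · refine (List.nodup_finRange m).pairwise_of_forall_ne fun i _ j _ hij => ?_
    rw [Function.onFun, List.disjoint_left]
    intro x hx hx'
    simp only [List.mem_cons, List.mem_map, List.mem_finRange, true_and] at hx hx'
    rcases hx with rfl | rfl | ⟨s, rfl⟩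
    · simp [hij] at hx'
    · simp [hij] at hx'
    · simp only [reduceCtorEq, Sum.inr.injEq, Prod.mk.injEq, false_or] at hx'
      obtain ⟨s', h, _⟩ := hx'
      exact hij h.symm

theorem nodup_lst2 (m n r : ℕ) (e : Fin r × Fin 2 ≃ Fin m × Fin n) : (lst2 m n r e).Nodup := by
  rw [lst2, List.nodup_append', List.nodup_append']
  refine ⟨(List.nodup_finRange m).map Sum.inl_injective, ⟨(List.nodup_finRange m).map
    (fun i j h => by simpa using h), ?_, ?_⟩, ?_⟩
  · rw [List.nodup_flatMap]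
    refine ⟨fun l _ => ?_, ?_⟩
    · simp [e.injective.eq_iff]
    · refine (List.nodup_finRange r).pairwise_of_forall_ne fun i _ j _ hij => ?_
      rw [Function.onFun, List.disjoint_left]
      intro x hx hx'
      simp only [List.mem_cons, List.not_mem_nil, or_false] at hx hx'
      rcases hx with rfl | rfl <;> simp [e.injective.eq_iff, hij] at hx'
  · rw [List.disjoint_left]
    intro x hx hx'
    simp only [List.mem_map, List.mem_flatMap, List.mem_cons, List.not_mem_nil, or_false,
      List.mem_finRange, true_and] at hx hx'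
    obtain ⟨i, rfl⟩ := hx
    obtain ⟨l, h | h⟩ := hx' <;> simp at h
  · rw [List.disjoint_left]
    intro x hx hx'
    simp only [List.mem_map, List.mem_append, List.mem_flatMap, List.mem_cons, List.not_mem_nil,
      or_false, List.mem_finRange, true_and] at hx hx'
    obtain ⟨i, rfl⟩ := hx
    rcases hx' with ⟨j, h⟩ | ⟨l, h | h⟩ <;> simp at h

theorem lst_perm (m n r : ℕ) (e : Fin r × Fin 2 ≃ Fin m × Fin n) :
    (lst1 m n).Perm (lst2 m n r e) := by
  rw [List.perm_ext_iff_of_nodup (nodup_lst1 m n) (nodup_lst2 m n r e)]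
  intro x
  have h1 : x ∈ lst1 m n := by
    rw [lst1]
    rcases x with i | i | ⟨i, s⟩ <;> simp
  have h2 : x ∈ lst2 m n r e := by
    rw [lst2]
    rcases x with i | i | x
    · simp
    · simp
    · obtain ⟨⟨l, t⟩, rfl⟩ := e.surjective x
      simp only [List.mem_append, List.mem_map, List.mem_flatMap, List.mem_cons,
        List.not_mem_nil, or_false, List.mem_finRange, true_and]
      right
      right
      refine ⟨l, ?_⟩
      fin_cases t
      · left; rfl
      · right; rfl
  exact ⟨fun _ => h2, fun _ => h1⟩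

theorem prod_lst1 (m n : ℕ) (f : Fin m ⊕ Fin m ⊕ (Fin m × Fin n) → H) :
    ((lst1 m n).map f).prod = (List.ofFn fun i => f (Sum.inl i) * f (Sum.inr (Sum.inl i)) *
      (List.ofFn fun s => f (Sum.inr (Sum.inr (i, s)))).prod).prod := by
  rw [lst1, map_flatMap_prod, List.ofFn_eq_map]
  congr 2
  funext i
  rw [List.map_cons, List.prod_cons, List.map_cons, List.prod_cons, List.map_map,
    List.ofFn_eq_map, mul_assoc]
  rfl

theorem prod_lst2 (m n r : ℕ) (e : Fin r × Fin 2 ≃ Fin m × Fin n)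
    (f : Fin m ⊕ Fin m ⊕ (Fin m × Fin n) → H) :
    ((lst2 m n r e).map f).prod = (List.ofFn fun i => f (Sum.inl i)).prod *
      (List.ofFn fun i => f (Sum.inr (Sum.inl i))).prod *
      (List.ofFn fun l => f (Sum.inr (Sum.inr (e (l, 0)))) *
        f (Sum.inr (Sum.inr (e (l, 1))))).prod := by
  rw [lst2, List.map_append, List.map_append, List.prod_append, List.prod_append,
    map_flatMap_prod, List.map_map, List.map_map, List.ofFn_eq_map, List.ofFn_eq_map,
    List.ofFn_eq_map, mul_assoc]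
  congr 3
  rw [List.map_congr_left]
  intro l _
  simp

/-- Summation over all indices, in pairs. -/
theorem sum_pairs {K : Type*} [Field K] [Algebra K H] {S T : Type} [Fintype S] [DecidableEq S]
    [Fintype T] [DecidableEq T] (r : ℕ) (e : Fin r × Fin 2 ≃ S) (B : T → T → K)
    (A : S → T → H) :
    ∑ I : S → T, (∏ l, B (I (e (l, 0))) (I (e (l, 1)))) •
      (List.ofFn fun l => A (e (l, 0)) (I (e (l, 0))) * A (e (l, 1)) (I (e (l, 1)))).prod =
    (List.ofFn fun l : Fin r => ∑ t : T × T, B t.1 t.2 •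
      (A (e (l, 0)) t.1 * A (e (l, 1)) t.2)).prod := by
  have h2 := (MultilinearMap.mkPiAlgebraFin K r H).map_sum
    (fun (l : Fin r) (t : T × T) => B t.1 t.2 • (A (e (l, 0)) t.1 * A (e (l, 1)) t.2))
  simp only [MultilinearMap.mkPiAlgebraFin_apply] at h2
  rw [h2]
  symm
  refine Fintype.sum_equiv ((pairEquiv r T).trans (Equiv.arrowCongr e (Equiv.refl T))) _ _
    fun f => ?_
  have h3 := (MultilinearMap.mkPiAlgebraFin K r H).map_smul_univ
    (fun l => B (f l).1 (f l).2) (fun l => A (e (l, 0)) (f l).1 * A (e (l, 1)) (f l).2)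
  simp only [MultilinearMap.mkPiAlgebraFin_apply] at h3
  rw [h3]
  have h4 : ∀ l, ((pairEquiv r T).trans (Equiv.arrowCongr e (Equiv.refl T))) f (e (l, 0)) =
      (f l).1 := by
    intro l
    change pairEquiv r T f (e.symm (e (l, 0))) = _
    rw [Equiv.symm_apply_apply]
    rfl
  have h5 : ∀ l, ((pairEquiv r T).trans (Equiv.arrowCongr e (Equiv.refl T))) f (e (l, 1)) =
      (f l).2 := by
    intro l
    change pairEquiv r T f (e.symm (e (l, 1))) = _
    rw [Equiv.symm_apply_apply]
    rfl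
  simp only [h4, h5]

end Lists

variable {k : Type u} [Field k] {𝒱 : VarClass k} {ops : CycleOps 𝒱}
  {W : WeilCohomology.{u, v} ops} {Y Z : 𝒱.Obj} {n : ℕ} {X : Fin n → 𝒱.Obj}
  (P : ∀ s, Piece W (X s)) {𝒵 : Set 𝒱.Obj}

/-- **All contractions vanish.** -/
theorem NSet_null (h𝒵 : ∀ Z ∈ 𝒵, ∀ Z' ∈ 𝒵, Z.prod Z' ∈ 𝒵) (h𝒵0 : ∀ Z ∈ 𝒵, rad W Z = ⊥)
    (m : ℕ) (y : Fin (m + 1) → (Fin n → Tx P) → W.K) (hy : ∀ i, y i ∈ NSet P 𝒵) :
    NullT (Matrix.blockDiagonal' fun j => ((P j).Q)⁻¹) (tp y) := by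
  classical
  choose Y p z hz e w hw hyi using hy
  obtain ⟨V, π, htr⟩ := exists_mp W m Y
  intro r E
  -- the classes on the product
  let f : ((Fin (m + 1) × Fin n) → Tx P) → Fin (m + 1) ⊕ Fin (m + 1) ⊕ (Fin (m + 1) × Fin n) →
      W.H V := fun I => Sum.elim (fun i => W.map (π i) (z i)) (Sum.elim
        (fun i => W.map (π i) (w i)) fun x => W.map (π x.1 ≫ p x.1 x.2) (xv P x.2 (I x)))
  let d : Fin (m + 1) ⊕ Fin (m + 1) ⊕ (Fin (m + 1) × Fin n) → ℕ :=
    Sum.elim (fun _ => 0) (Sum.elim (fun i => e i) fun x => (P x.2).e)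
  have hf : ∀ I x, f I x ∈ hpar W V (d x) := by
    rintro I (i | i | ⟨i, s⟩)
    · exact algSpan_hpar (algSpan_map _ (mem_rad.1 (hz i)).1)
    · exact hpar_map _ (hw i).mem
    · exact hpar_map _ (xv_mem P s _)
  have h1 : ∀ I, tp y I = W.tr V ((lst1 (m + 1) n).map (f I)).prod := by
    intro I
    rw [prod_lst1, tp]
    have h2 : ∀ i, y i (fun s => I (i, s)) = W.tr (Y i) (z i * w i *
      (List.ofFn fun s => W.map (p i s) (xv P s (I (i, s)))).prod) := fun i => by rw [hyi i]
    rw [Finset.prod_congr rfl fun i _ => h2 i, ← htr]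
    congr 3
    funext i
    rw [map_mul, map_mul, map_list_prod, List.map_ofFn]
    change _ = W.map (π i) (z i) * W.map (π i) (w i) *
      (List.ofFn fun s => W.map (π i ≫ p i s) (xv P s (I (i, s)))).prod
    congr 3
    funext s
    exact (W.map_comp _ _ _).symm
  obtain ⟨ε, -, hε⟩ := perm_sign (hpar W V) (hpar_comm (W := W) (X := V)) d
    (lst_perm (m + 1) n r E)
  set Zp := (List.ofFn fun i => W.map (π i) (z i)).prod with hZp
  set Wp := (List.ofFn fun i => W.map (π i) (w i)).prod with hWp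
  have hZr : Zp ∈ rad W V := by
    rw [hZp, List.ofFn_succ, List.prod_cons]
    exact rad_mul (rad_map _ (hz 0)) (ofFn_algSpan _ fun i =>
      algSpan_map _ (mem_rad.1 (hz i.succ)).1)
  have hWm : Mult W 𝒵 V (List.ofFn e).sum Wp := Mult.ofFn h𝒵 e _ fun i => (hw i).map (π i)
  have h2 : ∀ I : (Fin (m + 1) × Fin n) → Tx P,
      tp y I * ∏ l, Matrix.blockDiagonal' (fun j => ((P j).Q)⁻¹) (I (E (l, 0))) (I (E (l, 1))) =
      ε * W.tr V (Zp * Wp * (∏ l, Matrix.blockDiagonal' (fun j => ((P j).Q)⁻¹) (I (E (l, 0)))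
        (I (E (l, 1)))) • (List.ofFn fun l => W.map (π (E (l, 0)).1 ≫ p (E (l, 0)).1
          (E (l, 0)).2) (xv P (E (l, 0)).2 (I (E (l, 0)))) * W.map (π (E (l, 1)).1 ≫
            p (E (l, 1)).1 (E (l, 1)).2) (xv P (E (l, 1)).2 (I (E (l, 1))))).prod) := by
    intro I
    rw [h1, hε (f I) (hf I), prod_lst2, map_smul, mul_smul_comm, map_smul, smul_eq_mul,
      smul_eq_mul, mul_assoc, mul_comm (W.tr V _)]
    rfl
  rw [Finset.sum_congr rfl fun I _ => h2 I, ← Finset.mul_sum, ← map_sum, ← Finset.mul_sum,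
    sum_pairs r E (fun t t' => Matrix.blockDiagonal' (fun j => ((P j).Q)⁻¹) t t')
      (fun x t => W.map (π x.1 ≫ p x.1 x.2) (xv P x.2 t))]
  have h3 := ofFn_algSpan (W := W) (Y := V) (fun l : Fin r => ∑ t : Tx P × Tx P,
    Matrix.blockDiagonal' (fun j => ((P j).Q)⁻¹) t.1 t.2 •
      (W.map (π (E (l, 0)).1 ≫ p (E (l, 0)).1 (E (l, 0)).2) (xv P (E (l, 0)).2 t.1) *
        W.map (π (E (l, 1)).1 ≫ p (E (l, 1)).1 (E (l, 1)).2) (xv P (E (l, 1)).2 t.2)))
    (fun l => beta_mem P _ _ _ _)
  rw [mul_assoc, ← alg_comm h3, ← mul_assoc, hWm.tr_eq_zero h𝒵0 (rad_mul hZr h3), mul_zero]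

end Pool.Agent.Y104.Geo
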