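import Pool.Agent.Y104.Core3
import Pool.Agent.Y104.Ddt

/-!
# The optimal norm and its symmetries
-/

open Finset Module Matrix

set_option linter.unusedSectionVars false

namespace Pool.Agent.Y104.Kempf

universe u

section

variable {ι : Type} [Fintype ι] [DecidableEq ι] {b : ι → Type} [∀ i, Fintype (b i)]
  [∀ i, DecidableEq (b i)] {S : Type} [Fintype S] [DecidableEq S] {c : S → ι}
  {K : Type u} [Field K]

/-- **The optimal norm.** -/
theorem exists_kempf [CharZero K] {Q : ∀ j, Matrix (b j) (b j) K} {ε : ι → K}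
    (hε1 : ∀ j, ε j * ε j = 1) (hε : ∀ j, (Q j)ᵀ = ε j • Q j) (hQ : ∀ j, IsUnit (Q j))
    {N : Set ((S → Σ j, b j) → K)} (hc : ∀ z ∈ N, ∀ I, z I ≠ 0 → ∀ s, (I s).1 = c s)
    (hN : ∀ (m : ℕ) (z : Fin (m + 1) → (S → Σ j, b j) → K), (∀ i, z i ∈ N) →
      NullT (Matrix.blockDiagonal' fun j => (Q j)⁻¹) (tp z))
    {G : Set (∀ j, Matrix (b j) (b j) K)} (hG : ∀ g ∈ G, ∀ j, IsUnit (g j))
    (hGQ : ∀ g ∈ G, ∀ j, ∃ a : K, a ≠ 0 ∧ (g j)ᵀ * Q j * g j = a • Q j)
    (hGN : ∀ g ∈ G, ∀ z ∈ N, gtact (fun _ => Matrix.blockDiagonal' fun j => (g j)ᵀ) z ∈ N)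
    (E : ∀ j, Subalgebra K (Matrix (b j) (b j) K))
    (hadj : ∀ j, ∀ e ∈ E j, (Q j)⁻¹ * eᵀ * Q j ∈ E j)
    (hEN : ∀ e : S → ∀ j, Matrix (b j) (b j) K, (∀ s j, e s j ∈ E j) → ∀ z ∈ N,
      gtact (fun s => Matrix.blockDiagonal' fun j => (e s j)ᵀ) z ∈ N)
    (hnd : ∀ j, ∀ x ∈ E j, (∀ y ∈ E j, (x * y).trace = 0) → x = 0)
    {z : (S → Σ j, b j) → K} (hz : z ∈ N) (hz0 : z ≠ 0) :
    ∃ (w : ∀ j, (b j → AlgebraicClosure K) → ℝ) (t : ℝ), 0 < t ∧
      ∃ (hw : Adm2 (fun j => (Q j).map (algebraMap K (AlgebraicClosure K))) w),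
      Ge (rst c '' N) t w ∧
      (∀ (w' : ∀ j, (b j → AlgebraicClosure K) → ℝ) (t' : ℝ),
        Adm2 (fun j => (Q j).map (algebraMap K (AlgebraicClosure K))) w' →
        Ge (rst c '' N) t' w' → t' ≤ t) ∧
      (∀ (σ : AlgebraicClosure K ≃ₐ[K] AlgebraicClosure K) j (y : b j → AlgebraicClosure K),
        y ≠ 0 → w j (fun p => σ (y p)) = w j y) ∧
      (∀ g ∈ G, ∀ j (y : b j → AlgebraicClosure K), y ≠ 0 →
        w j ((g j).map (algebraMap K (AlgebraicClosure K)) *ᵥ y) = w j y) ∧
      ∀ j, ∀ e ∈ E j, ∀ (r : ℝ), ∀ y ∈ (hw.1.1 j).ge r,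
        e.map (algebraMap K (AlgebraicClosure K)) *ᵥ y ∈ (hw.1.1 j).ge r := by
  classical
  let L := AlgebraicClosure K
  have hQd : ∀ j, IsUnit (Q j).det := fun j => (Matrix.isUnit_iff_isUnit_det _).1 (hQ j)
  have hQi : ∀ j, Q j * (Q j)⁻¹ = 1 := fun j => Matrix.mul_nonsing_inv _ (hQd j)
  have hQi' : ∀ j, (Q j)⁻¹ * Q j = 1 := fun j => Matrix.nonsing_inv_mul _ (hQd j)
  have hBε : ∀ j, ((Q j)⁻¹)ᵀ = ε j • (Q j)⁻¹ := by
    intro j
    rw [Matrix.transpose_nonsing_inv, hε]
    refine Matrix.inv_eq_left_inv ?_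
    rw [Matrix.smul_mul, Matrix.mul_smul, smul_smul, hε1, one_smul, hQi']
  let QL : ∀ j, Matrix (b j) (b j) L := fun j => (Q j).map (algebraMap K L)
  have hQLu : ∀ j, IsUnit (QL j) := fun j => (hQ j).map ((algebraMap K L).mapMatrix)
  -- the tensors with dependent indices
  let N' : Set ((∀ s, b (c s)) → K) := rst c '' N
  have hrz : rst c z ∈ N' := ⟨z, hz, rfl⟩
  have hrz0 : rst c z ≠ 0 := by
    intro h
    apply hz0
    funext I
    by_contra h1
    have h2 := hc z hz I h1
    have h3 := congrFun h (fun s => h2 s ▸ (I s).2)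
    have h4 : ∀ (i : Σ j, b j) (j : ι) (h : i.1 = j), (⟨j, h ▸ i.2⟩ : Σ j, b j) = i := by
      rintro ⟨i, p⟩ j rfl
      rfl
    have h5 : (fun s => (⟨c s, h2 s ▸ (I s).2⟩ : Σ j, b j)) = I := funext fun s => h4 _ _ _
    apply h1
    rw [← h5]
    exact h3
  -- destabilising filtrations
  obtain ⟨κ, _, ψ, h0, hh0, x, hx0, hxQ, hx⟩ := exists_res2 (B := fun j => (Q j)⁻¹) hBε hQi hc hN
  obtain ⟨h, hh, hbad, hbadQ⟩ := exists_alg2 ψ h0 hh0 {J : S → Σ j, b j | ∑ s, x (J s) ≤ 0}
    (N := N) (by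
      intro J hJ z hz
      by_contra h1
      exact absurd (hx J ⟨z, hz, h1⟩) (not_lt.2 hJ)) Q
    (fun j p q => x ⟨j, p⟩ + x ⟨j, q⟩ < 0) (by
      intro j p q hpq
      by_contra h1
      exact absurd (hxQ j p q h1) (not_le.2 hpq))
  have hli : ∀ j, LinearIndependent L (h j).row := fun j =>
    Matrix.linearIndependent_rows_iff_isUnit.2 (hh j)
  have hsp : ∀ j, ⊤ ≤ Submodule.span L (Set.range (h j).row) := by
    intro j
    rw [top_le_iff]
    refine (hli j).span_eq_top_of_card_eq_finrank' ?_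
    rw [finrank_fintype_fun_eq_card]
  let e : ∀ j, Basis (b j) L (b j → L) := fun j => Basis.mk (hli j) (hsp j)
  have he : ∀ j p, e j p = h j p := fun j p => by
    simp only [e]
    rw [Basis.mk_apply]
    rfl
  have hpos : ∀ J : ∀ s, b (c s), (∃ z ∈ N', ev z (fun s => e (c s) (J s)) ≠ 0) →
      0 < ∑ s, (x ⟨c s, J s⟩ : ℚ) := by
    rintro J ⟨_, ⟨z, hz, rfl⟩, hJ⟩
    by_contra h1
    push Not at h1
    apply hJ
    have h2 := hbad (fun s => ⟨c s, J s⟩) h1 z hz
    rw [← ev_rows h (hc z hz) J] at h2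
    simp only [he]
    exact h2
  have hposQ : ∀ j p q, Rl QL e j p q → 0 ≤ x ⟨j, p⟩ + x ⟨j, q⟩ := by
    intro j p q hpq
    by_contra h1
    push Not at h1
    apply hpq
    have h2 := hbadQ j p q h1
    rw [he, he]
    rw [← h2, Matrix.mul_assoc, Matrix.mul_apply]
    rfl
  -- scaling the weights
  let q : ℝ := (1 + ∑ i, (x i : ℝ) ^ 2)⁻¹
  have hq1 : (1 : ℝ) ≤ 1 + ∑ i, (x i : ℝ) ^ 2 := by
    have : (0 : ℝ) ≤ ∑ i, (x i : ℝ) ^ 2 := Finset.sum_nonneg fun _ _ => sq_nonneg _
    linarith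
  have hq : 0 < q := inv_pos.2 (by linarith)
  have hCs : (fun i => -(q * (x i : ℝ))) ∈ Cset2 b (Rl QL e) := by
    refine ⟨⟨fun j => ?_, ?_⟩, fun j p p' hR => ?_⟩
    · rw [Finset.sum_neg_distrib, ← Finset.mul_sum]
      have h1 : ∑ p, (x ⟨j, p⟩ : ℝ) = 0 := by exact_mod_cast congrArg (Rat.cast : ℚ → ℝ) (hx0 j)
      rw [h1, mul_zero, neg_zero]
    · simp only [neg_sq, mul_pow]
      rw [← Finset.mul_sum]
      set T := ∑ i, (x i : ℝ) ^ 2
      have hT : T ≤ 1 + T := by linarith
      have h1 : q * T ≤ 1 := by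
        rw [← inv_mul_cancel₀ (show (1 + T) ≠ 0 by linarith)]
        exact mul_le_mul_of_nonneg_left hT hq.le
      have h2 : q ≤ 1 := inv_le_one_of_one_le₀ hq1
      have h3 : 0 ≤ q * T := mul_nonneg hq.le (by linarith)
      nlinarith
    · have h1 := hposQ j p p' hR
      have h2 : (0 : ℝ) ≤ (x ⟨j, p⟩ : ℝ) + (x ⟨j, p'⟩ : ℝ) := by exact_mod_cast h1
      have h3 := mul_nonneg hq.le h2
      linarith
  obtain ⟨w, t, hw, hg, hopt⟩ := exists_opt2 (L := L) QL hrz hrz0
  have ht : 0 < t := by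
    let X : Finset (∀ s, b (c s)) := univ.filter fun J => ∃ z ∈ N',
      ev z (fun s => e (c s) (J s)) ≠ 0
    have hX : X.Nonempty := by
      obtain ⟨J, hJ⟩ := exists_ev hrz hrz0 e
      exact ⟨J, mem_filter.2 ⟨mem_univ _, hJ⟩⟩
    have h1 : 0 < X.inf' hX fun J => q * ∑ s, (x ⟨c s, J s⟩ : ℝ) := by
      rw [Finset.lt_inf'_iff]
      intro J hJ
      have h2 := hpos J (mem_filter.1 hJ).2
      exact mul_pos hq (by exact_mod_cast h2)
    have hG : Ge N' (X.inf' hX fun J => q * ∑ s, (x ⟨c s, J s⟩ : ℝ))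
        fun j => nrm (e j) (fun p => (fun i => -(q * (x i : ℝ))) ⟨j, p⟩) := by
      refine Ge.of_weights (ω := fun i => -(q * (x i : ℝ))) e fun J hJ => ?_
      rw [Finset.sum_neg_distrib, neg_le_neg_iff, ← Finset.mul_sum]
      have hJX : J ∈ X := mem_filter.2 ⟨mem_univ _, hJ⟩
      have h5 := Finset.inf'_le (fun J : ∀ s, b (c s) => q * ∑ s, (x ⟨c s, J s⟩ : ℝ)) hJX
      beta_reduce at h5
      exact h5
    exact lt_of_lt_of_le h1 (hopt _ _ (Adm2.of_weights QL e hCs) hG)
  -- invariance under the Galois group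
  have hgal : ∀ (σ : L ≃ₐ[K] L) j (y : b j → L), y ≠ 0 → w j (fun p => σ (y p)) = w j y := by
    intro σ j y hy
    refine opt_invariant2 hrz hrz0 ht hopt hw hg σ.toRingEquiv
      (fun j => AddEquiv.piCongrRight fun _ => σ.toRingEquiv.toAddEquiv) ?_ ?_ ?_ j y hy
    · intro j a y
      funext p
      simp
    · intro j y y' h1
      have h2 : (AddEquiv.piCongrRight fun _ => σ.toRingEquiv.toAddEquiv : (b j → L) ≃+ (b j → L))
          y ⬝ᵥ (QL j *ᵥ (AddEquiv.piCongrRight fun _ => σ.toRingEquiv.toAddEquiv :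
            (b j → L) ≃+ (b j → L)) y') = σ (y ⬝ᵥ (QL j *ᵥ y')) := by
        simp only [dotProduct, Matrix.mulVec, map_sum, map_mul]
        refine Finset.sum_congr rfl fun p _ => ?_
        congr 1
        refine Finset.sum_congr rfl fun p' _ => ?_
        congr 1
        exact (σ.commutes _).symm
      rw [h2]
      exact (map_ne_zero _).2 h1
    · intro z hz u hu
      refine ⟨z, hz, ?_⟩
      have h1 : ev z (fun s => (AddEquiv.piCongrRight fun _ => σ.toRingEquiv.toAddEquiv) (u s)) =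
          σ (ev z u) := by
        unfold ev
        rw [map_sum]
        refine Finset.sum_congr rfl fun I _ => ?_
        rw [map_mul, map_prod, AlgEquiv.commutes]
        rfl
      rw [h1]
      exact (map_ne_zero _).2 hu
  -- invariance under the group
  have hinv : ∀ g ∈ G, ∀ j (y : b j → L), y ≠ 0 →
      w j ((g j).map (algebraMap K L) *ᵥ y) = w j y := by
    intro g hg' j y hy
    have hgu : ∀ j, IsUnit ((g j).map (algebraMap K L)) := by
      intro j
      exact (hG g hg' j).map ((algebraMap K L).mapMatrix)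
    have hdet : ∀ j, IsUnit ((g j).map (algebraMap K L)).det := fun j =>
      (Matrix.isUnit_iff_isUnit_det _).1 (hgu j)
    let A : ∀ j, (b j → L) ≃+ (b j → L) := fun j =>
      { toFun := fun y => ((g j).map (algebraMap K L))⁻¹ *ᵥ y
        invFun := fun y => (g j).map (algebraMap K L) *ᵥ y
        left_inv := fun y => by
          beta_reduce
          rw [mulVec_mulVec, Matrix.mul_nonsing_inv _ (hdet j), one_mulVec]
        right_inv := fun y => by
          beta_reduce
          rw [mulVec_mulVec, Matrix.nonsing_inv_mul _ (hdet j), one_mulVec]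
        map_add' := fun y y' => by rw [mulVec_add] }
    have hAi : ∀ j y, (g j).map (algebraMap K L) *ᵥ A j y = y := fun j y =>
      (A j).symm_apply_apply y
    have h1 := opt_invariant2 hrz hrz0 ht hopt hw hg (RingEquiv.refl L) A (by
      intro j a y
      change _ *ᵥ (a • y) = a • (_ *ᵥ y)
      rw [mulVec_smul]) (by
      intro j y y' h1 h2
      obtain ⟨a, ha, haQ⟩ := hGQ g hg' j
      apply h1
      have haQ' : ((g j).map (algebraMap K L))ᵀ * QL j * (g j).map (algebraMap K L) =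
          algebraMap K L a • QL j := by
        have h3 := congrArg (fun X => X.map (algebraMap K L)) haQ
        simp only [Matrix.map_mul] at h3
        rw [← Matrix.transpose_map]
        rw [h3]
        ext i k
        simp [QL]
      have h4 : y ⬝ᵥ (QL j *ᵥ y') = algebraMap K L a * (A j y ⬝ᵥ (QL j *ᵥ A j y')) := by
        conv_lhs => rw [← hAi j y, ← hAi j y']
        rw [mulVec_mulVec, dotProduct_mulVec, vecMul_mulVec, ← dotProduct_mulVec,
          ← Matrix.mul_assoc, haQ', smul_mulVec, dotProduct_smul, smul_eq_mul]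
      rw [h4, h2, mul_zero]) (by
      rintro _ ⟨z, hz, rfl⟩ u hu
      refine ⟨rst c (gtact (fun _ => Matrix.blockDiagonal' fun j => (g j)ᵀ) z),
        ⟨_, hGN g hg' z hz, rfl⟩, ?_⟩
      rw [ev_gtact (hc z hz) (fun _ => g)]
      have h5 : (fun s => (g (c s)).map (algebraMap K L) *ᵥ A (c s) (u s)) = u := by
        funext s
        exact hAi (c s) (u s)
      rw [h5]
      exact hu) j ((g j).map (algebraMap K L) *ᵥ y) (by
        intro h0
        exact hy ((map_eq_zero_iff _ (A j).symm.injective).1 h0))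
    rw [← h1]
    have h6 : A j ((g j).map (algebraMap K L) *ᵥ y) = y := (A j).apply_symm_apply y
    rw [h6]
  -- invariance under the unitary elements
  have huni : ∀ j, ∀ e₀ ∈ baseC L (E j), adjL (QL j) e₀ * e₀ = 1 → ∀ y : b j → L, y ≠ 0 →
      w j (e₀ *ᵥ y) = w j y := by
    intro j e₀ he₀ hue y hy
    let a : ∀ j, Matrix (b j) (b j) L := Function.update (fun _ => 1) j e₀
    have ha1 : ∀ i, a i ∈ baseC L (E i) := by
      intro i
      by_cases h1 : i = j
      · subst h1
        simp only [a, Function.update_self]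
        exact he₀
      · simp only [a, Function.update_of_ne h1]
        exact one_mem _
    have ha2 : ∀ i, adjL (QL i) (a i) * a i = 1 := by
      intro i
      by_cases h1 : i = j
      · subst h1
        simp only [a, Function.update_self]
        exact hue
      · simp only [a, Function.update_of_ne h1]
        rw [Matrix.mul_one, adjL_apply, Matrix.transpose_one, Matrix.mul_one,
          Matrix.nonsing_inv_mul _ ((Matrix.isUnit_iff_isUnit_det _).1 (hQLu i))]
    have ha2' : ∀ i, a i * adjL (QL i) (a i) = 1 := fun i => mul_eq_one_comm.1 (ha2 i)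
    have ha3 : ∀ i, (a i)ᵀ * QL i * a i = QL i := by
      intro i
      have h1 := ha2 i
      rw [adjL_apply] at h1
      have h2 := congrArg (fun X => QL i * X) h1
      simp only [Matrix.mul_one] at h2
      rw [← Matrix.mul_assoc, ← Matrix.mul_assoc, ← Matrix.mul_assoc,
        Matrix.mul_nonsing_inv _ ((Matrix.isUnit_iff_isUnit_det _).1 (hQLu i)),
        Matrix.one_mul] at h2
      exact h2
    let A : ∀ j, (b j → L) ≃+ (b j → L) := fun i =>
      { toFun := fun y => a i *ᵥ y
        invFun := fun y => adjL (QL i) (a i) *ᵥ y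
        left_inv := fun y => by
          beta_reduce
          rw [mulVec_mulVec, ha2, one_mulVec]
        right_inv := fun y => by
          beta_reduce
          rw [mulVec_mulVec, ha2', one_mulVec]
        map_add' := fun y y' => by rw [mulVec_add] }
    have h1 := opt_invariant2 hrz hrz0 ht hopt hw hg (RingEquiv.refl L) A (by
      intro j a y
      change _ *ᵥ (a • y) = a • (_ *ᵥ y)
      rw [mulVec_smul]) (by
      intro i y y' h1
      have h4 : A i y ⬝ᵥ (QL i *ᵥ A i y') = y ⬝ᵥ (QL i *ᵥ y') := by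
        change (a i *ᵥ y) ⬝ᵥ (QL i *ᵥ (a i *ᵥ y')) = _
        rw [mulVec_mulVec, dotProduct_mulVec, vecMul_mulVec, ← dotProduct_mulVec,
          ← Matrix.mul_assoc, ha3]
      rw [h4]
      exact h1) (by
      rintro _ ⟨z, hz, rfl⟩ u hu
      by_contra hcon
      push Not at hcon
      apply hu
      have h5 : u = fun s => adjL (QL (c s)) (a (c s)) *ᵥ A (c s) (u s) := by
        funext s
        exact ((A (c s)).symm_apply_apply (u s)).symm
      rw [h5]
      refine ev_baseC E _ _ ?_ _ (fun s => adjL_mem (hQ _) (hadj _) (ha1 _))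
      intro f hf
      -- extend the family to all colours
      let f' : S → ∀ j, Matrix (b j) (b j) K := fun s => Function.update (fun _ => 1) (c s) (f s)
      have hf' : ∀ s j, f' s j ∈ E j := by
        intro s i
        by_cases h1 : i = c s
        · subst h1
          simp only [f', Function.update_self]
          exact hf s
        · simp only [f', Function.update_of_ne h1]
          exact one_mem _
      have h6 := hcon _ ⟨_, hEN f' hf' z hz, rfl⟩
      rw [ev_gtact (hc z hz)] at h6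
      simp only [f', Function.update_self] at h6
      exact h6) j y hy
    have h6 : A j y = e₀ *ᵥ y := by
      change a j *ᵥ y = _
      simp only [a, Function.update_self]
    rw [← h6]
    exact h1
  refine ⟨w, t, ht, hw, hg, hopt, hgal, hinv, ?_⟩
  intro j e he r y hy
  have hFE : ∀ e₀ ∈ baseC L (E j), ∀ y ∈ (hw.1.1 j).ge r, e₀ *ᵥ y ∈ (hw.1.1 j).ge r := by
    refine Pool.Agent.Y154.Uni.unitary_stable (baseC L (E j)) (adjL (QL j))
      (fun x hx => adjL_mem (hQ j) (hadj j) hx)
      (fun x _ => adjL_adjL (hQLu j) (ε := algebraMap K L (ε j))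
        (by rw [← map_mul, hε1, map_one]) ?_ x)
      (fun x _ y _ => adjL_mul (hQLu j) x y) (fun x _ => adjL_trace (hQLu j) x)
      (baseC_nondeg (hnd j)) _ ?_
    · change ((Q j).map (algebraMap K L))ᵀ = _
      rw [← Matrix.transpose_map, hε]
      ext i k
      simp [QL]
    · intro u hu hu' y hy
      rw [IsNrm.mem_ge]
      by_cases h1 : y = 0
      · left
        rw [h1, mulVec_zero]
      · right
        rw [huni j u hu hu' y h1]
        exact (((hw.1.1 j).mem_ge r y).1 hy).resolve_left h1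
  exact hFE _ (map_mem_baseC he) y hy

end

end Pool.Agent.Y104.Kempf
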