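import Pool.Agent.Y104.Gen

/-!
# The differential operators dual to the entries of `G B' Gᵀ`
-/

open MvPolynomial Finset Matrix

set_option linter.unusedSectionVars false

namespace Pool.Agent.Y104.Kempf

variable {ι : Type} [Fintype ι] [DecidableEq ι] {b : ι → Type} [∀ i, Fintype (b i)]
  [∀ i, DecidableEq (b i)] {K : Type*} [Field K]

/-- the derivative in the direction of an entry of the generic matrix -/
noncomputable def pd (x i : Σ j, b j) : Derivation K (Ply b K) (Ply b K) :=
  if x.1 = i.1 then pderiv (x, i) else 0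

theorem apo_GM_mul (x i : Σ j, b j) (f a : Ply b K) :
    apo (GM b K x i * f) a = apo f (pd x i a) := by
  unfold GM pd
  split_ifs with h
  · rw [apo_X_mul]
  · rw [zero_mul, map_zero, LinearMap.zero_apply, Derivation.zero_apply, map_zero]

theorem pd_GM (x i u m : Σ j, b j) :
    pd x i (GM b K u m) = if x.1 = i.1 ∧ u = x ∧ m = i then 1 else 0 := by
  unfold pd GM
  by_cases h : x.1 = i.1
  · by_cases h2 : u = x ∧ m = i
    · obtain ⟨rfl, rfl⟩ := h2
      simp [h]
    · have h3 : ¬ (x.1 = i.1 ∧ u = x ∧ m = i) := fun h3 => h2 h3.2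
      rw [if_neg h3, if_pos h]
      split_ifs with h4
      · rw [pderiv_X_of_ne]
        intro h5
        rw [Prod.mk.injEq] at h5
        exact h2 h5
      · rw [map_zero]
  · have h3 : ¬ (x.1 = i.1 ∧ u = x ∧ m = i) := fun h3 => h h3.1
    rw [if_neg h3, if_neg h, Derivation.zero_apply]

/-- The second order operator. -/
noncomputable def Lap (B' : Matrix (Σ j, b j) (Σ j, b j) K) (x y : Σ j, b j) (a : Ply b K) :
    Ply b K :=
  ∑ z : (Σ j, b j) × (Σ j, b j), C (B' z.1 z.2) * pd y z.2 (pd x z.1 a)

theorem apo_mul_GQ (B' : Matrix (Σ j, b j) (Σ j, b j) K) (x y : Σ j, b j) (f a : Ply b K) :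
    apo (f * GQ B' x y) a = apo f (Lap B' x y a) := by
  rw [GQ_apply, Lap, Finset.mul_sum, map_sum, LinearMap.sum_apply, map_sum]
  refine Finset.sum_congr rfl fun z _ => ?_
  rw [show f * (C (B' z.1 z.2) * (GM b K x z.1 * GM b K y z.2)) =
    C (B' z.1 z.2) * (GM b K x z.1 * (GM b K y z.2 * f)) by ring, apo_C_mul, apo_GM_mul,
    apo_GM_mul, apo_C_mul_right]

/-- the algebra generated by the entries of `G B Gᵀ` -/
noncomputable def Alg (B : Matrix (Σ j, b j) (Σ j, b j) K) : Subalgebra K (Ply b K) :=
  Algebra.adjoin K (Set.range fun x : (Σ j, b j) × (Σ j, b j) => GQ B x.1 x.2)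

theorem GQ_mem (B : Matrix (Σ j, b j) (Σ j, b j) K) (x y : Σ j, b j) : GQ B x y ∈ Alg B :=
  Algebra.subset_adjoin ⟨(x, y), rfl⟩

/-- the matrix `G Bᵀ` -/
noncomputable def Lm (B : Matrix (Σ j, b j) (Σ j, b j) K) :
    Matrix (Σ j, b j) (Σ j, b j) (Ply b K) :=
  GM b K * (B.map C)ᵀ

theorem Lm_apply (B : Matrix (Σ j, b j) (Σ j, b j) K) (r i : Σ j, b j) :
    Lm B r i = ∑ k, GM b K r k * C (B i k) := by
  rw [Lm, Matrix.mul_apply]
  rfl

section

variable {B B' : Matrix (Σ j, b j) (Σ j, b j) K} {ε : ι → K}

theorem pd_Lm (x i r m : Σ j, b j) :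
    pd x i (Lm B r m) = if r = x then (if x.1 = i.1 then C (B m i) else 0) else 0 := by
  rw [Lm_apply, map_sum]
  rw [Finset.sum_eq_single i]
  · rw [Derivation.leibniz, ← algebraMap_eq, Derivation.map_algebraMap, smul_zero, zero_add,
      smul_eq_mul, pd_GM, algebraMap_eq]
    by_cases h1 : r = x
    · by_cases h2 : x.1 = i.1
      · rw [if_pos ⟨h2, h1, rfl⟩, if_pos h1, if_pos h2, mul_one]
      · rw [if_neg (fun h => h2 h.1), if_pos h1, if_neg h2, mul_zero]
    · rw [if_neg (fun h => h1 h.2.1), if_neg h1, mul_zero]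
  · intro k _ hk
    rw [Derivation.leibniz, ← algebraMap_eq, Derivation.map_algebraMap, smul_zero, zero_add,
      smul_eq_mul, pd_GM, if_neg (fun h => hk h.2.2), mul_zero]
  · intro h
    exact absurd (mem_univ _) h

theorem Lm_zero (hB : ∀ i k, B i k ≠ 0 → i.1 = k.1) {r i : Σ j, b j} (h : r.1 ≠ i.1) :
    Lm B r i = 0 := by
  rw [Lm_apply]
  refine Finset.sum_eq_zero fun k _ => ?_
  by_cases h1 : B i k = 0
  · rw [h1, C_0, mul_zero]
  · rw [GM, if_neg (fun h2 => h (h2.trans (hB _ _ h1).symm)), zero_mul]

theorem GQ_eq_Lm (B : Matrix (Σ j, b j) (Σ j, b j) K) (u v : Σ j, b j) : GQ B u v = ∑ k, GM b K u k * Lm B v k := by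
  rw [GQ_apply, Fintype.sum_prod_type]
  refine Finset.sum_congr rfl fun k _ => ?_
  rw [Lm_apply, Finset.mul_sum]
  refine Finset.sum_congr rfl fun i _ => ?_
  ring

/-- the first derivative of a generator -/
theorem pd_GQ (hε : ∀ i k, B k i = ε i.1 * B i k)
    (x i u v : Σ j, b j) (h : x.1 = i.1) :
    pd x i (GQ B u v) = (if u = x then Lm B v i else 0) +
      (if v = x then C (ε x.1) * Lm B u i else 0) := by
  rw [GQ_eq_Lm, map_sum]
  simp only [Derivation.leibniz, smul_eq_mul]
  rw [Finset.sum_add_distrib, add_comm]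
  congr 1
  · rw [Finset.sum_eq_single i]
    · rw [pd_GM]
      by_cases h1 : u = x
      · rw [if_pos ⟨h, h1, rfl⟩, if_pos h1, mul_one]
      · rw [if_neg (fun h => h1 h.2.1), if_neg h1, mul_zero]
    · intro k _ hk
      rw [pd_GM, if_neg (fun h => hk h.2.2), mul_zero]
    · intro h
      exact absurd (mem_univ _) h
  · simp only [pd_Lm, h, if_true]
    split_ifs with h1
    · rw [Lm_apply, Finset.mul_sum]
      refine Finset.sum_congr rfl fun k _ => ?_
      rw [hε i k, map_mul]
      ring
    · simp

/-- **The algebra is stable under the second order operators.** -/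
theorem Lap_mem (hB : ∀ i k, B i k ≠ 0 → i.1 = k.1) (hε : ∀ i k, B k i = ε i.1 * B i k)
    (hBB : B' * B = 1) (x y : Σ j, b j) {a : Ply b K} (ha : a ∈ Alg B) :
    Lap B' x y a ∈ Alg B := by
  -- first derivatives
  have hD : ∀ x : Σ j, b j, ∀ a ∈ Alg B, ∃ A : (Σ j, b j) → Ply b K, (∀ r, A r ∈ Alg B) ∧
      ∀ i, pd x i a = ∑ r, A r * (if r.1 = x.1 then Lm B r i else 0) := by
    intro x a ha
    induction ha using Algebra.adjoin_induction with
    | mem a ha =>
      obtain ⟨⟨u, v⟩, rfl⟩ := ha
      refine ⟨fun r => (if u = x ∧ v = r then 1 else 0) +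
        (if v = x ∧ u = r then C (ε x.1) else 0), fun r => ?_, fun i => ?_⟩
      · refine add_mem ?_ ?_
        · split_ifs
          · exact one_mem _
          · exact zero_mem _
        · split_ifs
          · exact (Alg B).algebraMap_mem _
          · exact zero_mem _
      · by_cases h : x.1 = i.1
        · simp only
          rw [pd_GQ hε x i u v h]
          simp only [add_mul]
          rw [Finset.sum_add_distrib]
          congr 1
          · rw [Finset.sum_eq_single v]
            · by_cases h1 : u = x
              · rw [if_pos h1, if_pos ⟨h1, rfl⟩, one_mul]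
                split_ifs with h2
                · rfl
                · exact Lm_zero hB (fun h3 => h2 (h3.trans h.symm))
              · rw [if_neg h1, if_neg (fun h => h1 h.1), zero_mul]
            · intro r _ hr
              rw [if_neg (fun h => hr h.2.symm), zero_mul]
            · intro h
              exact absurd (mem_univ _) h
          · rw [Finset.sum_eq_single u]
            · by_cases h1 : v = x
              · rw [if_pos h1, if_pos ⟨h1, rfl⟩]
                split_ifs with h2
                · rfl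
                · rw [Lm_zero hB (fun h3 => h2 (h3.trans h.symm)), mul_zero]
              · rw [if_neg h1, if_neg (fun h => h1 h.1), zero_mul]
            · intro r _ hr
              rw [if_neg (fun h => hr h.2.symm), zero_mul]
            · intro h
              exact absurd (mem_univ _) h
        · rw [pd, if_neg h, Derivation.zero_apply]
          symm
          refine Finset.sum_eq_zero fun r _ => ?_
          split_ifs with h1
          · rw [Lm_zero hB (fun h2 => h (h1.symm.trans h2)), mul_zero]
          · rw [mul_zero]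
    | algebraMap c =>
      refine ⟨fun _ => 0, fun _ => zero_mem _, fun i => ?_⟩
      rw [Derivation.map_algebraMap]
      simp
    | add a a' _ _ h1 h2 =>
      obtain ⟨A, hA, hA'⟩ := h1
      obtain ⟨A2, hA2, hA2'⟩ := h2
      refine ⟨fun r => A r + A2 r, fun r => add_mem (hA r) (hA2 r), fun i => ?_⟩
      rw [map_add, hA', hA2', ← Finset.sum_add_distrib]
      exact Finset.sum_congr rfl fun r _ => by ring
    | mul a a' ha ha' h1 h2 =>
      obtain ⟨A, hA, hA'⟩ := h1
      obtain ⟨A2, hA2, hA2'⟩ := h2
      refine ⟨fun r => a * A2 r + a' * A r, fun r => add_mem (mul_mem ha (hA2 r))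
        (mul_mem ha' (hA r)), fun i => ?_⟩
      rw [Derivation.leibniz, hA', hA2', smul_eq_mul, smul_eq_mul, Finset.mul_sum,
        Finset.mul_sum, ← Finset.sum_add_distrib]
      exact Finset.sum_congr rfl fun r _ => by ring
  obtain ⟨A, hA, hA'⟩ := hD x a ha
  choose A2 hA2 hA2' using fun r => hD y (A r) (hA r)
  have h1 : Lap B' x y a = (∑ r, ∑ s, A2 r s * (if r.1 = x.1 ∧ s.1 = y.1 then
      ∑ z : (Σ j, b j) × (Σ j, b j), C (B' z.1 z.2) * (Lm B r z.1 * Lm B s z.2) else 0)) +
      A y * (if y.1 = x.1 then ∑ z : (Σ j, b j) × (Σ j, b j), C (B' z.1 z.2) *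
        (if y.1 = z.2.1 then C (B z.1 z.2) else 0) else 0) := by
    rw [Lap]
    have h2 : ∀ z : (Σ j, b j) × (Σ j, b j), C (B' z.1 z.2) * pd y z.2 (pd x z.1 a) =
        (∑ r, ∑ s, A2 r s * (if r.1 = x.1 ∧ s.1 = y.1 then
          C (B' z.1 z.2) * (Lm B r z.1 * Lm B s z.2) else 0)) +
        A y * (if y.1 = x.1 then C (B' z.1 z.2) *
        (if y.1 = z.2.1 then C (B z.1 z.2) else 0) else 0) := by
      intro z
      rw [hA', map_sum, Finset.mul_sum]
      have h3 : ∀ r, C (B' z.1 z.2) *
          pd y z.2 (A r * (if r.1 = x.1 then Lm B r z.1 else 0)) =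
          (∑ s, A2 r s * (if r.1 = x.1 ∧ s.1 = y.1 then
          C (B' z.1 z.2) * (Lm B r z.1 * Lm B s z.2) else 0)) +
          (if r = y then A y * (if y.1 = x.1 then C (B' z.1 z.2) *
        (if y.1 = z.2.1 then C (B z.1 z.2) else 0) else 0) else 0) := by
        intro r
        rw [Derivation.leibniz, smul_eq_mul, smul_eq_mul, hA2', mul_add, add_comm]
        congr 1
        · rw [Finset.mul_sum, Finset.mul_sum]
          refine Finset.sum_congr rfl fun s _ => ?_
          by_cases h4 : r.1 = x.1
          · by_cases h5 : s.1 = y.1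
            · simp only [h4, h5, and_self, if_true]
              ring
            · simp only [h4, h5, and_false, if_true, if_false]
              ring
          · simp only [h4, false_and, if_false]
            ring
        · by_cases h4 : r = y
          · subst h4
            rw [if_pos rfl]
            by_cases h5 : r.1 = x.1
            · rw [if_pos h5, if_pos h5, pd_Lm, if_pos rfl]
              ring
            · rw [if_neg h5, if_neg h5, map_zero]
              ring
          · rw [if_neg h4]
            by_cases h5 : r.1 = x.1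
            · rw [if_pos h5, pd_Lm, if_neg h4]
              ring
            · rw [if_neg h5, map_zero]
              ring
      rw [Finset.sum_congr rfl fun r _ => h3 r, Finset.sum_add_distrib,
        Finset.sum_ite_eq' univ y, if_pos (mem_univ _)]
    rw [Finset.sum_congr rfl fun z _ => h2 z, Finset.sum_add_distrib]
    congr 1
    · rw [Finset.sum_comm]
      refine Finset.sum_congr rfl fun r _ => ?_
      rw [Finset.sum_comm]
      refine Finset.sum_congr rfl fun s _ => ?_
      rw [← Finset.mul_sum]
      congr 1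
      split_ifs
      · rfl
      · simp
    · rw [← Finset.mul_sum]
      congr 1
      split_ifs
      · rfl
      · simp
  rw [h1]
  refine add_mem (sum_mem fun r _ => sum_mem fun s _ => mul_mem (hA2 r s) ?_)
    (mul_mem (hA y) ?_)
  · split_ifs with h4
    · -- the matrix identity
      have h5 : ∑ z : (Σ j, b j) × (Σ j, b j), C (B' z.1 z.2) * (Lm B r z.1 * Lm B s z.2) =
          GQ B s r := by
        have h6 : Lm B * B'.map C * (Lm B)ᵀ = (GQ B)ᵀ := by
          have h7 : B'.map C * B.map C = (1 : Matrix (Σ j, b j) (Σ j, b j) (Ply b K)) := by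
            rw [← Matrix.map_mul, hBB, Matrix.map_one _ (map_zero _) (map_one _)]
          rw [Lm, GQ, Matrix.transpose_mul, Matrix.transpose_mul, Matrix.transpose_mul,
            Matrix.transpose_transpose, Matrix.transpose_transpose]
          rw [Matrix.mul_assoc (GM b K * (B.map C)ᵀ), ← Matrix.mul_assoc (B'.map C), h7,
            Matrix.one_mul, Matrix.mul_assoc]
        have h8 := congrFun (congrFun h6 r) s
        rw [Matrix.transpose_apply] at h8
        rw [← h8, Matrix.mul_apply, Fintype.sum_prod_type_right]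
        refine Finset.sum_congr rfl fun k _ => ?_
        rw [Matrix.mul_apply, Finset.sum_mul]
        refine Finset.sum_congr rfl fun i _ => ?_
        rw [Matrix.map_apply, Matrix.transpose_apply]
        ring
      rw [h5]
      exact GQ_mem _ _ _
    · exact zero_mem _
  · split_ifs
    · refine sum_mem fun z _ => mul_mem ((Alg B).algebraMap_mem _) ?_
      split_ifs
      · exact (Alg B).algebraMap_mem _
      · exact zero_mem _
    · exact zero_mem _

/-- multiplication by the other algebra preserves orthogonality -/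
theorem apo_mul_alg (hB : ∀ i k, B i k ≠ 0 → i.1 = k.1) (hε : ∀ i k, B k i = ε i.1 * B i k)
    (hBB : B' * B = 1) {f : Ply b K} (hf : ∀ a ∈ Alg B, apo f a = 0) {h : Ply b K}
    (hh : h ∈ Alg B') : ∀ a ∈ Alg B, apo (f * h) a = 0 := by
  revert f
  induction hh using Algebra.adjoin_induction with
  | mem h hh =>
    obtain ⟨⟨x, y⟩, rfl⟩ := hh
    intro f hf a ha
    rw [apo_mul_GQ]
    exact hf _ (Lap_mem hB hε hBB x y ha)
  | algebraMap c =>
    intro f hf a ha
    rw [mul_comm, algebraMap_eq, apo_C_mul, hf a ha, mul_zero]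
  | add h h' _ _ h1 h2 =>
    intro f hf a ha
    rw [mul_add, map_add, LinearMap.add_apply, h1 hf a ha, h2 hf a ha, add_zero]
  | mul h h' _ _ h1 h2 =>
    intro f hf
    rw [← mul_assoc]
    exact h2 (h1 hf)

/-- orthogonality to the algebra from orthogonality to the products of generators -/
theorem apo_alg {f : Ply b K}
    (hf : ∀ (r : ℕ) (P : Fin r × Fin 2 → Σ j, b j),
      apo f (∏ l : Fin r, GQ B (P (l, 0)) (P (l, 1))) = 0) : ∀ a ∈ Alg B, apo f a = 0 := by
  intro a ha
  have h1 : a ∈ Submodule.span K (Submonoid.closure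
      (Set.range fun x : (Σ j, b j) × (Σ j, b j) => GQ B x.1 x.2) : Set (Ply b K)) := by
    rw [← Algebra.adjoin_eq_span]
    exact ha
  have h2 : ∀ a ∈ Submonoid.closure
      (Set.range fun x : (Σ j, b j) × (Σ j, b j) => GQ B x.1 x.2),
      ∃ (r : ℕ) (P : Fin r → (Σ j, b j) × (Σ j, b j)), a = ∏ l, GQ B (P l).1 (P l).2 := by
    intro a ha
    induction ha using Submonoid.closure_induction_left with
    | one => exact ⟨0, fun l => l.elim0, by simp⟩
    | mul_left x hx y _ ih =>
      obtain ⟨z, rfl⟩ := hx
      obtain ⟨r, P, rfl⟩ := ih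
      refine ⟨r + 1, Fin.cons z P, ?_⟩
      rw [Fin.prod_univ_succ]
      simp
  clear ha
  induction h1 using Submodule.span_induction with
  | mem a ha =>
    obtain ⟨r, P, rfl⟩ := h2 a ha
    have := hf r (pairEquiv r _ P)
    simpa [pairEquiv] using this
  | zero => rw [map_zero]
  | add a a' _ _ h1 h2 => rw [map_add, h1, h2, add_zero]
  | smul c a _ h1 => rw [map_smul, h1, smul_zero]

end

end Pool.Agent.Y104.Kempf
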