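import Mathlib
import Pool.Agent.Helper605.TraceR

set_option autoImplicit false

open MeasureTheory Set Filter Topology Matrix
open scoped ENNReal NNReal

namespace Pool.Agent.Y104.NM

variable {n : ℕ}

/-- nonnegative matrices whose powers grow slower than every exponential -/
def Slow (A : Matrix (Fin n) (Fin n) ℝ) : Prop :=
  (∀ i j, 0 ≤ A i j) ∧ ∀ t : ℝ, 0 < t → t < 1 → ∃ C : ℝ, ∀ (k : ℕ) (i j : Fin n),
    t ^ k * (A ^ k) i j ≤ C

/-- the complex form of a real matrix -/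
noncomputable abbrev cx (A : Matrix (Fin n) (Fin n) ℝ) : Matrix (Fin n) (Fin n) ℂ :=
  A.map (algebraMap ℝ ℂ)

attribute [local instance] Matrix.linftyOpNormedRing Matrix.linftyOpNormedAlgebra

theorem slow_of_roots {A : Matrix (Fin n) (Fin n) ℝ} (hA : ∀ i j, 0 ≤ A i j)
    (hr : ∀ z : ℂ, (cx A).charpoly.IsRoot z → ‖z‖ ≤ 1) : Slow A := by
  refine ⟨hA, fun t ht0 ht1 => ?_⟩
  rcases Nat.eq_zero_or_pos n with rfl | hn
  · exact ⟨0, fun k i => i.elim0⟩
  have : Nonempty (Fin n) := ⟨⟨0, hn⟩⟩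
  set M := cx A with hM
  have ht' : 1 < t⁻¹ := (one_lt_inv₀ ht0).2 ht1
  have hrad : spectralRadius ℂ M < (Real.toNNReal t⁻¹ : ℝ≥0) := by
    refine spectrum.spectralRadius_lt_of_forall_lt _ fun z hz => ?_
    rw [Matrix.mem_spectrum_iff_isRoot_charpoly] at hz
    have h1 := hr z hz
    rw [← NNReal.coe_lt_coe, coe_nnnorm, Real.coe_toNNReal _ (by positivity)]
    linarith
  have hG := spectrum.pow_nnnorm_pow_one_div_tendsto_nhds_spectralRadius M
  have hev := hG.eventually_lt_const hrad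
  have hle : ∀ᶠ k : ℕ in atTop, ‖M ^ k‖ ≤ (t⁻¹ : ℝ) ^ k := by
    filter_upwards [hev, eventually_gt_atTop 0] with k hk hk0
    have hk0' : (k : ℝ) ≠ 0 := by exact_mod_cast hk0.ne'
    have h1 : ((‖M ^ k‖₊ : ℝ≥0∞) ^ (1 / (k : ℝ))) ^ (k : ℝ) ≤
        ((Real.toNNReal t⁻¹ : ℝ≥0) : ℝ≥0∞) ^ (k : ℝ) :=
      ENNReal.rpow_le_rpow hk.le (by positivity)
    rw [← ENNReal.rpow_mul, one_div, inv_mul_cancel₀ hk0', ENNReal.rpow_one, ENNReal.rpow_natCast] at h1
    have h2 : ‖M ^ k‖₊ ≤ (Real.toNNReal t⁻¹) ^ k := by exact_mod_cast h1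
    have h3 : (‖M ^ k‖₊ : ℝ) ≤ ((Real.toNNReal t⁻¹) ^ k : ℝ≥0) := by exact_mod_cast h2
    rw [NNReal.coe_pow, Real.coe_toNNReal _ (by positivity)] at h3
    exact h3
  have hentry : ∀ (k : ℕ) (i j : Fin n), (A ^ k) i j ≤ ‖M ^ k‖ := by
    intro k i j
    have e : M ^ k = (A ^ k).map (algebraMap ℝ ℂ) := by
      rw [hM, cx, Matrix.map_pow]
    have h5 : ‖(A ^ k) i j‖₊ = ‖(M ^ k) i j‖₊ := by rw [e]; simp
    have h6 : ‖(M ^ k) i j‖₊ ≤ ‖M ^ k‖₊ := by
      rw [Matrix.linfty_opNNNorm_def]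
      refine le_trans ?_ (Finset.le_sup (Finset.mem_univ i))
      exact Finset.single_le_sum (f := fun j => ‖(M ^ k) i j‖₊)
        (fun _ _ => zero_le) (Finset.mem_univ j)
    have h7 := h5.le.trans h6
    have h8 : ‖(A ^ k) i j‖ ≤ ‖M ^ k‖ := by exact_mod_cast h7
    exact (Real.le_norm_self _).trans h8
  obtain ⟨K, hK⟩ := eventually_atTop.1 hle
  refine ⟨∑ k ∈ Finset.range K, t ^ k * ‖M ^ k‖ + 1, fun k i j => ?_⟩
  have hsum : 0 ≤ ∑ k ∈ Finset.range K, t ^ k * ‖M ^ k‖ :=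
    Finset.sum_nonneg fun k _ => by positivity
  have h1 : t ^ k * (A ^ k) i j ≤ t ^ k * ‖M ^ k‖ :=
    mul_le_mul_of_nonneg_left (hentry k i j) (by positivity)
  refine h1.trans ?_
  rcases lt_or_ge k K with h | h
  · have := Finset.single_le_sum (f := fun k => t ^ k * ‖M ^ k‖) (fun k _ => by positivity)
      (Finset.mem_range.2 h)
    linarith
  · have h2 := mul_le_mul_of_nonneg_left (hK k h) (show (0 : ℝ) ≤ t ^ k by positivity)
    rw [← mul_pow, mul_inv_cancel₀ ht0.ne', one_pow] at h2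
    linarith

theorem pow_nonneg' {A : Matrix (Fin n) (Fin n) ℝ} (hA : ∀ i j, 0 ≤ A i j) (k : ℕ) :
    ∀ i j, 0 ≤ (A ^ k) i j := by
  induction k with
  | zero =>
    intro i j
    rw [pow_zero, Matrix.one_apply]
    split_ifs <;> norm_num
  | succ k ih =>
    intro i j
    rw [pow_succ, Matrix.mul_apply]
    exact Finset.sum_nonneg fun l _ => mul_nonneg (ih i l) (hA l j)

theorem slow_sub {A : Matrix (Fin (n + 1)) (Fin (n + 1)) ℝ} (h : Slow A) (r : Fin (n + 1)) :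
    Slow (A.submatrix r.succAbove r.succAbove) := by
  refine ⟨fun i j => h.1 _ _, fun t ht0 ht1 => ?_⟩
  obtain ⟨C, hC⟩ := h.2 t ht0 ht1
  have key : ∀ (k : ℕ) (i j : Fin n), ((A.submatrix r.succAbove r.succAbove) ^ k) i j ≤
      (A ^ k) (r.succAbove i) (r.succAbove j) := by
    intro k
    induction k with
    | zero =>
      intro i j
      simp [Matrix.one_apply]
    | succ k ih =>
      intro i j
      rw [pow_succ, pow_succ, Matrix.mul_apply, Matrix.mul_apply, Fin.sum_univ_succAbove _ r]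
      have h1 : 0 ≤ (A ^ k) (r.succAbove i) r * A r (r.succAbove j) :=
        mul_nonneg (pow_nonneg' h.1 k _ _) (h.1 _ _)
      have h2 : ∑ l, ((A.submatrix r.succAbove r.succAbove) ^ k) i l *
          (A.submatrix r.succAbove r.succAbove) l j ≤
          ∑ l, (A ^ k) (r.succAbove i) (r.succAbove l) * A (r.succAbove l) (r.succAbove j) :=
        Finset.sum_le_sum fun l _ => mul_le_mul_of_nonneg_right (ih i l) (h.1 _ _)
      linarith
  exact ⟨C, fun k i j => (mul_le_mul_of_nonneg_left (key k i j) (by positivity)).trans (hC _ _ _)⟩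

theorem roots_of_slow {A : Matrix (Fin n) (Fin n) ℝ} (h : Slow A) {z : ℂ}
    (hz : (cx A).charpoly.IsRoot z) : ‖z‖ ≤ 1 := by
  by_contra hcon
  push Not at hcon
  -- an eigenvector
  have h1 : z ∈ spectrum ℂ (cx A) := Matrix.mem_spectrum_iff_isRoot_charpoly.2 hz
  have h2 : Module.End.HasEigenvalue (Matrix.toLin' (cx A)) z := by
    rw [Module.End.hasEigenvalue_iff_mem_spectrum, Matrix.spectrum_toLin']
    exact h1
  obtain ⟨v, hv⟩ := h2.exists_hasEigenvector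
  have hv1 : (cx A) *ᵥ v = z • v := by
    have := hv.apply_eq_smul
    rwa [Matrix.toLin'_apply] at this
  have hv0 : v ≠ 0 := hv.2
  obtain ⟨i, hi⟩ : ∃ i, v i ≠ 0 := Function.ne_iff.1 hv0
  have hpow : ∀ k : ℕ, ((cx A) ^ k) *ᵥ v = z ^ k • v := by
    intro k
    induction k with
    | zero => simp
    | succ k ih =>
      rw [pow_succ', ← Matrix.mulVec_mulVec, ih, Matrix.mulVec_smul, hv1, smul_smul, pow_succ]
  -- choose `t`
  have hz0 : 0 < ‖z‖ := by linarith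
  obtain ⟨t, ht1, ht2⟩ := exists_between ((inv_lt_one₀ hz0).2 hcon)
  have ht0 : 0 < t := lt_trans (inv_pos.2 hz0) ht1
  obtain ⟨C, hC⟩ := h.2 t ht0 ht2
  have hbig : 1 < t * ‖z‖ := by
    have := mul_lt_mul_of_pos_right ht1 hz0
    rwa [inv_mul_cancel₀ hz0.ne'] at this
  have hbound : ∀ k : ℕ, (t * ‖z‖) ^ k * ‖v i‖ ≤ ∑ j, C * ‖v j‖ := by
    intro k
    have e1 := congrFun (hpow k) i
    have e2 : ‖z‖ ^ k * ‖v i‖ = ‖(((cx A) ^ k) *ᵥ v) i‖ := by
      rw [e1, Pi.smul_apply, smul_eq_mul, norm_mul, norm_pow]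
    have e3 : ‖(((cx A) ^ k) *ᵥ v) i‖ ≤ ∑ j, (A ^ k) i j * ‖v j‖ := by
      rw [Matrix.mulVec, dotProduct]
      refine (norm_sum_le _ _).trans (Finset.sum_le_sum fun j _ => ?_)
      rw [norm_mul]
      refine mul_le_mul_of_nonneg_right (le_of_eq ?_) (norm_nonneg _)
      rw [cx, ← Matrix.map_pow, Matrix.map_apply]
      simp only [Complex.coe_algebraMap, Complex.norm_real]
      exact Real.norm_of_nonneg (pow_nonneg' h.1 k i j)
    calc (t * ‖z‖) ^ k * ‖v i‖ = t ^ k * (‖z‖ ^ k * ‖v i‖) := by rw [mul_pow]; ring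
      _ ≤ t ^ k * ∑ j, (A ^ k) i j * ‖v j‖ := by
          rw [e2]; exact mul_le_mul_of_nonneg_left e3 (by positivity)
      _ = ∑ j, (t ^ k * (A ^ k) i j) * ‖v j‖ := by
          rw [Finset.mul_sum]; exact Finset.sum_congr rfl fun j _ => by ring
      _ ≤ ∑ j, C * ‖v j‖ := Finset.sum_le_sum fun j _ =>
          mul_le_mul_of_nonneg_right (hC k i j) (norm_nonneg _)
  have hvi : 0 < ‖v i‖ := norm_pos_iff.2 hi
  obtain ⟨k, hk⟩ := pow_unbounded_of_one_lt ((∑ j, C * ‖v j‖) / ‖v i‖) hbig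
  rw [div_lt_iff₀ hvi] at hk
  exact absurd (hbound k) (not_le.2 hk)

/-- powers of diagonal entries -/
theorem diag_pow_le {A : Matrix (Fin n) (Fin n) ℝ} (hA : ∀ i j, 0 ≤ A i j) (k : ℕ) (i : Fin n) :
    A i i ^ k ≤ (A ^ k) i i := by
  induction k with
  | zero => simp
  | succ k ih =>
    rw [pow_succ, pow_succ, Matrix.mul_apply]
    have h1 : (A ^ k) i i * A i i ≤ ∑ j, (A ^ k) i j * A j i :=
      Finset.single_le_sum (f := fun j => (A ^ k) i j * A j i)
        (fun j _ => mul_nonneg (pow_nonneg' hA k i j) (hA j i)) (Finset.mem_univ i)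
    exact (mul_le_mul_of_nonneg_right ih (hA i i)).trans h1

theorem diag_le_one {A : Matrix (Fin n) (Fin n) ℝ} (h : Slow A) (i : Fin n) : A i i ≤ 1 := by
  by_contra hcon
  push Not at hcon
  have h0 : 0 < A i i := by linarith
  obtain ⟨t, ht1, ht2⟩ := exists_between ((inv_lt_one₀ h0).2 hcon)
  have ht0 : 0 < t := lt_trans (inv_pos.2 h0) ht1
  obtain ⟨C, hC⟩ := h.2 t ht0 ht2
  have hbig : 1 < t * A i i := by
    have := mul_lt_mul_of_pos_right ht1 h0
    rwa [inv_mul_cancel₀ h0.ne'] at this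
  obtain ⟨k, hk⟩ := pow_unbounded_of_one_lt C hbig
  have h1 := hC k i i
  have h2 := mul_le_mul_of_nonneg_left (diag_pow_le h.1 k i) (show (0 : ℝ) ≤ t ^ k by positivity)
  rw [← mul_pow] at h2
  linarith

end Pool.Agent.Y104.NM
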