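import Pool.Agent.Y104.NeumannA
import Pool.Agent.H558R2.FL

set_option autoImplicit false

open Filter Topology Matrix Polynomial

namespace Pool.Agent.Y104.NM

variable {n : ℕ}

theorem log_series (s : Multiset ℂ) (hs : ∀ z ∈ s, ‖z‖ < 1) :
    ∃ L : ℂ, HasSum (fun k : ℕ => (s.map fun z => z ^ k).sum / k) L ∧
      Complex.exp (-L) = (s.map fun z => 1 - z).prod := by
  induction s using Multiset.induction_on with
  | empty => exact ⟨0, by simp, by simp⟩
  | cons a s ih =>
    obtain ⟨L, h1, h2⟩ := ih fun z hz => hs z (Multiset.mem_cons_of_mem hz)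
    have ha := hs a (Multiset.mem_cons_self a s)
    have h3 := Complex.hasSum_taylorSeries_neg_log ha
    refine ⟨-Complex.log (1 - a) + L, ?_, ?_⟩
    · have := h3.add h1
      convert this using 2 with k
      rw [Multiset.map_cons, Multiset.sum_cons, add_div]
    · rw [Multiset.map_cons, Multiset.prod_cons, ← h2, neg_add, Complex.exp_add, neg_neg,
        Complex.exp_log]
      intro h
      have : a = 1 := by linear_combination -h
      rw [this, norm_one] at ha
      exact lt_irrefl _ ha

theorem det_one_sub (M : Matrix (Fin n) (Fin n) ℂ) {t : ℂ} (ht : t ≠ 0) :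
    (1 - t • M).det = ((M.charpoly.roots.map fun z => t * z).map fun z => 1 - z).prod := by
  have h1 : M.charpoly.eval t⁻¹ = (Matrix.scalar _ t⁻¹ - M).det := Matrix.eval_charpoly M t⁻¹
  have h2 : (1 - t • M) = t • (Matrix.scalar (Fin n) t⁻¹ - M) := by
    rw [smul_sub]
    congr 1
    ext i j
    rw [Matrix.smul_apply, Matrix.scalar_apply, Matrix.diagonal_apply, Matrix.one_apply]
    split_ifs
    · rw [smul_eq_mul, mul_inv_cancel₀ ht]
    · simp
  have hsp : M.charpoly.Splits := IsAlgClosed.splits _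
  have h3 : M.charpoly.eval t⁻¹ = (M.charpoly.roots.map fun z => t⁻¹ - z).prod := by
    conv_lhs => rw [hsp.eq_prod_roots]
    rw [M.charpoly_monic.leadingCoeff, C_1, one_mul, eval_multiset_prod, Multiset.map_map]
    simp
  have hcard : M.charpoly.roots.card = n := by
    rw [Polynomial.splits_iff_card_roots.1 hsp, M.charpoly_natDegree_eq_dim, Fintype.card_fin]
  rw [h2, Matrix.det_smul, ← h1, h3, Fintype.card_fin, Multiset.map_map]
  have h4 : ∀ s : Multiset ℂ, t ^ s.card * (s.map fun z => t⁻¹ - z).prod =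
      (s.map ((fun z => 1 - z) ∘ fun z => t * z)).prod := by
    intro s
    induction s using Multiset.induction_on with
    | empty => simp
    | cons a s ih =>
      rw [Multiset.map_cons, Multiset.prod_cons, Multiset.card_cons, Multiset.map_cons,
        Multiset.prod_cons, ← ih]
      have : (((fun z => 1 - z) ∘ fun z => t * z) a : ℂ) = t * (t⁻¹ - a) := by
        simp only [Function.comp_apply]
        rw [mul_sub, mul_inv_cancel₀ ht]
      rw [this]
      ring
  rw [← h4, hcard]

theorem mem_roots_cx {A : Matrix (Fin n) (Fin n) ℝ} {z : ℂ} :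
    z ∈ (cx A).charpoly.roots ↔ (cx A).charpoly.IsRoot z :=
  Polynomial.mem_roots (cx A).charpoly_monic.ne_zero

/-- exponential form of a real product -/
theorem exp_form (s : Multiset ℂ) (hs : ∀ z ∈ s, ‖z‖ < 1) (p : ℕ → ℝ)
    (hp : ∀ k, (s.map fun z => z ^ k).sum = (p k : ℂ)) :
    ∃ L : ℝ, HasSum (fun k : ℕ => p k / k) L ∧
      (s.map fun z => 1 - z).prod = ((Real.exp (-L) : ℝ) : ℂ) := by
  obtain ⟨L, h1, h2⟩ := log_series s hs
  have e : (fun k : ℕ => (s.map fun z => z ^ k).sum / k) = fun k : ℕ => (((p k / k : ℝ)) : ℂ) := by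
    funext k
    rw [hp]
    push_cast
    rfl
  rw [e] at h1
  obtain ⟨h3, h4⟩ := (Complex.hasSum_iff _ _).1 h1
  have h5 : HasSum (fun k : ℕ => (((p k / k : ℝ) : ℂ)).im) 0 := by
    simp
  have h6 : L.im = 0 := h4.unique h5
  refine ⟨L.re, by simpa using h3, ?_⟩
  rw [← h2]
  have : L = (L.re : ℂ) := by
    apply Complex.ext
    · simp
    · simpa using h6
  rw [this]
  push_cast
  simp

theorem det_le_aux {A : Matrix (Fin n) (Fin n) ℝ} (h : Slow A) {t : ℝ} (ht0 : 0 < t) (ht1 : t < 1) :
    (1 - t • A).det ≤ ∏ i, (1 - t * A i i) := by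
  have htc : (t : ℂ) ≠ 0 := by exact_mod_cast ht0.ne'
  -- the left side
  obtain ⟨L1, a1, a2⟩ := exp_form ((cx A).charpoly.roots.map fun z => (t : ℂ) * z) (by
    intro z hz
    obtain ⟨w, hw, rfl⟩ := Multiset.mem_map.1 hz
    have := roots_of_slow h (mem_roots_cx.1 hw)
    rw [norm_mul, Complex.norm_real, Real.norm_of_nonneg ht0.le]
    nlinarith [norm_nonneg w]) (fun k => t ^ k * (A ^ k).trace) (by
    intro k
    rw [Multiset.map_map]
    have e1 : ((fun z : ℂ => z ^ k) ∘ fun z => (t : ℂ) * z) = fun z => (t : ℂ) ^ k * z ^ k := by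
      funext z; simp [mul_pow]
    rw [e1, Multiset.sum_map_mul_left, ← Pool.Agent.Helper605.trace_pow_roots]
    rw [cx, ← Matrix.map_pow]
    have e2 : ((A ^ k).map (algebraMap ℝ ℂ)).trace = (((A ^ k).trace : ℝ) : ℂ) := by
      rw [← AddMonoidHom.map_trace]
      rfl
    rw [e2]
    push_cast
    rfl)
  -- the right side
  obtain ⟨L2, b1, b2⟩ := exp_form ((Finset.univ : Finset (Fin n)).val.map fun i => ((t * A i i : ℝ) : ℂ)) (by
    intro z hz
    obtain ⟨i, _, rfl⟩ := Multiset.mem_map.1 hz
    rw [Complex.norm_real, Real.norm_of_nonneg (mul_nonneg ht0.le (h.1 i i))]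
    have := diag_le_one h i
    nlinarith [h.1 i i]) (fun k => ∑ i, (t * A i i) ^ k) (by
    intro k
    rw [Multiset.map_map]
    push_cast
    rfl)
  have hL : L2 ≤ L1 := by
    refine hasSum_le (fun k => ?_) b1 a1
    refine div_le_div_of_nonneg_right ?_ (Nat.cast_nonneg k)
    rw [Matrix.trace, Finset.mul_sum]
    refine Finset.sum_le_sum fun i _ => ?_
    rw [mul_pow, Matrix.diag_apply]
    exact mul_le_mul_of_nonneg_left (diag_pow_le h.1 k i) (by positivity)
  have e1 : (((1 - t • A).det : ℝ) : ℂ) = ((Real.exp (-L1) : ℝ) : ℂ) := by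
    rw [← a2, ← det_one_sub _ htc]
    have : (((1 - t • A).det : ℝ) : ℂ) = ((1 - t • A).map (algebraMap ℝ ℂ)).det :=
      (RingHom.map_det (algebraMap ℝ ℂ) _)
    rw [this]
    congr 1
    ext i j
    simp [Matrix.one_apply]
    split_ifs <;> simp
  have e2 : ((∏ i, (1 - t * A i i) : ℝ) : ℂ) = ((Real.exp (-L2) : ℝ) : ℂ) := by
    rw [← b2, Multiset.map_map]
    push_cast
    rfl
  have e1' : (1 - t • A).det = Real.exp (-L1) := by exact_mod_cast e1
  have e2' : ∏ i, (1 - t * A i i) = Real.exp (-L2) := by exact_mod_cast e2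
  rw [e1', e2']
  exact Real.exp_le_exp.2 (by linarith)

theorem det_le {A : Matrix (Fin n) (Fin n) ℝ} (h : Slow A) :
    (1 - A).det ≤ ∏ i, (1 - A i i) := by
  have hc : Continuous fun t : ℝ => ∏ i, (1 - t * A i i) - (1 - t • A).det := by
    refine Continuous.sub (by fun_prop) ?_
    exact Continuous.matrix_det (by fun_prop)
  have h1 : Tendsto (fun t : ℝ => ∏ i, (1 - t * A i i) - (1 - t • A).det) (𝓝[<] 1)
      (𝓝 (∏ i, (1 - 1 * A i i) - (1 - (1 : ℝ) • A).det)) :=
    (hc.tendsto 1).mono_left nhdsWithin_le_nhds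
  have h2 : ∀ᶠ t : ℝ in 𝓝[<] 1, 0 ≤ ∏ i, (1 - t * A i i) - (1 - t • A).det := by
    filter_upwards [Ioo_mem_nhdsLT (show (0 : ℝ) < 1 by norm_num)] with t ht
    have := det_le_aux h ht.1 ht.2
    linarith
  have h3 := ge_of_tendsto h1 h2
  simp only [one_mul, one_smul] at h3
  linarith

/-! ### derivatives of the characteristic polynomial -/

theorem derivative_charpoly_sub (A : Matrix (Fin (n + 1)) (Fin (n + 1)) ℝ) :
    derivative A.charpoly = ∑ r : Fin (n + 1), (A.submatrix r.succAbove r.succAbove).charpoly := by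
  rw [Pool.Agent.H558R2.derivative_charpoly, Matrix.trace]
  refine Finset.sum_congr rfl fun r _ => ?_
  rw [Matrix.diag_apply, Matrix.adjugate_fin_succ_eq_det_submatrix, Matrix.charpoly]
  have e : ((-1 : ℝ[X]) ^ ((r : ℕ) + (r : ℕ))) = 1 := Even.neg_one_pow ⟨r, rfl⟩
  rw [e, one_mul]
  congr 1
  ext i j
  rw [Matrix.submatrix_apply]
  by_cases hij : i = j
  · subst hij
    rw [charmatrix_apply_eq, charmatrix_apply_eq, Matrix.submatrix_apply]
  · rw [charmatrix_apply_ne _ _ _ hij, charmatrix_apply_ne _ _ _ (by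
      intro h; exact hij (Fin.succAbove_right_injective h)), Matrix.submatrix_apply]

theorem key (j : ℕ) : ∀ (n : ℕ) (A : Matrix (Fin n) (Fin n) ℝ), Slow A →
    (derivative^[j] A.charpoly).eval 1 ≤
      (derivative^[j] (Matrix.diagonal fun i => A i i).charpoly).eval 1 := by
  induction j with
  | zero =>
    intro n A h
    simp only [Function.iterate_zero, id_eq]
    rw [Matrix.charpoly_diagonal, eval_prod, Matrix.eval_charpoly]
    have e : (Matrix.scalar (Fin n) (1 : ℝ) - A) = 1 - A := by
      rw [map_one]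
    rw [e]
    simpa using det_le h
  | succ j ih =>
    intro n A h
    cases n with
    | zero =>
      have e : A.charpoly = (Matrix.diagonal fun i => A i i).charpoly := by
        congr 1
        exact Subsingleton.elim _ _
      rw [e]
    | succ n =>
      rw [Function.iterate_succ_apply, Function.iterate_succ_apply, derivative_charpoly_sub,
        derivative_charpoly_sub, iterate_derivative_sum, iterate_derivative_sum, eval_finsetSum,
        eval_finsetSum]
      refine Finset.sum_le_sum fun r _ => ?_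
      have e : (Matrix.diagonal fun i => A i i).submatrix r.succAbove r.succAbove =
          Matrix.diagonal fun i => (A.submatrix r.succAbove r.succAbove) i i := by
        ext i k
        rw [Matrix.submatrix_apply, Matrix.diagonal_apply, Matrix.diagonal_apply]
        simp [Fin.succAbove_right_injective.eq_iff]
      rw [e]
      exact ih n _ (slow_sub h r)

end Pool.Agent.Y104.NM
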