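import Mathlib
import Pool.Agent.TH172.FV.Mac

set_option autoImplicit false

open Polynomial

namespace Pool.Agent.Y104.NM

/-- the product of the factors `X + d` -/
noncomputable def pr (s : Multiset ℝ) : ℝ[X] := (s.map fun d => X + C d).prod

lemma esymm_one' {R : Type*} [CommRing R] (s : Multiset R) : s.esymm 1 = s.sum := by
  rw [Multiset.esymm, Multiset.powersetCard_one, Multiset.map_map]
  simp

lemma pr_monic (s : Multiset ℝ) : (pr s).Monic :=
  monic_multiset_prod_of_monic _ _ fun d _ => monic_X_add_C d

lemma pr_natDegree (s : Multiset ℝ) : (pr s).natDegree = s.card := by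
  rw [pr, natDegree_multiset_prod_of_monic]
  · rw [Multiset.map_map]
    simp
  · intro f hf
    obtain ⟨d, _, rfl⟩ := Multiset.mem_map.1 hf
    exact monic_X_add_C d

lemma pr_splits (s : Multiset ℝ) : (pr s).Splits := by
  rw [pr]
  refine Splits.multisetProd fun f hf => ?_
  obtain ⟨d, _, rfl⟩ := Multiset.mem_map.1 hf
  exact Splits.X_add_C d

lemma amgm_multiset (s : Multiset ℝ) (hs : ∀ x ∈ s, 0 ≤ x) :
    s.prod ≤ (s.sum / s.card) ^ s.card := by
  rcases Nat.eq_zero_or_pos s.card with h | h
  · rw [Multiset.card_eq_zero] at h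
    subst h
    simp
  · obtain ⟨m, hm⟩ : ∃ m, s.card = m + 1 := ⟨s.card - 1, by omega⟩
    obtain ⟨l, rfl⟩ : ∃ l : List ℝ, s = (l : Multiset ℝ) := ⟨s.toList, (Multiset.coe_toList s).symm⟩
    rw [Multiset.coe_card] at hm
    have h1 := Pool.Agent.TH172.FV.amgm (n := m) (fun i => l.get (i.cast hm.symm))
      (fun i => hs _ (by simp))
    have e1 : ∏ i : Fin (m + 1), l.get (i.cast hm.symm) = l.prod := by
      rw [← List.prod_ofFn]
      congr 1
      apply List.ext_get
      · simp [hm]
      · intro k h1 h2
        simp only [List.get_eq_getElem, List.getElem_ofFn, Fin.val_cast]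
    have e2 : ∑ i : Fin (m + 1), l.get (i.cast hm.symm) = l.sum := by
      rw [← List.sum_ofFn]
      congr 1
      apply List.ext_get
      · simp [hm]
      · intro k h1 h2
        simp only [List.get_eq_getElem, List.getElem_ofFn, Fin.val_cast]
    rw [e1, e2] at h1
    rw [Multiset.prod_coe, Multiset.sum_coe, Multiset.coe_card, hm]
    push_cast
    exact h1

lemma pr_eval_pos {s : Multiset ℝ} (hs : ∀ x ∈ s, 0 ≤ x) {x : ℝ} (hx : 0 < x) : 0 < (pr s).eval x := by
  induction s using Multiset.induction_on with
  | empty => simp [pr]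
  | cons a s ih =>
    have h1 := ih fun y hy => hs y (Multiset.mem_cons_of_mem hy)
    have e : pr (a ::ₘ s) = (X + C a) * pr s := by simp [pr]
    rw [e, eval_mul, eval_add, eval_X, eval_C]
    exact mul_pos (by linarith [hs a (Multiset.mem_cons_self a s)]) h1

lemma pr_deriv_nonneg {s : Multiset ℝ} (hs : ∀ x ∈ s, 0 ≤ x) {x : ℝ} (hx : 0 < x) :
    0 ≤ (derivative (pr s)).eval x ∧ (s ≠ 0 → 0 < (derivative (pr s)).eval x) := by
  induction s using Multiset.induction_on with
  | empty => simp [pr]
  | cons a s ih =>
    have hs' : ∀ y ∈ s, 0 ≤ y := fun y hy => hs y (Multiset.mem_cons_of_mem hy)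
    obtain ⟨h1, -⟩ := ih hs'
    have h2 := pr_eval_pos hs' hx
    have ha := hs a (Multiset.mem_cons_self a s)
    have e : pr (a ::ₘ s) = (X + C a) * pr s := by simp [pr]
    have e2 : (derivative (pr (a ::ₘ s))).eval x = (pr s).eval x + (x + a) * (derivative (pr s)).eval x := by
      rw [e, derivative_mul]
      simp
    rw [e2]
    have h3 : 0 ≤ (x + a) * (derivative (pr s)).eval x := mul_nonneg (by linarith) h1
    exact ⟨by linarith, fun _ => by linarith⟩

lemma splits_derivative' {f : ℝ[X]} (hf : f.Splits) : f.derivative.Splits := by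
  rcases Nat.eq_zero_or_pos f.natDegree with h0 | h0
  · rw [derivative_of_natDegree_zero h0]
    exact Splits.zero
  · rw [splits_iff_card_roots] at hf ⊢
    have h1 := card_roots_le_derivative f
    have h2 := card_roots' f.derivative
    have h3 := natDegree_derivative_lt h0.ne'
    omega

/-- the derivative is of the same form -/
lemma pr_deriv (s : Multiset ℝ) (hs : ∀ x ∈ s, 0 ≤ x) {m : ℕ} (hm : s.card = m + 1) :
    ∃ s' : Multiset ℝ, (∀ x ∈ s', 0 ≤ x) ∧ s'.card = m ∧
      derivative (pr s) = C ((m : ℝ) + 1) * pr s' ∧ ((m : ℝ) + 1) * s'.sum = m * s.sum := by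
  have hs0 : s ≠ 0 := by
    rintro rfl
    simp at hm
  have hsp := splits_derivative' (pr_splits s)
  have hdeg : (derivative (pr s)).natDegree = m := by
    rw [natDegree_derivative, pr_natDegree, hm]
    rfl
  have hlc : (derivative (pr s)).leadingCoeff = (m : ℝ) + 1 := by
    rw [leadingCoeff, hdeg, coeff_derivative]
    have : (pr s).coeff (m + 1) = 1 := by
      have := pr_monic s
      rw [Monic, leadingCoeff, pr_natDegree, hm] at this
      exact this
    rw [this, one_mul]
  have hne : derivative (pr s) ≠ 0 := by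
    intro h
    rw [h, leadingCoeff_zero] at hlc
    have : (0 : ℝ) < (m : ℝ) + 1 := by positivity
    linarith
  set s' : Multiset ℝ := (derivative (pr s)).roots.map fun r => -r with hs'
  have hs'' : pr s' = ((derivative (pr s)).roots.map fun x => X - C x).prod := by
    rw [hs', pr, Multiset.map_map]
    congr 1
    refine Multiset.map_congr rfl fun r _ => ?_
    simp [sub_eq_add_neg]
  have hform : derivative (pr s) = C ((m : ℝ) + 1) * pr s' := by
    rw [hs'', ← hlc]
    exact hsp.eq_prod_roots
  have hcard : s'.card = m := by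
    rw [hs', Multiset.card_map, splits_iff_card_roots.1 hsp, hdeg]
  refine ⟨s', ?_, hcard, hform, ?_⟩
  · intro x hx
    obtain ⟨r, hr, rfl⟩ := Multiset.mem_map.1 hx
    by_contra hcon
    push Not at hcon
    have hr0 : 0 < r := by linarith
    have h1 := (pr_deriv_nonneg hs hr0).2 hs0
    have h2 := (mem_roots hne).1 hr
    rw [IsRoot.def] at h2
    linarith
  · cases m with
    | zero =>
      rw [Multiset.card_eq_zero] at hcard
      rw [hcard]
      simp
    | succ m =>
      have c1 : (derivative (pr s)).coeff m = (pr s).coeff (m + 1) * (m + 1) := coeff_derivative _ _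
      have c2 : (pr s).coeff (m + 1) = s.sum := by
        rw [pr, Multiset.prod_X_add_C_coeff s (by omega), hm]
        rw [show m + 1 + 1 - (m + 1) = 1 by omega, esymm_one']
      have c3 : (pr s').coeff m = s'.sum := by
        rw [pr, Multiset.prod_X_add_C_coeff s' (by omega), hcard]
        rw [show m + 1 - m = 1 by omega, esymm_one']
      rw [hform, coeff_C_mul, c3, c2] at c1
      push_cast at c1 ⊢
      linarith

/-- Maclaurin's inequality in terms of derivatives -/
theorem maclaurin_deriv (j : ℕ) : ∀ s : Multiset ℝ, (∀ x ∈ s, 0 ≤ x) →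
    (derivative^[j] (pr s)).eval 0 ≤ (s.card.descFactorial j : ℝ) * (s.sum / s.card) ^ (s.card - j) := by
  induction j with
  | zero =>
    intro s hs
    simp only [Function.iterate_zero, id_eq, Nat.descFactorial_zero, Nat.cast_one, one_mul,
      Nat.sub_zero]
    have e : (pr s).eval 0 = s.prod := by
      rw [pr, eval_multiset_prod, Multiset.map_map]
      simp
    rw [e]
    exact amgm_multiset s hs
  | succ j ih =>
    intro s hs
    rcases Nat.eq_zero_or_pos s.card with h | h
    · rw [Multiset.card_eq_zero] at h
      subst h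
      have : derivative^[j + 1] (pr 0) = 0 := by
        rw [Function.iterate_succ_apply]
        simp [pr]
      rw [this]
      simp
    · obtain ⟨m, hm⟩ : ∃ m, s.card = m + 1 := ⟨s.card - 1, by omega⟩
      obtain ⟨s', h1, h2, h3, h4⟩ := pr_deriv s hs hm
      rw [Function.iterate_succ_apply, h3, iterate_derivative_C_mul, eval_mul, eval_C, hm,
        Nat.succ_descFactorial_succ]
      have h5 := ih s' h1
      rw [h2] at h5
      have h6 : 0 ≤ (m : ℝ) + 1 := by positivity
      refine (mul_le_mul_of_nonneg_left h5 h6).trans (le_of_eq ?_)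
      have e1 : m + 1 - (j + 1) = m - j := by omega
      rw [e1]
      push_cast
      rcases Nat.eq_zero_or_pos m with rfl | hm0
      · simp
      · have hm0' : (m : ℝ) ≠ 0 := by exact_mod_cast hm0.ne'
        have e2 : s'.sum / m = s.sum / ((m : ℝ) + 1) := by
          rw [div_eq_div_iff hm0' (by positivity)]
          linarith
        rw [e2]
        ring

end Pool.Agent.Y104.NM
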