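import Pool.Agent.Y104.NeumannB
import Pool.Agent.Y104.NeumannC

set_option autoImplicit false

open Polynomial Matrix

namespace Pool.Agent.Y104.NM

lemma iterate_eval_eq {R : Type*} [CommRing R] (Q : R[X]) (j : ℕ) (r : R) :
    (derivative^[j] Q).eval r = (j.factorial : R) * (taylor r Q).coeff j := by
  rw [taylor_coeff, ← factorial_smul_hasseDeriv, LinearMap.smul_apply, eval_smul, nsmul_eq_mul]

lemma taylor_prod (s : Multiset ℂ) :
    taylor 1 (s.map fun z => X - C z).prod = ((s.map fun z => 1 - z).map fun z => X + C z).prod := by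
  induction s using Multiset.induction_on with
  | empty => simp
  | cons a s ih =>
    rw [Multiset.map_cons, Multiset.prod_cons, taylor_mul, ih, Multiset.map_cons, Multiset.map_cons,
      Multiset.prod_cons]
    congr 1
    rw [map_sub, taylor_X, taylor_C, C_sub, C_1]
    ring

lemma taylor_prod_real (s : Multiset ℝ) :
    taylor 1 (s.map fun z => X - C z).prod = pr (s.map fun z => 1 - z) := by
  induction s using Multiset.induction_on with
  | empty => simp [pr]
  | cons a s ih =>
    rw [Multiset.map_cons, Multiset.prod_cons, taylor_mul, ih, Multiset.map_cons, pr, pr,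
      Multiset.map_cons, Multiset.prod_cons]
    congr 1
    rw [map_sub, taylor_X, taylor_C, C_sub, C_1]
    ring

variable {n : ℕ}

lemma card_roots (A : Matrix (Fin n) (Fin n) ℝ) : (cx A).charpoly.roots.card = n := by
  rw [Polynomial.splits_iff_card_roots.1 (IsAlgClosed.splits _), (cx A).charpoly_natDegree_eq_dim,
    Fintype.card_fin]

lemma charpoly_prod (A : Matrix (Fin n) (Fin n) ℝ) :
    (cx A).charpoly = ((cx A).charpoly.roots.map fun z => X - C z).prod := by
  have hsp : (cx A).charpoly.Splits := IsAlgClosed.splits _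
  conv_lhs => rw [hsp.eq_prod_roots]
  rw [(cx A).charpoly_monic.leadingCoeff, C_1, one_mul]

/-- the elementary symmetric functions of the numbers `1 - λ` -/
theorem esymm_bound {A : Matrix (Fin n) (Fin n) ℝ} (h : Slow A) {k : ℕ} (hk : k ≤ n) :
    (((cx A).charpoly.roots.map fun z => 1 - z).esymm k).im = 0 ∧
    (((cx A).charpoly.roots.map fun z => 1 - z).esymm k).re ≤
      (n.choose k : ℝ) * ((∑ i, (1 - A i i)) / n) ^ k := by
  set j := n - k with hj
  have hjn : j ≤ n := Nat.sub_le _ _
  have hnj : n - j = k := by omega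
  -- complex side
  have h1 : (taylor 1 (cx A).charpoly).coeff j =
      ((cx A).charpoly.roots.map fun z => 1 - z).esymm k := by
    conv_lhs => rw [charpoly_prod A]
    rw [taylor_prod, Multiset.prod_X_add_C_coeff _ (by rw [Multiset.card_map, card_roots]; exact hjn),
      Multiset.card_map, card_roots, hnj]
  have h2 : (cx A).charpoly = A.charpoly.map (algebraMap ℝ ℂ) := Matrix.charpoly_map _ _
  have h3 : (taylor 1 (cx A).charpoly).coeff j = (((taylor 1 A.charpoly).coeff j : ℝ) : ℂ) := by
    rw [h2]
    have : taylor (1 : ℂ) (A.charpoly.map (algebraMap ℝ ℂ)) =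
        (taylor 1 A.charpoly).map (algebraMap ℝ ℂ) := by
      rw [taylor_apply, taylor_apply, Polynomial.map_comp, Polynomial.map_add, map_X, map_C]
      simp
    rw [this, coeff_map]
    rfl
  rw [← h1, h3, Complex.ofReal_im, Complex.ofReal_re]
  refine ⟨rfl, ?_⟩
  -- the comparison
  have h4 := key j n A h
  have h5 : (Matrix.diagonal fun i => A i i).charpoly =
      (((Finset.univ : Finset (Fin n)).val.map fun i => A i i).map fun z => X - C z).prod := by
    rw [Matrix.charpoly_diagonal, Multiset.map_map]
    rfl
  rw [iterate_eval_eq, iterate_eval_eq, h5, taylor_prod_real] at h4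
  set s : Multiset ℝ := ((Finset.univ : Finset (Fin n)).val.map fun i => A i i).map fun z => 1 - z with hs
  have hs0 : ∀ x ∈ s, 0 ≤ x := by
    intro x hx
    rw [hs, Multiset.map_map] at hx
    obtain ⟨i, _, rfl⟩ := Multiset.mem_map.1 hx
    have := diag_le_one h i
    simp only [Function.comp_apply]
    linarith
  have hcard : s.card = n := by
    rw [hs, Multiset.card_map, Multiset.card_map]
    simp
  have hsum : s.sum = ∑ i, (1 - A i i) := by
    rw [hs, Multiset.map_map]
    rfl
  have h6 := maclaurin_deriv j s hs0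
  rw [iterate_eval_eq, taylor_zero, hcard, hsum, hnj] at h6
  have hf : (0 : ℝ) < (j.factorial : ℝ) := by exact_mod_cast j.factorial_pos
  have h7 : (j.factorial : ℝ) * (taylor 1 A.charpoly).coeff j ≤
      (j.factorial : ℝ) * ((n.choose k : ℝ) * ((∑ i, (1 - A i i)) / n) ^ k) := by
    refine h4.trans (h6.trans (le_of_eq ?_))
    rw [Nat.descFactorial_eq_factorial_mul_choose, hj, Nat.choose_symm hk]
    push_cast
    ring
  exact le_of_mul_le_mul_left h7 hf

lemma esymm_zero_cons (s : Multiset ℂ) (k : ℕ) : (0 ::ₘ s).esymm k = s.esymm k := by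
  cases k with
  | zero => simp [Multiset.esymm]
  | succ k =>
    rw [Multiset.esymm, Multiset.powersetCard_cons, Multiset.map_add, Multiset.sum_add,
      Multiset.map_map]
    have : (Multiset.map (Multiset.prod ∘ Multiset.cons 0) (Multiset.powersetCard k s)).sum = 0 := by
      refine Multiset.sum_eq_zero fun x hx => ?_
      obtain ⟨t, _, rfl⟩ := Multiset.mem_map.1 hx
      simp
    rw [this, add_zero]
    rfl

lemma esymm_card (s : Multiset ℂ) : s.esymm s.card = s.prod := by
  rw [Multiset.esymm, Multiset.powersetCard_self]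
  simp

lemma trace_sum (A : Matrix (Fin n) (Fin n) ℝ) :
    ((cx A).charpoly.roots.map fun z => 1 - z).sum = ((∑ i, (1 - A i i) : ℝ) : ℂ) := by
  rw [Multiset.sum_map_sub, Multiset.map_const', Multiset.sum_replicate, card_roots, Multiset.map_id',
    Finset.sum_sub_distrib]
  have h1 := Pool.Agent.Helper605.trace_pow_roots n (cx A) 1
  rw [pow_one] at h1
  simp only [pow_one, Multiset.map_id'] at h1
  rw [← h1]
  have e2 : (cx A).trace = ((A.trace : ℝ) : ℂ) := by
    rw [cx, ← AddMonoidHom.map_trace]
    rfl
  rw [e2, Matrix.trace]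
  simp [Matrix.diag_apply]

end Pool.Agent.Y104.NM
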