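import Pool.Agent.Y104.NeumannD

set_option autoImplicit false

open Polynomial Matrix

namespace Pool.Agent.Y104.NM

/-- the cyclic matrix -/
def cyc (n : ℕ) : Matrix (Fin (n + 1)) (Fin (n + 1)) ℝ := fun i j => if j = i + 1 then 1 else 0

/-- the extremal matrix -/
def ext (n : ℕ) (s : ℝ) : Matrix (Fin (n + 1)) (Fin (n + 1)) ℝ := (1 - s) • 1 + s • cyc n

lemma pow_add_one {n : ℕ} {w : ℂ} (hw : w ^ (n + 1) = 1) (i : Fin (n + 1)) :
    w ^ ((i + 1 : Fin (n + 1)) : ℕ) = w * w ^ (i : ℕ) := by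
  rcases eq_or_lt_of_le (Fin.le_last i) with h | h
  · subst h
    rw [Fin.last_add_one, Fin.val_last, ← pow_succ', hw]
    simp
  · rw [Fin.val_add_one_of_lt h, pow_succ']

lemma ext_charpoly (n : ℕ) (s : ℝ) {ζ : ℂ} (hζ : IsPrimitiveRoot ζ (n + 1)) :
    (cx (ext n s)).charpoly = (Matrix.diagonal fun j : Fin (n + 1) =>
      (1 - s + s * ζ ^ (j : ℕ) : ℂ)).charpoly := by
  set V : Matrix (Fin (n + 1)) (Fin (n + 1)) ℂ :=
    (Matrix.vandermonde fun j : Fin (n + 1) => ζ ^ (j : ℕ))ᵀ with hV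
  have hVd : V.det ≠ 0 := by
    rw [hV, Matrix.det_transpose, Matrix.det_vandermonde_ne_zero_iff]
    intro i j hij
    exact Fin.ext (hζ.pow_inj i.2 j.2 hij)
  have hVa : ∀ i j, V i j = (ζ ^ (j : ℕ)) ^ (i : ℕ) := fun i j => rfl
  have hcomm : cx (ext n s) * V = V * Matrix.diagonal fun j : Fin (n + 1) =>
      (1 - s + s * ζ ^ (j : ℕ) : ℂ) := by
    ext i j
    rw [Matrix.mul_diagonal, Matrix.mul_apply]
    have e1 : ∀ l, (cx (ext n s)) i l * V l j = (if l = i then (1 - s : ℂ) * V l j else 0) +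
        (if l = i + 1 then (s : ℂ) * V l j else 0) := by
      intro l
      simp only [cx, ext, Matrix.map_apply, Matrix.add_apply, Matrix.smul_apply, smul_eq_mul,
        Matrix.one_apply, cyc, Complex.coe_algebraMap]
      by_cases h1 : l = i
      · subst h1
        by_cases h2 : l = l + 1
        · rw [if_pos rfl, if_pos h2, if_pos rfl, if_pos h2]
          push_cast
          ring
        · rw [if_pos rfl, if_neg h2, if_pos rfl, if_neg h2]
          push_cast
          ring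
      · rw [if_neg (Ne.symm h1), if_neg h1]
        by_cases h2 : l = i + 1
        · rw [if_pos h2, if_pos h2]
          push_cast
          ring
        · rw [if_neg h2, if_neg h2]
          push_cast
          ring
    rw [Finset.sum_congr rfl fun l _ => e1 l, Finset.sum_add_distrib, Finset.sum_ite_eq',
      Finset.sum_ite_eq', if_pos (Finset.mem_univ _), if_pos (Finset.mem_univ _), hVa, hVa,
      pow_add_one (by rw [← pow_mul, mul_comm, pow_mul, hζ.pow_eq_one, one_pow])]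
    ring
  have hu : IsUnit V := (Matrix.isUnit_iff_isUnit_det V).2 (isUnit_iff_ne_zero.2 hVd)
  obtain ⟨U, hU⟩ := hu
  rw [← Matrix.charpoly_units_conj U (Matrix.diagonal fun j : Fin (n + 1) =>
    (1 - s + s * ζ ^ (j : ℕ) : ℂ))]
  congr 1
  rw [hU]
  have : (U : Matrix (Fin (n + 1)) (Fin (n + 1)) ℂ) * ((U⁻¹ : (Matrix (Fin (n + 1)) (Fin (n + 1)) ℂ)ˣ) :
    Matrix (Fin (n + 1)) (Fin (n + 1)) ℂ) = 1 := U.mul_inv
  rw [← hcomm, mul_assoc, ← hU, ← Matrix.coe_units_inv, this, mul_one]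

lemma ext_roots (n : ℕ) (s : ℝ) {ζ : ℂ} (hζ : IsPrimitiveRoot ζ (n + 1)) :
    (cx (ext n s)).charpoly.roots =
      (Multiset.range (n + 1)).map fun j => (1 - s + s * ζ ^ j : ℂ) := by
  rw [ext_charpoly n s hζ, Matrix.charpoly_diagonal,
    Fin.prod_univ_eq_prod_range (fun j => X - C (1 - s + s * ζ ^ j : ℂ)) (n + 1)]
  have : (∏ j ∈ Finset.range (n + 1), (X - C (1 - s + s * ζ ^ j : ℂ))) =
      (((Multiset.range (n + 1)).map fun j => (1 - s + s * ζ ^ j : ℂ)).map fun z => X - C z).prod := by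
    rw [Multiset.map_map]
    rfl
  rw [this, roots_multiset_prod_X_sub_C]

lemma ext_esymm (n : ℕ) (s : ℝ) {ζ : ℂ} (hζ : IsPrimitiveRoot ζ (n + 1)) {k : ℕ} (hk : k ≤ n) :
    ((cx (ext n s)).charpoly.roots.map fun z : ℂ => 1 - z).esymm k =
      ((((n + 1).choose k : ℝ) * s ^ k : ℝ) : ℂ) := by
  have hcard : ((cx (ext n s)).charpoly.roots.map fun z => 1 - z).card = n + 1 := by
    rw [Multiset.card_map, card_roots]
  have h1 := Multiset.prod_X_add_C_coeff ((cx (ext n s)).charpoly.roots.map fun z => 1 - z)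
    (k := n + 1 - k) (by omega)
  rw [hcard, show n + 1 - (n + 1 - k) = k by omega] at h1
  rw [← h1]
  have h2 : (Multiset.map (fun r => X + C r) ((cx (ext n s)).charpoly.roots.map fun z => 1 - z)).prod
      = (X + C (s : ℂ)) ^ (n + 1) - C ((s : ℂ) ^ (n + 1)) := by
    rw [ext_roots n s hζ, Multiset.map_map, Multiset.map_map]
    have h3 : (X ^ (n + 1) - C ((s : ℂ) ^ (n + 1)) : ℂ[X]) =
        ((nthRoots (n + 1) ((s : ℂ) ^ (n + 1))).map fun z => X - C z).prod := by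
      have hsp : (X ^ (n + 1) - C ((s : ℂ) ^ (n + 1)) : ℂ[X]).Splits := IsAlgClosed.splits _
      have hm : (X ^ (n + 1) - C ((s : ℂ) ^ (n + 1)) : ℂ[X]).Monic :=
        monic_X_pow_sub_C _ (by omega)
      conv_lhs => rw [hsp.eq_prod_roots]
      rw [hm.leadingCoeff, C_1, one_mul]
      rfl
    rw [hζ.nthRoots_eq (α := (s : ℂ)) rfl, Multiset.map_map] at h3
    have h4 := congrArg (fun P : ℂ[X] => P.comp (X + C (s : ℂ))) h3
    simp only [sub_comp, X_pow_comp, C_comp] at h4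
    rw [h4, multiset_prod_comp, Multiset.map_map]
    congr 1
    refine Multiset.map_congr rfl fun j _ => ?_
    simp only [Function.comp_apply, sub_comp, X_comp, C_comp]
    rw [show (1 - (1 - (s : ℂ) + s * ζ ^ j)) = s - ζ ^ j * s by ring, C_sub]
    ring
  rw [h2, coeff_sub, coeff_X_add_C_pow, coeff_C, if_neg (by omega), sub_zero,
    show n + 1 - (n + 1 - k) = k by omega, Nat.choose_symm (by omega)]
  push_cast
  ring

lemma ext_nonneg (n : ℕ) {s : ℝ} (hs0 : 0 ≤ s) (hs1 : s ≤ 1) (i j : Fin (n + 1)) : 0 ≤ ext n s i j := by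
  simp only [ext, Matrix.add_apply, Matrix.smul_apply, smul_eq_mul, Matrix.one_apply, cyc]
  split_ifs <;> nlinarith

lemma ext_row (n : ℕ) (s : ℝ) (i : Fin (n + 1)) : ∑ j, ext n s i j = 1 := by
  simp only [ext, Matrix.add_apply, Matrix.smul_apply, smul_eq_mul, Matrix.one_apply, cyc]
  rw [Finset.sum_add_distrib, ← Finset.mul_sum, ← Finset.mul_sum]
  simp

lemma ext_col (n : ℕ) (s : ℝ) (j : Fin (n + 1)) : ∑ i, ext n s i j = 1 := by
  simp only [ext, Matrix.add_apply, Matrix.smul_apply, smul_eq_mul, Matrix.one_apply, cyc]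
  rw [Finset.sum_add_distrib, ← Finset.mul_sum, ← Finset.mul_sum]
  have e : ∀ i : Fin (n + 1), (if j = i + 1 then (1 : ℝ) else 0) = if i = j - 1 then 1 else 0 := by
    intro i
    by_cases h : j = i + 1
    · rw [if_pos h, if_pos (by rw [h]; abel)]
    · rw [if_neg h, if_neg (by rintro rfl; exact h (by abel))]
  simp_rw [e]
  simp

lemma ext_norm (n : ℕ) {s : ℝ} (hs0 : 0 ≤ s) (hs1 : s ≤ 1) {ζ : ℂ} (hζ : IsPrimitiveRoot ζ (n + 1))
    {z : ℂ} (hz : z ∈ (cx (ext n s)).charpoly.roots) : ‖z‖ ≤ 1 := by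
  rw [ext_roots n s hζ] at hz
  obtain ⟨j, _, rfl⟩ := Multiset.mem_map.1 hz
  have h1 : ‖ζ‖ = 1 := hζ.norm'_eq_one (by omega)
  have h2 : (1 - s + s * ζ ^ j : ℂ) = ((1 - s : ℝ) : ℂ) + ((s : ℝ) : ℂ) * ζ ^ j := by push_cast; ring
  rw [h2]
  refine (norm_add_le _ _).trans ?_
  rw [norm_mul, norm_pow, h1, one_pow, mul_one, Complex.norm_real, Complex.norm_real,
    Real.norm_of_nonneg (by linarith), Real.norm_of_nonneg hs0]
  linarith

lemma ext_one_mem (n : ℕ) (s : ℝ) {ζ : ℂ} (hζ : IsPrimitiveRoot ζ (n + 1)) :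
    (1 : ℂ) ∈ (cx (ext n s)).charpoly.roots := by
  rw [ext_roots n s hζ, Multiset.mem_map]
  exact ⟨0, Multiset.mem_range.2 (Nat.succ_pos n), by simp⟩

end Pool.Agent.Y104.NM
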