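import Mathlib

/-!
# Filtrations given by norms, adapted bases, common adapted bases
-/

open Finset Module

set_option linter.unusedSectionVars false

namespace Pool.Agent.Y104.Kempf

section

variable {L : Type*} [Field L] {V : Type*} [AddCommGroup V] [Module L V]

/-- A function defining a filtration by subspaces. -/
structure IsNrm (L : Type*) [Field L] {V : Type*} [AddCommGroup V] [Module L V]
    (w : V → ℝ) : Prop where
  add : ∀ x y, x ≠ 0 → y ≠ 0 → x + y ≠ 0 → min (w x) (w y) ≤ w (x + y)
  smul : ∀ (c : L) x, c ≠ 0 → x ≠ 0 → w (c • x) = w x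
  fin : (w '' {x | x ≠ 0}).Finite

/-- A basis adapted to the filtration. -/
def Adp {n : Type*} (w : V → ℝ) (e : Basis n L V) : Prop :=
  ∀ x p, e.repr x p ≠ 0 → w x ≤ w (e p)

theorem IsNrm.restrict {w : V → ℝ} (h : IsNrm L w) (H : Submodule L V) :
    IsNrm L (fun x : H => w x) := by
  refine ⟨fun x y hx hy hxy => ?_, fun c x hc hx => ?_, h.fin.subset ?_⟩
  · exact h.add x y (fun h => hx (Subtype.ext h)) (fun h => hy (Subtype.ext h))
      (fun h => hxy (Subtype.ext h))
  · exact h.smul c x hc (fun h => hx (Subtype.ext h))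
  · rintro _ ⟨x, hx, rfl⟩
    exact ⟨x, fun h => hx (Subtype.ext h), rfl⟩

theorem IsNrm.neg {w : V → ℝ} (h : IsNrm L w) {x : V} (hx : x ≠ 0) : w (-x) = w x := by
  have := h.smul (-1) x (neg_ne_zero.2 one_ne_zero) hx
  simpa using this

/-- The subspace of vectors of large norm. -/
def IsNrm.gt {w : V → ℝ} (h : IsNrm L w) (r : ℝ) : Submodule L V where
  carrier := {x | x = 0 ∨ r < w x}
  add_mem' := by
    intro x y hx hy
    by_cases h0 : x + y = 0
    · exact Or.inl h0
    rcases hx with hx | hx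
    · subst hx
      rw [zero_add] at h0 ⊢
      exact hy
    · rcases hy with hy | hy
      · subst hy
        rw [add_zero] at h0 ⊢
        exact Or.inr hx
      · by_cases hx0 : x = 0
        · subst hx0
          rw [zero_add]
          exact Or.inr hy
        · by_cases hy0 : y = 0
          · subst hy0
            rw [add_zero]
            exact Or.inr hx
          · exact Or.inr ((lt_min hx hy).trans_le (h.add x y hx0 hy0 h0))
  zero_mem' := Or.inl rfl
  smul_mem' := by
    intro c x hx
    by_cases hc : c = 0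
    · exact Or.inl (by rw [hc, zero_smul])
    · rcases hx with hx | hx
      · exact Or.inl (by rw [hx, smul_zero])
      · by_cases hx0 : x = 0
        · exact Or.inl (by rw [hx0, smul_zero])
        · exact Or.inr (by rw [h.smul c x hc hx0]; exact hx)

theorem IsNrm.mem_gt {w : V → ℝ} (h : IsNrm L w) (r : ℝ) (x : V) :
    x ∈ h.gt r ↔ x = 0 ∨ r < w x := Iff.rfl

theorem IsNrm.exists_top {w : V → ℝ} (h : IsNrm L w) [Nontrivial V] :
    ∃ x : V, x ≠ 0 ∧ ∀ y, y ≠ 0 → w y ≤ w x := by
  have h1 : (w '' {x | x ≠ 0}).Nonempty := by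
    obtain ⟨x, hx⟩ := exists_ne (0 : V)
    exact ⟨w x, x, hx, rfl⟩
  obtain ⟨_, ⟨x, hx, rfl⟩, hmax⟩ := Set.exists_max_image _ id h.fin h1
  exact ⟨x, hx, fun y hy => hmax _ ⟨y, hy, rfl⟩⟩

/-- **Two filtrations have a common adapted basis.** -/
theorem exists_common (n : ℕ) : ∀ {V : Type*} [AddCommGroup V] [Module L V]
    [FiniteDimensional L V], finrank L V = n → ∀ {w w' : V → ℝ}, IsNrm L w → IsNrm L w' →
    ∃ e : Basis (Fin n) L V, Adp w e ∧ Adp w' e := by
  induction n with
  | zero =>
    intro V _ _ _ hV w w' _ _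
    refine ⟨(finBasis L V).reindex (finCongr hV), fun x p => p.elim0, fun x p => p.elim0⟩
  | succ n ih =>
    intro V _ _ _ hV w w' hw hw'
    have hnt : Nontrivial V := Module.nontrivial_of_finrank_pos (R := L) (by omega)
    obtain ⟨x, hx, hmax⟩ := hw.exists_top
    have hx' : x ∉ hw'.gt (w' x) := by
      rw [hw'.mem_gt]
      rintro (h | h)
      · exact hx h
      · exact lt_irrefl _ h
    obtain ⟨φ, hφ, hφ'⟩ := Submodule.exists_le_ker_of_notMem hx'
    have hfin : finrank L φ.ker = n := by
      have h1 := φ.finrank_range_add_finrank_ker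
      have h2 : φ.range = ⊤ := LinearMap.range_eq_top.2 (LinearMap.surjective (by
        intro h
        exact hφ (by rw [h, LinearMap.zero_apply])))
      rw [h2, finrank_top, finrank_self] at h1
      omega
    obtain ⟨e, he, he'⟩ := ih hfin (hw.restrict φ.ker) (hw'.restrict φ.ker)
    have hli : ∀ c : L, ∀ y ∈ φ.ker, c • x + y = 0 → c = 0 := by
      intro c y hy hc
      have h1 := congrArg φ hc
      rw [map_add, map_smul, LinearMap.mem_ker.1 hy, add_zero, map_zero, smul_eq_mul] at h1
      exact (mul_eq_zero.1 h1).resolve_right hφ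
    have hsp : ∀ z : V, ∃ c : L, z + c • x ∈ φ.ker := by
      intro z
      refine ⟨-(φ z / φ x), ?_⟩
      rw [LinearMap.mem_ker, map_add, map_smul, smul_eq_mul, neg_mul, div_mul_cancel₀ _ hφ,
        add_neg_cancel]
    let f := Basis.mkFinCons x e hli hsp
    have hf : ⇑f = Fin.cons x (Subtype.val ∘ ⇑e) := Basis.coe_mkFinCons x e hli hsp
    -- expansions
    have hexp : ∀ z, z = f.repr z 0 • x + (∑ p, f.repr z (Fin.succ p) • (e p : V)) := by
      intro z
      conv_lhs => rw [← f.sum_repr z, Fin.sum_univ_succ]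
      rw [hf]
      simp
    have hcoord : ∀ z (y : φ.ker), (y : V) = (∑ p, f.repr z (Fin.succ p) • (e p : V)) →
        ∀ p, e.repr y p = f.repr z (Fin.succ p) := by
      intro z y hy p
      have h1 : y = ∑ p, f.repr z (Fin.succ p) • e p := by
        apply Subtype.ext
        rw [hy]
        push_cast
        rfl
      rw [h1]
      have := e.repr_sum_self (fun p => f.repr z (Fin.succ p))
      exact congrFun this p
    -- general comparison
    have key : ∀ u : V → ℝ, IsNrm L u → (∀ c : L, ∀ y ∈ φ.ker, c ≠ 0 → u (c • x + y) ≤ u x) →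
        Adp (fun x : φ.ker => u x) e → Adp u f := by
      intro u hu hux hue z p hp
      set c := f.repr z 0 with hc
      have hymem : (∑ p, f.repr z (Fin.succ p) • (e p : V)) ∈ φ.ker :=
        Submodule.sum_mem _ fun p _ => Submodule.smul_mem _ _ (e p).2
      set y : φ.ker := ⟨_, hymem⟩ with hy
      have hz : z = c • x + y := hexp z
      have hcy := hcoord z y rfl
      refine Fin.cases ?_ (fun p => ?_) p hp
      · intro h0
        rw [hf, Fin.cons_zero, hz]
        exact hux c y y.2 h0
      · intro h0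
        rw [hf, Fin.cons_succ, Function.comp_apply]
        rw [← hcy] at h0
        have h1 := hue y p h0
        refine le_trans ?_ h1
        change u z ≤ u y
        have hy0 : (y : V) ≠ 0 := by
          intro h2
          have h3 : y = 0 := Subtype.ext h2
          rw [h3, map_zero] at h0
          exact h0 rfl
        by_cases hc0 : c = 0
        · rw [hz, hc0, zero_smul, zero_add]
        · by_contra hlt
          push Not at hlt
          have hcx : c • x ≠ 0 := smul_ne_zero hc0 hx
          have hz0 : z ≠ 0 := by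
            rw [hz]
            intro h4
            exact hc0 (hli c y y.2 h4)
          have h5 : (y : V) = z + -(c • x) := by rw [hz]; abel
          have h6 := hu.add z (-(c • x)) hz0 (neg_ne_zero.2 hcx) (by rw [← h5]; exact hy0)
          rw [← h5, hu.neg hcx, hu.smul c x hc0 hx] at h6
          have h7 : u z ≤ u x := by
            rw [hz]
            exact hux c y y.2 hc0
          rw [min_eq_left h7] at h6
          exact absurd h6 (not_le.2 hlt)
    refine ⟨f, key w hw ?_ he, key w' hw' ?_ he'⟩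
    · intro c y hy hc
      exact hmax _ fun h => hc (hli c y hy h)
    · intro c y hy hc
      by_contra hlt
      push Not at hlt
      have h1 : c • x + y ∈ hw'.gt (w' x) := (hw'.mem_gt _ _).2 (Or.inr hlt)
      have h2 := LinearMap.mem_ker.1 (hφ' h1)
      rw [map_add, map_smul, LinearMap.mem_ker.1 hy, add_zero, smul_eq_mul] at h2
      exact (mul_ne_zero hc hφ) h2

theorem exists_common' {n : Type} [Fintype n] [FiniteDimensional L V]
    (hn : Fintype.card n = finrank L V) {w w' : V → ℝ} (hw : IsNrm L w) (hw' : IsNrm L w') :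
    ∃ e : Basis n L V, Adp w e ∧ Adp w' e := by
  obtain ⟨e, he, he'⟩ := exists_common (L := L) _ rfl hw hw'
  let g : Fin (finrank L V) ≃ n := (Fintype.equivFinOfCardEq hn).symm
  refine ⟨e.reindex g, fun x p hp => ?_, fun x p hp => ?_⟩
  · rw [Basis.reindex_apply]
    rw [Basis.repr_reindex_apply] at hp
    exact he x _ hp
  · rw [Basis.reindex_apply]
    rw [Basis.repr_reindex_apply] at hp
    exact he' x _ hp

/-- a vector and its coordinates -/
theorem exists_coord {n : Type} [Fintype n] {w : V → ℝ} (hw : IsNrm L w) {e : Basis n L V}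
    {x : V} (hx : x ≠ 0) : ∃ p, e.repr x p ≠ 0 ∧ w (e p) ≤ w x := by
  classical
  have h1 : ∀ (s : Finset n), (∑ p ∈ s, e.repr x p • e p) ≠ 0 →
      ∃ p ∈ s, e.repr x p ≠ 0 ∧ w (e p) ≤ w (∑ p ∈ s, e.repr x p • e p) := by
    intro s
    induction s using Finset.induction_on with
    | empty => intro h; simp at h
    | insert q s hq ih =>
      intro h
      rw [Finset.sum_insert hq] at h ⊢
      by_cases h2 : e.repr x q = 0
      · rw [h2, zero_smul, zero_add] at h ⊢
        obtain ⟨p, hp, hp'⟩ := ih h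
        exact ⟨p, mem_insert_of_mem hp, hp'⟩
      · have h3 : e.repr x q • e q ≠ 0 := smul_ne_zero h2 (e.ne_zero q)
        by_cases h4 : (∑ p ∈ s, e.repr x p • e p) = 0
        · rw [h4, add_zero]
          exact ⟨q, mem_insert_self _ _, h2, le_of_eq (hw.smul _ _ h2 (e.ne_zero q)).symm⟩
        · obtain ⟨p, hp, hp1, hp2⟩ := ih h4
          have h5 := hw.add _ _ h3 h4 h
          rw [hw.smul _ _ h2 (e.ne_zero q)] at h5
          rcases min_le_iff.1 h5 with h6 | h6
          · exact ⟨q, mem_insert_self _ _, h2, h6⟩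
          · exact ⟨p, mem_insert_of_mem hp, hp1, hp2.trans h6⟩
  have h2 := h1 univ (by rw [e.sum_repr]; exact hx)
  rw [e.sum_repr] at h2
  obtain ⟨p, -, hp⟩ := h2
  exact ⟨p, hp⟩

/-- norms with the same adapted basis and the same values are equal -/
theorem nrm_ext {n : Type} [Fintype n] {w w' : V → ℝ} (hw : IsNrm L w) (hw' : IsNrm L w')
    {e : Basis n L V} (he : Adp w e) (he' : Adp w' e) (h : ∀ p, w (e p) = w' (e p)) {x : V}
    (hx : x ≠ 0) : w x = w' x := by
  apply le_antisymm
  · obtain ⟨p, hp, hp'⟩ := exists_coord hw' (e := e) hx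
    exact (he x p hp).trans ((h p).le.trans hp')
  · obtain ⟨p, hp, hp'⟩ := exists_coord hw (e := e) hx
    exact (he' x p hp).trans ((h p).ge.trans hp')

/-- **The values on an adapted basis do not depend on the basis.** -/
theorem adp_perm {n : Type} [Fintype n] [DecidableEq n] {w : V → ℝ} {e e' : Basis n L V}
    (he : Adp w e) (he' : Adp w e') : ∃ σ : Equiv.Perm n, ∀ q, w (e' q) = w (e (σ q)) := by
  have h1 : ∀ e e' : Basis n L V, Adp w e → ∃ σ : Equiv.Perm n, ∀ q, w (e' q) ≤ w (e (σ q)) := by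
    intro e e' he
    have h2 : (e.toMatrix e').det ≠ 0 := by
      have h3 : e.toMatrix e' * e'.toMatrix e = 1 := Basis.toMatrix_mul_toMatrix_flip e e'
      have h4 := congrArg Matrix.det h3
      rw [Matrix.det_mul, Matrix.det_one] at h4
      exact left_ne_zero_of_mul_eq_one h4
    rw [Matrix.det_apply] at h2
    obtain ⟨σ, -, hσ⟩ := Finset.exists_ne_zero_of_sum_ne_zero h2
    refine ⟨σ, fun q => he _ _ ?_⟩
    intro h3
    apply hσ
    have h4 : e.toMatrix (⇑e') (σ q) q = 0 := h3
    have h5 : ∏ i, e.toMatrix (⇑e') (σ i) i = 0 := Finset.prod_eq_zero (mem_univ q) h4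
    rw [h5, smul_zero]
  obtain ⟨σ, hσ⟩ := h1 e e' he
  obtain ⟨τ, hτ⟩ := h1 e' e he'
  refine ⟨σ, ?_⟩
  have h2 : ∑ q, w (e' q) ≤ ∑ q, w (e (σ q)) := Finset.sum_le_sum fun q _ => hσ q
  have h3 : ∑ q, w (e (σ q)) ≤ ∑ q, w (e' q) := by
    rw [Equiv.sum_comp σ (fun q => w (e q))]
    refine (Finset.sum_le_sum fun q _ => hτ q).trans (le_of_eq ?_)
    exact Equiv.sum_comp τ (fun q => w (e' q))
  have h4 := (Finset.sum_eq_sum_iff_of_le (fun q _ => hσ q)).1 (le_antisymm h2 h3)
  exact fun q => h4 q (mem_univ q)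

theorem adp_sum {n : Type} [Fintype n] {w : V → ℝ} {e e' : Basis n L V}
    (he : Adp w e) (he' : Adp w e') (f : ℝ → ℝ) : ∑ q, f (w (e' q)) = ∑ q, f (w (e q)) := by
  classical
  obtain ⟨σ, hσ⟩ := adp_perm he he'
  simp only [hσ]
  exact Equiv.sum_comp σ (fun q => f (w (e q)))

open Classical in
/-- The norm with given values on a basis. -/
noncomputable def nrm {n : Type} [Fintype n] (e : Basis n L V) (ω : n → ℝ) (x : V) : ℝ :=
  if h : (univ.filter fun p => e.repr x p ≠ 0).Nonempty then
    (univ.filter fun p => e.repr x p ≠ 0).inf' h ω else 0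

theorem nrm_le {n : Type} [Fintype n] (e : Basis n L V) (ω : n → ℝ) {x : V} {p : n}
    (hp : e.repr x p ≠ 0) : nrm e ω x ≤ ω p := by
  classical
  have h1 : p ∈ (univ.filter fun p => e.repr x p ≠ 0) := mem_filter.2 ⟨mem_univ _, hp⟩
  rw [nrm, dif_pos ⟨p, h1⟩]
  exact Finset.inf'_le _ h1

theorem exists_nrm {n : Type} [Fintype n] (e : Basis n L V) (ω : n → ℝ) {x : V} (hx : x ≠ 0) :
    ∃ p, e.repr x p ≠ 0 ∧ nrm e ω x = ω p := by
  classical
  have h1 : (univ.filter fun p => e.repr x p ≠ 0).Nonempty := by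
    by_contra h
    rw [Finset.not_nonempty_iff_eq_empty, Finset.filter_eq_empty_iff] at h
    push Not at h
    apply hx
    rw [← e.sum_repr x]
    exact Finset.sum_eq_zero fun p hp => by rw [h hp, zero_smul]
  rw [nrm, dif_pos h1]
  obtain ⟨p, hp, hp'⟩ := Finset.exists_mem_eq_inf' h1 ω
  exact ⟨p, (mem_filter.1 hp).2, hp'⟩

theorem nrm_basis {n : Type} [Fintype n] (e : Basis n L V) (ω : n → ℝ) (p : n) :
    nrm e ω (e p) = ω p := by
  classical
  obtain ⟨q, hq, hq'⟩ := exists_nrm e ω (e.ne_zero p)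
  have : q = p := by
    by_contra h
    rw [e.repr_self, Finsupp.single_eq_of_ne h] at hq
    exact hq rfl
  rw [hq', this]

theorem nrm_adp {n : Type} [Fintype n] (e : Basis n L V) (ω : n → ℝ) : Adp (nrm e ω) e := by
  intro x p hp
  rw [nrm_basis]
  exact nrm_le e ω hp

theorem nrm_isNrm {n : Type} [Fintype n] (e : Basis n L V) (ω : n → ℝ) : IsNrm L (nrm e ω) := by
  classical
  refine ⟨fun x y hx hy hxy => ?_, fun c x hc hx => ?_, ?_⟩
  · obtain ⟨p, hp, hp'⟩ := exists_nrm e ω hxy
    rw [hp']
    rw [map_add, Finsupp.add_apply] at hp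
    by_cases h : e.repr x p = 0
    · rw [h, zero_add] at hp
      exact (min_le_right _ _).trans (nrm_le e ω hp)
    · exact (min_le_left _ _).trans (nrm_le e ω h)
  · have hcx : c • x ≠ 0 := smul_ne_zero hc hx
    apply le_antisymm
    · obtain ⟨p, hp, hp'⟩ := exists_nrm e ω hx
      rw [hp']
      refine nrm_le e ω ?_
      rw [map_smul, Finsupp.smul_apply]
      exact mul_ne_zero hc hp
    · obtain ⟨p, hp, hp'⟩ := exists_nrm e ω hcx
      rw [hp']
      refine nrm_le e ω ?_
      rw [map_smul, Finsupp.smul_apply] at hp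
      exact right_ne_zero_of_mul hp
  · refine (Set.finite_range ω).subset ?_
    rintro _ ⟨x, hx, rfl⟩
    obtain ⟨p, _, hp⟩ := exists_nrm e ω hx
    exact ⟨p, hp.symm⟩

/-! ### Semilinear bijections -/

theorem IsNrm.comp {w : V → ℝ} (hw : IsNrm L w) (τ : L ≃+* L) (A : V ≃+ V)
    (hA : ∀ (c : L) x, A (c • x) = τ c • A x) : IsNrm L (fun x => w (A x)) := by
  refine ⟨fun x y hx hy hxy => ?_, fun c x hc hx => ?_, ?_⟩
  · simp only [map_add]
    exact hw.add _ _ ((map_ne_zero_iff _ A.injective).2 hx)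
      ((map_ne_zero_iff _ A.injective).2 hy)
      (by rw [← map_add]; exact (map_ne_zero_iff _ A.injective).2 hxy)
  · simp only [hA]
    exact hw.smul _ _ ((map_ne_zero_iff _ τ.injective).2 hc)
      ((map_ne_zero_iff _ A.injective).2 hx)
  · refine hw.fin.subset ?_
    rintro _ ⟨x, hx, rfl⟩
    exact ⟨A x, (map_ne_zero_iff _ A.injective).2 hx, rfl⟩

theorem exists_basis_comp {n : Type} [Fintype n] (e : Basis n L V) (τ : L ≃+* L) (A : V ≃+ V)
    (hA : ∀ (c : L) x, A (c • x) = τ c • A x) :
    ∃ f : Basis n L V, (∀ p, f p = A (e p)) ∧ ∀ x p, f.repr (A x) p = τ (e.repr x p) := by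
  classical
  have hexp : ∀ x, A x = ∑ p, τ (e.repr x p) • A (e p) := by
    intro x
    conv_lhs => rw [← e.sum_repr x, map_sum]
    exact Finset.sum_congr rfl fun p _ => hA _ _
  have hli : LinearIndependent L (fun p => A (e p)) := by
    rw [Fintype.linearIndependent_iff]
    intro g hg p
    have h1 : A (∑ p, τ.symm (g p) • e p) = 0 := by
      rw [map_sum, ← hg]
      refine Finset.sum_congr rfl fun p _ => ?_
      rw [hA, RingEquiv.apply_symm_apply]
    have h2 := (map_eq_zero_iff _ A.injective).1 h1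
    have h3 := (Fintype.linearIndependent_iff.1 e.linearIndependent) _ h2 p
    exact (map_eq_zero_iff _ τ.symm.injective).1 h3
  have hsp : ⊤ ≤ Submodule.span L (Set.range fun p => A (e p)) := by
    intro y _
    rw [← A.apply_symm_apply y, hexp]
    exact Submodule.sum_mem _ fun p _ => Submodule.smul_mem _ _ (Submodule.subset_span ⟨p, rfl⟩)
  refine ⟨Basis.mk hli hsp, fun p => Basis.mk_apply hli hsp p, fun x p => ?_⟩
  have h1 : A x = ∑ p, τ (e.repr x p) • (Basis.mk hli hsp) p := by
    rw [hexp x]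
    exact Finset.sum_congr rfl fun p _ => by rw [Basis.mk_apply]
  rw [h1]
  exact congrFun ((Basis.mk hli hsp).repr_sum_self fun p => τ (e.repr x p)) p

theorem Adp.comp {n : Type} [Fintype n] {w : V → ℝ} {e f : Basis n L V} (τ : L ≃+* L)
    (A : V ≃+ V) (he : Adp (fun x => w (A x)) e) (hf : ∀ p, f p = A (e p))
    (hf' : ∀ x p, f.repr (A x) p = τ (e.repr x p)) : Adp w f := by
  intro x p hp
  rw [hf, ← A.apply_symm_apply x]
  refine he _ p ?_
  rw [← A.apply_symm_apply x, hf'] at hp
  exact (map_ne_zero_iff _ τ.injective).1 hp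

end

end Pool.Agent.Y104.Kempf
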