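import Pool.Agent.Y104.Nrm

/-!
# The optimal destabilising filtration
-/

open Finset Module

set_option linter.unusedSectionVars false

namespace Pool.Agent.Y104.Kempf

section

variable {ι : Type} [Fintype ι] [DecidableEq ι] {b : ι → Type} [∀ i, Fintype (b i)]
  [∀ i, DecidableEq (b i)] {S : Type} [Fintype S] [DecidableEq S] {c : S → ι}
  {K : Type*} [Field K] {L : Type*} [Field L] [Algebra K L]

/-- The value of a tensor at a family of linear forms. -/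
def ev (z : (∀ s, b (c s)) → K) (u : ∀ s, b (c s) → L) : L :=
  ∑ I : ∀ s, b (c s), (∏ s, u s (I s)) * algebraMap K L (z I)

theorem ev_expand (z : (∀ s, b (c s)) → K) (e : ∀ j, Basis (b j) L (b j → L))
    (u : ∀ s, b (c s) → L) :
    ev z u = ∑ J : ∀ s, b (c s), (∏ s, (e (c s)).repr (u s) (J s)) *
      ev z (fun s => e (c s) (J s)) := by
  unfold ev
  have h1 : ∀ I : ∀ s, b (c s), ∏ s, u s (I s) =
      ∑ J : ∀ s, b (c s), ∏ s, (e (c s)).repr (u s) (J s) * e (c s) (J s) (I s) := by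
    intro I
    have h2 : ∀ s, u s (I s) = ∑ p, (e (c s)).repr (u s) p * e (c s) p (I s) := by
      intro s
      conv_lhs => rw [← (e (c s)).sum_repr (u s)]
      rw [Finset.sum_apply]
      rfl
    simp only [h2]
    rw [Finset.prod_univ_sum, Fintype.piFinset_univ]
  simp only [h1, Finset.sum_mul, Finset.mul_sum]
  rw [Finset.sum_comm]
  refine Finset.sum_congr rfl fun J _ => Finset.sum_congr rfl fun I _ => ?_
  rw [Finset.prod_mul_distrib]
  ring

/-- The filtrations destabilise with margin `t`. -/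
def Ge (N : Set ((∀ s, b (c s)) → K)) (t : ℝ) (w : ∀ j, (b j → L) → ℝ) : Prop :=
  ∀ z ∈ N, ∀ u : ∀ s, b (c s) → L, ev z u ≠ 0 → ∑ s, w (c s) (u s) ≤ -t

theorem ge_of_basis {N : Set ((∀ s, b (c s)) → K)} {t : ℝ} {w : ∀ j, (b j → L) → ℝ}
    {e : ∀ j, Basis (b j) L (b j → L)} (he : ∀ j, Adp (w j) (e j))
    (h : ∀ J : ∀ s, b (c s), (∃ z ∈ N, ev z (fun s => e (c s) (J s)) ≠ 0) →
      ∑ s, w (c s) (e (c s) (J s)) ≤ -t) : Ge N t w := by
  intro z hz u hu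
  rw [ev_expand z e u] at hu
  obtain ⟨J, -, hJ⟩ := Finset.exists_ne_zero_of_sum_ne_zero hu
  refine le_trans (Finset.sum_le_sum fun s _ => ?_) (h J ⟨z, hz, right_ne_zero_of_mul hJ⟩)
  exact he (c s) (u s) (J s) (Finset.prod_ne_zero_iff.1 (left_ne_zero_of_mul hJ) s (mem_univ s))

/-- Admissible families of filtrations. -/
def Adm (w : ∀ j, (b j → L) → ℝ) : Prop :=
  (∀ j, IsNrm L (w j)) ∧ ∃ e : ∀ j, Basis (b j) L (b j → L), (∀ j, Adp (w j) (e j)) ∧
    (∀ j, ∑ p, w j (e j p) = 0) ∧ ∑ j, ∑ p, w j (e j p) ^ 2 ≤ 1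

theorem Adm.any {w : ∀ j, (b j → L) → ℝ} (hw : Adm w) {e : ∀ j, Basis (b j) L (b j → L)}
    (he : ∀ j, Adp (w j) (e j)) :
    (∀ j, ∑ p, w j (e j p) = 0) ∧ ∑ j, ∑ p, w j (e j p) ^ 2 ≤ 1 := by
  obtain ⟨_, e', he', h1, h2⟩ := hw
  refine ⟨fun j => ?_, ?_⟩
  · have := adp_sum (he j) (he' j) id
    simp only [id] at this
    rw [← this, h1]
  · have : ∀ j, ∑ p, w j (e' j p) ^ 2 = ∑ p, w j (e j p) ^ 2 :=
      fun j => adp_sum (he j) (he' j) (fun x => x ^ 2)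
    simp only [← this]
    exact h2

/-- the weights -/
def Cset (b : ι → Type) [∀ i, Fintype (b i)] : Set ((Σ j, b j) → ℝ) :=
  {ω | (∀ j, ∑ p, ω ⟨j, p⟩ = 0) ∧ ∑ x, ω x ^ 2 ≤ 1}

theorem isCompact_Cset : IsCompact (Cset b) := by
  refine Metric.isCompact_of_isClosed_isBounded ?_ ?_
  · refine IsClosed.inter ?_ ?_
    · change IsClosed {ω : (Σ j, b j) → ℝ | ∀ j, ∑ p, ω ⟨j, p⟩ = 0}
      rw [Set.ofPred_forall]
      refine isClosed_iInter fun j => isClosed_eq ?_ continuous_const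
      fun_prop
    · have h1 : Continuous fun ω : (Σ j, b j) → ℝ => ∑ x, ω x ^ 2 := by fun_prop
      exact isClosed_le h1 continuous_const
  · refine (Metric.isBounded_closedBall (x := (0 : (Σ j, b j) → ℝ)) (r := 1)).subset ?_
    intro ω hω
    rw [Metric.mem_closedBall, dist_zero_right, pi_norm_le_iff_of_nonneg zero_le_one]
    intro x
    rw [Real.norm_eq_abs]
    have h1 : ω x ^ 2 ≤ 1 := (Finset.single_le_sum (f := fun x => ω x ^ 2)
      (fun y _ => sq_nonneg _) (mem_univ x)).trans hω.2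
    exact (sq_le_one_iff_abs_le_one _).1 h1

theorem Adm.of_weights (e : ∀ j, Basis (b j) L (b j → L)) {ω : (Σ j, b j) → ℝ}
    (hω : ω ∈ Cset b) : Adm fun j => nrm (e j) (fun p => ω ⟨j, p⟩) := by
  refine ⟨fun j => nrm_isNrm _ _, e, fun j => nrm_adp _ _, fun j => ?_, ?_⟩
  · simp only [nrm_basis]
    exact hω.1 j
  · simp only [nrm_basis]
    have := hω.2
    rwa [Fintype.sum_sigma] at this

theorem Ge.of_weights {N : Set ((∀ s, b (c s)) → K)} {t : ℝ}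
    (e : ∀ j, Basis (b j) L (b j → L)) {ω : (Σ j, b j) → ℝ}
    (h : ∀ J : ∀ s, b (c s), (∃ z ∈ N, ev z (fun s => e (c s) (J s)) ≠ 0) →
      ∑ s, ω ⟨c s, J s⟩ ≤ -t) : Ge N t fun j => nrm (e j) (fun p => ω ⟨j, p⟩) := by
  refine ge_of_basis (e := e) (fun j => nrm_adp _ _) fun J hJ => ?_
  simp only [nrm_basis]
  exact h J hJ

theorem exists_ev {N : Set ((∀ s, b (c s)) → K)} {z : (∀ s, b (c s)) → K} (hz : z ∈ N)
    (hz0 : z ≠ 0) (e : ∀ j, Basis (b j) L (b j → L)) :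
    ∃ J : ∀ s, b (c s), ∃ z ∈ N, ev z (fun s => e (c s) (J s)) ≠ 0 := by
  obtain ⟨I, hI⟩ := Function.ne_iff.1 hz0
  have h1 : ev z (fun s => (Pi.single (I s) (1 : L) : b (c s) → L)) ≠ 0 := by
    unfold ev
    rw [Finset.sum_eq_single I]
    · simp only [Pi.single_eq_same, Finset.prod_const_one, one_mul]
      exact (map_ne_zero _).2 hI
    · intro I' _ hI'
      obtain ⟨s, hs⟩ := Function.ne_iff.1 hI'
      rw [Finset.prod_eq_zero (mem_univ s) (Pi.single_eq_of_ne hs _), zero_mul]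
    · intro h
      exact absurd (mem_univ _) h
  rw [ev_expand z e] at h1
  obtain ⟨J, -, hJ⟩ := Finset.exists_ne_zero_of_sum_ne_zero h1
  exact ⟨J, z, hz, right_ne_zero_of_mul hJ⟩

/-- **The optimum is attained.** -/
theorem exists_opt {N : Set ((∀ s, b (c s)) → K)} {z : (∀ s, b (c s)) → K} (hz : z ∈ N)
    (hz0 : z ≠ 0) : ∃ (w : ∀ j, (b j → L) → ℝ) (t : ℝ), Adm w ∧ Ge N t w ∧
      ∀ (w' : ∀ j, (b j → L) → ℝ) (t' : ℝ), Adm w' → Ge N t' w' → t' ≤ t := by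
  classical
  let Sp : (∀ j, Basis (b j) L (b j → L)) → Finset (∀ s, b (c s)) := fun e =>
    univ.filter fun J => ∃ z ∈ N, ev z (fun s => e (c s) (J s)) ≠ 0
  have hSp : ∀ e, (Sp e).Nonempty := by
    intro e
    obtain ⟨J, hJ⟩ := exists_ev hz hz0 e
    exact ⟨J, mem_filter.2 ⟨mem_univ _, hJ⟩⟩
  -- the optimum for a given support
  have h1 : ∀ X : Finset (∀ s, b (c s)), X.Nonempty → ∃ ω ∈ Cset b, ∃ t : ℝ,
      (∀ J ∈ X, ∑ s, ω ⟨c s, J s⟩ ≤ -t) ∧ ∀ ω' ∈ Cset b, ∀ t' : ℝ,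
        (∀ J ∈ X, ∑ s, ω' ⟨c s, J s⟩ ≤ -t') → t' ≤ t := by
    intro X hX
    let f : ((Σ j, b j) → ℝ) → ℝ := fun ω => X.inf' hX fun J => -∑ s, ω ⟨c s, J s⟩
    have hf : Continuous f := by
      refine Continuous.finset_inf'_apply hX fun J _ => ?_
      fun_prop
    have hne : (Cset b).Nonempty := ⟨0, by simp [Cset]⟩
    obtain ⟨ω, hω, hmax⟩ := isCompact_Cset.exists_isMaxOn hne hf.continuousOn
    refine ⟨ω, hω, f ω, fun J hJ => ?_, fun ω' hω' t' h => ?_⟩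
    · have : f ω ≤ -∑ s, ω ⟨c s, J s⟩ := Finset.inf'_le _ hJ
      linarith
    · refine le_trans ?_ (hmax hω')
      refine Finset.le_inf' _ _ fun J hJ => ?_
      have := h J hJ
      linarith
  have h2 : ∀ X : Set.range Sp, ∃ ω ∈ Cset b, ∃ t : ℝ,
      (∀ J ∈ X.1, ∑ s, ω ⟨c s, J s⟩ ≤ -t) ∧ ∀ ω' ∈ Cset b, ∀ t' : ℝ,
        (∀ J ∈ X.1, ∑ s, ω' ⟨c s, J s⟩ ≤ -t') → t' ≤ t := by
    rintro ⟨_, e, rfl⟩
    exact h1 _ (hSp e)
  choose ω hω t ht hopt using h2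
  have hne : (Set.univ : Set (Set.range Sp)).Nonempty :=
    ⟨⟨_, fun j => Pi.basisFun L (b j), rfl⟩, trivial⟩
  obtain ⟨X, -, hX⟩ := Set.exists_max_image (Set.univ : Set (Set.range Sp)) t
    (Set.toFinite _) hne
  obtain ⟨_, e, rfl⟩ := X
  refine ⟨_, t ⟨Sp e, e, rfl⟩, Adm.of_weights e (hω ⟨Sp e, e, rfl⟩),
    Ge.of_weights e fun J hJ => ht ⟨Sp e, e, rfl⟩ J (mem_filter.2 ⟨mem_univ _, hJ⟩), ?_⟩
  intro w' t' hw' ht'
  obtain ⟨e', he'⟩ := hw'.2
  refine le_trans ?_ (hX ⟨Sp e', e', rfl⟩ trivial)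
  refine hopt ⟨Sp e', e', rfl⟩ (fun x => w' x.1 (e' x.1 x.2)) ⟨he'.2.1, ?_⟩ t' ?_
  · rw [Fintype.sum_sigma]
    exact he'.2.2
  · intro J hJ
    obtain ⟨z, hz, hJ⟩ := (mem_filter.1 hJ).2
    exact ht' z hz _ hJ

/-- **The optimum is unique.** -/
theorem opt_unique {N : Set ((∀ s, b (c s)) → K)} {z : (∀ s, b (c s)) → K} (hz : z ∈ N)
    (hz0 : z ≠ 0) {t : ℝ} (ht : 0 < t)
    (hopt : ∀ (w' : ∀ j, (b j → L) → ℝ) (t' : ℝ), Adm w' → Ge N t' w' → t' ≤ t)
    {w w' : ∀ j, (b j → L) → ℝ} (hw : Adm w) (hw' : Adm w') (hg : Ge N t w)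
    (hg' : Ge N t w') : ∀ j x, x ≠ 0 → w j x = w' j x := by
  have h1 : ∀ j, ∃ e : Basis (b j) L (b j → L), Adp (w j) e ∧ Adp (w' j) e := fun j =>
    exists_common' (by rw [finrank_fintype_fun_eq_card]) (hw.1 j) (hw'.1 j)
  choose e he he' using h1
  obtain ⟨hw1, hw2⟩ := hw.any he
  obtain ⟨hw1', hw2'⟩ := hw'.any he'
  -- the midpoint
  let m : (Σ j, b j) → ℝ := fun x => (w x.1 (e x.1 x.2) + w' x.1 (e x.1 x.2)) / 2
  let q : ℝ := ∑ x, m x ^ 2
  have hm1 : ∀ j, ∑ p, m ⟨j, p⟩ = 0 := by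
    intro j
    change ∑ p, (w j (e j p) + w' j (e j p)) / 2 = 0
    rw [← Finset.sum_div, Finset.sum_add_distrib, hw1, hw1', add_zero, zero_div]
  have hq : q = ((∑ j, ∑ p, w j (e j p) ^ 2) + (∑ j, ∑ p, w' j (e j p) ^ 2)) / 2 -
      (∑ j, ∑ p, (w j (e j p) - w' j (e j p)) ^ 2) / 4 := by
    simp only [q, m]
    rw [Fintype.sum_sigma, ← Finset.sum_add_distrib, Finset.sum_div, Finset.sum_div,
      ← Finset.sum_sub_distrib]
    refine Finset.sum_congr rfl fun j _ => ?_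
    rw [← Finset.sum_add_distrib, Finset.sum_div, Finset.sum_div, ← Finset.sum_sub_distrib]
    refine Finset.sum_congr rfl fun p _ => ?_
    ring
  have hm2 : ∀ J : ∀ s, b (c s), (∃ z ∈ N, ev z (fun s => e (c s) (J s)) ≠ 0) →
      ∑ s, m ⟨c s, J s⟩ ≤ -t := by
    rintro J ⟨z, hz, hJ⟩
    have h3 := hg z hz _ hJ
    have h4 := hg' z hz _ hJ
    change ∑ s, (w (c s) (e (c s) (J s)) + w' (c s) (e (c s) (J s))) / 2 ≤ -t
    rw [← Finset.sum_div, Finset.sum_add_distrib]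
    linarith
  -- the midpoint has norm one
  have hq0 : 0 < q := by
    have h3 : 0 ≤ q := Finset.sum_nonneg fun x _ => sq_nonneg _
    rcases h3.lt_or_eq with h | h
    · exact h
    · exfalso
      have h4 : ∀ x, m x = 0 := by
        intro x
        have := (Finset.sum_eq_zero_iff_of_nonneg (fun x _ => sq_nonneg _)).1 h.symm x
          (mem_univ x)
        exact pow_eq_zero_iff (two_ne_zero) |>.1 this
      obtain ⟨J, hJ⟩ := exists_ev hz hz0 e
      have h5 := hm2 J hJ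
      simp only [h4, Finset.sum_const_zero] at h5
      linarith
  have hq1 : 1 ≤ q := by
    by_contra hlt
    push Not at hlt
    let r : ℝ := (Real.sqrt q)⁻¹
    have hs : 0 < Real.sqrt q := Real.sqrt_pos.2 hq0
    have hr : 0 < r := inv_pos.2 hs
    have hr1 : 1 < r := by
      refine (one_lt_inv₀ hs).2 ?_
      rw [Real.sqrt_lt' one_pos, one_pow]
      exact hlt
    have hC : (fun x => r * m x) ∈ Cset b := by
      refine ⟨fun j => ?_, ?_⟩
      · rw [← Finset.mul_sum, hm1, mul_zero]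
      · simp only [mul_pow]
        rw [← Finset.mul_sum]
        change r ^ 2 * q ≤ 1
        simp only [r]
        rw [inv_pow, Real.sq_sqrt hq0.le, inv_mul_cancel₀ hq0.ne']
    have hG : Ge N (r * t) fun j => nrm (e j) (fun p => (fun x => r * m x) ⟨j, p⟩) := by
      refine Ge.of_weights (ω := fun x => r * m x) e fun J hJ => ?_
      rw [← Finset.mul_sum]
      have := hm2 J hJ
      nlinarith
    have h3 := hopt _ (r * t) (Adm.of_weights e hC) hG
    nlinarith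
  have h3 : ∑ j, ∑ p, (w j (e j p) - w' j (e j p)) ^ 2 = 0 := by
    have h4 : 0 ≤ ∑ j, ∑ p, (w j (e j p) - w' j (e j p)) ^ 2 :=
      Finset.sum_nonneg fun j _ => Finset.sum_nonneg fun p _ => sq_nonneg _
    linarith
  have h4 : ∀ j p, w j (e j p) = w' j (e j p) := by
    intro j p
    have h5 := (Finset.sum_eq_zero_iff_of_nonneg (fun j _ => Finset.sum_nonneg
      fun p _ => sq_nonneg _)).1 h3 j (mem_univ j)
    have h6 := (Finset.sum_eq_zero_iff_of_nonneg (fun p _ => sq_nonneg _)).1 h5 p (mem_univ p)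
    have h7 := pow_eq_zero_iff (two_ne_zero) |>.1 h6
    linarith
  intro j x hx
  exact nrm_ext (hw.1 j) (hw'.1 j) (he j) (he' j) (h4 j) hx

/-- **The optimum is invariant under semilinear symmetries.** -/
theorem opt_invariant {N : Set ((∀ s, b (c s)) → K)} {z : (∀ s, b (c s)) → K} (hz : z ∈ N)
    (hz0 : z ≠ 0) {t : ℝ} (ht : 0 < t)
    (hopt : ∀ (w' : ∀ j, (b j → L) → ℝ) (t' : ℝ), Adm w' → Ge N t' w' → t' ≤ t)
    {w : ∀ j, (b j → L) → ℝ} (hw : Adm w) (hg : Ge N t w) (τ : L ≃+* L)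
    (A : ∀ j, (b j → L) ≃+ (b j → L)) (hA : ∀ j (c : L) x, A j (c • x) = τ c • A j x)
    (hAN : ∀ z ∈ N, ∀ u : ∀ s, b (c s) → L, ev z u ≠ 0 →
      ∃ z' ∈ N, ev z' (fun s => A (c s) (u s)) ≠ 0) :
    ∀ j x, x ≠ 0 → w j (A j x) = w j x := by
  have h1 : ∀ j, IsNrm L (fun x => w j (A j x)) := fun j => (hw.1 j).comp τ (A j) (hA j)
  have h2 : ∀ j, ∃ e : Basis (b j) L (b j → L), Adp (fun x => w j (A j x)) e := fun j => by
    obtain ⟨e, he, _⟩ := exists_common' (by rw [finrank_fintype_fun_eq_card]) (h1 j) (h1 j)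
    exact ⟨e, he⟩
  choose e he using h2
  choose f hf hf' using fun j => exists_basis_comp (e j) τ (A j) (hA j)
  have hfA : ∀ j, Adp (w j) (f j) := fun j => (he j).comp τ (A j) (hf j) (hf' j)
  obtain ⟨h3, h4⟩ := hw.any hfA
  have hadm : Adm fun j x => w j (A j x) := by
    refine ⟨h1, e, he, fun j => ?_, ?_⟩
    · simp only [← hf]
      exact h3 j
    · simp only [← hf]
      exact h4
  intro j x hx
  refine opt_unique hz hz0 ht hopt hadm hw ?_ hg j x hx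
  intro z hz u hu
  obtain ⟨z', hz', hu'⟩ := hAN z hz u hu
  exact hg z' hz' _ hu'

end

end Pool.Agent.Y104.Kempf
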