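import Pool.Agent.Y104.Opt

/-!
# The optimal destabilising filtration, self-dual version
-/

open Finset Module Matrix

set_option linter.unusedSectionVars false

namespace Pool.Agent.Y104.Kempf

section

variable {ι : Type} [Fintype ι] [DecidableEq ι] {b : ι → Type} [∀ i, Fintype (b i)]
  [∀ i, DecidableEq (b i)] {S : Type} [Fintype S] [DecidableEq S] {c : S → ι}
  {K : Type*} [Field K] {L : Type*} [Field L] [Algebra K L]

/-- The filtrations are compatible with the forms: pairs of vectors which are not orthogonal have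
nonpositive total weight. -/
def Sd (Q : ∀ j, Matrix (b j) (b j) L) (w : ∀ j, (b j → L) → ℝ) : Prop :=
  ∀ j (x y : b j → L), x ⬝ᵥ (Q j *ᵥ y) ≠ 0 → w j x + w j y ≤ 0

theorem bil_expand {n : Type} [Fintype n] [DecidableEq n] (Q : Matrix n n L)
    (e : Basis n L (n → L)) (x y : n → L) :
    x ⬝ᵥ (Q *ᵥ y) = ∑ p, ∑ q, e.repr x p * e.repr y q * (e p ⬝ᵥ (Q *ᵥ e q)) := by
  conv_lhs => rw [← e.sum_repr x, ← e.sum_repr y]
  rw [sum_dotProduct]
  refine Finset.sum_congr rfl fun p _ => ?_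
  rw [Matrix.mulVec_sum, dotProduct_sum]
  refine Finset.sum_congr rfl fun q _ => ?_
  rw [Matrix.mulVec_smul, smul_dotProduct, dotProduct_smul]
  simp only [smul_eq_mul]
  ring

theorem sd_of_basis {Q : ∀ j, Matrix (b j) (b j) L} {w : ∀ j, (b j → L) → ℝ}
    {e : ∀ j, Basis (b j) L (b j → L)} (he : ∀ j, Adp (w j) (e j))
    (h : ∀ j p q, e j p ⬝ᵥ (Q j *ᵥ e j q) ≠ 0 → w j (e j p) + w j (e j q) ≤ 0) : Sd Q w := by
  intro j x y hxy
  rw [bil_expand _ (e j)] at hxy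
  obtain ⟨p, -, hp⟩ := Finset.exists_ne_zero_of_sum_ne_zero hxy
  obtain ⟨q, -, hq⟩ := Finset.exists_ne_zero_of_sum_ne_zero hp
  have h1 := h j p q (right_ne_zero_of_mul hq)
  have h2 := he j x p (left_ne_zero_of_mul (left_ne_zero_of_mul hq))
  have h3 := he j y q (right_ne_zero_of_mul (left_ne_zero_of_mul hq))
  linarith

/-- Admissible self-dual families. -/
def Adm2 (Q : ∀ j, Matrix (b j) (b j) L) (w : ∀ j, (b j → L) → ℝ) : Prop := Adm w ∧ Sd Q w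

/-- the weights compatible with the forms in a given basis -/
def Cset2 (b : ι → Type) [∀ i, Fintype (b i)] (R : ∀ j, b j → b j → Prop) :
    Set ((Σ j, b j) → ℝ) :=
  Cset b ∩ {ω | ∀ j p q, R j p q → ω ⟨j, p⟩ + ω ⟨j, q⟩ ≤ 0}

theorem isCompact_Cset2 (R : ∀ j, b j → b j → Prop) : IsCompact (Cset2 b R) := by
  refine isCompact_Cset.inter_right ?_
  have : {ω : (Σ j, b j) → ℝ | ∀ j p q, R j p q → ω ⟨j, p⟩ + ω ⟨j, q⟩ ≤ 0} =
      ⋂ (j) (p) (q) (_ : R j p q), {ω : (Σ j, b j) → ℝ | ω ⟨j, p⟩ + ω ⟨j, q⟩ ≤ 0} := by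
    ext ω
    simp
  rw [this]
  refine isClosed_iInter fun j => isClosed_iInter fun p => isClosed_iInter fun q =>
    isClosed_iInter fun _ => ?_
  have h1 : Continuous fun ω : (Σ j, b j) → ℝ => ω ⟨j, p⟩ + ω ⟨j, q⟩ := by fun_prop
  exact isClosed_le h1 continuous_const

/-- the pairs of basis vectors which are not orthogonal -/
def Rl (Q : ∀ j, Matrix (b j) (b j) L) (e : ∀ j, Basis (b j) L (b j → L)) (j : ι)
    (p q : b j) : Prop := e j p ⬝ᵥ (Q j *ᵥ e j q) ≠ 0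

theorem Adm2.of_weights (Q : ∀ j, Matrix (b j) (b j) L) (e : ∀ j, Basis (b j) L (b j → L))
    {ω : (Σ j, b j) → ℝ} (hω : ω ∈ Cset2 b (Rl Q e)) :
    Adm2 Q fun j => nrm (e j) (fun p => ω ⟨j, p⟩) := by
  refine ⟨Adm.of_weights e hω.1, sd_of_basis (e := e) (fun j => nrm_adp _ _) ?_⟩
  intro j p q h
  simp only [nrm_basis]
  exact hω.2 j p q h

/-- **The optimum is attained.** -/
theorem exists_opt2 (Q : ∀ j, Matrix (b j) (b j) L) {N : Set ((∀ s, b (c s)) → K)}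
    {z : (∀ s, b (c s)) → K} (hz : z ∈ N)
    (hz0 : z ≠ 0) : ∃ (w : ∀ j, (b j → L) → ℝ) (t : ℝ), Adm2 Q w ∧ Ge N t w ∧
      ∀ (w' : ∀ j, (b j → L) → ℝ) (t' : ℝ), Adm2 Q w' → Ge N t' w' → t' ≤ t := by
  classical
  let Sp : (∀ j, Basis (b j) L (b j → L)) → Finset (∀ s, b (c s)) := fun e =>
    univ.filter fun J => ∃ z ∈ N, ev z (fun s => e (c s) (J s)) ≠ 0
  have hSp : ∀ e, (Sp e).Nonempty := by
    intro e
    obtain ⟨J, hJ⟩ := exists_ev hz hz0 e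
    exact ⟨J, mem_filter.2 ⟨mem_univ _, hJ⟩⟩
  -- the optimum for a given support
  have h1 : ∀ X : Finset (∀ s, b (c s)), X.Nonempty → ∀ R : ∀ j, b j → b j → Prop,
      ∃ ω ∈ Cset2 b R, ∃ t : ℝ,
      (∀ J ∈ X, ∑ s, ω ⟨c s, J s⟩ ≤ -t) ∧ ∀ ω' ∈ Cset2 b R, ∀ t' : ℝ,
        (∀ J ∈ X, ∑ s, ω' ⟨c s, J s⟩ ≤ -t') → t' ≤ t := by
    intro X hX R
    let f : ((Σ j, b j) → ℝ) → ℝ := fun ω => X.inf' hX fun J => -∑ s, ω ⟨c s, J s⟩
    have hf : Continuous f := by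
      refine Continuous.finset_inf'_apply hX fun J _ => ?_
      fun_prop
    have hne : (Cset2 b R).Nonempty := ⟨0, by simp [Cset2, Cset]⟩
    obtain ⟨ω, hω, hmax⟩ := (isCompact_Cset2 R).exists_isMaxOn hne hf.continuousOn
    refine ⟨ω, hω, f ω, fun J hJ => ?_, fun ω' hω' t' h => ?_⟩
    · have : f ω ≤ -∑ s, ω ⟨c s, J s⟩ := Finset.inf'_le _ hJ
      linarith
    · refine le_trans ?_ (hmax hω')
      refine Finset.le_inf' _ _ fun J hJ => ?_
      have := h J hJ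
      linarith
  let SR : (∀ j, Basis (b j) L (b j → L)) →
      Finset (∀ s, b (c s)) × (∀ j, b j → b j → Prop) := fun e => (Sp e, Rl Q e)
  have h2 : ∀ X : Set.range SR, ∃ ω ∈ Cset2 b X.1.2, ∃ t : ℝ,
      (∀ J ∈ X.1.1, ∑ s, ω ⟨c s, J s⟩ ≤ -t) ∧ ∀ ω' ∈ Cset2 b X.1.2, ∀ t' : ℝ,
        (∀ J ∈ X.1.1, ∑ s, ω' ⟨c s, J s⟩ ≤ -t') → t' ≤ t := by
    rintro ⟨_, e, rfl⟩
    exact h1 _ (hSp e) _
  choose ω hω t ht hopt using h2
  have hne : (Set.univ : Set (Set.range SR)).Nonempty :=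
    ⟨⟨_, fun j => Pi.basisFun L (b j), rfl⟩, trivial⟩
  obtain ⟨X, -, hX⟩ := Set.exists_max_image (Set.univ : Set (Set.range SR)) t
    (Set.toFinite _) hne
  obtain ⟨_, e, rfl⟩ := X
  refine ⟨_, t ⟨SR e, e, rfl⟩, Adm2.of_weights Q e (hω ⟨SR e, e, rfl⟩),
    Ge.of_weights e fun J hJ => ht ⟨SR e, e, rfl⟩ J (mem_filter.2 ⟨mem_univ _, hJ⟩), ?_⟩
  intro w' t' hw' ht'
  obtain ⟨e', he'⟩ := hw'.1.2
  refine le_trans ?_ (hX ⟨SR e', e', rfl⟩ trivial)
  refine hopt ⟨SR e', e', rfl⟩ (fun x => w' x.1 (e' x.1 x.2)) ⟨⟨he'.2.1, ?_⟩, ?_⟩ t' ?_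
  · rw [Fintype.sum_sigma]
    exact he'.2.2
  · intro j p q h
    exact hw'.2 j _ _ h
  · intro J hJ
    obtain ⟨z, hz, hJ⟩ := (mem_filter.1 hJ).2
    exact ht' z hz _ hJ

/-- **The optimum is unique.** -/
theorem opt_unique2 {Q : ∀ j, Matrix (b j) (b j) L} {N : Set ((∀ s, b (c s)) → K)}
    {z : (∀ s, b (c s)) → K} (hz : z ∈ N)
    (hz0 : z ≠ 0) {t : ℝ} (ht : 0 < t)
    (hopt : ∀ (w' : ∀ j, (b j → L) → ℝ) (t' : ℝ), Adm2 Q w' → Ge N t' w' → t' ≤ t)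
    {w w' : ∀ j, (b j → L) → ℝ} (hw : Adm2 Q w) (hw' : Adm2 Q w') (hg : Ge N t w)
    (hg' : Ge N t w') : ∀ j x, x ≠ 0 → w j x = w' j x := by
  have h1 : ∀ j, ∃ e : Basis (b j) L (b j → L), Adp (w j) e ∧ Adp (w' j) e := fun j =>
    exists_common' (by rw [finrank_fintype_fun_eq_card]) (hw.1.1 j) (hw'.1.1 j)
  choose e he he' using h1
  obtain ⟨hw1, hw2⟩ := hw.1.any he
  obtain ⟨hw1', hw2'⟩ := hw'.1.any he'
  -- the midpoint
  let m : (Σ j, b j) → ℝ := fun x => (w x.1 (e x.1 x.2) + w' x.1 (e x.1 x.2)) / 2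
  let q : ℝ := ∑ x, m x ^ 2
  have hm1 : ∀ j, ∑ p, m ⟨j, p⟩ = 0 := by
    intro j
    change ∑ p, (w j (e j p) + w' j (e j p)) / 2 = 0
    rw [← Finset.sum_div, Finset.sum_add_distrib, hw1, hw1', add_zero, zero_div]
  have hq : q = ((∑ j, ∑ p, w j (e j p) ^ 2) + (∑ j, ∑ p, w' j (e j p) ^ 2)) / 2 -
      (∑ j, ∑ p, (w j (e j p) - w' j (e j p)) ^ 2) / 4 := by
    simp only [q, m]
    rw [Fintype.sum_sigma, ← Finset.sum_add_distrib, Finset.sum_div, Finset.sum_div,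
      ← Finset.sum_sub_distrib]
    refine Finset.sum_congr rfl fun j _ => ?_
    rw [← Finset.sum_add_distrib, Finset.sum_div, Finset.sum_div, ← Finset.sum_sub_distrib]
    refine Finset.sum_congr rfl fun p _ => ?_
    ring
  have hm2 : ∀ J : ∀ s, b (c s), (∃ z ∈ N, ev z (fun s => e (c s) (J s)) ≠ 0) →
      ∑ s, m ⟨c s, J s⟩ ≤ -t := by
    rintro J ⟨z, hz, hJ⟩
    have h3 := hg z hz _ hJ
    have h4 := hg' z hz _ hJ
    change ∑ s, (w (c s) (e (c s) (J s)) + w' (c s) (e (c s) (J s))) / 2 ≤ -t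
    rw [← Finset.sum_div, Finset.sum_add_distrib]
    linarith
  have hm3 : ∀ j p q, Rl Q e j p q → m ⟨j, p⟩ + m ⟨j, q⟩ ≤ 0 := by
    intro j p q h
    have h3 := hw.2 j _ _ h
    have h4 := hw'.2 j _ _ h
    change (w j (e j p) + w' j (e j p)) / 2 + (w j (e j q) + w' j (e j q)) / 2 ≤ 0
    linarith
  -- the midpoint has norm one
  have hq0 : 0 < q := by
    have h3 : 0 ≤ q := Finset.sum_nonneg fun x _ => sq_nonneg _
    rcases h3.lt_or_eq with h | h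
    · exact h
    · exfalso
      have h4 : ∀ x, m x = 0 := by
        intro x
        have := (Finset.sum_eq_zero_iff_of_nonneg (fun x _ => sq_nonneg _)).1 h.symm x
          (mem_univ x)
        exact pow_eq_zero_iff (two_ne_zero) |>.1 this
      obtain ⟨J, hJ⟩ := exists_ev hz hz0 e
      have h5 := hm2 J hJ
      simp only [h4, Finset.sum_const_zero] at h5
      linarith
  have hq1 : 1 ≤ q := by
    by_contra hlt
    push Not at hlt
    let r : ℝ := (Real.sqrt q)⁻¹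
    have hs : 0 < Real.sqrt q := Real.sqrt_pos.2 hq0
    have hr : 0 < r := inv_pos.2 hs
    have hr1 : 1 < r := by
      refine (one_lt_inv₀ hs).2 ?_
      rw [Real.sqrt_lt' one_pos, one_pow]
      exact hlt
    have hC : (fun x => r * m x) ∈ Cset2 b (Rl Q e) := by
      refine ⟨⟨fun j => ?_, ?_⟩, fun j p q h => ?_⟩
      · rw [← Finset.mul_sum, hm1, mul_zero]
      · simp only [mul_pow]
        rw [← Finset.mul_sum]
        change r ^ 2 * q ≤ 1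
        simp only [r]
        rw [inv_pow, Real.sq_sqrt hq0.le, inv_mul_cancel₀ hq0.ne']
      · rw [← mul_add]
        exact mul_nonpos_of_nonneg_of_nonpos hr.le (hm3 j p q h)
    have hG : Ge N (r * t) fun j => nrm (e j) (fun p => (fun x => r * m x) ⟨j, p⟩) := by
      refine Ge.of_weights (ω := fun x => r * m x) e fun J hJ => ?_
      rw [← Finset.mul_sum]
      have := hm2 J hJ
      nlinarith
    have h3 := hopt _ (r * t) (Adm2.of_weights Q e hC) hG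
    nlinarith
  have h3 : ∑ j, ∑ p, (w j (e j p) - w' j (e j p)) ^ 2 = 0 := by
    have h4 : 0 ≤ ∑ j, ∑ p, (w j (e j p) - w' j (e j p)) ^ 2 :=
      Finset.sum_nonneg fun j _ => Finset.sum_nonneg fun p _ => sq_nonneg _
    linarith
  have h4 : ∀ j p, w j (e j p) = w' j (e j p) := by
    intro j p
    have h5 := (Finset.sum_eq_zero_iff_of_nonneg (fun j _ => Finset.sum_nonneg
      fun p _ => sq_nonneg _)).1 h3 j (mem_univ j)
    have h6 := (Finset.sum_eq_zero_iff_of_nonneg (fun p _ => sq_nonneg _)).1 h5 p (mem_univ p)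
    have h7 := pow_eq_zero_iff (two_ne_zero) |>.1 h6
    linarith
  intro j x hx
  exact nrm_ext (hw.1.1 j) (hw'.1.1 j) (he j) (he' j) (h4 j) hx

/-- **The optimum is invariant under semilinear symmetries.** -/
theorem opt_invariant2 {Q : ∀ j, Matrix (b j) (b j) L} {N : Set ((∀ s, b (c s)) → K)}
    {z : (∀ s, b (c s)) → K} (hz : z ∈ N)
    (hz0 : z ≠ 0) {t : ℝ} (ht : 0 < t)
    (hopt : ∀ (w' : ∀ j, (b j → L) → ℝ) (t' : ℝ), Adm2 Q w' → Ge N t' w' → t' ≤ t)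
    {w : ∀ j, (b j → L) → ℝ} (hw : Adm2 Q w) (hg : Ge N t w) (τ : L ≃+* L)
    (A : ∀ j, (b j → L) ≃+ (b j → L)) (hA : ∀ j (c : L) x, A j (c • x) = τ c • A j x)
    (hAQ : ∀ j x y, x ⬝ᵥ (Q j *ᵥ y) ≠ 0 → A j x ⬝ᵥ (Q j *ᵥ A j y) ≠ 0)
    (hAN : ∀ z ∈ N, ∀ u : ∀ s, b (c s) → L, ev z u ≠ 0 →
      ∃ z' ∈ N, ev z' (fun s => A (c s) (u s)) ≠ 0) :
    ∀ j x, x ≠ 0 → w j (A j x) = w j x := by
  have h1 : ∀ j, IsNrm L (fun x => w j (A j x)) := fun j => (hw.1.1 j).comp τ (A j) (hA j)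
  have h2 : ∀ j, ∃ e : Basis (b j) L (b j → L), Adp (fun x => w j (A j x)) e := fun j => by
    obtain ⟨e, he, _⟩ := exists_common' (by rw [finrank_fintype_fun_eq_card]) (h1 j) (h1 j)
    exact ⟨e, he⟩
  choose e he using h2
  choose f hf hf' using fun j => exists_basis_comp (e j) τ (A j) (hA j)
  have hfA : ∀ j, Adp (w j) (f j) := fun j => (he j).comp τ (A j) (hf j) (hf' j)
  obtain ⟨h3, h4⟩ := hw.1.any hfA
  have hadm : Adm2 Q fun j x => w j (A j x) := by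
    refine ⟨⟨h1, e, he, fun j => ?_, ?_⟩, fun j x y hxy => ?_⟩
    · simp only [← hf]
      exact h3 j
    · simp only [← hf]
      exact h4
    · exact hw.2 j _ _ (hAQ j x y hxy)
  intro j x hx
  refine opt_unique2 hz hz0 ht hopt hadm hw ?_ hg j x hx
  intro z hz u hu
  obtain ⟨z', hz', hu'⟩ := hAN z hz u hu
  exact hg z' hz' _ hu'

end

end Pool.Agent.Y104.Kempf
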