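import Pool.Agent.TH125.Gal.Diag
import Pool.Agent.TH125.Gal.Pub2
import Pool.Agent.TH125.Gal.Fpp

/-!
# Even and odd classes, and reordering products of classes
-/

open CategoryTheory AlgebraicGeometry

set_option linter.unusedSectionVars false

universe u v w

namespace Pool.Agent.Y104.Geo

open Pool.Agent.H914 Pool.Agent.H914.VarClass Pool.Agent.H914.VarClass.Obj
  Pool.Agent.H914.WeilCohomology Pool.Agent.H281R3.HT Pool.Agent.TH125.Gal

/-- **Reordering a product of elements which commute up to signs.** -/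
theorem perm_sign {K : Type*} [Field K] {H : Type*} [Ring H] [Algebra K H] {Ω : Type*}
    (P : ℕ → Submodule K H)
    (hP : ∀ e f, ∀ a ∈ P e, ∀ b ∈ P f, a * b = (-1 : K) ^ (e * f) • (b * a)) (e : Ω → ℕ)
    {l l' : List Ω} (h : l.Perm l') : ∃ ε : K, ε * ε = 1 ∧ ∀ a : Ω → H, (∀ i, a i ∈ P (e i)) →
      (l.map a).prod = ε • (l'.map a).prod := by
  induction h with
  | nil => exact ⟨1, by ring, fun a _ => by simp⟩
  | cons x _ ih =>
    obtain ⟨ε, h1, h2⟩ := ih
    refine ⟨ε, h1, fun a ha => ?_⟩
    rw [List.map_cons, List.prod_cons, List.map_cons, List.prod_cons, h2 a ha, mul_smul_comm]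
  | swap x y l =>
    refine ⟨(-1 : K) ^ (e y * e x), ?_, fun a ha => ?_⟩
    · rw [← pow_add, ← two_mul, pow_mul]
      simp
    · rw [List.map_cons, List.prod_cons, List.map_cons, List.prod_cons, List.map_cons,
        List.prod_cons, List.map_cons, List.prod_cons, ← mul_assoc,
        hP _ _ _ (ha y) _ (ha x), smul_mul_assoc, mul_assoc]
  | trans _ _ ih ih' =>
    obtain ⟨ε, h1, h2⟩ := ih
    obtain ⟨ε', h1', h2'⟩ := ih'
    refine ⟨ε * ε', ?_, fun a ha => ?_⟩
    · rw [mul_mul_mul_comm, h1, h1', mul_one]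
    · rw [h2 a ha, h2' a ha, smul_smul]

variable {k : Type u} [Field k] {𝒱 : VarClass k} {ops : CycleOps 𝒱}
  {W : WeilCohomology.{u, v} ops} {X Y Z : 𝒱.Obj}

/-- The classes all of whose components have degrees congruent to `e` modulo `2`. -/
def hpar (W : WeilCohomology.{u, v} ops) (X : 𝒱.Obj) (e : ℕ) : Submodule W.K (W.H X) :=
  Submodule.span W.K {a | ∃ i, i % 2 = e % 2 ∧ a ∈ W.gr X i}

theorem hpar_of {i e : ℕ} (hi : i % 2 = e % 2) {a : W.H X} (ha : a ∈ W.gr X i) :
    a ∈ hpar W X e := Submodule.subset_span ⟨i, hi, ha⟩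

theorem hpar_congr {e f : ℕ} (h : e % 2 = f % 2) : hpar W X e = hpar W X f := by
  rw [hpar, hpar]
  simp only [h]

theorem sgn_congr {K : Type*} [Field K] {e e' : ℕ} (h : e % 2 = e' % 2) :
    (-1 : K) ^ e = (-1) ^ e' := by
  rw [← Nat.div_add_mod e 2, ← Nat.div_add_mod e' 2, pow_add, pow_add, pow_mul, pow_mul, h]
  simp

theorem hpar_comm (e f : ℕ) (a : W.H X) (ha : a ∈ hpar W X e) (b : W.H X)
    (hb : b ∈ hpar W X f) : a * b = (-1 : W.K) ^ (e * f) • (b * a) := by
  induction ha using Submodule.span_induction with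
  | mem a ha =>
    obtain ⟨i, hi, ha⟩ := ha
    induction hb using Submodule.span_induction with
    | mem b hb =>
      obtain ⟨j, hj, hb⟩ := hb
      rw [W.comm ha hb]
      congr 1
      apply sgn_congr
      rw [Nat.mul_mod, hi, hj, ← Nat.mul_mod]
    | zero => rw [mul_zero, zero_mul, smul_zero]
    | add x y _ _ hx hy => rw [mul_add, add_mul, hx, hy, smul_add]
    | smul q x _ hx => rw [mul_smul_comm, smul_mul_assoc, hx, smul_comm]
  | zero => rw [mul_zero, zero_mul, smul_zero]
  | add x y _ _ hx hy => rw [mul_add, add_mul, hx, hy, smul_add]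
  | smul q x _ hx => rw [mul_smul_comm, smul_mul_assoc, hx, smul_comm]

theorem hpar_mul {e f : ℕ} {a b : W.H X} (ha : a ∈ hpar W X e) (hb : b ∈ hpar W X f) :
    a * b ∈ hpar W X (e + f) := by
  induction ha using Submodule.span_induction with
  | mem a ha =>
    obtain ⟨i, hi, ha⟩ := ha
    induction hb using Submodule.span_induction with
    | mem b hb =>
      obtain ⟨j, hj, hb⟩ := hb
      exact hpar_of (by rw [Nat.add_mod, hi, hj, ← Nat.add_mod]) (W.mul_mem ha hb)
    | zero => rw [mul_zero]; exact Submodule.zero_mem _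
    | add x y _ _ hx hy => rw [mul_add]; exact Submodule.add_mem _ hx hy
    | smul q x _ hx => rw [mul_smul_comm]; exact Submodule.smul_mem _ _ hx
  | zero => rw [zero_mul]; exact Submodule.zero_mem _
  | add x y _ _ hx hy => rw [add_mul]; exact Submodule.add_mem _ hx hy
  | smul q x _ hx => rw [smul_mul_assoc]; exact Submodule.smul_mem _ _ hx

theorem hpar_map (f : X ⟶ Y) {e : ℕ} {a : W.H Y} (ha : a ∈ hpar W Y e) :
    W.map f a ∈ hpar W X e := by
  induction ha using Submodule.span_induction with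
  | mem a ha =>
    obtain ⟨i, hi, ha⟩ := ha
    exact hpar_of hi (W.map_mem f ha)
  | zero => rw [map_zero]; exact Submodule.zero_mem _
  | add x y _ _ hx hy => rw [map_add]; exact Submodule.add_mem _ hx hy
  | smul q x _ hx => rw [map_smul]; exact Submodule.smul_mem _ _ hx

theorem hpar_push (f : X ⟶ Y) {e : ℕ} {a : W.H X} (ha : a ∈ hpar W X e) :
    W.push f a ∈ hpar W Y e := by
  induction ha using Submodule.span_induction with
  | mem a ha =>
    obtain ⟨i, hi, ha⟩ := ha
    have h1 := W.push_mem f ha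
    by_cases hn : (i : ℤ) + 2 * ((Y.dim : ℤ) - X.dim) < 0
    · rw [grZ_of_neg hn] at h1
      rw [(Submodule.mem_bot _).1 h1]
      exact Submodule.zero_mem _
    · obtain ⟨m, hm⟩ := Int.eq_ofNat_of_zero_le (not_lt.1 hn)
      rw [hm, grZ_natCast] at h1
      refine hpar_of ?_ h1
      omega
  | zero => rw [map_zero]; exact Submodule.zero_mem _
  | add x y _ _ hx hy => rw [map_add]; exact Submodule.add_mem _ hx hy
  | smul q x _ hx => rw [map_smul]; exact Submodule.smul_mem _ _ hx

theorem hpar_one : (1 : W.H X) ∈ hpar W X 0 := hpar_of rfl (W.one_mem X)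

theorem algSpan_hpar {a : W.H X} (ha : a ∈ algSpan W X) : a ∈ hpar W X 0 := by
  induction ha using Submodule.span_induction with
  | mem a ha =>
    obtain ⟨i, hi⟩ := Set.mem_iUnion.1 ha
    exact hpar_of (by simp) (alg_gr hi)
  | zero => exact Submodule.zero_mem _
  | add x y _ _ hx hy => exact Submodule.add_mem _ hx hy
  | smul q x _ hx => exact Submodule.smul_mem _ _ hx

/-- Induction on even and odd classes. -/
theorem hpar_induction {p : W.H X → Prop} (h : ∀ e, e = 0 ∨ e = 1 → ∀ a ∈ hpar W X e, p a)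
    (hadd : ∀ a b, p a → p b → p (a + b)) (a : W.H X) : p a := by
  refine gr_induction (W.isInternal X) (p := p) ?_ ?_ a
  · intro i a ha
    exact h (i % 2) (by omega) a (hpar_of (by simp) ha)
  · exact hadd

theorem list_hpar {Ω : Type*} (e : Ω → ℕ) (l : List Ω) (a : Ω → W.H X)
    (ha : ∀ i, a i ∈ hpar W X (e i)) : (l.map a).prod ∈ hpar W X (l.map e).sum := by
  induction l with
  | nil => exact hpar_one
  | cons x l ih =>
    simp only [List.map_cons, List.prod_cons, List.sum_cons]
    exact hpar_mul (ha x) ih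

end Pool.Agent.Y104.Geo
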