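import Pool.Agent.Y104.Rad

/-!
# Subspaces of the cohomology with an algebraic self-duality
-/

open CategoryTheory AlgebraicGeometry

set_option linter.unusedSectionVars false

universe u v w

namespace Pool.Agent.Y104.Geo

open Pool.Agent.H914 Pool.Agent.H914.VarClass Pool.Agent.H914.VarClass.Obj
  Pool.Agent.H914.WeilCohomology Pool.Agent.H281R3.HT Pool.Agent.TH125.Gal

variable {k : Type u} [Field k] {𝒱 : VarClass k} {ops : CycleOps 𝒱}

/-- Classes `x p` on `X` of the parity `e` such that the Gram matrix of the form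
`tr (x y θ)`, where `θ` is algebraic, is invertible and symmetric up to a sign, and whose inverse
is algebraic on `X × X`. -/
structure Piece (W : WeilCohomology.{u, v} ops) (X : 𝒱.Obj) where
  /-- the indices -/
  J : Type
  fin : Fintype J
  dec : DecidableEq J
  /-- the classes -/
  x : J → W.H X
  /-- the parity -/
  e : ℕ
  x_mem : ∀ p, x p ∈ hpar W X e
  /-- the twist -/
  θ : W.H X
  θ_mem : θ ∈ algSpan W X
  /-- the Gram matrix -/
  Q : Matrix J J W.K
  Q_eq : ∀ p q, Q p q = W.tr X (x p * x q * θ)
  isUnit : IsUnit Q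
  β_mem : ∑ p, ∑ q, Q⁻¹ p q • (W.map (fst X X) (x p) * W.map (snd X X) (x q)) ∈
    algSpan W (X.prod X)

attribute [instance] Piece.fin Piece.dec

end Pool.Agent.Y104.Geo
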