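import Pool.Agent.Y104.Rad

/-!
# Projection formulas
-/

open CategoryTheory AlgebraicGeometry

set_option linter.unusedSectionVars false

universe u v w

namespace Pool.Agent.Y104.Geo

open Pool.Agent.H914 Pool.Agent.H914.VarClass Pool.Agent.H914.VarClass.Obj
  Pool.Agent.H914.WeilCohomology Pool.Agent.H281R3.HT Pool.Agent.TH125.Gal

variable {k : Type u} [Field k] {𝒱 : VarClass k} {ops : CycleOps 𝒱}
  {W : WeilCohomology.{u, v} ops} {X Y Z : 𝒱.Obj}

/-- The projection formula on the left. -/
theorem mul_push' (f : X ⟶ Y) (a : W.H Y) (v : W.H X) :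
    a * W.push f v = W.push f (W.map f a * v) := by
  refine hpar_induction (p := fun a => a * W.push f v = W.push f (W.map f a * v)) ?_ ?_ a
  · intro e _ a ha
    refine hpar_induction (p := fun v => a * W.push f v = W.push f (W.map f a * v)) ?_ ?_ v
    · intro e' _ v hv
      have h1 := hpar_comm (W := W) e e' a ha _ (hpar_push f hv)
      have h2 := hpar_comm (W := W) e e' _ (hpar_map f ha) v hv
      rw [h1, h2, map_smul, W.push_mul]
    · intro v v' hv hv'
      rw [map_add, mul_add, hv, hv', mul_add, map_add]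
  · intro a a' ha ha'
    rw [add_mul, ha, ha', map_add, add_mul, map_add]

theorem tr_push_one (f : X ⟶ Y) (a : W.H X) : W.tr Y (W.push f a) = W.tr X a := by
  have h1 := W.tr_push f a 1
  rwa [map_one, mul_one, mul_one] at h1

/-- The push-forward of a class pulled back from the other factor. -/
theorem push_fst_snd (Y X : 𝒱.Obj) (c : W.H X) :
    W.push (fst Y X) (W.map (snd Y X) c) = W.tr X c • (1 : W.H Y) := by
  refine gr_induction (W.isInternal X) (p := fun c => W.push (fst Y X) (W.map (snd Y X) c) =
    W.tr X c • (1 : W.H Y)) ?_ ?_ c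
  · intro i c hc
    have h1 := push_fst (W := W) (1 : W.H Y) hc
    rwa [map_one, one_mul] at h1
  · intro c c' hc hc'
    rw [map_add, map_add, hc, hc', map_add, add_smul]

/-- **Base change for correspondences.** -/
theorem map_corr (p : Y ⟶ Z) (c : W.H (X.prod Z)) (x : W.H X) :
    W.map p (W.push (snd X Z) (W.map (fst X Z) x * c)) = W.push (fst Y X)
      (W.map (snd Y X) x * W.map (Obj.lift (snd Y X) (fst Y X ≫ p)) c) := by
  refine W.kunneth_induction (p := fun c => W.map p (W.push (snd X Z) (W.map (fst X Z) x * c)) =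
    W.push (fst Y X) (W.map (snd Y X) x * W.map (Obj.lift (snd Y X) (fst Y X ≫ p)) c)) ?_ ?_ c
  · intro a b ha hb
    rw [mul_add, map_add, map_add, ha, hb, map_add, mul_add, map_add]
  · intro i j a _ b _
    rw [← mul_assoc, ← map_mul, W.push_snd, map_smul, map_mul (W.map (Obj.lift _ _)),
      ← W.map_comp, ← W.map_comp, Obj.lift_fst, Obj.lift_snd, ← mul_assoc, ← map_mul, W.map_comp,
      W.push_mul, push_fst_snd, smul_mul_assoc, one_mul]

/-- Moving a push-forward out of a product. -/
theorem ofFn_push (g : X ⟶ Y) (c : W.H X) (hc : ∀ a, c * a = a * c) (n : ℕ) :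
    ∀ (s : Fin n) (a : Fin n → W.H Y) (a' : Fin n → W.H X), (∀ t, t ≠ s → a' t = W.map g (a t)) →
      a s = W.push g (a' s * c) → ∀ A : W.H Y, A * (List.ofFn a).prod =
        W.push g (W.map g A * c * (List.ofFn a').prod) := by
  induction n with
  | zero => intro s; exact s.elim0
  | succ n ih =>
    intro s a a' h h' A
    rw [List.ofFn_succ, List.ofFn_succ, List.prod_cons, List.prod_cons]
    refine Fin.cases (motive := fun s => (∀ t, t ≠ s → a' t = W.map g (a t)) →
      a s = W.push g (a' s * c) → A * (a 0 * (List.ofFn fun i => a i.succ).prod) =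
        W.push g (W.map g A * c * (a' 0 * (List.ofFn fun i => a' i.succ).prod))) ?_ ?_ s h h'
    · intro h h'
      have h1 : (List.ofFn fun i : Fin n => a' i.succ).prod =
          W.map g (List.ofFn fun i : Fin n => a i.succ).prod := by
        rw [map_list_prod, List.map_ofFn]
        congr 2
        funext i
        exact h _ (Fin.succ_ne_zero i)
      rw [h1, h', ← mul_assoc, mul_push', ← W.push_mul]
      congr 1
      rw [mul_assoc (W.map g A) c, ← mul_assoc c, hc (a' 0)]
      simp only [mul_assoc]
    · intro s h h'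
      have h1 := ih s (fun i => a i.succ) (fun i => a' i.succ) (fun t ht => h _ fun h0 =>
        ht (Fin.succ_injective _ h0)) h' (A * a 0)
      rw [← mul_assoc, h1, h 0 (Fin.succ_ne_zero s).symm, map_mul (W.map g)]
      congr 1
      rw [mul_assoc (W.map g A) (W.map g (a 0)), ← hc (W.map g (a 0))]
      simp only [mul_assoc]

/-- **Replacing a factor by its image under a correspondence.** -/
theorem tr_slot {n : ℕ} (p : Y ⟶ Z) (c : W.H (X.prod Z)) (hc : c ∈ algSpan W (X.prod Z))
    (s : Fin n) (a : Fin n → W.H Y) (a' : Fin n → W.H (Y.prod X)) (x : W.H X)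
    (h : ∀ t, t ≠ s → a' t = W.map (fst Y X) (a t))
    (h1 : a s = W.map p (W.corr c x)) (h2 : a' s = W.map (snd Y X) x) (z w : W.H Y) :
    W.tr Y (z * w * (List.ofFn a).prod) = W.tr (Y.prod X)
      (W.map (fst Y X) z * W.map (Obj.lift (snd Y X) (fst Y X ≫ p)) c * W.map (fst Y X) w *
        (List.ofFn a').prod) := by
  have hc' := alg_comm (algSpan_map (Obj.lift (snd Y X) (fst Y X ≫ p)) hc)
  rw [ofFn_push (fst Y X) (W.map (Obj.lift (snd Y X) (fst Y X ≫ p)) c) hc' n s a a' h
    (by rw [h1, h2, W.corr_apply, alg_comm hc, map_corr]) (z * w), tr_push_one]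
  congr 1
  rw [map_mul (W.map (fst Y X)), mul_assoc (W.map (fst Y X) z) (W.map _ w) _,
    ← hc' (W.map (fst Y X) w)]
  simp only [mul_assoc]

end Pool.Agent.Y104.Geo
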