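import Pool.Agent.Y104.Par

/-!
# Numerically trivial classes
-/

open CategoryTheory AlgebraicGeometry

set_option linter.unusedSectionVars false

universe u v w

namespace Pool.Agent.Y104.Geo

open Pool.Agent.H914 Pool.Agent.H914.VarClass Pool.Agent.H914.VarClass.Obj
  Pool.Agent.H914.WeilCohomology Pool.Agent.H281R3.HT Pool.Agent.TH125.Gal

variable {k : Type u} [Field k] {𝒱 : VarClass k} {ops : CycleOps 𝒱}
  {W : WeilCohomology.{u, v} ops} {X Y Z : 𝒱.Obj}

/-- Induction on the span of the algebraic classes. -/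
theorem algSpan_ind {p : W.H X → Prop} (h : ∀ j, ∀ a ∈ algClasses W X j, p a) (h0 : p 0)
    (hadd : ∀ a b, p a → p b → p (a + b)) (hsmul : ∀ (q : W.K) a, p a → p (q • a)) {a : W.H X}
    (ha : a ∈ algSpan W X) : p a := by
  induction ha using Submodule.span_induction with
  | mem a ha =>
    obtain ⟨i, hi⟩ := Set.mem_iUnion.1 ha
    exact h i a hi
  | zero => exact h0
  | add x y _ _ hx hy => exact hadd _ _ hx hy
  | smul q x _ hx => exact hsmul _ _ hx

theorem algSpan_push (f : X ⟶ Y) {a : W.H X} (ha : a ∈ algSpan W X) :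
    W.push f a ∈ algSpan W Y := by
  refine algSpan_ind (p := fun a => W.push f a ∈ algSpan W Y) ?_ ?_ ?_ ?_ ha
  · intro j a ha
    by_cases hj : X.dim ≤ j + Y.dim
    · exact alg_mem (alg_push f (i := j + Y.dim - X.dim) ha (by omega))
    · rw [alg_push_zero (g := f) ha (by omega)]
      exact Submodule.zero_mem _
  · rw [map_zero]; exact Submodule.zero_mem _
  · intro a b ha hb; rw [map_add]; exact Submodule.add_mem _ ha hb
  · intro q a ha; rw [map_smul]; exact Submodule.smul_mem _ _ ha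

/-- The linear combinations of algebraic classes which are orthogonal to all algebraic classes. -/
def rad (W : WeilCohomology.{u, v} ops) (X : 𝒱.Obj) : Submodule W.K (W.H X) :=
  algSpan W X ⊓ transcendental W X

theorem mem_rad {z : W.H X} : z ∈ rad W X ↔ z ∈ algSpan W X ∧
    ∀ a ∈ algSpan W X, W.tr X (z * a) = 0 := by
  rw [rad, Submodule.mem_inf, mem_trans']
  rfl

theorem rad_comm {z : W.H X} (hz : z ∈ rad W X) (a : W.H X) : z * a = a * z :=
  alg_comm (mem_rad.1 hz).1 a

theorem rad_tr {z : W.H X} (hz : z ∈ rad W X) {a : W.H X} (ha : a ∈ algSpan W X) :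
    W.tr X (z * a) = 0 := (mem_rad.1 hz).2 a ha

theorem rad_mul {z : W.H X} (hz : z ∈ rad W X) {a : W.H X} (ha : a ∈ algSpan W X) :
    z * a ∈ rad W X := by
  rw [mem_rad] at hz ⊢
  refine ⟨algSpan_mul hz.1 ha, fun b hb => ?_⟩
  rw [mul_assoc]
  exact hz.2 _ (algSpan_mul ha hb)

theorem rad_push (f : X ⟶ Y) {z : W.H X} (hz : z ∈ rad W X) : W.push f z ∈ rad W Y := by
  rw [mem_rad] at hz ⊢
  refine ⟨algSpan_push f hz.1, fun b hb => ?_⟩
  rw [W.tr_push]
  exact hz.2 _ (algSpan_map f hb)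

theorem rad_map (f : X ⟶ Y) {z : W.H Y} (hz : z ∈ rad W Y) : W.map f z ∈ rad W X := by
  rw [mem_rad] at hz ⊢
  refine ⟨algSpan_map f hz.1, fun b hb => ?_⟩
  rw [alg_comm (algSpan_map f hz.1), ← W.tr_push, ← alg_comm hz.1]
  exact hz.2 _ (algSpan_push f hb)

/-- The conjecture D in terms of linear combinations of algebraic classes. -/
theorem rad_eq_bot (h : HomEqNum W X) : rad W X = ⊥ :=
  (isCompl h).disjoint.eq_bot

theorem homEqNum_of_rad (h : rad W X = ⊥) : HomEqNum W X := by
  rw [homEqNum_iff]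
  have hAS : ∀ c, W552.AS W X c → c ∈ algSpan W X := fun c hc =>
    W552.AS.ind (p := fun c => c ∈ algSpan W X) (fun j a ha => alg_mem ha)
      (fun _ _ ha hb => Submodule.add_mem _ ha hb) hc
  intro c hc hnum
  rw [← Submodule.mem_bot W.K, ← h, mem_rad]
  refine ⟨hAS c hc, fun a ha => ?_⟩
  refine algSpan_ind (p := fun a => W.tr X (c * a) = 0) ?_ ?_ ?_ ?_ ha
  · intro j a ha
    exact hnum a (W552.AS.of ha)
  · rw [mul_zero, map_zero]
  · intro a b ha hb
    rw [mul_add, map_add, ha, hb, add_zero]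
  · intro q a ha
    rw [mul_smul_comm, map_smul, ha, smul_zero]

/-- The pull-back along a dominating morphism. -/
theorem rad_dominates (g : X ⟶ Y) {w : W.H X} (hw : w ∈ algSpan W X) {c : W.K} (hc : c ≠ 0)
    (hg : W.push g w = c • 1) (hX : rad W X = ⊥) : rad W Y = ⊥ := by
  rw [eq_bot_iff]
  intro z hz
  have h1 : W.map g z * w = 0 := by
    rw [← Submodule.mem_bot W.K, ← hX]
    exact rad_mul (rad_map g hz) hw
  have h2 : W.push g (w * W.map g z) = 0 := by
    rw [← rad_comm (rad_map g hz), h1, map_zero]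
  rw [W.push_mul, hg, smul_mul_assoc, one_mul] at h2
  exact (smul_eq_zero.1 h2).resolve_left hc

end Pool.Agent.Y104.Geo
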