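import Pool.Agent.Y104.Gap

/-!
# The determinant relation for the optimal norm
-/

open Finset Module Matrix

set_option linter.unusedSectionVars false

namespace Pool.Agent.Y104.Kempf

universe u

/-- The values of a tensor as a multilinear form. -/
def evM {ι : Type} [Fintype ι] [DecidableEq ι] {b : ι → Type} [∀ i, Fintype (b i)]
    [∀ i, DecidableEq (b i)] {S : Type} [Fintype S] [dS : DecidableEq S] {c : S → ι}
    {K : Type u} [Field K] (L : Type*) [Field L] [Algebra K L] (z : (∀ s, b (c s)) → K) :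
    MultilinearMap L (fun s => b (c s) → L) L where
  toFun := ev z
  map_update_add' := by
    intro inst m i x y
    obtain rfl : inst = dS := Subsingleton.elim _ _
    exact ev_add z m i x y
  map_update_smul' := by
    intro inst m i x y
    obtain rfl : inst = dS := Subsingleton.elim _ _
    exact ev_smul z m i x y

section

variable {ι : Type} [Fintype ι] [DecidableEq ι] {b : ι → Type} [∀ i, Fintype (b i)]
  [∀ i, DecidableEq (b i)] {S : Type} [Fintype S] [DecidableEq S] {c : S → ι}
  {K : Type u} [Field K] {L : Type*} [Field L] [Algebra K L]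

/-- **The determinant relation.** -/
theorem kempf_relation [IsAlgClosed L] {Q : ∀ j, Matrix (b j) (b j) K} (hQ : ∀ j, IsUnit (Q j))
    {N : Set ((S → Σ j, b j) → K)} (hc : ∀ z ∈ N, ∀ I, z I ≠ 0 → ∀ s, (I s).1 = c s)
    {w : ∀ j, (b j → L) → ℝ} {t : ℝ} (ht : 0 < t)
    (hw : Adm2 (fun j => (Q j).map (algebraMap K L)) w) (hg : Ge (rst c '' N) t w)
    (hopt : ∀ (w' : ∀ j, (b j → L) → ℝ) (t' : ℝ),
      Adm2 (fun j => (Q j).map (algebraMap K L)) w' → Ge (rst c '' N) t' w' → t' ≤ t)
    {g : ∀ j, Matrix (b j) (b j) K} (hgu : ∀ j, IsUnit (g j)) {a : ι → K} (ha0 : ∀ j, a j ≠ 0)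
    (hga : ∀ j, (g j)ᵀ * Q j * g j = a j • Q j)
    (hinv : ∀ j (y : b j → L), y ≠ 0 → w j ((g j).map (algebraMap K L) *ᵥ y) = w j y)
    (hfin : ∀ z ∈ N, ∃ m : ℕ, 0 < m ∧ ∃ κ : K, κ ^ 2 = ∏ s, a (c s) ^ m ∧
      gtact (fun _ => Matrix.blockDiagonal' fun j => ((g j) ^ m)ᵀ) z = κ • z)
    {k : ℕ} {ω γ : Fin k → ℝ} (hm : StrictMono ω) (hpos : ∀ i, 0 < ω i)
    (hγ : ∀ m, ∑ i, (if i ≤ m then γ i else 0) = ω m)
    (hval : ∀ j (y : b j → L), y ≠ 0 → 0 < w j y → ∃ i, ω i = w j y)
    (v : L → ℝ) (hv : ∀ x y, x ≠ 0 → y ≠ 0 → v (x * y) = v x + v y) :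
    ∑ i, γ i * ∑ j, (2 * v (detOn ((g j).map (algebraMap K L)).mulVecLin ((hw.1.1 j).ge (ω i))) -
      (finrank L ((hw.1.1 j).ge (ω i)) : ℝ) * v (algebraMap K L (a j))) = 0 := by
  classical
  have hv1 : v 1 = 0 := by
    have h := hv 1 1 one_ne_zero one_ne_zero
    rw [mul_one] at h
    linarith
  have hvp : ∀ {T : Type} (X : Finset T) (f : T → L), (∀ i ∈ X, f i ≠ 0) →
      v (∏ i ∈ X, f i) = ∑ i ∈ X, v (f i) := by
    intro T X f
    induction X using Finset.induction_on with
    | empty => intro _; rw [Finset.prod_empty, Finset.sum_empty, hv1]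
    | insert i X hi ih =>
      intro h
      rw [Finset.prod_insert hi, Finset.sum_insert hi, hv _ _ (h i (mem_insert_self _ _))
        (Finset.prod_ne_zero_iff.2 fun i hi => h i (mem_insert_of_mem hi)),
        ih fun i hi => h i (mem_insert_of_mem hi)]
  have hvpow : ∀ (x : L), x ≠ 0 → ∀ n : ℕ, v (x ^ n) = n * v x := by
    intro x hx n
    induction n with
    | zero => rw [pow_zero, hv1, Nat.cast_zero, zero_mul]
    | succ n ih =>
      rw [pow_succ, hv _ _ (pow_ne_zero _ hx) hx, ih]
      push_cast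
      ring
  have hgL : ∀ j, IsUnit ((g j).map (algebraMap K L)) := fun j =>
    (hgu j).map ((algebraMap K L).mapMatrix)
  have hginj : ∀ j, Function.Injective ((g j).map (algebraMap K L)).mulVecLin := by
    intro j x y hxy
    obtain ⟨h, hh⟩ := (hgL j).exists_left_inv
    have h1 : ∀ x, x = h *ᵥ (((g j).map (algebraMap K L)) *ᵥ x) := fun x => by
      rw [mulVec_mulVec, hh, one_mulVec]
    rw [h1 x, h1 y]
    exact congrArg _ hxy
  have hgaL : ∀ j, ((g j).map (algebraMap K L))ᵀ * (Q j).map (algebraMap K L) *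
      (g j).map (algebraMap K L) = algebraMap K L (a j) • (Q j).map (algebraMap K L) := by
    intro j
    have h3 := congrArg (fun X => X.map (algebraMap K L)) (hga j)
    simp only [Matrix.map_mul] at h3
    rw [← Matrix.transpose_map]
    rw [h3]
    ext i k
    simp
  -- the adapted basis of generalized eigenvectors
  choose e α he heα using fun j => exists_adp_eig (L := L) (n := b j)
    (finrank_fintype_fun_eq_card L).symm (hw.1.1 j) ((g j).map (algebraMap K L)).mulVecLin
    (fun x hx => by
      have hx0 : x ≠ 0 := by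
        rintro rfl
        rw [map_zero] at hx
        exact hx rfl
      exact (hinv j x hx0).ge)
  have hα0 : ∀ j p, α j p ≠ 0 := fun j p => eig_ne_zero (hginj j) (heα j p) ((e j).ne_zero p)
  have hQL : ∀ j, IsUnit ((Q j).map (algebraMap K L)) := fun j =>
    (hQ j).map ((algebraMap K L).mapMatrix)
  choose σ hσ using fun j => exists_perm_gram _ (hQL j) (e j)
  let y : ∀ j, b j → ℝ := fun j p => v (α j p) - v (algebraMap K L (a j)) / 2
  have haL : ∀ j, algebraMap K L (a j) ≠ 0 := fun j => (map_ne_zero _).2 (ha0 j)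
  have hyQ : ∀ j p q, Rl (fun j => (Q j).map (algebraMap K L)) e j p q →
      y j p + y j q = 0 := by
    intro j p q hpq
    have h1 := bil_eig (hgaL j) (heα j p) (heα j q) hpq
    have h2 := hv _ _ (hα0 j p) (hα0 j q)
    rw [h1] at h2
    simp only [y]
    linarith
  have hσy : ∀ j p, y j (σ j p) = -y j p := fun j p => by
    have := hyQ j _ _ (hσ j p)
    linarith
  have hy0 : ∀ j, ∑ p, y j p = 0 := by
    intro j
    have h1 : ∑ p, y j (σ j p) = ∑ p, y j p := Equiv.sum_comp (σ j) (y j)
    simp only [hσy, Finset.sum_neg_distrib] at h1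
    linarith
  have hσw : ∀ j p, w j (e j (σ j p)) = -w j (e j p) := by
    intro j
    have h1 : ∀ p, w j (e j (σ j p)) + w j (e j p) ≤ 0 := fun p => hw.2 j _ _ (hσ j p)
    have h2 : ∑ p, (w j (e j (σ j p)) + w j (e j p)) = 0 := by
      rw [Finset.sum_add_distrib, Equiv.sum_comp (σ j) (fun p => w j (e j p)),
        (hw.1.any he).1 j, add_zero]
    have h3 := (Finset.sum_eq_zero_iff_of_nonpos fun p _ => h1 p).1 h2
    intro p
    have := h3 p (mem_univ p)
    linarith
  have hyN : ∀ z ∈ rst c '' N, ∀ J : ∀ s, b (c s), ev z (fun s => e (c s) (J s)) ≠ 0 →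
      ∑ s, y (c s) (J s) = 0 := by
    rintro _ ⟨z, hz, rfl⟩ J hJ
    obtain ⟨m, hm0, κ, hκ, hz'⟩ := hfin z hz
    have h1 : ∀ u : ∀ s, b (c s) → L,
        ev (rst c z) (fun s => (((g (c s)).map (algebraMap K L)).mulVecLin ^ m) (u s)) =
        algebraMap K L κ * ev (rst c z) u := by
      intro u
      have h2 := ev_gtact (L := L) (hc z hz) (fun _ j => (g j) ^ m) u
      rw [hz'] at h2
      have h3 : ev (rst c (κ • z)) u = algebraMap K L κ * ev (rst c z) u := by
        unfold ev
        rw [Finset.mul_sum]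
        refine Finset.sum_congr rfl fun I _ => ?_
        change _ * algebraMap K L (κ * rst c z I) = _
        rw [map_mul]
        ring
      rw [h3] at h2
      rw [h2]
      congr 1
      funext s
      rw [← Matrix.toLin'_apply', ← Matrix.toLin'_pow, Matrix.toLin'_apply]
      congr 1
      exact (Matrix.map_pow _ _ _).symm
    have h2 : ∏ s, α (c s) (J s) ^ m = algebraMap K L κ := by
      by_contra hne
      apply hJ
      exact mul_eig (V := fun s => b (c s) → L) (evM L (rst c z))
        (fun s => ((g (c s)).map (algebraMap K L)).mulVecLin ^ m) (algebraMap K L κ) h1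
        (fun s => α (c s) (J s) ^ m) hne _ (fun s => mem_maxGen_pow _ _ _ (heα _ _))
    have hm' : (0 : ℝ) < m := by exact_mod_cast hm0
    have h3 : v (algebraMap K L κ) = ∑ s, (m : ℝ) * v (α (c s) (J s)) := by
      rw [← h2, hvp _ _ fun s _ => pow_ne_zero _ (hα0 _ _)]
      exact Finset.sum_congr rfl fun s _ => hvpow _ (hα0 _ _) _
    have hκ0 : algebraMap K L κ ≠ 0 := by
      rw [← h2]
      exact Finset.prod_ne_zero_iff.2 fun s _ => pow_ne_zero _ (hα0 _ _)
    have h4 : 2 * v (algebraMap K L κ) = ∑ s, (m : ℝ) * v (algebraMap K L (a (c s))) := by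
      have h5 := hvpow _ hκ0 2
      rw [← map_pow, hκ, map_prod, hvp _ _ fun s _ => by
        rw [map_pow]
        exact pow_ne_zero _ (haL _)] at h5
      rw [Nat.cast_ofNat] at h5
      rw [← h5]
      exact Finset.sum_congr rfl fun s _ => by rw [map_pow, hvpow _ (haL _)]
    rw [h3, ← Finset.mul_sum, ← Finset.mul_sum] at h4
    have h5 : 2 * ∑ s, v (α (c s) (J s)) = ∑ s, v (algebraMap K L (a (c s))) := by
      have h6 : (m : ℝ) * (2 * ∑ s, v (α (c s) (J s))) =
          m * ∑ s, v (algebraMap K L (a (c s))) := by linarith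
      exact mul_left_cancel₀ hm'.ne' h6
    simp only [y]
    rw [Finset.sum_sub_distrib, ← Finset.sum_div]
    linarith
  have hvar := opt_variation ht hw hg hopt he y hy0 hyQ hyN
  have hstep : ∀ j, ∑ p, w j (e j p) * y j p =
      2 * ∑ i, γ i * ∑ p, (if ω i ≤ w j (e j p) then y j p else 0) := fun j =>
    sum_gaps hm hpos hγ (fun p => w j (e j p)) (y j) (fun p hp => hval j _ ((e j).ne_zero p) hp)
      (σ j) (hσw j) (hσy j)
  have hdet : ∀ j i, ∑ p, (if ω i ≤ w j (e j p) then y j p else 0) =
      v (detOn ((g j).map (algebraMap K L)).mulVecLin ((hw.1.1 j).ge (ω i))) -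
        (finrank L ((hw.1.1 j).ge (ω i)) : ℝ) * v (algebraMap K L (a j)) / 2 := by
    intro j i
    obtain ⟨f, hf⟩ := exists_basis_ge (hw.1.1 j) (he j) (ω i)
    have hst : ∀ x ∈ (hw.1.1 j).ge (ω i),
        ((g j).map (algebraMap K L)).mulVecLin x ∈ (hw.1.1 j).ge (ω i) := by
      intro x hx
      rw [IsNrm.mem_ge] at hx ⊢
      by_cases h0 : x = 0
      · left
        rw [h0, map_zero]
      · right
        rw [Matrix.mulVecLin_apply, hinv j x h0]
        exact hx.resolve_left h0
    rw [detOn_eq _ _ hst]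
    have h1 : ∏ p : {p // ω i ≤ w j (e j p)}, α j p =
        LinearMap.det (((g j).map (algebraMap K L)).mulVecLin.restrict hst) := by
      refine det_eig _ f (fun p => α j p) fun p => ?_
      have h2 := heα j p
      rw [Module.End.mem_maxGenEigenspace] at h2 ⊢
      obtain ⟨n, hn⟩ := h2
      refine ⟨n, Subtype.ext ?_⟩
      have h3 : ∀ (n : ℕ) (x : (hw.1.1 j).ge (ω i)),
          (((((((g j).map (algebraMap K L)).mulVecLin.restrict hst : Module.End L _) -
            α j p • 1) ^ n) x : (hw.1.1 j).ge (ω i)) : b j → L) =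
          ((((g j).map (algebraMap K L)).mulVecLin - α j p • (1 : Module.End L (b j → L))) ^ n)
            (x : b j → L) := by
        intro n
        induction n with
        | zero => intro x; simp
        | succ n ih =>
          intro x
          rw [pow_succ, pow_succ, Module.End.mul_apply, Module.End.mul_apply, ih]
          rfl
      rw [h3, hf]
      exact hn
    rw [← h1, hvp Finset.univ (fun p : {p // ω i ≤ w j (e j p)} => α j p) fun p _ => hα0 j p,
      finrank_eq_card_basis f]
    have h2 : ∑ p, (if ω i ≤ w j (e j p) then y j p else 0) =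
        ∑ p : {p // ω i ≤ w j (e j p)}, y j p := by
      rw [← Finset.sum_filter]
      exact Finset.sum_subtype _ (fun p => by simp) (y j)
    rw [h2]
    simp only [y]
    rw [Finset.sum_sub_distrib, Finset.sum_const, card_univ, nsmul_eq_mul]
    ring
  simp only [hstep, hdet] at hvar
  rw [← Finset.mul_sum, Finset.sum_comm] at hvar
  have h1 := (mul_eq_zero.1 hvar).resolve_left two_ne_zero
  calc _ = 2 * ∑ i, ∑ j, γ i * (v (detOn ((g j).map (algebraMap K L)).mulVecLin
        ((hw.1.1 j).ge (ω i))) -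
        (finrank L ((hw.1.1 j).ge (ω i)) : ℝ) * v (algebraMap K L (a j)) / 2) := by
        rw [Finset.mul_sum]
        refine Finset.sum_congr rfl fun i _ => ?_
        rw [Finset.mul_sum, Finset.mul_sum]
        refine Finset.sum_congr rfl fun j _ => ?_
        ring
    _ = 0 := by rw [h1, mul_zero]

end

end Pool.Agent.Y104.Kempf
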