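import Mathlib

/-!
# Smith normal form over a valuation ring
-/

open Finset Matrix

namespace Pool.Agent.Y104.Kempf

variable {F : Type*} [Field F] (O : ValuationSubring F)

/-- The matrix can be diagonalised over the valuation ring. -/
def Good {n : Type} [Fintype n] [DecidableEq n] (M : Matrix n n F) : Prop :=
  ∃ P Q : Matrix n n O, IsUnit P ∧ IsUnit Q ∧ ∃ a : n → F,
    P.map (algebraMap O F) * M * Q.map (algebraMap O F) = Matrix.diagonal a

variable {O}

theorem Good.submatrix {n m : Type} [Fintype n] [DecidableEq n] [Fintype m] [DecidableEq m]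
    (e₁ e₂ : n ≃ m) {M : Matrix n n F} (h : Good O (M.submatrix e₁.symm e₂.symm)) :
    Good O M := by
  obtain ⟨P, Q, hP, hQ, a, ha⟩ := h
  refine ⟨P.submatrix e₁ e₁, Q.submatrix e₂ e₁, (Matrix.isUnit_submatrix_equiv _ _).2 hP,
    (Matrix.isUnit_submatrix_equiv _ _).2 hQ, a ∘ e₁, ?_⟩
  have h1 := congrArg (fun X => X.submatrix e₁ e₁) ha
  simp only [Matrix.submatrix_diagonal_equiv] at h1
  rw [← h1]
  rw [← Matrix.submatrix_mul_equiv _ _ e₁ e₂ e₁, ← Matrix.submatrix_mul_equiv _ _ e₁ e₁ e₂]
  rw [Matrix.submatrix_submatrix]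
  simp only [Equiv.symm_comp_self, Matrix.submatrix_id_id, Matrix.submatrix_map]

theorem Good.mul {n : Type} [Fintype n] [DecidableEq n] {M : Matrix n n F} {P Q : Matrix n n O}
    (hP : IsUnit P) (hQ : IsUnit Q)
    (h : Good O (P.map (algebraMap O F) * M * Q.map (algebraMap O F))) : Good O M := by
  obtain ⟨P', Q', hP', hQ', a, ha⟩ := h
  refine ⟨P' * P, Q * Q', hP'.mul hP, hQ.mul hQ', a, ?_⟩
  rw [← ha]
  simp only [Matrix.map_mul, Matrix.mul_assoc]

theorem Good.fromBlocks {n : Type} [Fintype n] [DecidableEq n] {M : Matrix n n F} (c : F)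
    (h : Good O M) : Good O (Matrix.fromBlocks M 0 0 (Matrix.diagonal fun _ : Unit => c)) := by
  obtain ⟨P, Q, hP, hQ, a, ha⟩ := h
  refine ⟨Matrix.fromBlocks P 0 0 1, Matrix.fromBlocks Q 0 0 1, ?_, ?_,
    Sum.elim a fun _ => c, ?_⟩
  · rw [Matrix.isUnit_iff_isUnit_det, Matrix.det_fromBlocks_zero₂₁, Matrix.det_one, mul_one]
    exact (Matrix.isUnit_iff_isUnit_det _).1 hP
  · rw [Matrix.isUnit_iff_isUnit_det, Matrix.det_fromBlocks_zero₂₁, Matrix.det_one, mul_one]
    exact (Matrix.isUnit_iff_isUnit_det _).1 hQ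
  · rw [Matrix.fromBlocks_map, Matrix.fromBlocks_map, Matrix.fromBlocks_multiply,
      Matrix.fromBlocks_multiply]
    simp only [Matrix.map_zero _ (map_zero _), Matrix.map_one _ (map_zero _) (map_one _),
      Matrix.mul_zero, Matrix.zero_mul, add_zero, zero_add, Matrix.one_mul, Matrix.mul_one, ha]
    rw [Matrix.fromBlocks_diagonal]

theorem good_all (k : ℕ) : ∀ {n : Type} [Fintype n] [DecidableEq n],
    Fintype.card n = k → ∀ M : Matrix n n F, Good O M := by
  induction k with
  | zero =>
    intro n _ _ hn M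
    have := Fintype.card_eq_zero_iff.1 hn
    exact ⟨1, 1, isUnit_one, isUnit_one, fun _ => 0, Subsingleton.elim _ _⟩
  | succ k ih =>
    intro n _ _ hn M
    by_cases hM : M = 0
    · exact ⟨1, 1, isUnit_one, isUnit_one, fun _ => 0, by
        rw [hM, Matrix.mul_zero, Matrix.zero_mul]
        exact Matrix.diagonal_zero.symm⟩
    -- the pivot
    have : Nonempty n := Fintype.card_pos_iff.1 (by omega)
    obtain ⟨⟨i0, j0⟩, -, hmax⟩ := Finset.exists_max_image (univ : Finset (n × n))
      (fun x => O.valuation (M x.1 x.2)) univ_nonempty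
    have hc : M i0 j0 ≠ 0 := by
      intro h
      apply hM
      ext i j
      have := hmax (i, j) (mem_univ _)
      simp only [h, map_zero] at this
      simpa using this
    have hquot : ∀ i j, M i j / M i0 j0 ∈ O := by
      intro i j
      rw [← ValuationSubring.valuation_le_one_iff, map_div₀]
      exact (div_le_one₀ (zero_lt_iff.2 (by simpa using hc))).2 (hmax (i, j) (mem_univ _))
    -- reindexing
    obtain ⟨e₀⟩ : Nonempty (n ≃ Fin k ⊕ Unit) := by
      rw [← Fintype.card_eq, hn]
      simp
    have hex : ∀ i : n, ∃ e : n ≃ Fin k ⊕ Unit, e i = Sum.inr () := by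
      intro i
      exact ⟨e₀.trans (Equiv.swap (e₀ i) (Sum.inr ())), by simp⟩
    obtain ⟨e₁, he₁⟩ := hex i0
    obtain ⟨e₂, he₂⟩ := hex j0
    have he₁' : e₁.symm (Sum.inr ()) = i0 := by rw [← he₁, Equiv.symm_apply_apply]
    have he₂' : e₂.symm (Sum.inr ()) = j0 := by rw [← he₂, Equiv.symm_apply_apply]
    refine Good.submatrix e₁ e₂ ?_
    -- elimination
    set c := M i0 j0 with hcdef
    set A : Matrix (Fin k) (Fin k) F := fun i j => M (e₁.symm (Sum.inl i)) (e₂.symm (Sum.inl j))
    set B : Matrix (Fin k) Unit F := fun i _ => M (e₁.symm (Sum.inl i)) j0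
    set C : Matrix Unit (Fin k) F := fun _ j => M i0 (e₂.symm (Sum.inl j))
    have hM' : M.submatrix e₁.symm e₂.symm =
        Matrix.fromBlocks A B C (Matrix.diagonal fun _ : Unit => c) := by
      ext i j
      rcases i with i | i <;> rcases j with j | j
      · rfl
      · simp only [Matrix.submatrix_apply, Matrix.fromBlocks_apply₁₂, B]
        rw [show e₂.symm (Sum.inr j) = j0 from he₂']
      · simp only [Matrix.submatrix_apply, Matrix.fromBlocks_apply₂₁, C]
        rw [show e₁.symm (Sum.inr i) = i0 from he₁']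
      · simp only [Matrix.submatrix_apply, Matrix.fromBlocks_apply₂₂]
        rw [show e₁.symm (Sum.inr i) = i0 from he₁', show e₂.symm (Sum.inr j) = j0 from he₂']
        simp [hcdef]
    rw [hM']
    let B' : Matrix (Fin k) Unit O := fun i _ => ⟨M (e₁.symm (Sum.inl i)) j0 / c, hquot _ _⟩
    let C' : Matrix Unit (Fin k) O := fun _ j => ⟨M i0 (e₂.symm (Sum.inl j)) / c, hquot _ _⟩
    refine Good.mul (P := Matrix.fromBlocks 1 (-B') 0 1) (Q := Matrix.fromBlocks 1 0 (-C') 1)
      ?_ ?_ ?_
    · rw [Matrix.isUnit_iff_isUnit_det, Matrix.det_fromBlocks_zero₂₁]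
      simp
    · rw [Matrix.isUnit_iff_isUnit_det, Matrix.det_fromBlocks_zero₁₂]
      simp
    · have hB : B = B'.map (algebraMap O F) * (Matrix.diagonal fun _ : Unit => c) := by
        ext i j
        rw [Matrix.mul_diagonal, Matrix.map_apply]
        exact (div_mul_cancel₀ _ hc).symm
      have hC : C = (Matrix.diagonal fun _ : Unit => c) * C'.map (algebraMap O F) := by
        ext i j
        rw [Matrix.diagonal_mul, Matrix.map_apply]
        exact (mul_div_cancel₀ _ hc).symm
      have h1 : (Matrix.fromBlocks 1 (-B') 0 1).map (algebraMap O F) *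
          Matrix.fromBlocks A B C (Matrix.diagonal fun _ : Unit => c) *
          (Matrix.fromBlocks 1 0 (-C') 1).map (algebraMap O F) =
          Matrix.fromBlocks (A - B'.map (algebraMap O F) * C) 0 0
            (Matrix.diagonal fun _ : Unit => c) := by
        rw [Matrix.fromBlocks_map, Matrix.fromBlocks_map, Matrix.fromBlocks_multiply,
          Matrix.fromBlocks_multiply]
        have h2 : (-B').map (algebraMap O F) = -(B'.map (algebraMap O F)) := by
          ext i j
          simp
        have h3 : (-C').map (algebraMap O F) = -(C'.map (algebraMap O F)) := by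
          ext i j
          simp
        simp only [Matrix.map_zero _ (map_zero _), Matrix.map_one _ (map_zero _) (map_one _),
          Matrix.mul_zero, Matrix.zero_mul, zero_add, Matrix.one_mul, Matrix.mul_one,
          h2, h3, Matrix.neg_mul, Matrix.mul_neg]
        rw [← hB, ← hC]
        congr 1
        · rw [add_neg_cancel, Matrix.zero_mul, neg_zero, add_zero, sub_eq_add_neg]
        · rw [add_neg_cancel]
        · rw [add_neg_cancel]
      rw [h1]
      exact Good.fromBlocks c (ih (Fintype.card_fin k) _)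

theorem good {n : Type} [Fintype n] [DecidableEq n] (M : Matrix n n F) : Good O M :=
  good_all _ rfl M

end Pool.Agent.Y104.Kempf
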