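import Pool.Agent.Y104.Val
import Pool.Agent.Y104.Smi
import Pool.Agent.Y104.FM

/-!
# From vanishing contractions to a destabilising basis over a residue field
-/

open MvPolynomial Finset Matrix

set_option linter.unusedSectionVars false

namespace Pool.Agent.Y104.Kempf

section Tact

variable {β : Type} [Fintype β] [DecidableEq β] {R : Type*} [CommRing R] {S : Type} [Fintype S]
  [DecidableEq S]

/-- The action of a matrix on tensors over the same ring. -/
def tact (M : Matrix β β R) (Y : (S → β) → R) (J : S → β) : R :=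
  ∑ I : S → β, (∏ s, M (J s) (I s)) * Y I

theorem tact_mul (P M : Matrix β β R) (Y : (S → β) → R) :
    tact (P * M) Y = tact P (tact M Y) := by
  funext J
  unfold tact
  simp only [Matrix.mul_apply, Finset.prod_univ_sum, Fintype.piFinset_univ, Finset.mul_sum,
    Finset.sum_mul]
  rw [Finset.sum_comm]
  refine Finset.sum_congr rfl fun I _ => Finset.sum_congr rfl fun I' _ => ?_
  rw [Finset.prod_mul_distrib]
  ring

theorem tact_diagonal (a : β → R) (Y : (S → β) → R) (J : S → β) :
    tact (Matrix.diagonal a) Y J = (∏ s, a (J s)) * Y J := by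
  unfold tact
  rw [Finset.sum_eq_single J]
  · congr 1
    exact Finset.prod_congr rfl fun s _ => Matrix.diagonal_apply_eq _ _
  · intro I _ hI
    obtain ⟨s, hs⟩ := Function.ne_iff.1 hI
    have h0 : Matrix.diagonal a (J s) (I s) = 0 := Matrix.diagonal_apply_ne _ (Ne.symm hs)
    rw [Finset.prod_eq_zero (mem_univ s) h0, zero_mul]
  · intro h
    exact absurd (mem_univ _) h

theorem tact_one (Y : (S → β) → R) : tact (1 : Matrix β β R) Y = Y := by
  funext J
  rw [← Matrix.diagonal_one, tact_diagonal]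
  simp

theorem tact_map {R' : Type*} [CommRing R'] (φ : R →+* R') (M : Matrix β β R) (Y : (S → β) → R)
    (J : S → β) : tact (M.map φ) (fun I => φ (Y I)) J = φ (tact M Y J) := by
  unfold tact
  rw [map_sum]
  refine Finset.sum_congr rfl fun I _ => ?_
  rw [map_mul, map_prod]
  rfl

end Tact

variable {ι : Type} [Fintype ι] [DecidableEq ι] {b : ι → Type} [∀ i, Fintype (b i)]
  [∀ i, DecidableEq (b i)]

section

variable {K : Type*} [Field K] {S : Type} [Fintype S] [DecidableEq S]

theorem act_eq {R : Type*} [CommRing R] [Algebra K R] (M : Matrix (Σ j, b j) (Σ j, b j) R)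
    (y : (S → Σ j, b j) → K) (J : S → Σ j, b j) :
    act M y J = tact M (fun I => algebraMap K R (y I)) J := rfl

/-- The product of tensors. -/
def tp {β : Type} {m : ℕ} (z : Fin m → (S → β) → K) (I : Fin m × S → β) : K :=
  ∏ i, z i (fun s => I (i, s))

theorem act_tp {R : Type*} [CommRing R] [Algebra K R] (M : Matrix (Σ j, b j) (Σ j, b j) R)
    {m : ℕ} (z : Fin m → (S → Σ j, b j) → K) (J : Fin m → S → Σ j, b j) :
    act M (tp z) (fun x => J x.1 x.2) = ∏ i, act M (z i) (J i) := by
  unfold act tp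
  rw [Finset.prod_univ_sum, Fintype.piFinset_univ]
  refine Fintype.sum_equiv (Equiv.curry _ _ _) _ _ fun I => ?_
  rw [Finset.prod_mul_distrib, map_prod, Fintype.prod_prod_type]
  rfl

/-- **The lists of coordinates of the generic translates are orthogonal to the algebra.** -/
theorem apo_list {B : Matrix (Σ j, b j) (Σ j, b j) K} {c : S → ι}
    {N : Set ((S → Σ j, b j) → K)} (hc : ∀ z ∈ N, ∀ I, z I ≠ 0 → ∀ s, (I s).1 = c s)
    (hN : ∀ (m : ℕ) (z : Fin (m + 1) → (S → Σ j, b j) → K), (∀ i, z i ∈ N) → NullT B (tp z))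
    (l : List (Ply b K)) (hl : l ≠ [])
    (hlU : ∀ u ∈ l, ∃ z ∈ N, ∃ J, u = act (GM b K) z J) : ∀ a ∈ Alg B, apo l.prod a = 0 := by
  obtain ⟨m, hm⟩ : ∃ m, l.length = m + 1 := by
    cases l with
    | nil => exact absurd rfl hl
    | cons x l => exact ⟨l.length, rfl⟩
  have h1 : ∀ i : Fin (m + 1), ∃ z ∈ N, ∃ J, l.get (i.cast hm.symm) = act (GM b K) z J :=
    fun i => hlU _ (List.get_mem _ _)
  choose z hz J hJ using h1
  have h2 : l.prod = act (GM b K) (tp z) (fun x => J x.1 x.2) := by
    rw [act_tp]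
    have h3 : l.prod = ∏ i : Fin l.length, l.get i := by
      rw [← List.prod_ofFn, List.ofFn_get]
    rw [h3]
    rw [← Fintype.prod_equiv (finCongr hm.symm) (fun i => l.get (i.cast hm.symm)) _
      (fun i => rfl)]
    exact Finset.prod_congr rfl fun i _ => hJ i
  rw [h2]
  exact apo_alg fun r P => apo_act (hN m z hz) (c := fun x => c x.2)
    (fun I hI x => by
      unfold tp at hI
      have h4 : z x.1 (fun s => I (x.1, s)) ≠ 0 := fun h => hI (Finset.prod_eq_zero (mem_univ x.1) h)
      exact hc _ (hz x.1) _ h4 x.2) _ r P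

end

section

universe u

variable {K : Type u} [Field K] [CharZero K] {S : Type} [Fintype S] [DecidableEq S]

/-- **A destabilising block matrix over a residue field.** -/
theorem exists_res {B : ∀ j, Matrix (b j) (b j) K} {ε : ι → K} (hε : ∀ j, (B j)ᵀ = ε j • B j)
    (hB : ∀ j, IsUnit (B j)) (E : ι → ℕ) {D : ℕ} (hD : 0 < D) {c : S → ι}
    {N : Set ((S → Σ j, b j) → K)} (hc : ∀ z ∈ N, ∀ I, z I ≠ 0 → ∀ s, (I s).1 = c s)
    (hN : ∀ (m : ℕ) (z : Fin (m + 1) → (S → Σ j, b j) → K), (∀ i, z i ∈ N) →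
      NullT (Matrix.blockDiagonal' B) (tp z)) :
    ∃ (κ : Type u) (_ : Field κ) (ψ : K →+* κ) (h : ∀ j, Matrix (b j) (b j) κ),
      (∀ j, IsUnit (h j)) ∧ ∃ x : (Σ j, b j) → ℚ, ∀ J : S → Σ j, b j,
        (∃ z ∈ N, tact (Matrix.blockDiagonal' h) (fun I => ψ (z I)) J ≠ 0) →
        0 < ∑ i, ((D : ℚ) * (Finset.card {s | J s = i} : ℕ) - 2 * E i.1) * x i := by
  classical
  obtain ⟨O, hO, hO'⟩ := exists_val hε hB E hD
    (U := {u | ∃ z ∈ N, ∃ J, u = act (GM b K) z J})
    (fun l hl hlU => apo_list hc hN l hl hlU)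
  set F := FractionRing (Ply b K) with hF
  set φ : Ply b K →+* F := algebraMap (Ply b K) F with hφ
  have hφi : Function.Injective φ := IsFractionRing.injective _ _
  -- Smith normal forms
  choose P Q hP hQ a ha using fun j => good (O := O) ((gm b K j).map φ)
  -- the inverse of Q
  have hQ' : ∀ j, ∃ Q' : Matrix (b j) (b j) O, Q j * Q' = 1 ∧ Q' * Q j = 1 := by
    intro j
    obtain ⟨u, hu⟩ := hQ j
    exact ⟨(u⁻¹ : (Matrix (b j) (b j) O)ˣ), by rw [← hu]; exact u.mul_inv,
      by rw [← hu]; exact u.inv_mul⟩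
  choose Q' hQ1 hQ2 using hQ'
  set am : (Σ j, b j) → F := fun x => a x.1 x.2 with ham
  have hmain : (Matrix.blockDiagonal' P).map (algebraMap O F) * (GM b K).map φ =
      Matrix.diagonal am * (Matrix.blockDiagonal' Q').map (algebraMap O F) := by
    rw [GM_eq, Matrix.blockDiagonal'_map _ _ (map_zero _), Matrix.blockDiagonal'_map _ _
      (map_zero _), Matrix.blockDiagonal'_map _ _ (map_zero _),
      ← Matrix.blockDiagonal'_diagonal, ← Matrix.blockDiagonal'_mul,
      ← Matrix.blockDiagonal'_mul]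
    congr 1
    funext j
    have h1 := congrArg (· * (Q' j).map (algebraMap O F)) (ha j)
    simp only [Matrix.mul_assoc] at h1
    rw [← Matrix.map_mul, hQ1, Matrix.map_one _ (map_zero _) (map_one _), Matrix.mul_one] at h1
    exact h1
  -- determinants
  have hdet : ∀ j, O.valuation (φ (dg b K j)) = ∏ p, O.valuation (a j p) := by
    intro j
    have h1 := congrArg Matrix.det (ha j)
    rw [det_mul, det_mul, det_diagonal] at h1
    have h2 : ∀ X : Matrix (b j) (b j) O, IsUnit X →
        O.valuation ((X.map (algebraMap O F)).det) = 1 := by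
      intro X hX
      have h3 : (X.map (algebraMap O F)).det = algebraMap O F X.det := by
        rw [RingHom.map_det]
        rfl
      rw [h3]
      exact (O.valuation_eq_one_iff _).1 ((Matrix.isUnit_iff_isUnit_det _).1 hX)
    have h4 : ((gm b K j).map φ).det = φ (dg b K j) := by
      rw [dg, RingHom.map_det]
      rfl
    rw [← map_prod, ← h1, map_mul, map_mul, h2 _ (hP j), h2 _ (hQ j), one_mul, mul_one, h4]
  have hav : ∀ i, O.valuation (am i) ≠ 0 := by
    rintro ⟨j, p⟩ h
    have h1 := hdet j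
    rw [Finset.prod_eq_zero (mem_univ p) h] at h1
    exact (map_ne_zero_iff _ hφi).2 (dg_ne j) (by simpa using h1)
  have hd : O.valuation (φ (dD b K E)) = ∏ i, O.valuation (am i) ^ (2 * E i.1) := by
    rw [dD, map_prod, map_prod, Fintype.prod_sigma]
    refine Finset.prod_congr rfl fun j _ => ?_
    rw [map_pow, map_pow, map_pow, map_pow, hdet, ← pow_mul, ← Finset.prod_pow]
  -- coordinates
  let ρ : K →+* O := (algebraMap K F).codRestrict O.toSubring hO
  have hρ : ∀ c, algebraMap O F (ρ c) = algebraMap K F c := fun c => rfl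
  let ψ : K →+* IsLocalRing.ResidueField O := (IsLocalRing.residue O).comp ρ
  have hlt : ∀ J : S → Σ j, b j,
      (∃ z ∈ N, tact (Matrix.blockDiagonal' fun j => (Q' j).map (IsLocalRing.residue O))
        (fun I => ψ (z I)) J ≠ 0) →
      ∏ i, O.valuation (am i) ^ (D * Finset.card {s | J s = i}) <
        ∏ i, O.valuation (am i) ^ (2 * E i.1) := by
    rintro J ⟨z, hz, hJ⟩
    set q : O := tact (Matrix.blockDiagonal' Q') (fun I => ρ (z I)) J with hq
    have h1 : O.valuation (algebraMap O F q) = 1 := by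
      have h2 : IsLocalRing.residue O q ≠ 0 := by
        rw [hq, ← tact_map, Matrix.blockDiagonal'_map _ _ (map_zero _)]
        exact hJ
      refine (O.valuation_eq_one_iff q).1 ?_
      rwa [IsLocalRing.residue_ne_zero_iff_isUnit] at h2
    have h3 : ∀ J', O.valuation (tact ((GM b K).map φ) (fun I => algebraMap K F (z I)) J') ^ D <
        O.valuation (φ (dD b K E)) := by
      intro J'
      have h4 := hO' _ ⟨z, hz, J', rfl⟩
      rw [ValuationSubring.mem_nonunits_iff, ] at h4
      rw [map_div₀, map_pow] at h4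
      have h5 : algebraMap (Ply b K) F (act (GM b K) z J') =
          tact ((GM b K).map φ) (fun I => algebraMap K F (z I)) J' := by
        rw [act_eq, ← hφ, ← tact_map]
        rfl
      rw [h5] at h4
      have h6 : O.valuation (φ (dD b K E)) ≠ 0 := by
        rw [Valuation.ne_zero_iff]
        exact (map_ne_zero_iff _ hφi).2 (dD_ne E)
      exact (div_lt_one₀ (zero_lt_iff.2 h6)).1 h4
    have h7 : tact ((Matrix.blockDiagonal' P).map (algebraMap O F))
        (tact ((GM b K).map φ) (fun I => algebraMap K F (z I))) J =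
        (∏ s, am (J s)) * algebraMap O F q := by
      rw [← tact_mul, hmain, tact_mul, tact_diagonal, hq, ← tact_map]
      rfl
    have hne : (univ : Finset (S → Σ j, b j)).Nonempty := ⟨J, mem_univ J⟩
    obtain ⟨J0, -, hJ0⟩ := Finset.exists_max_image univ
      (fun J' => O.valuation (tact ((GM b K).map φ) (fun I => algebraMap K F (z I)) J')) hne
    have h8 : O.valuation ((∏ s, am (J s)) * algebraMap O F q) ≤
        O.valuation (tact ((GM b K).map φ) (fun I => algebraMap K F (z I)) J0) := by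
      rw [← h7]
      refine Valuation.map_sum_le _ fun I _ => ?_
      rw [map_mul]
      refine le_trans (mul_le_of_le_one_left' ?_) (hJ0 I (mem_univ I))
      rw [map_prod]
      refine Finset.prod_le_one' fun s _ => ?_
      exact (O.valuation_le_one_iff _).2 (SetLike.coe_mem _)
    rw [map_mul, h1, mul_one, map_prod] at h8
    rw [← hd]
    refine lt_of_le_of_lt ?_ (h3 J0)
    refine le_trans (le_of_eq ?_) (pow_le_pow_left' h8 D)
    rw [← Finset.prod_pow, ← Finset.prod_fiberwise univ J]
    refine Finset.prod_congr rfl fun i _ => ?_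
    rw [Finset.prod_congr rfl fun s (hs : s ∈ Finset.filter (fun s => J s = i) univ) => by
      rw [(mem_filter.1 hs).2], Finset.prod_const, ← pow_mul]
  -- linear inequalities
  let V := Additive (O.ValueGroup)ˣ
  let α : (Σ j, b j) → V := fun i => Additive.ofMul ((Units.mk0 _ (hav i))⁻¹)
  let G : Set ((Σ j, b j) → ℤ) := (fun (J : S → Σ j, b j) (i : Σ j, b j) =>
    ((D * Finset.card {s | J s = i} : ℕ) : ℤ) - ((2 * E i.1 : ℕ) : ℤ)) ''
    {J | ∃ z ∈ N, tact (Matrix.blockDiagonal' fun j => (Q' j).map (IsLocalRing.residue O))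
        (fun I => ψ (z I)) J ≠ 0}
  obtain ⟨x, hx⟩ := fourier_motzkin (F := G) ((Set.toFinite _).image _) α (by
    rintro _ ⟨J, hJ, rfl⟩
    have h1 := hlt J hJ
    change (1 : (O.ValueGroup)ˣ) < ∏ i, ((Units.mk0 _ (hav i))⁻¹) ^
      (((D * Finset.card {s | J s = i} : ℕ) : ℤ) - ((2 * E i.1 : ℕ) : ℤ))
    have h2 : ∏ i, (Units.mk0 _ (hav i)) ^ (D * Finset.card {s | J s = i}) <
        ∏ i, (Units.mk0 _ (hav i)) ^ (2 * E i.1) := by
      rw [← Units.val_lt_val]
      push_cast
      simpa using h1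
    have h3 : ∏ i, ((Units.mk0 _ (hav i))⁻¹) ^
      (((D * Finset.card {s | J s = i} : ℕ) : ℤ) - ((2 * E i.1 : ℕ) : ℤ)) =
      (∏ i, (Units.mk0 _ (hav i)) ^ (D * Finset.card {s | J s = i}))⁻¹ *
        ∏ i, (Units.mk0 _ (hav i)) ^ (2 * E i.1) := by
      rw [← Finset.prod_inv_distrib, ← Finset.prod_mul_distrib]
      refine Finset.prod_congr rfl fun i _ => ?_
      rw [_root_.zpow_sub, zpow_natCast, zpow_natCast, inv_pow, inv_pow, inv_inv]
    rw [h3]
    rw [lt_inv_mul_iff_mul_lt, mul_one]
    exact h2)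
  refine ⟨IsLocalRing.ResidueField O, inferInstance, ψ,
    fun j => (Q' j).map (IsLocalRing.residue O), fun j => ?_, x, fun J hJ => ?_⟩
  · refine IsUnit.of_mul_eq_one ((Q j).map (IsLocalRing.residue O)) ?_
    rw [← Matrix.map_mul, hQ2, Matrix.map_one _ (map_zero _) (map_one _)]
  · have := hx _ ⟨J, hJ, rfl⟩
    push_cast at this
    exact this

end

end Pool.Agent.Y104.Kempf
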