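import Pool.Agent.Y104.Eng

/-!
# Varieties whose cohomology is generated by self-dual pieces
-/

open CategoryTheory AlgebraicGeometry
open scoped Matrix

set_option linter.unusedSectionVars false

universe u v w

namespace Pool.Agent.Y104.Geo

open Pool.Agent.H914 Pool.Agent.H914.VarClass Pool.Agent.H914.VarClass.Obj
  Pool.Agent.H914.WeilCohomology Pool.Agent.H281R3.HT Pool.Agent.TH125.Gal
  Pool.Agent.Y104.Kempf

variable {k : Type u} [Field k] {𝒱 : VarClass k} {ops : CycleOps 𝒱}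
  {W : WeilCohomology.{u, v} ops} {Γ : Type w} [Group Γ] {χ : Γ →* W.Kˣ} {G : Set (GVar W Γ)}

/-- A class of a good piece of a member of `G`, pulled back to `Y`. -/
structure Slot (W : WeilCohomology.{u, v} ops) {Γ : Type w} [Group Γ] (G : Set (GVar W Γ))
    (Y : 𝒱.Obj) where
  /-- the variety -/
  X : GVar W Γ
  mem : X ∈ G
  /-- the piece -/
  P : Piece W X.X
  good : GoodPiece X P
  /-- the morphism -/
  p : Y ⟶ X.X
  /-- the class -/
  q : P.J

namespace Slot

variable {Y Y' : 𝒱.Obj}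

/-- The class on `Y`. -/
noncomputable def val (s : Slot W G Y) : W.H Y := W.map s.p (s.P.x s.q)

/-- Pull-back. -/
def map (f : Y' ⟶ Y) (s : Slot W G Y) : Slot W G Y' := ⟨s.X, s.mem, s.P, s.good, f ≫ s.p, s.q⟩

theorem val_map (f : Y' ⟶ Y) (s : Slot W G Y) : (s.map f).val = W.map f s.val :=
  W.map_comp _ _ _

theorem val_mem (s : Slot W G Y) : s.val ∈ hpar W Y s.P.e := hpar_map _ (s.P.x_mem _)

end Slot

variable {𝒵 : Set 𝒱.Obj} {Y Y' : 𝒱.Obj}

/-- The subspace spanned by the products of algebraic classes, classes pulled back from members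
of `𝒵` and classes pulled back from good pieces. -/
def gcl (W : WeilCohomology.{u, v} ops) {Γ : Type w} [Group Γ] (G : Set (GVar W Γ))
    (𝒵 : Set 𝒱.Obj) (Y : 𝒱.Obj) : Submodule W.K (W.H Y) :=
  Submodule.span W.K {c | ∃ a ∈ algSpan W Y, ∃ (e : ℕ) (w : W.H Y) (_ : Mult W 𝒵 Y e w)
    (l : List (Slot W G Y)), c = a * w * (l.map Slot.val).prod}

theorem gcl_of {a : W.H Y} (ha : a ∈ algSpan W Y) {e : ℕ} {w : W.H Y} (hw : Mult W 𝒵 Y e w)
    (l : List (Slot W G Y)) : a * w * (l.map Slot.val).prod ∈ gcl W G 𝒵 Y :=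
  Submodule.subset_span ⟨a, ha, e, w, hw, l, rfl⟩

theorem gcl_alg {a : W.H Y} (ha : a ∈ algSpan W Y) : a ∈ gcl W G 𝒵 Y := by
  have h1 := gcl_of (G := G) (𝒵 := 𝒵) ha Mult.one []
  rwa [List.map_nil, List.prod_nil, mul_one, mul_one] at h1

theorem gcl_slot (s : Slot W G Y) : s.val ∈ gcl W G 𝒵 Y := by
  have h1 := gcl_of (G := G) (𝒵 := 𝒵) (algSpan_one (W := W) (X := Y)) Mult.one [s]
  rwa [List.map_cons, List.prod_cons, List.map_nil, List.prod_nil, mul_one, mul_one,
    one_mul] at h1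

theorem gcl_mult {Z : 𝒱.Obj} (hZ : Z ∈ 𝒵) (q : Y ⟶ Z) (h : W.H Z) :
    W.map q h ∈ gcl W G 𝒵 Y := by
  refine hpar_induction (p := fun h => W.map q h ∈ gcl W G 𝒵 Y) ?_ ?_ h
  · intro e _ h hh
    have h1 := gcl_of (G := G) (𝒵 := 𝒵) (algSpan_one (W := W) (X := Y))
      (w := W.map q h) (Or.inr ⟨Z, hZ, q, h, hh, rfl⟩) []
    rwa [List.map_nil, List.prod_nil, mul_one, one_mul] at h1
  · intro a b ha hb
    rw [map_add]
    exact Submodule.add_mem _ ha hb

theorem gcl_mul (h𝒵 : ∀ Z ∈ 𝒵, ∀ Z' ∈ 𝒵, Z.prod Z' ∈ 𝒵) {c c' : W.H Y}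
    (hc : c ∈ gcl W G 𝒵 Y) (hc' : c' ∈ gcl W G 𝒵 Y) : c * c' ∈ gcl W G 𝒵 Y := by
  induction hc using Submodule.span_induction with
  | mem c hc =>
    obtain ⟨a, ha, e, w, hw, l, rfl⟩ := hc
    induction hc' using Submodule.span_induction with
    | mem c' hc' =>
      obtain ⟨a', ha', e', w', hw', l', rfl⟩ := hc'
      have h1 := list_hpar (W := W) (fun s : Slot W G Y => s.P.e) l Slot.val
        (fun s => s.val_mem)
      have h2 := hpar_comm _ _ _ h1 _ hw'.mem
      have h3 : a * w * (l.map Slot.val).prod * (a' * w' * (l'.map Slot.val).prod) =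
          (-1 : W.K) ^ ((l.map fun s => s.P.e).sum * e') •
            (a * a' * (w * w') * ((l ++ l').map Slot.val).prod) := by
        rw [List.map_append, List.prod_append]
        calc a * w * (l.map Slot.val).prod * (a' * w' * (l'.map Slot.val).prod)
            = a * w * ((l.map Slot.val).prod * a') * (w' * (l'.map Slot.val).prod) := by
              simp only [mul_assoc]
          _ = a * w * (a' * (l.map Slot.val).prod) * (w' * (l'.map Slot.val).prod) := by
              rw [alg_comm ha' (l.map Slot.val).prod]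
          _ = a * (w * a') * ((l.map Slot.val).prod * w') * (l'.map Slot.val).prod := by
              simp only [mul_assoc]
          _ = a * (a' * w) * ((l.map Slot.val).prod * w') * (l'.map Slot.val).prod := by
              rw [alg_comm ha' w]
          _ = _ := by
              rw [h2, mul_smul_comm, smul_mul_assoc]
              simp only [mul_assoc]
      rw [h3]
      exact Submodule.smul_mem _ _ (gcl_of (algSpan_mul ha ha') (hw.mul h𝒵 hw') _)
    | zero => rw [mul_zero]; exact Submodule.zero_mem _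
    | add x y _ _ hx hy => rw [mul_add]; exact Submodule.add_mem _ hx hy
    | smul q x _ hx => rw [mul_smul_comm]; exact Submodule.smul_mem _ _ hx
  | zero => rw [zero_mul]; exact Submodule.zero_mem _
  | add x y _ _ hx hy => rw [add_mul]; exact Submodule.add_mem _ hx hy
  | smul q x _ hx => rw [smul_mul_assoc]; exact Submodule.smul_mem _ _ hx

theorem gcl_map (f : Y' ⟶ Y) {c : W.H Y} (hc : c ∈ gcl W G 𝒵 Y) :
    W.map f c ∈ gcl W G 𝒵 Y' := by
  induction hc using Submodule.span_induction with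
  | mem c hc =>
    obtain ⟨a, ha, e, w, hw, l, rfl⟩ := hc
    have h1 := gcl_of (G := G) (algSpan_map f ha) (hw.map f) (l.map (Slot.map f))
    rw [List.map_map] at h1
    rw [map_mul, map_mul, map_list_prod, List.map_map]
    have h2 : (Slot.val ∘ Slot.map f : Slot W G Y → W.H Y') = W.map f ∘ Slot.val := by
      funext s
      exact s.val_map f
    rwa [h2] at h1
  | zero => rw [map_zero]; exact Submodule.zero_mem _
  | add x y _ _ hx hy => rw [map_add]; exact Submodule.add_mem _ hx hy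
  | smul q x _ hx => rw [map_smul]; exact Submodule.smul_mem _ _ hx

/-- Products. -/
theorem gcl_prod (h𝒵 : ∀ Z ∈ 𝒵, ∀ Z' ∈ 𝒵, Z.prod Z' ∈ 𝒵) (h : gcl W G 𝒵 Y = ⊤)
    (h' : gcl W G 𝒵 Y' = ⊤) : gcl W G 𝒵 (Y.prod Y') = ⊤ := by
  rw [eq_top_iff]
  intro c _
  refine W.kunneth_induction (p := fun c => c ∈ gcl W G 𝒵 (Y.prod Y')) ?_ ?_ c
  · intro a b ha hb
    exact Submodule.add_mem _ ha hb
  · intro i j a _ b _
    exact gcl_mul h𝒵 (gcl_map _ (h ▸ Submodule.mem_top)) (gcl_map _ (h' ▸ Submodule.mem_top))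

/-- **Orthogonality.** -/
theorem gcl_orth (hG : GaloisClass χ G) (h𝒵 : ∀ Z ∈ 𝒵, ∀ Z' ∈ 𝒵, Z.prod Z' ∈ 𝒵)
    (h𝒵0 : ∀ Z ∈ 𝒵, rad W Z = ⊥) (h𝒵G : ∀ Z ∈ 𝒵, ∃ Z' ∈ G, Z'.X = Z) {z c : W.H Y}
    (hz : z ∈ rad W Y) (hc : c ∈ gcl W G 𝒵 Y) : W.tr Y (z * c) = 0 := by
  induction hc using Submodule.span_induction with
  | mem c hc =>
    obtain ⟨a, ha, e, w, hw, l, rfl⟩ := hc
    have h1 := NSet_zero (fun s : Fin l.length => (l.get s).P) (𝒵 := 𝒵) hG
      (fun s => (l.get s).mem) (fun s => (l.get s).good) h𝒵 h𝒵0 h𝒵G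
      (fun I => W.tr Y (z * a * w * (List.ofFn fun s => W.map (l.get s).p
        (xv (fun s : Fin l.length => (l.get s).P) s (I s))).prod))
      ⟨Y, fun s => (l.get s).p, z * a, rad_mul hz ha, e, w, hw, rfl⟩
    have h2 := congrFun h1 fun s => ⟨s, (l.get s).q⟩
    simp only [xv_self] at h2
    have h3 : (List.ofFn fun s : Fin l.length => W.map (l.get s).p
        ((l.get s).P.x (l.get s).q)).prod = (l.map Slot.val).prod := by
      congr 1
      conv_rhs => rw [← List.ofFn_get l]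
      rw [List.map_ofFn]
      rfl
    rw [h3] at h2
    rw [← mul_assoc, ← mul_assoc]
    exact h2
  | zero => rw [mul_zero, map_zero]
  | add x y _ _ hx hy => rw [mul_add, map_add, hx, hy, add_zero]
  | smul q x _ hx => rw [mul_smul_comm, map_smul, hx, smul_zero]

/-- **The radical vanishes.** -/
theorem rad_of_gcl (hG : GaloisClass χ G) (h𝒵 : ∀ Z ∈ 𝒵, ∀ Z' ∈ 𝒵, Z.prod Z' ∈ 𝒵)
    (h𝒵0 : ∀ Z ∈ 𝒵, rad W Z = ⊥) (h𝒵G : ∀ Z ∈ 𝒵, ∃ Z' ∈ G, Z'.X = Z)
    (h : gcl W G 𝒵 Y = ⊤) : rad W Y = ⊥ := by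
  rw [eq_bot_iff]
  intro z hz
  rw [Submodule.mem_bot]
  apply W.nondeg
  intro c
  exact gcl_orth hG h𝒵 h𝒵0 h𝒵G hz (h ▸ Submodule.mem_top)

end Pool.Agent.Y104.Geo
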