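import Pool.Agent.Y104.Prj
import Pool.Agent.Y104.Pce
import Pool.Agent.Y104.Core3

/-!
# The tensors given by numerically trivial classes
-/

open CategoryTheory AlgebraicGeometry
open scoped Matrix

set_option linter.unusedSectionVars false

universe u v w

namespace Pool.Agent.Y104.Geo

open Pool.Agent.H914 Pool.Agent.H914.VarClass Pool.Agent.H914.VarClass.Obj
  Pool.Agent.H914.WeilCohomology Pool.Agent.H281R3.HT Pool.Agent.TH125.Gal
  Pool.Agent.Y104.Kempf

variable {k : Type u} [Field k] {𝒱 : VarClass k} {ops : CycleOps 𝒱}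
  {W : WeilCohomology.{u, v} ops} {Y Z : 𝒱.Obj}

/-- Products with the trace formula. -/
theorem exists_mp (W : WeilCohomology.{u, v} ops) (m : ℕ) : ∀ Y : Fin (m + 1) → 𝒱.Obj,
    ∃ (P : 𝒱.Obj) (π : ∀ i, P ⟶ Y i), ∀ y : ∀ i, W.H (Y i),
      W.tr P (List.ofFn fun i => W.map (π i) (y i)).prod = ∏ i, W.tr (Y i) (y i) := by
  induction m with
  | zero =>
    intro Y
    refine ⟨Y 0, Fin.cases (motive := fun i => (Y 0 ⟶ Y i)) (𝟙 (Y 0)) (fun i => i.elim0),
      fun y => ?_⟩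
    rw [List.ofFn_succ, List.ofFn_zero, List.prod_cons, List.prod_nil, mul_one, Fin.prod_univ_one]
    change W.tr (Y 0) (W.map (𝟙 (Y 0)) (y 0)) = _
    rw [W.map_id]
  | succ m ih =>
    intro Y
    obtain ⟨P, π, h⟩ := ih fun i => Y i.succ
    refine ⟨(Y 0).prod P, Fin.cases (motive := fun i => ((Y 0).prod P ⟶ Y i)) (fst _ _)
      (fun i => snd _ _ ≫ π i), fun y => ?_⟩
    rw [List.ofFn_succ, List.prod_cons, Fin.prod_univ_succ, ← h]
    change W.tr _ (W.map (fst (Y 0) P) (y 0) *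
      (List.ofFn fun i : Fin (m + 1) => W.map (snd (Y 0) P ≫ π i) (y i.succ)).prod) = _
    have h1 : (List.ofFn fun i : Fin (m + 1) => W.map (snd (Y 0) P ≫ π i) (y i.succ)).prod =
        W.map (snd (Y 0) P) (List.ofFn fun i : Fin (m + 1) => W.map (π i) (y i.succ)).prod := by
      rw [map_list_prod, List.map_ofFn]
      congr 2
      funext i
      exact W.map_comp _ _ _
    rw [h1, W.tr_prod]

theorem ofFn_algSpan {n : ℕ} (a : Fin n → W.H Y) (ha : ∀ i, a i ∈ algSpan W Y) :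
    (List.ofFn a).prod ∈ algSpan W Y := by
  induction n with
  | zero =>
    rw [List.ofFn_zero, List.prod_nil]
    exact algSpan_one
  | succ n ih =>
    rw [List.ofFn_succ, List.prod_cons]
    exact algSpan_mul (ha 0) (ih _ fun i => ha _)

/-- The classes which are pulled back from one of the varieties in `𝒵`, and `1`. -/
def Mult (W : WeilCohomology.{u, v} ops) (𝒵 : Set 𝒱.Obj) (Y : 𝒱.Obj) (e : ℕ) (w : W.H Y) :
    Prop :=
  (e = 0 ∧ w = 1) ∨ ∃ Z ∈ 𝒵, ∃ (q : Y ⟶ Z), ∃ h ∈ hpar W Z e, w = W.map q h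

section

variable {𝒵 : Set 𝒱.Obj}

theorem Mult.one : Mult W 𝒵 Y 0 1 := Or.inl ⟨rfl, rfl⟩

theorem Mult.mem {e : ℕ} {w : W.H Y} (h : Mult W 𝒵 Y e w) : w ∈ hpar W Y e := by
  rcases h with ⟨rfl, rfl⟩ | ⟨Z, _, q, h, hh, rfl⟩
  · exact hpar_one
  · exact hpar_map q hh

theorem Mult.map {Y' : 𝒱.Obj} (f : Y' ⟶ Y) {e : ℕ} {w : W.H Y} (h : Mult W 𝒵 Y e w) :
    Mult W 𝒵 Y' e (W.map f w) := by
  rcases h with ⟨rfl, rfl⟩ | ⟨Z, hZ, q, h, hh, rfl⟩
  · exact Or.inl ⟨rfl, map_one _⟩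
  · exact Or.inr ⟨Z, hZ, f ≫ q, h, hh, (W.map_comp _ _ _).symm⟩

theorem Mult.mul (h𝒵 : ∀ Z ∈ 𝒵, ∀ Z' ∈ 𝒵, Z.prod Z' ∈ 𝒵) {e e' : ℕ} {w w' : W.H Y}
    (h : Mult W 𝒵 Y e w) (h' : Mult W 𝒵 Y e' w') : Mult W 𝒵 Y (e + e') (w * w') := by
  rcases h with ⟨rfl, rfl⟩ | ⟨Z, hZ, q, h, hh, rfl⟩
  · rw [zero_add, one_mul]
    exact h'
  · rcases h' with ⟨rfl, rfl⟩ | ⟨Z', hZ', q', h', hh', rfl⟩
    · rw [add_zero, mul_one]
      exact Or.inr ⟨Z, hZ, q, h, hh, rfl⟩
    · refine Or.inr ⟨Z.prod Z', h𝒵 Z hZ Z' hZ', Obj.lift q q',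
        W.map (fst Z Z') h * W.map (snd Z Z') h', hpar_mul (hpar_map _ hh) (hpar_map _ hh'), ?_⟩
      rw [map_mul, ← W.map_comp, ← W.map_comp, Obj.lift_fst, Obj.lift_snd]

theorem Mult.ofFn (h𝒵 : ∀ Z ∈ 𝒵, ∀ Z' ∈ 𝒵, Z.prod Z' ∈ 𝒵) {n : ℕ} (e : Fin n → ℕ)
    (w : Fin n → W.H Y) (h : ∀ i, Mult W 𝒵 Y (e i) (w i)) :
    Mult W 𝒵 Y (List.ofFn e).sum (List.ofFn w).prod := by
  induction n with
  | zero =>
    rw [List.ofFn_zero, List.ofFn_zero, List.prod_nil, List.sum_nil]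
    exact Mult.one
  | succ n ih =>
    rw [List.ofFn_succ, List.ofFn_succ, List.prod_cons, List.sum_cons]
    exact (h 0).mul h𝒵 (ih _ _ fun i => h _)

/-- **Orthogonality.** -/
theorem Mult.tr_eq_zero (h𝒵 : ∀ Z ∈ 𝒵, rad W Z = ⊥) {e : ℕ} {w z : W.H Y}
    (h : Mult W 𝒵 Y e w) (hz : z ∈ rad W Y) : W.tr Y (z * w) = 0 := by
  rcases h with ⟨rfl, rfl⟩ | ⟨Z, hZ, q, h, hh, rfl⟩
  · exact rad_tr hz algSpan_one
  · have h1 := rad_push q hz
    rw [h𝒵 Z hZ, Submodule.mem_bot] at h1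
    rw [← W.tr_push, h1, zero_mul, map_zero]

end

section

variable {n : ℕ} {X : Fin n → 𝒱.Obj} (P : ∀ s, Piece W (X s))

/-- The index set of all the classes. -/
abbrev Tx : Type := Σ s, (P s).J

/-- The class with a given index, if it lives on the variety `X s`, and zero otherwise. -/
noncomputable def xv (s : Fin n) (J : Tx P) : W.H (X s) :=
  if h : J.1 = s then (P s).x (h ▸ J.2) else 0

theorem xv_self (s : Fin n) (p : (P s).J) : xv P s ⟨s, p⟩ = (P s).x p := by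
  rw [xv, dif_pos rfl]

theorem xv_ne {s : Fin n} {J : Tx P} (h : J.1 ≠ s) : xv P s J = 0 := by
  rw [xv, dif_neg h]

theorem xv_mem (s : Fin n) (J : Tx P) : xv P s J ∈ hpar W (X s) (P s).e := by
  rw [xv]
  split_ifs with h
  · exact (P s).x_mem _
  · exact Submodule.zero_mem _

/-- The matrix of a linear map on the classes. -/
theorem xv_lin {s : Fin n} {M : Type*} [AddCommGroup M] [Module W.K M]
    (φ ψ : W.H (X s) →ₗ[W.K] M) (m : ∀ s, Matrix (P s).J (P s).J W.K)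
    (hφ : ∀ q, φ ((P s).x q) = ∑ p, m s p q • ψ ((P s).x p)) (J : Tx P) :
    φ (xv P s J) = ∑ i, Matrix.blockDiagonal' (fun j => (m j)ᵀ) J i • ψ (xv P s i) := by
  rw [Fintype.sum_sigma, Finset.sum_eq_single s]
  · obtain ⟨j, q⟩ := J
    by_cases h : j = s
    · subst h
      rw [xv_self, hφ]
      refine Finset.sum_congr rfl fun p _ => ?_
      rw [Matrix.blockDiagonal'_apply_eq, Matrix.transpose_apply, xv_self]
    · rw [xv_ne P h, map_zero]
      refine (Finset.sum_eq_zero fun p _ => ?_).symm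
      rw [Matrix.blockDiagonal'_apply_ne _ _ _ h, zero_smul]
  · intro j _ hj
    refine Finset.sum_eq_zero fun p _ => ?_
    rw [xv_ne P hj, map_zero, smul_zero]
  · intro h
    exact absurd (Finset.mem_univ _) h

/-- The contraction of two slots is algebraic. -/
theorem beta_mem (s s' : Fin n) (f : Y ⟶ X s) (g : Y ⟶ X s') :
    ∑ t : Tx P × Tx P, Matrix.blockDiagonal' (fun j => ((P j).Q)⁻¹) t.1 t.2 •
      (W.map f (xv P s t.1) * W.map g (xv P s' t.2)) ∈ algSpan W Y := by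
  by_cases h : s = s'
  · subst h
    have h1 : ∑ t : Tx P × Tx P, Matrix.blockDiagonal' (fun j => ((P j).Q)⁻¹) t.1 t.2 •
        (W.map f (xv P s t.1) * W.map g (xv P s t.2)) =
        W.map (Obj.lift f g) (∑ p, ∑ q, ((P s).Q)⁻¹ p q •
          (W.map (fst (X s) (X s)) ((P s).x p) * W.map (snd (X s) (X s)) ((P s).x q))) := by
      rw [Fintype.sum_prod_type, Fintype.sum_sigma, Finset.sum_eq_single s, map_sum]
      · refine Finset.sum_congr rfl fun p _ => ?_
        rw [Fintype.sum_sigma, Finset.sum_eq_single s, map_sum]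
        · refine Finset.sum_congr rfl fun q _ => ?_
          rw [Matrix.blockDiagonal'_apply_eq, xv_self, xv_self, map_smul, map_mul,
            ← W.map_comp, ← W.map_comp, Obj.lift_fst, Obj.lift_snd]
        · intro j _ hj
          refine Finset.sum_eq_zero fun q _ => ?_
          rw [xv_ne P (J := ⟨j, q⟩) hj, map_zero, mul_zero, smul_zero]
        · intro h
          exact absurd (Finset.mem_univ _) h
      · intro j _ hj
        refine Finset.sum_eq_zero fun p _ => Finset.sum_eq_zero fun t _ => ?_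
        rw [xv_ne P (J := ⟨j, p⟩) hj, map_zero, zero_mul, smul_zero]
      · intro h
        exact absurd (Finset.mem_univ _) h
    rw [h1]
    exact algSpan_map _ (P s).β_mem
  · rw [Finset.sum_eq_zero]
    · exact Submodule.zero_mem _
    · rintro ⟨⟨j, p⟩, ⟨j', q⟩⟩ _
      by_cases h1 : j = s
      · by_cases h2 : j' = s'
        · rw [Matrix.blockDiagonal'_apply_ne _ _ _ (by rw [h1, h2]; exact h), zero_smul]
        · rw [xv_ne P (J := ⟨j', q⟩) h2, map_zero, mul_zero, smul_zero]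
      · rw [xv_ne P (J := ⟨j, p⟩) h1, map_zero, zero_mul, smul_zero]

/-- The tensors given by numerically trivial classes. -/
def NSet (𝒵 : Set 𝒱.Obj) : Set ((Fin n → Tx P) → W.K) :=
  {y | ∃ (Y : 𝒱.Obj) (p : ∀ s, Y ⟶ X s) (z : W.H Y) (_ : z ∈ rad W Y) (e : ℕ) (w : W.H Y)
    (_ : Mult W 𝒵 Y e w), y = fun I => W.tr Y (z * w *
      (List.ofFn fun s => W.map (p s) (xv P s (I s))).prod)}

theorem NSet_color (𝒵 : Set 𝒱.Obj) : ∀ y ∈ NSet P 𝒵, ∀ I, y I ≠ 0 → ∀ s, (I s).1 = s := by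
  rintro y ⟨Y, p, z, hz, e, w, hw, rfl⟩ I hI s
  by_contra h
  apply hI
  have h1 : (List.ofFn fun s => W.map (p s) (xv P s (I s))).prod = 0 := by
    apply List.prod_eq_zero
    rw [List.mem_ofFn]
    exact ⟨s, by simp only [xv_ne P h, map_zero]⟩
  simp only [h1, mul_zero, map_zero]

/-- Linear substitutions in the slots. -/
theorem gtact_eq {S : Type} [Fintype S] [DecidableEq S] {H : Type*} [Ring H] [Algebra W.K H]
    {n : ℕ} (τ : H →ₗ[W.K] W.K) (A : H)
    (a : Fin n → S → H) (M : Fin n → Matrix S S W.K) (J : Fin n → S) :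
    gtact M (fun I => τ (A * (List.ofFn fun s => a s (I s)).prod)) J =
      τ (A * (List.ofFn fun s => ∑ i, M s (J s) i • a s i).prod) := by
  classical
  have h1 : (List.ofFn fun s => ∑ i, M s (J s) i • a s i).prod =
      ∑ I : Fin n → S, (∏ s, M s (J s) (I s)) • (List.ofFn fun s => a s (I s)).prod := by
    have h2 := (MultilinearMap.mkPiAlgebraFin W.K n H).map_sum
      (fun s i => M s (J s) i • a s i)
    simp only [MultilinearMap.mkPiAlgebraFin_apply] at h2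
    rw [h2]
    refine Finset.sum_congr rfl fun I _ => ?_
    have h3 := (MultilinearMap.mkPiAlgebraFin W.K n H).map_smul_univ
      (fun s => M s (J s) (I s)) (fun s => a s (I s))
    simpa only [MultilinearMap.mkPiAlgebraFin_apply] using h3
  rw [h1, Finset.mul_sum, map_sum, gtact]
  refine Finset.sum_congr rfl fun I _ => ?_
  rw [mul_smul_comm, map_smul, smul_eq_mul]

end

end Pool.Agent.Y104.Geo
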