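import Pool.Agent.Y104.Cl3

/-!
# Extending the group by the scalars acting through the degree
-/

open CategoryTheory AlgebraicGeometry
open scoped Matrix

set_option linter.unusedSectionVars false

universe u v w

namespace Pool.Agent.Y104.Geo

open Pool.Agent.H914 Pool.Agent.H914.VarClass Pool.Agent.H914.VarClass.Obj
  Pool.Agent.H914.WeilCohomology Pool.Agent.H281R3.HT Pool.Agent.TH125.Gal
  Pool.Agent.Y104.Kempf

variable {k : Type u} [Field k] {𝒱 : VarClass k} {ops : CycleOps 𝒱}
  {W : WeilCohomology.{u, v} ops} {X Y : 𝒱.Obj}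

/-- Multiplication by `t ^ i` in degree `i`. -/
noncomputable def tw (W : WeilCohomology.{u, v} ops) (X : 𝒱.Obj) (t : W.K) :
    W.H X →ₗ[W.K] W.H X :=
  scal (W.isInternal X) fun i => t ^ i

theorem tw_apply {t : W.K} {i : ℕ} {a : W.H X} (ha : a ∈ W.gr X i) : tw W X t a = t ^ i • a :=
  scal_apply _ _ ha

theorem tw_gr {t : W.K} {i : ℕ} {a : W.H X} (ha : a ∈ W.gr X i) : tw W X t a ∈ W.gr X i := by
  rw [tw_apply ha]
  exact Submodule.smul_mem _ _ ha

theorem tw_one (a : W.H X) : tw W X 1 a = a := by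
  refine gr_induction (W.isInternal X) (p := fun a => tw W X 1 a = a) ?_ ?_ a
  · intro i a ha
    rw [tw_apply ha, one_pow, one_smul]
  · intro a b ha hb
    rw [map_add, ha, hb]

theorem tw_tw (s t : W.K) (a : W.H X) : tw W X s (tw W X t a) = tw W X (s * t) a := by
  refine gr_induction (W.isInternal X)
    (p := fun a => tw W X s (tw W X t a) = tw W X (s * t) a) ?_ ?_ a
  · intro i a ha
    rw [tw_apply ha, map_smul, tw_apply ha, tw_apply ha, smul_smul, mul_pow, mul_comm]
  · intro a b ha hb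
    rw [map_add, map_add, map_add, ha, hb]

theorem tw_mul (t : W.K) (a b : W.H X) : tw W X t (a * b) = tw W X t a * tw W X t b := by
  refine gr_induction (W.isInternal X)
    (p := fun a => tw W X t (a * b) = tw W X t a * tw W X t b) ?_ ?_ a
  · intro i a ha
    refine gr_induction (W.isInternal X)
      (p := fun b => tw W X t (a * b) = tw W X t a * tw W X t b) ?_ ?_ b
    · intro j b hb
      rw [tw_apply ha, tw_apply hb, tw_apply (W.mul_mem ha hb), smul_mul_smul_comm, pow_add]
    · intro b b' hb hb'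
      rw [mul_add, map_add, map_add, mul_add, hb, hb']
  · intro a a' ha ha'
    rw [add_mul, map_add, map_add, add_mul, ha, ha']

theorem tw_map (f : Y ⟶ X) (t : W.K) (a : W.H X) : tw W Y t (W.map f a) = W.map f (tw W X t a) := by
  refine gr_induction (W.isInternal X)
    (p := fun a => tw W Y t (W.map f a) = W.map f (tw W X t a)) ?_ ?_ a
  · intro i a ha
    rw [tw_apply ha, tw_apply (W.map_mem f ha), map_smul]
  · intro a b ha hb
    rw [map_add, map_add, map_add, map_add, ha, hb]

theorem tr_tw (t : W.K) (a : W.H X) : W.tr X (tw W X t a) = t ^ (2 * X.dim) * W.tr X a := by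
  refine gr_induction (W.isInternal X)
    (p := fun a => W.tr X (tw W X t a) = t ^ (2 * X.dim) * W.tr X a) ?_ ?_ a
  · intro i a ha
    rw [tw_apply ha, map_smul, smul_eq_mul]
    by_cases hi : i = 2 * X.dim
    · rw [hi]
    · rw [W.tr_eq_zero ha hi, mul_zero, mul_zero]
  · intro a b ha hb
    rw [map_add, map_add, map_add, ha, hb, mul_add]

/-- The automorphism given by the degree. -/
noncomputable def twEquiv (W : WeilCohomology.{u, v} ops) (X : 𝒱.Obj) (t : W.Kˣ) :
    W.H X ≃ₐ[W.K] W.H X :=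
  AlgEquiv.ofAlgHom
    (AlgHom.ofLinearMap (tw W X t) (by
      rw [tw_apply (W.one_mem X), pow_zero, one_smul]) (tw_mul _))
    (AlgHom.ofLinearMap (tw W X ((t⁻¹ : W.Kˣ) : W.K)) (by
      rw [tw_apply (W.one_mem X), pow_zero, one_smul]) (tw_mul _))
    (AlgHom.ext fun a => by
      change tw W X _ (tw W X _ a) = a
      rw [tw_tw, ← Units.val_mul, mul_inv_cancel, Units.val_one, tw_one])
    (AlgHom.ext fun a => by
      change tw W X _ (tw W X _ a) = a
      rw [tw_tw, ← Units.val_mul, inv_mul_cancel, Units.val_one, tw_one])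

theorem twEquiv_apply (t : W.Kˣ) (a : W.H X) : twEquiv W X t a = tw W X t a := rfl

variable {Γ : Type w} [Group Γ] {χ : Γ →* W.Kˣ} {G : Set (GVar W Γ)}

/-- The action respects the degree. -/
def Grd (X : GVar W Γ) : Prop := ∀ γ i, ∀ a ∈ W.gr X.X i, X.act γ a ∈ W.gr X.X i

theorem act_tw {X : GVar W Γ} (hX : Grd X) (γ : Γ) (t : W.K) (a : W.H X.X) :
    X.act γ (tw W X.X t a) = tw W X.X t (X.act γ a) := by
  refine gr_induction (W.isInternal X.X)
    (p := fun a => X.act γ (tw W X.X t a) = tw W X.X t (X.act γ a)) ?_ ?_ a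
  · intro i a ha
    rw [tw_apply ha, map_smul, tw_apply (hX γ i a ha)]
  · intro a b ha hb
    rw [map_add, map_add, map_add, map_add, ha, hb]

/-- The action of the group extended by the scalars. -/
@[reducible] noncomputable def gext (X : GVar W Γ) (hX : Grd X) : GVar W (Γ × W.Kˣ) where
  X := X.X
  act :=
    { toFun := fun g => X.act g.1 * twEquiv W X.X g.2
      map_one' := by
        ext a
        rw [Prod.fst_one, Prod.snd_one, map_one, one_mul]
        exact tw_one a
      map_mul' := fun g h => by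
        ext a
        change X.act (g.1 * h.1) (tw W X.X (g.2 * h.2 : W.Kˣ) a) =
          X.act g.1 (tw W X.X g.2 (X.act h.1 (tw W X.X h.2 a)))
        rw [← act_tw hX, tw_tw, map_mul, Units.val_mul]
        rfl }

theorem gext_act (X : GVar W Γ) (hX : Grd X) (g : Γ × W.Kˣ) (a : W.H X.X) :
    (gext X hX).act g a = X.act g.1 (tw W X.X g.2 a) := rfl

/-- The character of the extended group. -/
noncomputable def χext (χ : Γ →* W.Kˣ) : Γ × W.Kˣ →* W.Kˣ where
  toFun := fun g => χ g.1 * g.2 ^ 2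
  map_one' := by simp
  map_mul' := fun g h => by
    rw [Prod.fst_mul, Prod.snd_mul, map_mul, mul_pow]
    exact mul_mul_mul_comm _ _ _ _

theorem χext_apply (g : Γ × W.Kˣ) : χext χ g = χ g.1 * g.2 ^ 2 := rfl

/-- The varieties with the action of the extended group. -/
def GExt (G : Set (GVar W Γ)) : Set (GVar W (Γ × W.Kˣ)) :=
  {Y | ∃ X ∈ G, ∃ h : Grd X, Y = gext X h}

theorem isGaloisVar_gext {X : GVar W Γ} (hX : IsGaloisVar χ X) (h : Grd X) :
    IsGaloisVar (χext χ) (gext X h) where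
  gr_mem := fun g i a ha => h g.1 i _ (tw_gr ha)
  tr_act := fun g a => by
    change W.tr X.X (X.act g.1 (tw W X.X g.2 a)) = _
    rw [hX.tr_act, tr_tw, χext_apply, Units.val_mul, Units.val_pow_eq_pow_val, mul_pow, ← pow_mul,
      mul_assoc]
  cl_act := fun g j (c : W.H X.X) (hc : c ∈ algClasses W X.X j) => by
    obtain ⟨c', hc', h1⟩ := hX.cl_act g.1 j c hc
    refine ⟨c', hc', ?_⟩
    change X.act g.1 (tw W X.X g.2 c) = _
    rw [tw_apply (alg_gr hc), map_smul, h1, smul_smul, χext_apply, Units.val_mul,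
      Units.val_pow_eq_pow_val, mul_pow, ← pow_mul, mul_comm]
  cl_fix := fun j (c : W.H X.X) (hc : c ∈ algClasses W X.X j) => by
    obtain ⟨Δ, hΔ, h1⟩ := hX.cl_fix j c hc
    refine ⟨Δ.prod ⊤, ?_, fun g hg => ?_⟩
    · rw [Subgroup.finiteIndex_iff, Subgroup.index_prod, Subgroup.index_top, mul_one]
      exact Subgroup.FiniteIndex.index_ne_zero
    · change X.act g.1 (tw W X.X g.2 c) = _
      rw [tw_apply (alg_gr hc), map_smul, h1 g.1 hg.1, smul_smul, χext_apply, Units.val_mul,
        Units.val_pow_eq_pow_val, mul_pow, ← pow_mul, mul_comm]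

theorem galoisClass_gext (hG : GaloisClass χ G) : GaloisClass (χext χ) (GExt G) where
  galois := by
    rintro _ ⟨X, hX, h, rfl⟩
    exact isGaloisVar_gext (hG.galois X hX) h
  prod := by
    rintro _ ⟨A, hA, hA', rfl⟩ _ ⟨B, hB, hB', rfl⟩
    obtain ⟨C, hC, hCp⟩ := hG.prod A hA B hB
    have hC' : Grd C := (hG.galois C hC).gr_mem
    refine ⟨gext C hC', ⟨C, hC, hC', rfl⟩, ?_⟩
    obtain ⟨υ, h1, h2⟩ := hCp
    refine IsProdVar.mk (A := gext A hA') (B := gext B hB')
      (gext ⟨A.X.prod B.X, υ⟩ hC').act ?_ ?_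
    · intro g a
      change υ g.1 (tw W _ g.2 (W.map (fst A.X B.X) a)) =
        W.map (fst A.X B.X) (A.act g.1 (tw W _ g.2 a))
      rw [tw_map]
      exact h1 g.1 _
    · intro g a
      change υ g.1 (tw W _ g.2 (W.map (snd A.X B.X) a)) =
        W.map (snd A.X B.X) (B.act g.1 (tw W _ g.2 a))
      rw [tw_map]
      exact h2 g.1 _

/-- Finite orbits. -/
theorem finOrb_of (hG : GaloisClass χ G) : FinOrb χ G := by
  intro X hX γ hγ c hc
  refine algSpan_ind (p := fun c => ∃ m : ℕ, 0 < m ∧ X.act (γ ^ m) c = c) ?_ ?_ ?_ ?_ hc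
  · intro j c hc
    obtain ⟨Δ, hΔ, h1⟩ := (hG.galois X hX).cl_fix j c hc
    obtain ⟨m, hm, h2⟩ := Subgroup.exists_pow_mem_of_index_ne_zero
      (Subgroup.FiniteIndex.index_ne_zero (H := Δ)) γ
    refine ⟨m, hm, ?_⟩
    rw [h1 _ h2.2, map_pow, hγ, one_pow, Units.val_one, one_pow, one_smul]
  · exact ⟨1, one_pos, map_zero _⟩
  · rintro a b ⟨m, hm, ha⟩ ⟨m', hm', hb⟩
    refine ⟨m * m', Nat.mul_pos hm hm', ?_⟩
    have key : ∀ (l : ℕ) (γ : Γ) (a : W.H X.X), X.act γ a = a → X.act (γ ^ l) a = a := by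
      intro l γ a ha
      induction l with
      | zero => rw [pow_zero, map_one]; rfl
      | succ l ih =>
        rw [pow_succ, map_mul, AlgEquiv.mul_apply, ha, ih]
    rw [map_add, pow_mul, key m' (γ ^ m) a ha, ← pow_mul, mul_comm m m', pow_mul,
      key m (γ ^ m') b hb]
  · rintro q a ⟨m, hm, ha⟩
    exact ⟨m, hm, by rw [map_smul, ha]⟩

end Pool.Agent.Y104.Geo
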