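import Pool.Agent.Y104.Lap

/-!
# A valuation at which the normalised coordinates are small
-/

open MvPolynomial Finset Matrix

set_option linter.unusedSectionVars false

namespace Pool.Agent.Y104.Kempf

variable {ι : Type} [Fintype ι] [DecidableEq ι] {b : ι → Type} [∀ i, Fintype (b i)]
  [∀ i, DecidableEq (b i)]

section

variable (b) (K : Type*) [Field K]

/-- the determinant of a generic block -/
noncomputable def dg (j : ι) : Ply b K := (gm b K j).det

variable {b K}

theorem dg_map (k : Type*) [Field k] (φ : k →+* K) (j : ι) : map φ (dg b k j) = dg b K j := by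
  rw [dg, dg, RingHom.map_det]
  congr 1
  ext p q : 2
  simp [gm]

theorem dg_ne (j : ι) : dg b K j ≠ 0 := by
  intro h
  have h1 : (aeval (fun z : (Σ j, b j) × (Σ j, b j) => if z.1 = z.2 then (1 : K) else 0) :
      Ply b K →ₐ[K] K) (dg b K j) = 1 := by
    rw [dg, AlgHom.map_det]
    have h2 : (aeval (fun z : (Σ j, b j) × (Σ j, b j) => if z.1 = z.2 then (1 : K) else 0) :
      Ply b K →ₐ[K] K).mapMatrix (gm b K j) = 1 := by
      ext p q
      rw [AlgHom.mapMatrix_apply, Matrix.map_apply, gm, aeval_X, Matrix.one_apply]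
      by_cases h3 : p = q
      · rw [h3, if_pos rfl, if_pos rfl]
      · rw [if_neg h3, if_neg]
        intro h4
        exact h3 (by simpa using h4)
    rw [h2, det_one]
  rw [h, map_zero] at h1
  exact zero_ne_one h1

theorem dg_sq_mem {B : ∀ j, Matrix (b j) (b j) K} (hB : ∀ j, (B j).det ≠ 0) (j : ι) :
    dg b K j ^ 2 ∈ Alg (Matrix.blockDiagonal' B) := by
  have h1 : GQ (Matrix.blockDiagonal' B) =
      Matrix.blockDiagonal' (fun j => gm b K j * (B j).map C * (gm b K j)ᵀ) := by
    rw [GQ, GM_eq, Matrix.blockDiagonal'_map _ _ (map_zero _), ← Matrix.blockDiagonal'_mul,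
      Matrix.blockDiagonal'_transpose, ← Matrix.blockDiagonal'_mul]
  have h2 : (gm b K j * (B j).map C * (gm b K j)ᵀ).det ∈ Alg (Matrix.blockDiagonal' B) := by
    rw [Matrix.det_apply]
    refine sum_mem fun σ _ => ?_
    rw [Units.smul_def]
    refine Subalgebra.zsmul_mem _ (Subalgebra.prod_mem _ fun p _ => ?_) _
    have h3 := GQ_mem (Matrix.blockDiagonal' B) ⟨j, σ p⟩ ⟨j, p⟩
    rw [h1, Matrix.blockDiagonal'_apply_eq] at h3
    exact h3
  rw [det_mul, det_mul, det_transpose] at h2
  have h3 : ((B j).map (C : K →+* Ply b K)).det = C (B j).det := by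
    rw [RingHom.map_det]
    rfl
  rw [h3] at h2
  have h4 := Subalgebra.smul_mem _ h2 ((B j).det)⁻¹
  have h5 : (C (B j).det⁻¹ : Ply b K) * C (B j).det = 1 := by
    rw [← C_mul, inv_mul_cancel₀ (hB j), C_1]
  have h6 : dg b K j ^ 2 = (B j).det⁻¹ • ((gm b K j).det * C (B j).det * (gm b K j).det) := by
    rw [← C_mul', dg]
    linear_combination -(gm b K j).det ^ 2 * h5
  rw [h6]
  exact h4

/-- the denominators -/
noncomputable def dD (b : ι → Type) [∀ i, Fintype (b i)] [∀ i, DecidableEq (b i)]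
    (K : Type*) [Field K] (E : ι → ℕ) : Ply b K := ∏ j, (dg b K j ^ 2) ^ E j

theorem dD_ne (E : ι → ℕ) : dD b K E ≠ 0 :=
  Finset.prod_ne_zero_iff.2 fun j _ => pow_ne_zero _ (pow_ne_zero _ (dg_ne j))

theorem dD_map (k : Type*) [Field k] (φ : k →+* K) (E : ι → ℕ) :
    map φ (dD b k E) = dD b K E := by
  rw [dD, dD, map_prod]
  refine Finset.prod_congr rfl fun j _ => ?_
  rw [map_pow, map_pow, dg_map]

theorem dD_mem {B : ∀ j, Matrix (b j) (b j) K} (hB : ∀ j, (B j).det ≠ 0) (E : ι → ℕ) :
    dD b K E ∈ Alg (Matrix.blockDiagonal' B) :=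
  prod_mem fun j _ => pow_mem (dg_sq_mem hB j) _

end

section

variable {K : Type*} [Field K] [CharZero K]

/-- **A valuation at which all the normalised elements are small.** -/
theorem exists_val {B : ∀ j, Matrix (b j) (b j) K} {ε : ι → K} (hε : ∀ j, (B j)ᵀ = ε j • B j)
    (hB : ∀ j, IsUnit (B j)) (E : ι → ℕ) {D : ℕ} (hD : 0 < D) {U : Set (Ply b K)}
    (hU : ∀ l : List (Ply b K), l ≠ [] → (∀ u ∈ l, u ∈ U) →
      ∀ a ∈ Alg (Matrix.blockDiagonal' B), apo l.prod a = 0) :
    ∃ O : ValuationSubring (FractionRing (Ply b K)),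
      (∀ c : K, algebraMap K (FractionRing (Ply b K)) c ∈ O) ∧
      ∀ u ∈ U, (algebraMap (Ply b K) (FractionRing (Ply b K)) u) ^ D /
        algebraMap (Ply b K) (FractionRing (Ply b K)) (dD b K E) ∈ O.nonunits := by
  classical
  set F := FractionRing (Ply b K) with hF
  set φ : Ply b K →+* F := algebraMap (Ply b K) F with hφ
  have hφi : Function.Injective φ := IsFractionRing.injective _ _
  have hdet : ∀ j, (B j).det ≠ 0 := fun j => ((Matrix.isUnit_iff_isUnit_det _).1 (hB j)).ne_zero
  have hdet' : ∀ j, ((B j)⁻¹).det ≠ 0 := fun j => by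
    rw [Matrix.det_nonsing_inv]
    simpa using hdet j
  set Bm : Matrix (Σ j, b j) (Σ j, b j) K := Matrix.blockDiagonal' B with hBm
  set Bi : Matrix (Σ j, b j) (Σ j, b j) K := Matrix.blockDiagonal' (fun j => (B j)⁻¹) with hBi
  have hB1 : Bi * Bm = 1 := by
    rw [hBi, hBm, ← Matrix.blockDiagonal'_mul]
    have : (fun k => (B k)⁻¹ * B k) = fun k => (1 : Matrix (b k) (b k) K) := by
      funext k
      exact Matrix.nonsing_inv_mul _ (Ne.isUnit (hdet k))
    rw [this]
    exact Matrix.blockDiagonal'_one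
  have hBd : ∀ i k, Bm i k ≠ 0 → i.1 = k.1 := by
    rintro ⟨i, p⟩ ⟨k, q⟩ h
    by_contra h1
    exact h (Matrix.blockDiagonal'_apply_ne _ _ _ h1)
  have hBε : ∀ i k, Bm k i = ε i.1 * Bm i k := by
    rintro ⟨i, p⟩ ⟨k, q⟩
    by_cases h : i = k
    · subst h
      rw [hBm, Matrix.blockDiagonal'_apply_eq, Matrix.blockDiagonal'_apply_eq]
      have := congrFun (congrFun (hε i) p) q
      simpa using this
    · rw [hBm, Matrix.blockDiagonal'_apply_ne _ _ _ h,
        Matrix.blockDiagonal'_apply_ne _ _ _ (Ne.symm h), mul_zero]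
  set d : F := φ (dD b K E) with hd
  have hd0 : d ≠ 0 := fun h => dD_ne E (hφi (by rw [← hd, h, map_zero]))
  set T : Set F := (fun u => φ u ^ D / d) '' U with hT
  set A : Subalgebra K F := Algebra.adjoin K T with hA
  set Sp : Submodule K F := Submodule.span K {x | ∃ l : List F, l ≠ [] ∧ (∀ t ∈ l, t ∈ T) ∧
    x = l.prod} with hSp
  -- stability
  have h1 : ∀ a ∈ A, ∀ x ∈ Sp, a * x ∈ Sp := by
    intro a ha
    induction ha using Algebra.adjoin_induction with
    | mem t ht =>
      intro x hx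
      induction hx using Submodule.span_induction with
      | mem x hx =>
        obtain ⟨l, _, hl, rfl⟩ := hx
        refine Submodule.subset_span ⟨t :: l, List.cons_ne_nil _ _, ?_, by simp⟩
        intro t' ht'
        rcases List.mem_cons.1 ht' with rfl | h
        · exact ht
        · exact hl _ h
      | zero => rw [mul_zero]; exact zero_mem _
      | add x y _ _ h h' => rw [mul_add]; exact add_mem h h'
      | smul c x _ h => rw [mul_smul_comm]; exact Submodule.smul_mem _ _ h
    | algebraMap c =>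
      intro x hx
      rw [← Algebra.smul_def]
      exact Submodule.smul_mem _ _ hx
    | add a a' _ _ h h' => intro x hx; rw [add_mul]; exact add_mem (h x hx) (h' x hx)
    | mul a a' _ _ h h' => intro x hx; rw [mul_assoc]; exact h _ (h' x hx)
  -- numerators
  have h2 : ∀ l : List F, (∀ t ∈ l, t ∈ T) → ∃ l' : List (Ply b K), (∀ u ∈ l', u ∈ U) ∧
      (l ≠ [] → l' ≠ []) ∧ l.prod * d ^ l.length = φ l'.prod := by
    intro l
    induction l with
    | nil => intro _; exact ⟨[], by simp, by simp, by simp⟩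
    | cons t l ih =>
      intro ht
      obtain ⟨l', hl1, _, hl3⟩ := ih fun t' h => ht t' (List.mem_cons_of_mem _ h)
      obtain ⟨u, hu, rfl⟩ := ht t List.mem_cons_self
      refine ⟨List.replicate D u ++ l', ?_, ?_, ?_⟩
      · intro v hv
        rcases List.mem_append.1 hv with h | h
        · rw [List.eq_of_mem_replicate h]
          exact hu
        · exact hl1 v h
      · intro _ h
        rw [List.append_eq_nil_iff] at h
        have := congrArg List.length h.1
        simp at this
        omega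
      · simp only
        rw [List.prod_cons, List.prod_append, List.prod_replicate, map_mul, ← hl3, map_pow,
          List.length_cons, pow_succ]
        have h7 : φ u ^ D / d * d = φ u ^ D := div_mul_cancel₀ _ hd0
        linear_combination (l.prod * d ^ l.length) * h7
  have h3 : ∀ x ∈ Sp, ∃ M0 : ℕ, ∀ M ≥ M0, ∃ f : Ply b K, x * d ^ M = φ f ∧
      ∀ a ∈ Alg Bm, apo f a = 0 := by
    intro x hx
    induction hx using Submodule.span_induction with
    | mem x hx =>
      obtain ⟨l, hl0, hl, rfl⟩ := hx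
      obtain ⟨l', hl1, hl2, hl3⟩ := h2 l hl
      refine ⟨l.length, fun M hM => ⟨l'.prod * dD b K E ^ (M - l.length), ?_, ?_⟩⟩
      · rw [map_mul, ← hl3, map_pow, ← hd, mul_assoc, ← pow_add, Nat.add_sub_cancel' hM]
      · exact apo_mul_alg hBd hBε hB1 (hU l' (hl2 hl0) hl1) (pow_mem (dD_mem hdet' E) _)
    | zero => exact ⟨0, fun M _ => ⟨0, by rw [zero_mul, map_zero], fun a _ => by
        rw [map_zero, LinearMap.zero_apply]⟩⟩
    | add x y _ _ h h' =>
      obtain ⟨M1, h1⟩ := h
      obtain ⟨M2, h2⟩ := h'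
      refine ⟨max M1 M2, fun M hM => ?_⟩
      obtain ⟨f, hf, hf'⟩ := h1 M (le_trans (le_max_left _ _) hM)
      obtain ⟨g, hg, hg'⟩ := h2 M (le_trans (le_max_right _ _) hM)
      refine ⟨f + g, by rw [add_mul, hf, hg, map_add], fun a ha => ?_⟩
      rw [map_add, LinearMap.add_apply, hf' a ha, hg' a ha, add_zero]
    | smul c x _ h =>
      obtain ⟨M1, h1⟩ := h
      refine ⟨M1, fun M hM => ?_⟩
      obtain ⟨f, hf, hf'⟩ := h1 M hM
      refine ⟨c • f, ?_, fun a ha => ?_⟩
      · rw [smul_mul_assoc, hf, hφ, Algebra.smul_def, Algebra.smul_def, map_mul,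
          ← IsScalarTower.algebraMap_apply]
      · rw [map_smul, LinearMap.smul_apply, hf' a ha, smul_zero]
  have h4 : (1 : F) ∉ Sp := by
    intro h
    obtain ⟨M, hM⟩ := h3 1 h
    obtain ⟨f, hf, hf'⟩ := hM M le_rfl
    rw [one_mul, hd, ← map_pow] at hf
    have h5 := hφi hf
    have h6 := hf' _ (pow_mem (dD_mem hdet E) M)
    rw [← h5, ← dD_map ℚ (algebraMap ℚ K), ← map_pow] at h6
    exact apo_self_ne (pow_ne_zero M (dD_ne E)) h6
  -- the ideal
  let I : Ideal A.toSubring := Ideal.span {t | (t : F) ∈ T}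
  have h5 : ∀ x ∈ I, (x : F) ∈ Sp := by
    intro x hx
    induction hx using Submodule.span_induction with
    | mem x hx => exact Submodule.subset_span ⟨[(x : F)], by simp, by simpa using hx, by simp⟩
    | zero => exact zero_mem _
    | add x y _ _ h h' => exact add_mem h h'
    | smul a x _ h => exact h1 _ a.2 _ h
  have h6 : I ≠ ⊤ := by
    intro h
    exact h4 (h5 1 (by rw [h]; trivial))
  obtain ⟨O, hO, hO'⟩ := Ideal.image_subset_nonunits_valuationSubring I h6
  refine ⟨O, fun c => hO (A.algebraMap_mem c), fun u hu => hO' ?_⟩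
  have h7 : φ u ^ D / d ∈ T := ⟨u, hu, rfl⟩
  exact ⟨⟨φ u ^ D / d, Algebra.subset_adjoin h7⟩, Ideal.subset_span h7, rfl⟩

end

end Pool.Agent.Y104.Kempf
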