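import Pool.Agent.Y104.Val

/-!
# A valuation at which the coordinates are small and the form is unimodular
-/

open MvPolynomial Finset Matrix

set_option linter.unusedSectionVars false

namespace Pool.Agent.Y104.Kempf

variable {ι : Type} [Fintype ι] [DecidableEq ι] {b : ι → Type} [∀ i, Fintype (b i)]
  [∀ i, DecidableEq (b i)] {K : Type*} [Field K] [CharZero K]

/-- **A valuation at which all the elements are small and the form `G Q Gᵀ` is unimodular.** -/
theorem exists_val2 {B Q : ∀ j, Matrix (b j) (b j) K} {ε : ι → K}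
    (hε : ∀ j, (B j)ᵀ = ε j • B j) (hQB : ∀ j, Q j * B j = 1) {U : Set (Ply b K)}
    (hU : ∀ l : List (Ply b K), l ≠ [] → (∀ u ∈ l, u ∈ U) →
      ∀ a ∈ Alg (Matrix.blockDiagonal' B), apo l.prod a = 0) :
    ∃ O : ValuationSubring (FractionRing (Ply b K)),
      (∀ c : K, algebraMap K (FractionRing (Ply b K)) c ∈ O) ∧
      (∀ a ∈ Alg (Matrix.blockDiagonal' Q),
        algebraMap (Ply b K) (FractionRing (Ply b K)) a ∈ O) ∧
      (∀ j, (algebraMap (Ply b K) (FractionRing (Ply b K)) (dg b K j ^ 2))⁻¹ ∈ O) ∧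
      ∀ u ∈ U, algebraMap (Ply b K) (FractionRing (Ply b K)) u ∈ O.nonunits := by
  classical
  set F := FractionRing (Ply b K) with hF
  set φ : Ply b K →+* F := algebraMap (Ply b K) F with hφ
  have hφi : Function.Injective φ := IsFractionRing.injective _ _
  have hdet : ∀ j, (B j).det ≠ 0 := fun j => by
    have := congrArg Matrix.det (hQB j)
    rw [det_mul, det_one] at this
    exact right_ne_zero_of_mul_eq_one this
  have hdet' : ∀ j, (Q j).det ≠ 0 := fun j => by
    have := congrArg Matrix.det (hQB j)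
    rw [det_mul, det_one] at this
    exact left_ne_zero_of_mul_eq_one this
  set Bm : Matrix (Σ j, b j) (Σ j, b j) K := Matrix.blockDiagonal' B with hBm
  set Bi : Matrix (Σ j, b j) (Σ j, b j) K := Matrix.blockDiagonal' Q with hBi
  have hB1 : Bi * Bm = 1 := by
    rw [hBi, hBm, ← Matrix.blockDiagonal'_mul]
    have : (fun k => Q k * B k) = fun k => (1 : Matrix (b k) (b k) K) := funext hQB
    rw [this]
    exact Matrix.blockDiagonal'_one
  have hBd : ∀ i k, Bm i k ≠ 0 → i.1 = k.1 := by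
    rintro ⟨i, p⟩ ⟨k, q⟩ h
    by_contra h1
    exact h (Matrix.blockDiagonal'_apply_ne _ _ _ h1)
  have hBε : ∀ i k, Bm k i = ε i.1 * Bm i k := by
    rintro ⟨i, p⟩ ⟨k, q⟩
    by_cases h : i = k
    · subst h
      rw [hBm, Matrix.blockDiagonal'_apply_eq, Matrix.blockDiagonal'_apply_eq]
      have := congrFun (congrFun (hε i) p) q
      simpa using this
    · rw [hBm, Matrix.blockDiagonal'_apply_ne _ _ _ h,
        Matrix.blockDiagonal'_apply_ne _ _ _ (Ne.symm h), mul_zero]
  let Dl : Ply b K := dD b K (fun _ => 1)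
  have hDl : ∀ j, ∃ a ∈ Alg Bi, Dl = dg b K j ^ 2 * a := by
    intro j
    refine ⟨∏ i ∈ univ.erase j, (dg b K i ^ 2) ^ 1, prod_mem fun i _ => pow_mem
      (dg_sq_mem hdet' i) _, ?_⟩
    change (∏ j, (dg b K j ^ 2) ^ 1) = _
    rw [← Finset.mul_prod_erase _ _ (mem_univ j), pow_one]
  set d : F := φ Dl with hd
  have hd0 : d ≠ 0 := fun h => dD_ne (fun _ => 1) (hφi (by rw [map_zero]; exact h))
  have hdg0 : ∀ j, φ (dg b K j ^ 2) ≠ 0 := fun j h =>
    pow_ne_zero 2 (dg_ne j) (hφi (by rw [h, map_zero]))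
  set T : Set F := (φ '' (Alg Bi : Set (Ply b K))) ∪
    (Set.range fun j => (φ (dg b K j ^ 2))⁻¹) ∪ (φ '' U) with hT
  set A : Subalgebra K F := Algebra.adjoin K T with hA
  set Sp : Submodule K F := Submodule.span K {x | ∃ l : List (Ply b K), l ≠ [] ∧
    (∀ u ∈ l, u ∈ U) ∧ ∃ h ∈ Alg Bi, ∃ m : ℕ, x * d ^ m = φ (l.prod * h)} with hSp
  -- stability
  have h1 : ∀ a ∈ A, ∀ x ∈ Sp, a * x ∈ Sp := by
    intro a ha
    induction ha using Algebra.adjoin_induction with
    | mem t ht =>
      intro x hx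
      induction hx using Submodule.span_induction with
      | mem x hx =>
        obtain ⟨l, hl0, hl, h, hh, m, hm⟩ := hx
        refine Submodule.subset_span ?_
        rcases ht with (⟨a, ha, rfl⟩ | ⟨j, rfl⟩) | ⟨u, hu, rfl⟩
        · refine ⟨l, hl0, hl, a * h, mul_mem ha hh, m, ?_⟩
          rw [mul_assoc, hm, ← map_mul]
          congr 1
          ring
        · obtain ⟨a, ha, hja⟩ := hDl j
          refine ⟨l, hl0, hl, a * h, mul_mem ha hh, m + 1, ?_⟩
          have h2 : (φ (dg b K j ^ 2))⁻¹ * d = φ a := by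
            rw [hd, hja, map_mul, ← mul_assoc, inv_mul_cancel₀ (hdg0 j), one_mul]
          calc (φ (dg b K j ^ 2))⁻¹ * x * d ^ (m + 1) =
              ((φ (dg b K j ^ 2))⁻¹ * d) * (x * d ^ m) := by ring
            _ = φ (l.prod * (a * h)) := by
              rw [h2, hm, ← map_mul]
              congr 1
              ring
        · refine ⟨u :: l, List.cons_ne_nil _ _, ?_, h, hh, m, ?_⟩
          · intro v hv
            rcases List.mem_cons.1 hv with rfl | hv
            · exact hu
            · exact hl v hv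
          · rw [mul_assoc, hm, ← map_mul, List.prod_cons]
            congr 1
            ring
      | zero => rw [mul_zero]; exact zero_mem _
      | add x y _ _ h h' => rw [mul_add]; exact add_mem h h'
      | smul c x _ h => rw [mul_smul_comm]; exact Submodule.smul_mem _ _ h
    | algebraMap c =>
      intro x hx
      rw [← Algebra.smul_def]
      exact Submodule.smul_mem _ _ hx
    | add a a' _ _ h h' => intro x hx; rw [add_mul]; exact add_mem (h x hx) (h' x hx)
    | mul a a' _ _ h h' => intro x hx; rw [mul_assoc]; exact h _ (h' x hx)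
  have h3 : ∀ x ∈ Sp, ∃ M0 : ℕ, ∀ M ≥ M0, ∃ f : Ply b K, x * d ^ M = φ f ∧
      ∀ a ∈ Alg Bm, apo f a = 0 := by
    intro x hx
    induction hx using Submodule.span_induction with
    | mem x hx =>
      obtain ⟨l, hl0, hl, h, hh, m, hm⟩ := hx
      refine ⟨m, fun M hM => ⟨l.prod * (h * Dl ^ (M - m)), ?_, ?_⟩⟩
      · rw [← mul_assoc, map_mul, ← hm, map_pow, ← hd, mul_assoc, ← pow_add,
          Nat.add_sub_cancel' hM]
      · exact apo_mul_alg hBd hBε hB1 (hU l hl0 hl) (mul_mem hh (pow_mem (dD_mem hdet' _) _))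
    | zero => exact ⟨0, fun M _ => ⟨0, by rw [zero_mul, map_zero], fun a _ => by
        rw [map_zero, LinearMap.zero_apply]⟩⟩
    | add x y _ _ h h' =>
      obtain ⟨M1, h1⟩ := h
      obtain ⟨M2, h2⟩ := h'
      refine ⟨max M1 M2, fun M hM => ?_⟩
      obtain ⟨f, hf, hf'⟩ := h1 M (le_trans (le_max_left _ _) hM)
      obtain ⟨g, hg, hg'⟩ := h2 M (le_trans (le_max_right _ _) hM)
      refine ⟨f + g, by rw [add_mul, hf, hg, map_add], fun a ha => ?_⟩
      rw [map_add, LinearMap.add_apply, hf' a ha, hg' a ha, add_zero]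
    | smul c x _ h =>
      obtain ⟨M1, h1⟩ := h
      refine ⟨M1, fun M hM => ?_⟩
      obtain ⟨f, hf, hf'⟩ := h1 M hM
      refine ⟨c • f, ?_, fun a ha => ?_⟩
      · rw [smul_mul_assoc, hf, hφ, Algebra.smul_def, Algebra.smul_def, map_mul,
          ← IsScalarTower.algebraMap_apply]
      · rw [map_smul, LinearMap.smul_apply, hf' a ha, smul_zero]
  have h4 : (1 : F) ∉ Sp := by
    intro h
    obtain ⟨M, hM⟩ := h3 1 h
    obtain ⟨f, hf, hf'⟩ := hM M le_rfl
    rw [one_mul, hd, ← map_pow] at hf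
    have h5 := hφi hf
    have h6 := hf' _ (pow_mem (dD_mem hdet (fun _ => 1)) M)
    rw [← h5] at h6
    change apo (dD b K (fun _ => 1) ^ M) _ = 0 at h6
    rw [← dD_map ℚ (algebraMap ℚ K), ← map_pow] at h6
    exact apo_self_ne (pow_ne_zero M (dD_ne _)) h6
  -- the ideal
  let I : Ideal A.toSubring := Ideal.span {t | (t : F) ∈ φ '' U}
  have h5 : ∀ x ∈ I, (x : F) ∈ Sp := by
    intro x hx
    induction hx using Submodule.span_induction with
    | mem x hx =>
      obtain ⟨u, hu, hux⟩ := hx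
      refine Submodule.subset_span ⟨[u], by simp, by simpa using hu, 1, one_mem _, 0, ?_⟩
      rw [← hux]
      simp
    | zero => exact zero_mem _
    | add x y _ _ h h' => exact add_mem h h'
    | smul a x _ h => exact h1 _ a.2 _ h
  have h6 : I ≠ ⊤ := by
    intro h
    exact h4 (h5 1 (by rw [h]; trivial))
  obtain ⟨O, hO, hO'⟩ := Ideal.image_subset_nonunits_valuationSubring I h6
  refine ⟨O, fun c => hO (A.algebraMap_mem c), fun a ha => hO (Algebra.subset_adjoin ?_),
    fun j => hO (Algebra.subset_adjoin ?_), fun u hu => hO' ?_⟩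
  · exact Or.inl (Or.inl ⟨a, ha, rfl⟩)
  · exact Or.inl (Or.inr ⟨j, rfl⟩)
  · have h7 : φ u ∈ φ '' U := ⟨u, hu, rfl⟩
    exact ⟨⟨φ u, Algebra.subset_adjoin (Or.inr h7)⟩, Ideal.subset_span h7, rfl⟩

end Pool.Agent.Y104.Kempf
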